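import Pool.Agent.Work.MP_c13439_pq.Boot

/-!
# Block BENT: entropy numbers between two interpolated norms (helper89)
-/

open MeasureTheory ProbabilityTheory Polynomial
open scoped RealInnerProductSpace

namespace Pool.PQ

namespace BENT

theorem arith {θ C e f g : ℝ} (hC : 0 < 2 * C) (he : 0 ≤ e)
    (hf : 0 ≤ f) (hg : 0 ≤ g) :
    2 * C * ((2 * C * (e ^ (1 - θ) * f ^ θ)) ^ (1 - θ) * (2 * C * g ^ (1 - θ)) ^ θ) =
      (2 * C) ^ 2 * (e ^ ((1 - θ) ^ 2) * (f * g) ^ (θ * (1 - θ))) := by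
  generalize 2 * C = c at hC
  have h1 : (c * (e ^ (1 - θ) * f ^ θ)) ^ (1 - θ) =
      c ^ (1 - θ) * (e ^ ((1 - θ) ^ 2) * f ^ (θ * (1 - θ))) := by
    rw [Real.mul_rpow hC.le (by positivity), Real.mul_rpow (by positivity) (by positivity),
      ← Real.rpow_mul he, ← Real.rpow_mul hf, sq]
  have h2 : (c * g ^ (1 - θ)) ^ θ = c ^ θ * g ^ (θ * (1 - θ)) := by
    rw [Real.mul_rpow hC.le (by positivity), ← Real.rpow_mul hg, mul_comm (1 - θ) θ]
  have h3 : c ^ (1 - θ) * c ^ θ = c := by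
    rw [← Real.rpow_add hC, sub_add_cancel, Real.rpow_one]
  rw [h1, h2, Real.mul_rpow hf hg]
  calc c * (c ^ (1 - θ) * (e ^ ((1 - θ) ^ 2) * f ^ (θ * (1 - θ))) * (c ^ θ * g ^ (θ * (1 - θ))))
      = c * (c ^ (1 - θ) * c ^ θ) *
        (e ^ ((1 - θ) ^ 2) * (f ^ (θ * (1 - θ)) * g ^ (θ * (1 - θ)))) := by ring
    _ = _ := by rw [h3]; ring

end BENT

open BENT in
/-- BENT -/
theorem stmt_BENT (h1 : Stmt_ENT) (h2 : Stmt_SRC) (h3 : Stmt_TGT) : Stmt_BENT := by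
  intro θ C hθ0 hθ1 hC N X Y H Z Z' hZ hZ' k
  have hC0 : 0 < 2 * C := by linarith
  have pos : ∀ (U V : DN N) (j : ℕ), 0 ≤ ent U.p V.p j := fun U V j => ((h1 N U V).2.2.1 j).1
  have hHH : ent H.p H.p k ≤ 1 := by
    have h0 : ent H.p H.p 0 ≤ 1 :=
      (h1 N H H).2.2.2.2 1 zero_le_one (fun x => by rw [one_mul])
    have hm : Antitone (ent H.p H.p) :=
      antitone_nat_of_succ_le (fun j => ((h1 N H H).2.2.1 j).2)
    exact (hm (Nat.zero_le k)).trans h0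
  have a1 := h2 θ C hθ0 hθ1 hC N X H Z Z' hZ (k + k) (k + k)
  have a2 := h3 θ C hθ0 hθ1 hC N Y H Z' X hZ' k k
  have a3 := h3 θ C hθ0 hθ1 hC N Y H Z' H hZ' k k
  have a4 : ent H.p Z'.p (k + k) ≤ 2 * C * ent H.p Y.p k ^ (1 - θ) := by
    refine a3.trans (mul_le_mul_of_nonneg_left ?_ hC0.le)
    have h4 : ent H.p H.p k ^ θ ≤ 1 := Real.rpow_le_one (pos _ _ _) hHH hθ0.le
    have h5 : 0 ≤ ent H.p Y.p k ^ (1 - θ) := Real.rpow_nonneg (pos _ _ _) _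
    exact mul_le_of_le_one_right h5 h4
  have e4 : 4 * k = (k + k) + (k + k) := by ring
  rw [e4]
  refine a1.trans ?_
  rw [← arith hC0 (pos X Y k) (pos X H k) (pos H Y k)]
  refine mul_le_mul_of_nonneg_left ?_ hC0.le
  have hx : 0 ≤ ent X.p Z'.p (k + k) := pos _ _ _
  have hy : 0 ≤ ent H.p Z'.p (k + k) := pos _ _ _
  exact mul_le_mul (Real.rpow_le_rpow hx a2 (by linarith)) (Real.rpow_le_rpow hy a4 hθ0.le)
    (Real.rpow_nonneg hy _) (Real.rpow_nonneg (hx.trans a2) _)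

end Pool.PQ
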