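import Pool.Agent.Work.MP_c13439_pq.Boot

/-! # MP_c13439_an, part (2), block BHALF (helper40): the two halves of the new factorization -/

open MeasureTheory ProbabilityTheory
open scoped RealInnerProductSpace

namespace Pool.PQ

namespace BHALF

variable {N : ℕ}

/-- The numerical part. -/
theorem comb (p : ℝ) (hp : 0 < p) (hp1 : p < 1) (A a F G : ℝ) (hA : 1 ≤ A) (ha : 0 ≤ a)
    (hF : 0 ≤ F) (hG : 0 ≤ G) (e f g : ℕ → ℝ) (he : ∀ k, e (k + 1) ≤ e k)
    (hg0 : ∀ m, 0 ≤ g m) (h : ∀ m, e (m + m) ≤ f m * g m)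
    (hf : ∀ m : ℕ, f m ≤ F * (a * (A / (m + 1)) ^ (1 / (1 + p))) ^ ((1 - p) / 2))
    (hg : ∀ m : ℕ, g m ≤ G / Real.sqrt (m + 1)) (k : ℕ) :
    e k ≤ 2 * F * G * (a ^ ((1 - p) / 2) / Real.sqrt A) * (A / (k + 1)) ^ (1 / (1 + p)) := by
  have hanti : Antitone e := antitone_nat_of_succ_le he
  have hA0 : 0 < A := lt_of_lt_of_le one_pos hA
  have hα0 : 0 ≤ 1 / (1 + p) := by positivity
  have hα1 : 1 / (1 + p) ≤ 1 := by
    rw [div_le_one (by positivity)]
    linarith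
  obtain ⟨m, hm⟩ : ∃ m, m = k / 2 := ⟨_, rfl⟩
  have h1 : e k ≤ e (m + m) := hanti (by omega)
  have hm0 : (0 : ℝ) < (m : ℝ) + 1 := by positivity
  have hk0 : (0 : ℝ) < (k : ℝ) + 1 := by positivity
  set x : ℝ := A / (m + 1) with hx
  have hx0 : 0 < x := by positivity
  have hθ0 : 0 ≤ (1 - p) / 2 := by linarith
  have h2 : f m * g m ≤ (F * (a * x ^ (1 / (1 + p))) ^ ((1 - p) / 2)) *
      (G / Real.sqrt (m + 1)) :=
    mul_le_mul (hf m) (hg m) (hg0 m) (by positivity)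
  have h3 : (a * x ^ (1 / (1 + p))) ^ ((1 - p) / 2) =
      a ^ ((1 - p) / 2) * x ^ (1 / (1 + p) * ((1 - p) / 2)) := by
    rw [Real.mul_rpow ha (Real.rpow_nonneg hx0.le _), ← Real.rpow_mul hx0.le]
  have h4 : 1 / Real.sqrt (m + 1) = x ^ (1 / 2 : ℝ) / Real.sqrt A := by
    rw [← Real.sqrt_eq_rpow, hx, Real.sqrt_div hA0.le]
    have : Real.sqrt A ≠ 0 := (Real.sqrt_pos.2 hA0).ne'
    field_simp
  have h5 : x ^ (1 / (1 + p) * ((1 - p) / 2)) * x ^ (1 / 2 : ℝ) = x ^ (1 / (1 + p)) := by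
    rw [← Real.rpow_add hx0]
    congr 1
    field_simp
    ring
  have h6 : x ^ (1 / (1 + p)) ≤ 2 * (A / (k + 1)) ^ (1 / (1 + p)) := by
    have hxk : x ≤ 2 * (A / (k + 1)) := by
      rw [hx, ← mul_div_assoc, div_le_div_iff₀ hm0 hk0]
      have : (k : ℝ) + 1 ≤ 2 * ((m : ℝ) + 1) := by
        have : k + 1 ≤ 2 * (m + 1) := by omega
        exact_mod_cast this
      nlinarith
    calc x ^ (1 / (1 + p)) ≤ (2 * (A / (k + 1))) ^ (1 / (1 + p)) :=
          Real.rpow_le_rpow hx0.le hxk hα0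
      _ = 2 ^ (1 / (1 + p)) * (A / (k + 1)) ^ (1 / (1 + p)) :=
          Real.mul_rpow (by norm_num) (by positivity)
      _ ≤ 2 ^ (1 : ℝ) * (A / (k + 1)) ^ (1 / (1 + p)) := by
          refine mul_le_mul_of_nonneg_right ?_ (by positivity)
          exact Real.rpow_le_rpow_of_exponent_le (by norm_num) hα1
      _ = 2 * (A / (k + 1)) ^ (1 / (1 + p)) := by rw [Real.rpow_one]
  calc e k ≤ f m * g m := h1.trans (h m)
    _ ≤ _ := h2
    _ = F * G * (a ^ ((1 - p) / 2) * x ^ (1 / (1 + p) * ((1 - p) / 2))) *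
          (1 / Real.sqrt (m + 1)) := by rw [h3]; ring
    _ = F * G * (a ^ ((1 - p) / 2) / Real.sqrt A) *
          (x ^ (1 / (1 + p) * ((1 - p) / 2)) * x ^ (1 / 2 : ℝ)) := by rw [h4]; ring
    _ = F * G * (a ^ ((1 - p) / 2) / Real.sqrt A) * x ^ (1 / (1 + p)) := by rw [h5]
    _ ≤ F * G * (a ^ ((1 - p) / 2) / Real.sqrt A) * (2 * (A / (k + 1)) ^ (1 / (1 + p))) :=
        mul_le_mul_of_nonneg_left h6 (by positivity)
    _ = _ := by ring

/-- The adjoint of the inverse, as an equivalence. -/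
theorem exists_adj (S : Eu N ≃L[ℝ] Eu N) : ∃ S' : Eu N ≃L[ℝ] Eu N,
    (S' : Eu N →L[ℝ] Eu N) = ContinuousLinearMap.adjoint (S.symm : Eu N →L[ℝ] Eu N) ∧
    (S'.symm : Eu N →L[ℝ] Eu N) = ContinuousLinearMap.adjoint (S : Eu N →L[ℝ] Eu N) := by
  have h1 : (ContinuousLinearMap.adjoint (S : Eu N →L[ℝ] Eu N)).comp
      (ContinuousLinearMap.adjoint (S.symm : Eu N →L[ℝ] Eu N)) = ContinuousLinearMap.id ℝ _ := by
    rw [← ContinuousLinearMap.adjoint_comp, ContinuousLinearEquiv.coe_symm_comp_coe]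
    exact ContinuousLinearMap.adjoint_id
  have h2 : (ContinuousLinearMap.adjoint (S.symm : Eu N →L[ℝ] Eu N)).comp
      (ContinuousLinearMap.adjoint (S : Eu N →L[ℝ] Eu N)) = ContinuousLinearMap.id ℝ _ := by
    rw [← ContinuousLinearMap.adjoint_comp, ContinuousLinearEquiv.coe_comp_coe_symm]
    exact ContinuousLinearMap.adjoint_id
  refine ⟨ContinuousLinearEquiv.equivOfInverse
    (ContinuousLinearMap.adjoint (S.symm : Eu N →L[ℝ] Eu N))
    (ContinuousLinearMap.adjoint (S : Eu N →L[ℝ] Eu N))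
    (fun x => DFunLike.congr_fun h1 x) (fun x => DFunLike.congr_fun h2 x), ?_, ?_⟩
  · ext x
    rfl
  · ext x
    rfl

end BHALF

theorem stmt_BHALF (h1 : Stmt_ENT) (h2 : Stmt_SUD) (h3 : Stmt_TGT) (h4 : Stmt_SRC)
    (h5 : Stmt_EUC) : Stmt_BHALF := by
  intro p hp hp1 C₀ hC₀
  obtain ⟨CS, hCS, hSUD⟩ := h2
  have hC0 : 0 ≤ C₀ := zero_le_one.trans hC₀
  have hCS0 : 0 ≤ CS := zero_le_one.trans hCS
  have hone : 1 ≤ 2 * (2 * C₀) * (CS * C₀) := by
    have e1 : (1 : ℝ) ≤ CS * C₀ := by nlinarith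
    nlinarith
  refine ⟨2 * (2 * C₀) * (CS * C₀), hone, ?_⟩
  intro N X Y H H₁ Z Z' A a b c S hA ha hb hc hgood hZ hZd hZ' hZd' hK hS hell hstar
  have hθ0 : 0 < (1 - p) / 2 := by linarith
  have hθ1 : (1 - p) / 2 < 1 := by linarith
  -- the dual of `H₁`
  obtain ⟨H₂, hH₂p, hH₂q⟩ := h5.1 N S
  have hHH : H₁ = H₂ := h5.2.2 N H₁ H₂ (by
    ext x
    rw [hS, hH₂p])
  have hH₁q : ∀ y, H₁.q y = ‖ContinuousLinearMap.adjoint (S.symm : Eu N →L[ℝ] Eu N) y‖ := by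
    rw [hHH]
    exact hH₂q
  obtain ⟨S', hS', hS'symm⟩ := BHALF.exists_adj S
  have hS'p : ∀ x, H₁.dual.p x = ‖S' x‖ := by
    intro x
    have : S' x = (S' : Eu N →L[ℝ] Eu N) x := rfl
    rw [DN.dual_p, hH₁q, this, hS']
  have hadj' : ContinuousLinearMap.adjoint (S' : Eu N →L[ℝ] Eu N) =
      (S.symm : Eu N →L[ℝ] Eu N) := by
    rw [hS', ContinuousLinearMap.adjoint_adjoint]
  have hKc : ell Z.q (ContinuousLinearMap.adjoint (S : Eu N →L[ℝ] Eu N)) ≤ C₀ * c :=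
    hK _ c hc hstar
  -- one norm against itself
  have hself : ∀ U : DN N, ent U.p U.p 0 ≤ 1 := fun U =>
    (h1 N U U).2.2.2.2 1 zero_le_one (fun x => by rw [one_mul])
  have hself0 : ∀ U : DN N, 0 ≤ ent U.p U.p 0 := fun U => ((h1 N U U).2.2.1 0).1
  have hpow : ∀ (U : DN N) (s t : ℝ), 0 ≤ s → s ≤ t →
      2 * C₀ * (ent U.p U.p 0 ^ (1 - (1 - p) / 2) * s ^ ((1 - p) / 2)) ≤
        2 * C₀ * t ^ ((1 - p) / 2) := by
    intro U s t hs hst
    refine mul_le_mul_of_nonneg_left ?_ (by positivity)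
    calc ent U.p U.p 0 ^ (1 - (1 - p) / 2) * s ^ ((1 - p) / 2)
        ≤ 1 * t ^ ((1 - p) / 2) := by
          refine mul_le_mul ?_ (Real.rpow_le_rpow hs hst hθ0.le) (Real.rpow_nonneg hs _)
            zero_le_one
          exact Real.rpow_le_one (hself0 U) (hself U) (by linarith)
      _ = _ := one_mul _
  have hfrac : ∀ (m : ℕ) (s t : ℝ), s ≤ t →
      CS * (s / Real.sqrt (m + 1)) ≤ CS * t / Real.sqrt (m + 1) := by
    intro m s t hst
    rw [mul_div_assoc]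
    refine mul_le_mul_of_nonneg_left ?_ hCS0
    exact div_le_div_of_nonneg_right hst (Real.sqrt_nonneg _)
  have hfin1 : ∀ (d k : ℝ), 2 * (2 * C₀) * (CS * (C₀ * c)) * (a ^ ((1 - p) / 2) / d) * k =
      2 * (2 * C₀) * (CS * C₀) * (a ^ ((1 - p) / 2) * c / d) * k := by
    intro d k
    ring
  have hfin2 : ∀ (k : ℝ), 0 ≤ k →
      2 * (2 * C₀) * (CS * 1) * (b ^ ((1 - p) / 2) / Real.sqrt A) * k ≤
      2 * (2 * C₀) * (CS * C₀) * (b ^ ((1 - p) / 2) / Real.sqrt A) * k := by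
    intro k hk
    refine mul_le_mul_of_nonneg_right ?_ hk
    refine mul_le_mul_of_nonneg_right ?_ (by positivity)
    refine mul_le_mul_of_nonneg_left ?_ (by positivity)
    exact mul_le_mul_of_nonneg_left hC₀ hCS0
  have hA0 : 0 < A := lt_of_lt_of_le one_pos hA
  intro k
  refine ⟨?_, ?_, ?_, ?_⟩
  · rw [← hfin1]
    refine BHALF.comb p hp hp1 A a (2 * C₀) (CS * (C₀ * c)) hA ha (by positivity)
      (by positivity) (fun k => ent X.p H₁.p k) (fun k => ent X.p Z.p k)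
      (fun k => ent Z.p H₁.p k) (fun k => ((h1 N X H₁).2.2.1 k).2)
      (fun k => ((h1 N Z H₁).2.2.1 k).1) (fun m => (h1 N X Z).2.2.2.1 H₁ m m) ?_ ?_ k
    · intro m
      have := h3 _ C₀ hθ0 hθ1 hC₀ N X H Z X hZ 0 m
      rw [zero_add] at this
      exact this.trans (hpow X _ _ ((h1 N X H).2.2.1 m).1 (hgood m).1)
    · intro m
      exact (hSUD N Z H₁ S hS m).2.trans (hfrac m _ _ hKc)
  · rw [← hfin1]
    refine BHALF.comb p hp hp1 A a (2 * C₀) (CS * (C₀ * c)) hA ha (by positivity)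
      (by positivity) (fun k => ent H₁.q X.q k) (fun k => ent Z.q X.q k)
      (fun k => ent H₁.q Z.q k) (fun k => ((h1 N H₁.dual X.dual).2.2.1 k).2)
      (fun k => ((h1 N H₁.dual Z.dual).2.2.1 k).1) (fun m => ?_) ?_ ?_ k
    · have := (h1 N H₁.dual Z.dual).2.2.2.1 X.dual m m
      simp only [DN.dual_p] at this
      rw [mul_comm]
      exact this
    · intro m
      have := h4 _ C₀ hθ0 hθ1 hC₀ N X.dual H.dual Z.dual X.dual hZd 0 m
      rw [zero_add] at this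
      exact this.trans (hpow X.dual _ _ ((h1 N H.dual X.dual).2.2.1 m).1 (hgood m).2.1)
    · intro m
      have := (hSUD N Z.dual H₁.dual S' hS'p m).1
      rw [hS'symm] at this
      exact this.trans (hfrac m _ _ hKc)
  · refine (?_ : _ ≤ _).trans (hfin2 _ (by positivity))
    refine BHALF.comb p hp hp1 A b (2 * C₀) (CS * 1) hA hb (by positivity)
      (by positivity) (fun k => ent H₁.p Y.p k) (fun k => ent Z'.p Y.p k)
      (fun k => ent H₁.p Z'.p k) (fun k => ((h1 N H₁ Y).2.2.1 k).2)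
      (fun k => ((h1 N H₁ Z').2.2.1 k).1) (fun m => ?_) ?_ ?_ k
    · rw [mul_comm]
      exact (h1 N H₁ Z').2.2.2.1 Y m m
    · intro m
      have := h4 _ C₀ hθ0 hθ1 hC₀ N Y H Z' Y hZ' 0 m
      rw [zero_add] at this
      exact this.trans (hpow Y _ _ ((h1 N H Y).2.2.1 m).1 (hgood m).2.2.1)
    · intro m
      exact (hSUD N Z' H₁ S hS m).1.trans (hfrac m _ _ hell)
  · refine (?_ : _ ≤ _).trans (hfin2 _ (by positivity))
    refine BHALF.comb p hp hp1 A b (2 * C₀) (CS * 1) hA hb (by positivity)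
      (by positivity) (fun k => ent Y.q H₁.q k) (fun k => ent Y.q Z'.q k)
      (fun k => ent Z'.q H₁.q k) (fun k => ((h1 N Y.dual H₁.dual).2.2.1 k).2)
      (fun k => ((h1 N Z'.dual H₁.dual).2.2.1 k).1)
      (fun m => (h1 N Y.dual Z'.dual).2.2.2.1 H₁.dual m m) ?_ ?_ k
    · intro m
      have := h3 _ C₀ hθ0 hθ1 hC₀ N Y.dual H.dual Z'.dual Y.dual hZd' 0 m
      rw [zero_add] at this
      exact this.trans (hpow Y.dual _ _ ((h1 N Y.dual H.dual).2.2.1 m).1 (hgood m).2.2.2)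
    · intro m
      have := (hSUD N Z'.dual H₁.dual S' hS'p m).2
      rw [hadj'] at this
      exact this.trans (hfrac m _ _ hell)

end Pool.PQ
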