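import Pool.Agent.Work.MP_c13439_pq.Boot

/-!
# MP_c13439_pq, block BID (helper97)

`e_n(T) ≤ 2 e_n(T^**)`.
-/

set_option autoImplicit false
set_option maxHeartbeats 4000000

namespace Pool.PQ

lemma BID.aux {E : Type*} [SeminormedAddCommGroup E] (a b c : E) (ε : ℝ) (h1 : ‖a - c‖ ≤ ε)
    (h2 : ‖b - c‖ ≤ ε) : ‖a - b‖ ≤ 2 * ε := by
  have h3 := norm_sub_le (a - c) (b - c)
  rw [sub_sub_sub_cancel_right] at h3
  linarith

open Classical in
theorem stmt_BID.{u, v, w} : Stmt_BID.{u, v, w} := by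
  intro 𝕜 _ X Y _ _ _ _ T n
  have hset : ∀ ε ∈ {ε : ℝ | 0 < ε ∧ ∃ w : Fin (2 ^ n) → ((Y →L[𝕜] 𝕜) →L[𝕜] 𝕜),
      (adj (adj T)) '' Metric.closedBall (0 : (X →L[𝕜] 𝕜) →L[𝕜] 𝕜) 1 ⊆
        ⋃ k, Metric.closedBall (w k) ε}, en T n ≤ 2 * ε := by
    rintro ε ⟨hε, w, hw⟩
    refine csInf_le ⟨0, fun a ha => ha.1.le⟩ ⟨by positivity, ?_⟩
    have hcov : ∀ x : X, ‖x‖ ≤ 1 → ∃ k,
        ‖NormedSpace.inclusionInDoubleDualLi 𝕜 (T x) - w k‖ ≤ ε := by
      intro x hx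
      have h1 : adj (adj T) (NormedSpace.inclusionInDoubleDualLi 𝕜 x) ∈
          (adj (adj T)) '' Metric.closedBall (0 : (X →L[𝕜] 𝕜) →L[𝕜] 𝕜) 1 := by
        refine Set.mem_image_of_mem _ ?_
        rw [mem_closedBall_zero_iff, LinearIsometry.norm_map]
        exact hx
      have h2 := hw h1
      rw [Set.mem_iUnion] at h2
      obtain ⟨k, hk⟩ := h2
      rw [mem_closedBall_iff_norm] at hk
      refine ⟨k, ?_⟩
      have h3 : adj (adj T) (NormedSpace.inclusionInDoubleDualLi 𝕜 x) =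
          NormedSpace.inclusionInDoubleDualLi 𝕜 (T x) := by
        ext φ
        rfl
      rw [← h3]
      exact hk
    -- centres in the image
    have hcen : ∀ k : Fin (2 ^ n), ∃ c : Y, ∀ x : X, ‖x‖ ≤ 1 →
        ‖NormedSpace.inclusionInDoubleDualLi 𝕜 (T x) - w k‖ ≤ ε → ‖T x - c‖ ≤ 2 * ε := by
      intro k
      by_cases hex : ∃ x : X, ‖x‖ ≤ 1 ∧
        ‖NormedSpace.inclusionInDoubleDualLi 𝕜 (T x) - w k‖ ≤ ε
      · obtain ⟨x₀, _, hx₀⟩ := hex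
        refine ⟨T x₀, fun x _ hx => ?_⟩
        rw [← (NormedSpace.inclusionInDoubleDualLi (E := Y) 𝕜).norm_map,
          LinearIsometry.map_sub]
        exact BID.aux _ _ _ _ hx hx₀
      · push Not at hex
        exact ⟨0, fun x hx hx' => absurd hx' (not_le.2 (hex x hx))⟩
    choose c hc using hcen
    refine ⟨c, ?_⟩
    rintro _ ⟨x, hx, rfl⟩
    rw [mem_closedBall_zero_iff] at hx
    obtain ⟨k, hk⟩ := hcov x hx
    rw [Set.mem_iUnion]
    exact ⟨k, by rw [mem_closedBall_iff_norm]; exact hc k x hx hk⟩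
  have hne : {ε : ℝ | 0 < ε ∧ ∃ w : Fin (2 ^ n) → ((Y →L[𝕜] 𝕜) →L[𝕜] 𝕜),
      (adj (adj T)) '' Metric.closedBall (0 : (X →L[𝕜] 𝕜) →L[𝕜] 𝕜) 1 ⊆
        ⋃ k, Metric.closedBall (w k) ε}.Nonempty := by
    refine ⟨‖adj (adj T)‖ + 1, by positivity, fun _ => 0, ?_⟩
    rintro _ ⟨x, hx, rfl⟩
    rw [mem_closedBall_zero_iff] at hx
    rw [Set.mem_iUnion]
    refine ⟨⟨0, by positivity⟩, ?_⟩
    rw [mem_closedBall_iff_norm, sub_zero]
    have h1 := (adj (adj T)).le_opNorm x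
    have h2 : ‖adj (adj T)‖ * ‖x‖ ≤ ‖adj (adj T)‖ * 1 :=
      mul_le_mul_of_nonneg_left hx (adj (adj T)).opNorm_nonneg
    linarith
  have h1 : en T n / 2 ≤ en (adj (adj T)) n := by
    refine le_csInf hne (fun ε hε => ?_)
    have := hset ε hε
    linarith
  linarith

end Pool.PQ
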