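import Pool.Agent.Work.MP_c13439_pq.Boot

/-!
# MP_c13439_an, block BLAM: the new Euclidean norm (helper64)
-/

open MeasureTheory ProbabilityTheory Polynomial
open scoped RealInnerProductSpace

namespace Pool.PQ

theorem blam_starLe_mono {N : ℕ} {p : Seminorm ℝ (Eu N)} {A : Eu N →L[ℝ] Eu N} {c d : ℝ}
    (h : StarLe p A c) (hcd : c ≤ d) : StarLe p A d := by
  intro V
  refine (h V).trans (mul_le_mul_of_nonneg_right hcd ?_)
  exact Real.sqrt_nonneg _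

theorem stmt_BLAM (h1 : Stmt_BENT) (h2 : Stmt_BSUM) (h3 : Stmt_LEML) (h4 : Stmt_ENT) :
    Stmt_BLAM := by
  intro p hp0 hp1 C₀ hC₀
  set θ : ℝ := (1 - p) / 2 with hθ
  set τ : ℝ := (1 + p) / 2 with hτ
  have hθ0 : 0 < θ := by rw [hθ]; linarith
  have hθ1 : θ < 1 := by rw [hθ]; linarith
  have hτθ : 1 - θ = τ := by rw [hθ, hτ]; ring
  have hτ0 : 0 < τ := by rw [hτ]; linarith
  set s : ℝ := τ ^ 2 / p with hs
  have hs0 : 0 < s := by rw [hs]; positivity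
  have hsθ : 1 < s + θ := by
    have : s + θ - 1 = (1 - p ^ 2) / (4 * p) := by
      rw [hs, hθ, hτ]
      field_simp
      ring
    have h5 : 0 < (1 - p ^ 2) / (4 * p) := by
      apply div_pos
      · nlinarith
      · linarith
    linarith
  obtain ⟨C₁, hC₁, hB⟩ := h2 θ s hθ0 hθ1 hsθ
  obtain ⟨C₂, hC₂, hL⟩ := h3
  refine ⟨max 1 (C₂ * C₀ * (C₁ * (4 * (2 * C₀) ^ 2))), le_max_left _ _, ?_⟩
  intro N X Y H Z Z' A a b hA ha hb hXY hGood hbZ hbZ' hK
  have hA0 : 0 < A := by linarith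
  obtain ⟨S, hS1, hS2⟩ := hL N Z Z' C₀ (by linarith) hK
  refine ⟨S, hS1, ?_⟩
  refine blam_starLe_mono hS2 ?_
  -- the entropy estimate
  have hent0 : ∀ (U V : DN N) (k : ℕ), 0 ≤ ent U.p V.p k := fun U V k => ((h4 N U V).2.2.1 k).1
  have hanti : ∀ i j : ℕ, i ≤ j → ent Z.p Z'.p j ≤ ent Z.p Z'.p i := by
    intro i j hij
    exact (antitone_nat_of_succ_le fun k => ((h4 N Z Z').2.2.1 k).2) hij
  set D : ℝ := (2 * C₀) ^ 2 * (a * b) ^ (θ * τ) with hD
  have hab : 0 ≤ a * b := mul_nonneg ha hb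
  have hD0 : 0 ≤ D := by rw [hD]; positivity
  have key : ∀ k : ℕ, ent Z.p Z'.p (4 * k) ≤ D * (A / (k + 1)) ^ θ ∧
      ent Z.p Z'.p (4 * k) ≤ D * (A / (k + 1)) ^ (s + θ) := by
    intro k
    have hu : 0 < A / ((k : ℝ) + 1) := by positivity
    have hE := h1 θ C₀ hθ0 hθ1 hC₀ N X Y H Z Z' hbZ hbZ' k
    rw [hτθ] at hE
    obtain ⟨g1, -, g3, -⟩ := hGood k
    have hprod : (ent X.p H.p k * ent H.p Y.p k) ^ (θ * τ) ≤
        (a * b) ^ (θ * τ) * (A / ((k : ℝ) + 1)) ^ θ := by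
      have e1 : ent X.p H.p k * ent H.p Y.p k ≤
          (a * b) * (A / ((k : ℝ) + 1)) ^ (2 * (1 / (1 + p))) := by
        have e2 : (A / ((k : ℝ) + 1)) ^ (2 * (1 / (1 + p))) =
            (A / ((k : ℝ) + 1)) ^ (1 / (1 + p)) * (A / ((k : ℝ) + 1)) ^ (1 / (1 + p)) := by
          rw [← Real.rpow_add hu]
          congr 1
          ring
        rw [e2]
        calc ent X.p H.p k * ent H.p Y.p k
            ≤ (a * (A / ((k : ℝ) + 1)) ^ (1 / (1 + p))) *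
              (b * (A / ((k : ℝ) + 1)) ^ (1 / (1 + p))) :=
              mul_le_mul g1 g3 (hent0 H Y k) (by positivity)
          _ = _ := by ring
      calc (ent X.p H.p k * ent H.p Y.p k) ^ (θ * τ)
          ≤ ((a * b) * (A / ((k : ℝ) + 1)) ^ (2 * (1 / (1 + p)))) ^ (θ * τ) :=
            Real.rpow_le_rpow (mul_nonneg (hent0 X H k) (hent0 H Y k)) e1 (by positivity)
        _ = (a * b) ^ (θ * τ) * (A / ((k : ℝ) + 1)) ^ θ := by
            rw [Real.mul_rpow hab (by positivity), ← Real.rpow_mul hu.le]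
            congr 2
            rw [hτ]
            field_simp
    have hx0 := hent0 X Y k
    have hpr0 : 0 ≤ (ent X.p H.p k * ent H.p Y.p k) ^ (θ * τ) :=
      Real.rpow_nonneg (mul_nonneg (hent0 X H k) (hent0 H Y k)) _
    have hx1 : ent X.p Y.p k ^ (τ ^ 2) ≤ 1 :=
      Real.rpow_le_one hx0 (hXY k).1 (by positivity)
    have hx2 : ent X.p Y.p k ^ (τ ^ 2) ≤ (A / ((k : ℝ) + 1)) ^ s := by
      calc ent X.p Y.p k ^ (τ ^ 2) ≤ ((A / ((k : ℝ) + 1)) ^ (1 / p)) ^ (τ ^ 2) :=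
            Real.rpow_le_rpow hx0 (hXY k).2 (by positivity)
        _ = (A / ((k : ℝ) + 1)) ^ s := by
            rw [← Real.rpow_mul hu.le]
            congr 1
            rw [hs]
            ring
    have hxn : 0 ≤ ent X.p Y.p k ^ (τ ^ 2) := Real.rpow_nonneg hx0 _
    constructor
    · calc ent Z.p Z'.p (4 * k)
          ≤ (2 * C₀) ^ 2 * (ent X.p Y.p k ^ (τ ^ 2) *
              (ent X.p H.p k * ent H.p Y.p k) ^ (θ * τ)) := hE
        _ ≤ (2 * C₀) ^ 2 * (1 * ((a * b) ^ (θ * τ) * (A / ((k : ℝ) + 1)) ^ θ)) := by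
            apply mul_le_mul_of_nonneg_left _ (by positivity)
            exact mul_le_mul hx1 hprod hpr0 zero_le_one
        _ = D * (A / ((k : ℝ) + 1)) ^ θ := by rw [hD]; ring
    · calc ent Z.p Z'.p (4 * k)
          ≤ (2 * C₀) ^ 2 * (ent X.p Y.p k ^ (τ ^ 2) *
              (ent X.p H.p k * ent H.p Y.p k) ^ (θ * τ)) := hE
        _ ≤ (2 * C₀) ^ 2 * ((A / ((k : ℝ) + 1)) ^ s *
              ((a * b) ^ (θ * τ) * (A / ((k : ℝ) + 1)) ^ θ)) := by
            apply mul_le_mul_of_nonneg_left _ (by positivity)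
            exact mul_le_mul hx2 hprod hpr0 (by positivity)
        _ = D * (A / ((k : ℝ) + 1)) ^ (s + θ) := by
            rw [hD, Real.rpow_add hu]; ring
  have hyp : ∀ k : ℕ, 1 ≤ k → 0 ≤ ent Z.p Z'.p k ∧
      ent Z.p Z'.p k ≤ D * ((4 * A) / (k : ℝ)) ^ θ ∧
      ent Z.p Z'.p k ≤ D * ((4 * A) / (k : ℝ)) ^ (s + θ) := by
    intro k hk
    have hk0 : (0 : ℝ) < k := by exact_mod_cast hk
    have hle : 4 * (k / 4) ≤ k := Nat.mul_div_le k 4
    have hlt : k < 4 * (k / 4) + 4 := by omega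
    have hltR : (k : ℝ) ≤ 4 * (((k / 4 : ℕ) : ℝ) + 1) := by
      have : (k : ℝ) < ((4 * (k / 4) + 4 : ℕ) : ℝ) := by exact_mod_cast hlt
      push_cast at this ⊢
      linarith
    have hq0 : (0 : ℝ) < ((k / 4 : ℕ) : ℝ) + 1 := by positivity
    have hbase : A / (((k / 4 : ℕ) : ℝ) + 1) ≤ (4 * A) / (k : ℝ) := by
      rw [div_le_div_iff₀ hq0 hk0]
      nlinarith
    have hb0 : 0 ≤ A / (((k / 4 : ℕ) : ℝ) + 1) := by positivity
    refine ⟨hent0 Z Z' k, ?_, ?_⟩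
    · exact ((hanti _ _ hle).trans (key (k / 4)).1).trans
        (mul_le_mul_of_nonneg_left (Real.rpow_le_rpow hb0 hbase hθ0.le) hD0)
    · exact ((hanti _ _ hle).trans (key (k / 4)).2).trans
        (mul_le_mul_of_nonneg_left (Real.rpow_le_rpow hb0 hbase (by linarith)) hD0)
  have hsum := hB (4 * A) D (fun k => ent Z.p Z'.p k) N (by linarith) hD0 hyp
  have hab' : 0 ≤ A * (a * b) ^ (θ * τ) := by positivity
  calc C₂ * C₀ * (∑ k ∈ Finset.Icc 1 N, Real.sqrt (ent Z.p Z'.p k / k)) ^ 2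
      ≤ C₂ * C₀ * (C₁ * (4 * A * D)) := by
        apply mul_le_mul_of_nonneg_left hsum
        have : 0 ≤ C₂ := by linarith
        positivity
    _ = (C₂ * C₀ * (C₁ * (4 * (2 * C₀) ^ 2))) * (A * (a * b) ^ (θ * τ)) := by
        rw [hD]; ring
    _ ≤ max 1 (C₂ * C₀ * (C₁ * (4 * (2 * C₀) ^ 2))) * (A * (a * b) ^ (θ * τ)) :=
        mul_le_mul_of_nonneg_right (le_max_right _ _) hab'

end Pool.PQ
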