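import Pool.Agent.Work.MP_c13439_pq.Boot

/-!
# MP_c13439_an: block BOOT (helper53): bootstrap over all Euclidean norms
-/

set_option autoImplicit false

open scoped RealInnerProductSpace

namespace Pool.PQ

namespace BOOT

variable {N : ℕ}

/-- the products of constants -/
def MM (α A : ℝ) (X Y : DN N) : Set ℝ :=
  {m | ∃ (H : DN N) (a b : ℝ), H.IsEuclid ∧ 0 ≤ a ∧ 0 ≤ b ∧ Good α A a b X Y H ∧ m = a * b}

/-- from `ENTD` to one inequality of `Good` -/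
lemma one (hD : Stmt_ENTD) (U V : DN N) (α A : ℝ) (hα : 0 ≤ α) (hA : 1 ≤ A) :
    ∃ C : ℝ, 0 ≤ C ∧ ∀ a : ℝ, C ≤ a → ∀ k : ℕ, ent U.p V.p k ≤ a * (A / (k + 1)) ^ α := by
  obtain ⟨C, hC⟩ := hD N U V α
  refine ⟨max C 0, le_max_right _ _, ?_⟩
  intro a ha k
  have hk : (0 : ℝ) < (k : ℝ) + 1 := by positivity
  have hkα : (0 : ℝ) < ((k : ℝ) + 1) ^ α := Real.rpow_pos_of_pos hk α
  have h1 : ent U.p V.p k ≤ C / ((k : ℝ) + 1) ^ α := by
    rw [le_div_iff₀ hkα, mul_comm]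
    exact hC k
  have hAα : 1 ≤ A ^ α := Real.one_le_rpow hA hα
  have ha0 : 0 ≤ a := (le_max_right C 0).trans ha
  have hCa : C ≤ a := (le_max_left C 0).trans ha
  rw [Real.div_rpow (by linarith) hk.le]
  calc ent U.p V.p k ≤ C / ((k : ℝ) + 1) ^ α := h1
    _ ≤ (a * A ^ α) / ((k : ℝ) + 1) ^ α := by
      apply div_le_div_of_nonneg_right _ hkα.le
      nlinarith
    _ = a * (A ^ α / ((k : ℝ) + 1) ^ α) := by ring

lemma nonempty (hD : Stmt_ENTD) (hE : Stmt_EUC) (X Y : DN N) (α A : ℝ) (hα : 0 ≤ α)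
    (hA : 1 ≤ A) : (MM α A X Y).Nonempty := by
  obtain ⟨H, hH, -⟩ := hE.1 N (ContinuousLinearEquiv.refl ℝ (Eu N))
  have hHE : H.IsEuclid := ⟨_, hH⟩
  obtain ⟨C1, h1, g1⟩ := one hD X H α A hα hA
  obtain ⟨C2, h2, g2⟩ := one hD H.dual X.dual α A hα hA
  obtain ⟨C3, h3, g3⟩ := one hD H Y α A hα hA
  obtain ⟨C4, h4, g4⟩ := one hD Y.dual H.dual α A hα hA
  refine ⟨(C1 + C2) * (C3 + C4), H, C1 + C2, C3 + C4, hHE, by linarith, by linarith, ?_, rfl⟩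
  intro k
  exact ⟨g1 _ (by linarith) k, g2 _ (by linarith) k, g3 _ (by linarith) k, g4 _ (by linarith) k⟩

/-- some product is small -/
lemma small (α A C δ : ℝ) (X Y : DN N) (hC : 1 ≤ C) (hδ : 0 < δ) (hδ1 : δ ≤ 1)
    (hne : (MM α A X Y).Nonempty)
    (hstep : ∀ m ∈ MM α A X Y, ∃ m' ∈ MM α A X Y, m' ≤ C * m ^ (1 - δ)) :
    ∃ m ∈ MM α A X Y, m ≤ 2 * (2 * C) ^ (1 / δ) + 1 := by
  have hpos : ∀ m ∈ MM α A X Y, 0 ≤ m := by
    rintro m ⟨H, a, b, -, ha, hb, -, rfl⟩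
    exact mul_nonneg ha hb
  have hbdd : BddBelow (MM α A X Y) := ⟨0, fun m hm => hpos m hm⟩
  have hc0 : 0 ≤ sInf (MM α A X Y) := le_csInf hne hpos
  have hP : (0 : ℝ) ≤ (2 * C) ^ (1 / δ) := Real.rpow_nonneg (by linarith) _
  rcases hc0.lt_or_eq with hc | hc
  · set c := sInf (MM α A X Y) with hcdef
    obtain ⟨m, hm, hm2⟩ := exists_lt_of_csInf_lt hne (show sInf (MM α A X Y) < 2 * c by
      rw [← hcdef]; linarith)
    refine ⟨m, hm, ?_⟩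
    obtain ⟨m', hm', h1⟩ := hstep m hm
    have hcm : c ≤ m' := csInf_le hbdd hm'
    have h2 : c ≤ C * (2 * c) ^ (1 - δ) := by
      refine hcm.trans (h1.trans ?_)
      apply mul_le_mul_of_nonneg_left _ (by linarith)
      exact Real.rpow_le_rpow (hpos m hm) hm2.le (by linarith)
    have h3 : c ^ δ ≤ 2 * C := by
      have e1 : (2 * c) ^ (1 - δ) = (2 : ℝ) ^ (1 - δ) * c ^ (1 - δ) :=
        Real.mul_rpow (by norm_num) hc.le
      have e2 : c ^ (1 - δ) * c ^ δ = c := by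
        rw [← Real.rpow_add hc, sub_add_cancel, Real.rpow_one]
      have hp1 : 0 < c ^ (1 - δ) := Real.rpow_pos_of_pos hc _
      have e3 : (2 : ℝ) ^ (1 - δ) ≤ 2 := by
        calc (2 : ℝ) ^ (1 - δ) ≤ (2 : ℝ) ^ (1 : ℝ) :=
              Real.rpow_le_rpow_of_exponent_le (by norm_num) (by linarith)
          _ = 2 := Real.rpow_one 2
      have h4 : c ^ (1 - δ) * c ^ δ ≤ c ^ (1 - δ) * (2 * C) := by
        rw [e2]
        calc c ≤ C * (2 * c) ^ (1 - δ) := h2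
          _ = (2 : ℝ) ^ (1 - δ) * (c ^ (1 - δ) * C) := by rw [e1]; ring
          _ ≤ 2 * (c ^ (1 - δ) * C) := by
            apply mul_le_mul_of_nonneg_right e3
            exact mul_nonneg hp1.le (by linarith)
          _ = c ^ (1 - δ) * (2 * C) := by ring
      exact le_of_mul_le_mul_left h4 hp1
    have h5 : c ≤ (2 * C) ^ (1 / δ) := by
      calc c = (c ^ δ) ^ (1 / δ) := by
            rw [← Real.rpow_mul hc.le, mul_one_div_cancel hδ.ne', Real.rpow_one]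
        _ ≤ (2 * C) ^ (1 / δ) :=
            Real.rpow_le_rpow (Real.rpow_nonneg hc.le _) h3 (by positivity)
    linarith
  · obtain ⟨m, hm, hm2⟩ := exists_lt_of_csInf_lt hne (show sInf (MM α A X Y) < 1 by
      rw [← hc]; exact one_pos)
    exact ⟨m, hm, by linarith⟩

/-- the conclusion for all indices from the even ones -/
lemma final (hE : Stmt_ENT) (X Y H : DN N) (α A a b : ℝ) (hα : 0 ≤ α) (hα1 : α ≤ 1)
    (hA : 1 ≤ A) (ha : 0 ≤ a) (hb : 0 ≤ b) (hG : Good α A a b X Y H) (k : ℕ) :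
    ent Y.q X.q k ≤ 4 * (a * b) * (A / (k + 1)) ^ (2 * α) := by
  have hanti : ∀ i j : ℕ, i ≤ j → ent Y.q X.q j ≤ ent Y.q X.q i := by
    intro i j hij
    induction hij with
    | refl => exact le_rfl
    | step _ ih => exact (((hE N Y.dual X.dual).2.2.1 _).2).trans ih
  set j := k / 2 with hj
  have hj2 : j + j ≤ k := by omega
  have hjk : k + 1 ≤ 2 * (j + 1) := by omega
  have hk0 : (0 : ℝ) < (k : ℝ) + 1 := by positivity
  have hj0 : (0 : ℝ) < (j : ℝ) + 1 := by positivity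
  have hA0 : 0 < A := by linarith
  have h1 : ent Y.q X.q (j + j) ≤ ent Y.q H.q j * ent H.q X.q j :=
    (hE N Y.dual H.dual).2.2.2.1 X.dual j j
  obtain ⟨-, g2, -, g4⟩ := hG j
  have hp : 0 ≤ (A / ((j : ℝ) + 1)) ^ α := Real.rpow_nonneg (by positivity) _
  have n1 : 0 ≤ ent H.q X.q j := ((hE N H.dual X.dual).2.2.1 j).1
  have h2 : ent Y.q H.q j * ent H.q X.q j ≤
      (b * (A / ((j : ℝ) + 1)) ^ α) * (a * (A / ((j : ℝ) + 1)) ^ α) :=
    mul_le_mul g4 g2 n1 (mul_nonneg hb hp)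
  have h3 : (A / ((j : ℝ) + 1)) ^ α ≤ (2 : ℝ) ^ α * (A / ((k : ℝ) + 1)) ^ α := by
    rw [← Real.mul_rpow (by norm_num) (by positivity)]
    apply Real.rpow_le_rpow (by positivity) _ hα
    rw [div_le_iff₀ hj0]
    have hjk' : ((k : ℝ) + 1) ≤ 2 * ((j : ℝ) + 1) := by exact_mod_cast hjk
    calc A = A * (((k : ℝ) + 1) / ((k : ℝ) + 1)) := by rw [div_self hk0.ne', mul_one]
      _ ≤ A * ((2 * ((j : ℝ) + 1)) / ((k : ℝ) + 1)) := by gcongr
      _ = 2 * (A / ((k : ℝ) + 1)) * ((j : ℝ) + 1) := by ring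
  have h4 : (2 : ℝ) ^ α ≤ 2 := by
    calc (2 : ℝ) ^ α ≤ (2 : ℝ) ^ (1 : ℝ) := Real.rpow_le_rpow_of_exponent_le (by norm_num) hα1
      _ = 2 := Real.rpow_one 2
  have hq : 0 ≤ (A / ((k : ℝ) + 1)) ^ α := Real.rpow_nonneg (by positivity) _
  have h5 : (A / ((j : ℝ) + 1)) ^ α ≤ 2 * (A / ((k : ℝ) + 1)) ^ α :=
    h3.trans (mul_le_mul_of_nonneg_right h4 hq)
  have h6 : (A / ((k : ℝ) + 1)) ^ (2 * α) =
      (A / ((k : ℝ) + 1)) ^ α * (A / ((k : ℝ) + 1)) ^ α := by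
    rw [← Real.rpow_add (by positivity)]
    congr 1
    ring
  calc ent Y.q X.q k ≤ ent Y.q X.q (j + j) := hanti _ _ hj2
    _ ≤ (b * (A / ((j : ℝ) + 1)) ^ α) * (a * (A / ((j : ℝ) + 1)) ^ α) := h1.trans h2
    _ = (a * b) * ((A / ((j : ℝ) + 1)) ^ α * (A / ((j : ℝ) + 1)) ^ α) := by ring
    _ ≤ (a * b) * ((2 * (A / ((k : ℝ) + 1)) ^ α) * (2 * (A / ((k : ℝ) + 1)) ^ α)) := by
      apply mul_le_mul_of_nonneg_left _ (mul_nonneg ha hb)
      exact mul_le_mul h5 h5 hp (by positivity)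
    _ = 4 * (a * b) * (A / ((k : ℝ) + 1)) ^ (2 * α) := by rw [h6]; ring

end BOOT

theorem stmt_BOOT (h1 : Stmt_BSTEP) (h2 : Stmt_ENTD) (h3 : Stmt_EUC) (h4 : Stmt_ENT) :
    Stmt_BOOT := by
  intro p hp hp1
  obtain ⟨C, hC, hstep⟩ := h1 p hp hp1
  set δ : ℝ := ((1 + p) / 2) ^ 2 with hδdef
  have hδ : 0 < δ := by positivity
  have hδ1 : δ ≤ 1 := by
    rw [hδdef]
    have : (1 + p) / 2 ≤ 1 := by linarith
    have h0 : 0 ≤ (1 + p) / 2 := by linarith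
    nlinarith
  have hP : (0 : ℝ) ≤ (2 * C) ^ (1 / δ) := Real.rpow_nonneg (by linarith) _
  refine ⟨4 * (2 * (2 * C) ^ (1 / δ) + 1), by linarith, ?_⟩
  intro N X Y A hA hXY k
  have hα : 0 ≤ 1 / (1 + p) := by positivity
  have hα1 : 1 / (1 + p) ≤ 1 := by
    rw [div_le_one (by linarith)]; linarith
  have hne := BOOT.nonempty h2 h3 X Y (1 / (1 + p)) A hα hA
  obtain ⟨m, ⟨H, a, b, hH, ha, hb, hG, rfl⟩, hm⟩ :=
    BOOT.small (1 / (1 + p)) A C δ X Y hC hδ hδ1 hne (by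
      rintro m ⟨H, a, b, hH, ha, hb, hG, rfl⟩
      obtain ⟨H₁, a₁, b₁, e1, e2, e3, e4, e5⟩ := hstep N X Y H A a b hA ha hb hH hXY hG
      exact ⟨a₁ * b₁, ⟨H₁, a₁, b₁, e1, e2, e3, e4, rfl⟩, e5⟩)
  have h5 := BOOT.final h4 X Y H (1 / (1 + p)) A a b hα hα1 hA ha hb hG k
  have e : 2 * (1 / (1 + p)) = 2 / (1 + p) := by ring
  rw [e] at h5
  refine h5.trans ?_
  apply mul_le_mul_of_nonneg_right _ (Real.rpow_nonneg (by positivity) _)
  linarith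

end Pool.PQ
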