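import Pool.Agent.Work.MP_c13439_pq.Boot

/-! # Block BSTEP: one step of the bootstrap -/

set_option autoImplicit false

namespace Pool.PQ

/-- Block BSTEP. -/
theorem stmt_BSTEP (h1 : Stmt_INTERP) (h2 : Stmt_BLAM) (h3 : Stmt_BHALF) (h4 : Stmt_EUC) :
    Stmt_BSTEP := by
  intro p hp0 hp1
  have hθ0 : 0 < (1 - p) / 2 := by linarith
  have hθ1 : (1 - p) / 2 < 1 := by linarith
  obtain ⟨C₀, hC₀, hI⟩ := h1 ((1 - p) / 2) hθ0 hθ1
  obtain ⟨C₁, hC₁, hL⟩ := h2 p hp0 hp1 C₀ hC₀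
  obtain ⟨C₂, hC₂, hH⟩ := h3 p hp0 hp1 C₀ hC₀
  refine ⟨C₂ * C₂ * C₁, ?_, ?_⟩
  · have e1 : 1 ≤ C₂ * C₂ := by nlinarith
    nlinarith
  · intro N X Y H A a b hA ha hb hEu hent hG
    obtain ⟨Z, hZ1, hZ2, hZK⟩ := hI N X H hEu
    obtain ⟨Z', hZ'1, hZ'2, hZ'K⟩ := hI N Y H hEu
    obtain ⟨S, hS1, hS2⟩ := hL N X Y H Z Z' A a b hA ha hb hent hG hZ1 hZ'1 hZ'K
    obtain ⟨H₁, hH₁, _⟩ := h4.1 N S
    have hab : 0 ≤ a * b := mul_nonneg ha hb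
    have hA0 : 0 < A := by linarith
    set c : ℝ := C₁ * (A * (a * b) ^ ((1 - p) / 2 * ((1 + p) / 2))) with hc
    have hc0 : 0 ≤ c := by positivity
    have hG1 := hH N X Y H H₁ Z Z' A a b c S hA ha hb hc0 hG hZ1 hZ2 hZ'1 hZ'2 hZK hH₁ hS1 hS2
    refine ⟨H₁, _, _, ⟨S, hH₁⟩, ?_, ?_, hG1, ?_⟩
    · positivity
    · positivity
    · have hsA : Real.sqrt A * Real.sqrt A = A := Real.mul_self_sqrt hA0.le
      have hs0 : 0 < Real.sqrt A := Real.sqrt_pos.2 hA0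
      have e1 : (1 : ℝ) - ((1 + p) / 2) ^ 2 = (1 - p) / 2 + (1 - p) / 2 * ((1 + p) / 2) := by ring
      rw [e1, Real.rpow_add_of_nonneg hab hθ0.le (by positivity), Real.mul_rpow ha hb]
      have e2 : C₂ * (a ^ ((1 - p) / 2) * c / Real.sqrt A) *
          (C₂ * (b ^ ((1 - p) / 2) / Real.sqrt A)) =
          C₂ * C₂ * (a ^ ((1 - p) / 2) * b ^ ((1 - p) / 2)) * (c / (Real.sqrt A * Real.sqrt A)) := by
        field_simp
      rw [e2, hsA, hc]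
      have e3 : C₁ * (A * (a * b) ^ ((1 - p) / 2 * ((1 + p) / 2))) / A =
          C₁ * (a * b) ^ ((1 - p) / 2 * ((1 + p) / 2)) := by
        field_simp
      rw [e3]
      exact le_of_eq (by ring)

end Pool.PQ
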