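import Pool.Agent.Work.MP_c13439_pq.Boot

/-! # MP_c13439_an, block BSUM (helper76) -/

namespace Pool.PQ

namespace BSUM

theorem step1 {u : ℝ} (hu0 : 0 < u) (hu1 : u < 1) (n : ℕ) :
    ((n + 1 : ℕ) : ℝ) ^ (-u) ≤ (((n + 1 : ℕ) : ℝ) ^ (1 - u) - (n : ℝ) ^ (1 - u)) / (1 - u) := by
  have h1u : 0 < 1 - u := by linarith
  rw [le_div_iff₀ h1u]
  set k : ℝ := ((n + 1 : ℕ) : ℝ) with hk
  have hk0 : 0 < k := by rw [hk]; positivity
  have hn : (n : ℝ) = k * (1 + (-(1 / k))) := by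
    rw [hk]; push_cast; field_simp; ring
  have hs : -1 ≤ -(1 / k) := by
    have : 1 / k ≤ 1 := by
      rw [div_le_one hk0, hk]; push_cast
      have : (0 : ℝ) ≤ n := Nat.cast_nonneg n
      linarith
    linarith
  have hb : (1 + (-(1 / k))) ^ (1 - u) ≤ 1 + (1 - u) * (-(1 / k)) :=
    rpow_one_add_le_one_add_mul_self hs h1u.le (by linarith)
  have h0 : 0 ≤ 1 + (-(1 / k)) := by linarith
  rw [hn, Real.mul_rpow hk0.le h0]
  have hk1 : k ^ (1 - u) = k * k ^ (-u) := by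
    rw [sub_eq_add_neg, Real.rpow_add hk0, Real.rpow_one]
  have hp : 0 < k ^ (1 - u) := Real.rpow_pos_of_pos hk0 _
  have h3 : k ^ (1 - u) * (1 + (-(1 / k))) ^ (1 - u) ≤ k ^ (1 - u) * (1 + (1 - u) * (-(1 / k))) :=
    mul_le_mul_of_nonneg_left hb hp.le
  have h4 : k ^ (1 - u) * ((1 - u) * (1 / k)) = k ^ (-u) * (1 - u) := by
    rw [hk1]; field_simp
  nlinarith

theorem sum1 {u : ℝ} (hu0 : 0 < u) (hu1 : u < 1) (n : ℕ) :
    ∑ k ∈ Finset.Icc 1 n, ((k : ℕ) : ℝ) ^ (-u) ≤ (n : ℝ) ^ (1 - u) / (1 - u) := by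
  have h1u : 0 < 1 - u := by linarith
  induction n with
  | zero =>
    simp only [Finset.Icc_eq_empty_of_lt Nat.zero_lt_one, Finset.sum_empty, Nat.cast_zero]
    positivity
  | succ n ih =>
    rw [Finset.sum_Icc_succ_top (by omega)]
    have := step1 hu0 hu1 n
    have h2 : (n : ℝ) ^ (1 - u) / (1 - u) +
        (((n + 1 : ℕ) : ℝ) ^ (1 - u) - (n : ℝ) ^ (1 - u)) / (1 - u) =
        ((n + 1 : ℕ) : ℝ) ^ (1 - u) / (1 - u) := by ring
    linarith

theorem step2 {v : ℝ} (hv : 1 < v) {n : ℕ} (hn : 1 ≤ n) :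
    ((n + 1 : ℕ) : ℝ) ^ (-v) ≤ ((n : ℝ) ^ (1 - v) - ((n + 1 : ℕ) : ℝ) ^ (1 - v)) / (v - 1) := by
  have h1v : 0 < v - 1 := by linarith
  rw [le_div_iff₀ h1v]
  set k : ℝ := ((n + 1 : ℕ) : ℝ) with hk
  have hn0 : (1 : ℝ) ≤ n := by exact_mod_cast hn
  have hk0 : 0 < k := by rw [hk]; positivity
  have hnk : (n : ℝ) = k * (1 - 1 / k) := by
    rw [hk]; push_cast; field_simp; ring
  have hpos : 0 < 1 - 1 / k := by
    have h2 : 0 < k * (1 - 1 / k) := by rw [← hnk]; linarith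
    exact (mul_pos_iff_of_pos_left hk0).1 h2
  have hlog : Real.log (1 - 1 / k) ≤ -(1 / k) := by
    have := Real.log_le_sub_one_of_pos hpos
    linarith
  have hexp : 1 + (v - 1) * (1 / k) ≤ (1 - 1 / k) ^ (1 - v) := by
    rw [Real.rpow_def_of_pos hpos]
    have h1 : (v - 1) * (1 / k) ≤ Real.log (1 - 1 / k) * (1 - v) := by nlinarith
    have h2 := Real.add_one_le_exp (Real.log (1 - 1 / k) * (1 - v))
    linarith
  rw [hnk, Real.mul_rpow hk0.le hpos.le]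
  have hk1 : k ^ (1 - v) = k * k ^ (-v) := by
    rw [sub_eq_add_neg, Real.rpow_add hk0, Real.rpow_one]
  have hp : 0 < k ^ (1 - v) := Real.rpow_pos_of_pos hk0 _
  have h3 : k ^ (1 - v) * (1 + (v - 1) * (1 / k)) ≤ k ^ (1 - v) * (1 - 1 / k) ^ (1 - v) :=
    mul_le_mul_of_nonneg_left hexp hp.le
  have h4 : k ^ (1 - v) * ((v - 1) * (1 / k)) = k ^ (-v) * (v - 1) := by
    rw [hk1]; field_simp
  nlinarith

theorem sum2 {v : ℝ} (hv : 1 < v) {n0 : ℕ} (hn0 : 1 ≤ n0) {n : ℕ} (hn : n0 ≤ n) :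
    ∑ k ∈ Finset.Ioc n0 n, ((k : ℕ) : ℝ) ^ (-v) ≤
      ((n0 : ℝ) ^ (1 - v) - (n : ℝ) ^ (1 - v)) / (v - 1) := by
  induction n, hn using Nat.le_induction with
  | base => simp
  | succ n hn ih =>
    rw [Finset.sum_Ioc_succ_top hn]
    have h1 := step2 hv (hn0.trans hn)
    have h2 : ((n0 : ℝ) ^ (1 - v) - (n : ℝ) ^ (1 - v)) / (v - 1) +
        ((n : ℝ) ^ (1 - v) - ((n + 1 : ℕ) : ℝ) ^ (1 - v)) / (v - 1) =
        ((n0 : ℝ) ^ (1 - v) - ((n + 1 : ℕ) : ℝ) ^ (1 - v)) / (v - 1) := by ring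
    linarith

theorem term_le {A D w x : ℝ} (hA : 1 ≤ A) (hD : 0 ≤ D) {k : ℕ} (hk : 1 ≤ k)
    (hx : x ≤ D * (A / k) ^ w) :
    Real.sqrt (x / k) ≤ Real.sqrt D * A ^ (w / 2) * (k : ℝ) ^ (-((1 + w) / 2)) := by
  have hk0 : (0 : ℝ) < k := by exact_mod_cast hk
  have hA0 : 0 < A := by linarith
  have hy : 0 ≤ Real.sqrt D * A ^ (w / 2) * (k : ℝ) ^ (-((1 + w) / 2)) := by positivity
  rw [Real.sqrt_le_left hy]
  have e1 : (Real.sqrt D * A ^ (w / 2) * (k : ℝ) ^ (-((1 + w) / 2))) ^ 2 =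
      D * A ^ w * (k : ℝ) ^ (-(1 + w)) := by
    rw [mul_pow, mul_pow, Real.sq_sqrt hD, ← Real.rpow_natCast, ← Real.rpow_mul hA0.le,
      ← Real.rpow_natCast ((k : ℝ) ^ _) 2, ← Real.rpow_mul hk0.le]
    congr 2
    · congr 1; push_cast; ring
    · push_cast; ring
  rw [e1]
  have e2 : D * (A / k) ^ w / k = D * A ^ w * (k : ℝ) ^ (-(1 + w)) := by
    rw [Real.div_rpow hA0.le hk0.le, neg_add, Real.rpow_add hk0, Real.rpow_neg hk0.le w,
      Real.rpow_neg_one]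
    field_simp
  rw [← e2]
  exact div_le_div_of_nonneg_right hx hk0.le

end BSUM

open BSUM in
theorem stmt_BSUM : Stmt_BSUM := by
  intro θ s hθ0 hθ1 hs
  set u : ℝ := (1 + θ) / 2 with hu
  set v : ℝ := (1 + (s + θ)) / 2 with hv
  have hu0 : 0 < u := by rw [hu]; linarith
  have hu1 : u < 1 := by rw [hu]; linarith
  have hv1 : 1 < v := by rw [hv]; linarith
  set c : ℝ := 1 / (1 - u) + 2 ^ (v - 1) / (v - 1) with hc
  have h1u : 0 < 1 - u := by linarith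
  have h1v : 0 < v - 1 := by linarith
  have hc0 : 0 ≤ c := by
    have : (0 : ℝ) < 2 ^ (v - 1) := Real.rpow_pos_of_pos (by norm_num) _
    positivity
  refine ⟨c ^ 2, by positivity, ?_⟩
  intro A D e N hA hD he
  have hA0 : 0 < A := by linarith
  set n0 : ℕ := ⌊A⌋₊ with hn0
  have hn01 : 1 ≤ n0 := (Nat.one_le_floor_iff A).2 hA
  have hn0A : (n0 : ℝ) ≤ A := Nat.floor_le hA0.le
  have hAn0 : A / 2 ≤ n0 := by
    have h1 : A < n0 + 1 := Nat.lt_floor_add_one A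
    have h2 : (1 : ℝ) ≤ n0 := by exact_mod_cast hn01
    linarith
  have hf0 : ∀ k, 0 ≤ Real.sqrt (e k / k) := fun k => Real.sqrt_nonneg _
  -- first part
  have hp1 : ∑ k ∈ Finset.Icc 1 n0, Real.sqrt (e k / k) ≤
      Real.sqrt D * (Real.sqrt A * (1 / (1 - u))) := by
    calc ∑ k ∈ Finset.Icc 1 n0, Real.sqrt (e k / k)
        ≤ ∑ k ∈ Finset.Icc 1 n0, Real.sqrt D * A ^ (θ / 2) * (k : ℝ) ^ (-u) := by
          apply Finset.sum_le_sum
          intro k hk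
          have hk1 : 1 ≤ k := (Finset.mem_Icc.1 hk).1
          exact term_le hA hD hk1 (he k hk1).2.1
      _ = Real.sqrt D * A ^ (θ / 2) * ∑ k ∈ Finset.Icc 1 n0, ((k : ℕ) : ℝ) ^ (-u) := by
          rw [Finset.mul_sum]
      _ ≤ Real.sqrt D * A ^ (θ / 2) * ((n0 : ℝ) ^ (1 - u) / (1 - u)) :=
          mul_le_mul_of_nonneg_left (sum1 hu0 hu1 n0) (by positivity)
      _ ≤ Real.sqrt D * A ^ (θ / 2) * (A ^ (1 - u) / (1 - u)) := by
          apply mul_le_mul_of_nonneg_left _ (by positivity)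
          apply div_le_div_of_nonneg_right _ h1u.le
          exact Real.rpow_le_rpow (Nat.cast_nonneg _) hn0A h1u.le
      _ = Real.sqrt D * (Real.sqrt A * (1 / (1 - u))) := by
          have : A ^ (θ / 2) * A ^ (1 - u) = Real.sqrt A := by
            rw [← Real.rpow_add hA0, Real.sqrt_eq_rpow]
            congr 1
            rw [hu]; ring
          rw [← this]; ring
  -- second part
  set n1 : ℕ := max n0 N with hn1
  have hn01' : n0 ≤ n1 := le_max_left _ _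
  have hp2 : ∑ k ∈ Finset.Ioc n0 n1, Real.sqrt (e k / k) ≤
      Real.sqrt D * (Real.sqrt A * (2 ^ (v - 1) / (v - 1))) := by
    calc ∑ k ∈ Finset.Ioc n0 n1, Real.sqrt (e k / k)
        ≤ ∑ k ∈ Finset.Ioc n0 n1, Real.sqrt D * A ^ ((s + θ) / 2) * (k : ℝ) ^ (-v) := by
          apply Finset.sum_le_sum
          intro k hk
          have hk1 : 1 ≤ k := hn01.trans (Finset.mem_Ioc.1 hk).1.le
          exact term_le hA hD hk1 (he k hk1).2.2
      _ = Real.sqrt D * A ^ ((s + θ) / 2) * ∑ k ∈ Finset.Ioc n0 n1, ((k : ℕ) : ℝ) ^ (-v) := by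
          rw [Finset.mul_sum]
      _ ≤ Real.sqrt D * A ^ ((s + θ) / 2) * ((A / 2) ^ (1 - v) / (v - 1)) := by
          apply mul_le_mul_of_nonneg_left _ (by positivity)
          refine (sum2 hv1 hn01 hn01').trans ?_
          apply div_le_div_of_nonneg_right _ h1v.le
          have h1 : (0 : ℝ) ≤ (n1 : ℝ) ^ (1 - v) := by positivity
          have h2 : (n0 : ℝ) ^ (1 - v) ≤ (A / 2) ^ (1 - v) :=
            Real.rpow_le_rpow_of_nonpos (by positivity) hAn0 (by linarith)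
          linarith
      _ = Real.sqrt D * (Real.sqrt A * (2 ^ (v - 1) / (v - 1))) := by
          have e1 : (A / 2) ^ (1 - v) = A ^ (1 - v) * 2 ^ (v - 1) := by
            rw [Real.div_rpow hA0.le (by norm_num), div_eq_mul_inv,
              ← Real.rpow_neg (by norm_num : (0 : ℝ) ≤ 2)]
            congr 2
            ring
          have : A ^ ((s + θ) / 2) * A ^ (1 - v) = Real.sqrt A := by
            rw [← Real.rpow_add hA0, Real.sqrt_eq_rpow]
            congr 1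
            rw [hv]; ring
          rw [e1, ← this]; ring
  have hsub : Finset.Icc 1 N ⊆ Finset.Icc 1 n0 ∪ Finset.Ioc n0 n1 := by
    intro k hk
    rw [Finset.mem_Icc] at hk
    rw [Finset.mem_union, Finset.mem_Icc, Finset.mem_Ioc]
    have : N ≤ n1 := le_max_right _ _
    omega
  have htot : ∑ k ∈ Finset.Icc 1 N, Real.sqrt (e k / k) ≤ Real.sqrt D * (Real.sqrt A * c) := by
    calc ∑ k ∈ Finset.Icc 1 N, Real.sqrt (e k / k)
        ≤ ∑ k ∈ Finset.Icc 1 n0 ∪ Finset.Ioc n0 n1, Real.sqrt (e k / k) :=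
          Finset.sum_le_sum_of_subset_of_nonneg hsub (fun k _ _ => hf0 k)
      _ ≤ ∑ k ∈ Finset.Icc 1 n0, Real.sqrt (e k / k) +
          ∑ k ∈ Finset.Ioc n0 n1, Real.sqrt (e k / k) := by
          rw [← Finset.sum_union_inter]
          exact le_add_of_nonneg_right (Finset.sum_nonneg (fun k _ => hf0 k))
      _ ≤ Real.sqrt D * (Real.sqrt A * c) := by
          rw [hc]
          have : Real.sqrt D * (Real.sqrt A * (1 / (1 - u) + 2 ^ (v - 1) / (v - 1))) =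
            Real.sqrt D * (Real.sqrt A * (1 / (1 - u))) +
              Real.sqrt D * (Real.sqrt A * (2 ^ (v - 1) / (v - 1))) := by ring
          rw [this]
          exact add_le_add hp1 hp2
  calc (∑ k ∈ Finset.Icc 1 N, Real.sqrt (e k / k)) ^ 2
      ≤ (Real.sqrt D * (Real.sqrt A * c)) ^ 2 :=
        pow_le_pow_left₀ (Finset.sum_nonneg (fun k _ => hf0 k)) htot 2
    _ = c ^ 2 * (A * D) := by
        rw [mul_pow, mul_pow, Real.sq_sqrt hD, Real.sq_sqrt hA0.le]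
        ring

end Pool.PQ
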