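import Pool.Agent.Work.MP_c13439_pq.Interp

/-!
# Block COEF: values of `V_n` at the points `2^(-k)`
-/

open Polynomial

namespace Pool.PQ.COEF

lemma eval_zero' (x : ℝ) : (vpoly 0).eval x = 2 * (1 - x) := by
  simp [vpoly]

lemma eval_succ' (n : ℕ) (x : ℝ) : (vpoly (n + 1)).eval x
    = (vpoly n).eval x * ((1 / 2 - (1 / 2 : ℝ) ^ (n + 2))⁻¹ * (x - (1 / 2 : ℝ) ^ (n + 2))) := by
  rw [vpoly, eval_mul, eval_mul, eval_C, eval_sub, eval_X, eval_C]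

lemma pow_le_quarter (n : ℕ) : (1 / 2 : ℝ) ^ (n + 2) ≤ 1 / 4 := by
  rw [pow_add]
  have h : (1 / 2 : ℝ) ^ n ≤ 1 := pow_le_one₀ (by norm_num) (by norm_num)
  nlinarith

lemma den_ge (n : ℕ) : (1 / 4 : ℝ) ≤ 1 / 2 - (1 / 2 : ℝ) ^ (n + 2) := by
  have := pow_le_quarter n
  linarith

lemma den_pos (n : ℕ) : (0 : ℝ) < 1 / 2 - (1 / 2 : ℝ) ^ (n + 2) :=
  lt_of_lt_of_le (by norm_num) (den_ge n)

lemma inv_le (n : ℕ) : (1 / 2 - (1 / 2 : ℝ) ^ (n + 2))⁻¹ ≤ 4 := by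
  rw [inv_le_comm₀ (den_pos n) (by norm_num)]
  have := den_ge n
  linarith

lemma inv_nonneg' (n : ℕ) : 0 ≤ (1 / 2 - (1 / 2 : ℝ) ^ (n + 2))⁻¹ :=
  inv_nonneg.mpr (den_pos n).le

lemma half (n : ℕ) : (vpoly n).eval (1 / 2) = 1 := by
  induction n with
  | zero => rw [eval_zero']; norm_num
  | succ n ih =>
    rw [eval_succ', ih, one_mul, inv_mul_cancel₀ (den_pos n).ne']

lemma vanish (n k : ℕ) (hk : k ≤ n + 1) (h1 : k ≠ 1) :
    (vpoly n).eval ((1 / 2 : ℝ) ^ k) = 0 := by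
  induction n with
  | zero =>
    have : k = 0 := by omega
    subst this
    rw [eval_zero']
    norm_num
  | succ n ih =>
    rw [eval_succ']
    by_cases h : k ≤ n + 1
    · rw [ih h, zero_mul]
    · have : k = n + 2 := by omega
      subst this
      rw [sub_self, mul_zero, mul_zero]

lemma tri (n : ℕ) : (n + 1 + 1) * (n + 1 + 2) / 2 = (n + 1) * (n + 2) / 2 + (n + 2) := by
  have : (n + 1 + 1) * (n + 1 + 2) = (n + 1) * (n + 2) + (n + 2) * 2 := by ring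
  rw [this, Nat.add_mul_div_right _ _ (by norm_num)]

lemma bound (n k : ℕ) (h1 : k ≠ 1) :
    |(vpoly n).eval ((1 / 2 : ℝ) ^ k)| ≤ 2 ^ (2 * n + 2) * (1 / 2 : ℝ) ^ ((n + 1) * (n + 2) / 2) := by
  induction n with
  | zero =>
    rw [eval_zero']
    have h0 : (0 : ℝ) ≤ (1 / 2 : ℝ) ^ k := by positivity
    have h2 : (1 / 2 : ℝ) ^ k ≤ 1 := pow_le_one₀ (by norm_num) (by norm_num)
    rw [abs_of_nonneg (by linarith)]
    norm_num
  | succ n ih =>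
    by_cases h : k ≤ n + 1
    · rw [vanish (n + 1) k (by omega) h1, abs_zero]
      positivity
    · rw [eval_succ', abs_mul, tri, pow_add (1 / 2 : ℝ) _ (n + 2)]
      have hk : (1 / 2 : ℝ) ^ k ≤ (1 / 2 : ℝ) ^ (n + 2) :=
        pow_le_pow_of_le_one (by norm_num) (by norm_num) (by omega)
      have h0 : (0 : ℝ) ≤ (1 / 2 : ℝ) ^ k := by positivity
      have hf : |(1 / 2 - (1 / 2 : ℝ) ^ (n + 2))⁻¹ * ((1 / 2 : ℝ) ^ k - (1 / 2 : ℝ) ^ (n + 2))|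
          ≤ 4 * (1 / 2 : ℝ) ^ (n + 2) := by
        rw [abs_mul, abs_of_nonneg (inv_nonneg' n), abs_of_nonpos (by linarith)]
        refine mul_le_mul (inv_le n) (by linarith) (by linarith) (by norm_num)
      calc |(vpoly n).eval ((1 / 2 : ℝ) ^ k)|
            * |(1 / 2 - (1 / 2 : ℝ) ^ (n + 2))⁻¹ * ((1 / 2 : ℝ) ^ k - (1 / 2 : ℝ) ^ (n + 2))|
          ≤ (2 ^ (2 * n + 2) * (1 / 2 : ℝ) ^ ((n + 1) * (n + 2) / 2))
            * (4 * (1 / 2 : ℝ) ^ (n + 2)) :=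
            mul_le_mul ih hf (abs_nonneg _) (by positivity)
        _ = 2 ^ (2 * (n + 1) + 2) * ((1 / 2 : ℝ) ^ ((n + 1) * (n + 2) / 2) * (1 / 2 : ℝ) ^ (n + 2)) := by
            rw [show 2 * (n + 1) + 2 = (2 * n + 2) + 2 by ring, pow_add (2 : ℝ) (2 * n + 2) 2]
            ring

end Pool.PQ.COEF

namespace Pool.PQ

open COEF

theorem stmt_COEF : Stmt_COEF := by
  refine ⟨half, vanish, fun n k h1 => ?_, fun n k => ?_⟩
  · refine (bound n k h1).trans ?_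
    refine mul_le_mul_of_nonneg_right ?_ (by positivity)
    exact pow_le_pow_right₀ (by norm_num) (by omega)
  · have e : (vpoly (n + 1) - vpoly n).eval ((1 / 2 : ℝ) ^ k)
        = (vpoly n).eval ((1 / 2 : ℝ) ^ k)
          * ((1 / 2 - (1 / 2 : ℝ) ^ (n + 2))⁻¹ * ((1 / 2 : ℝ) ^ k - 1 / 2)) := by
      rw [eval_sub, eval_succ']
      have h := den_pos n
      have h' : (1 / 2 - (1 / 2 : ℝ) ^ (n + 2))⁻¹ * (1 / 2 - (1 / 2 : ℝ) ^ (n + 2)) = 1 :=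
        inv_mul_cancel₀ h.ne'
      linear_combination (vpoly n).eval ((1 / 2 : ℝ) ^ k) * h'
    rw [e]
    by_cases h1 : k = 1
    · subst h1
      rw [pow_one, sub_self, mul_zero, mul_zero, abs_zero]
      positivity
    rw [abs_mul]
    have hf : |(1 / 2 - (1 / 2 : ℝ) ^ (n + 2))⁻¹ * ((1 / 2 : ℝ) ^ k - 1 / 2)| ≤ 4 * (1 / 2) := by
      rw [abs_mul, abs_of_nonneg (inv_nonneg' n)]
      refine mul_le_mul (inv_le n) ?_ (abs_nonneg _) (by norm_num)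
      have h0 : (0 : ℝ) ≤ (1 / 2 : ℝ) ^ k := by positivity
      have h2 : (1 / 2 : ℝ) ^ k ≤ 1 := pow_le_one₀ (by norm_num) (by norm_num)
      rw [abs_le]
      constructor <;> linarith
    calc |(vpoly n).eval ((1 / 2 : ℝ) ^ k)|
          * |(1 / 2 - (1 / 2 : ℝ) ^ (n + 2))⁻¹ * ((1 / 2 : ℝ) ^ k - 1 / 2)|
        ≤ (2 ^ (2 * n + 2) * (1 / 2 : ℝ) ^ ((n + 1) * (n + 2) / 2)) * (4 * (1 / 2)) :=
          mul_le_mul (bound n k h1) hf (abs_nonneg _) (by positivity)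
      _ = 2 ^ (2 * n + 3) * (1 / 2 : ℝ) ^ ((n + 1) * (n + 2) / 2) := by
          rw [pow_succ (2 : ℝ) (2 * n + 2)]
          ring

end Pool.PQ
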