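import Pool.Agent.Work.MP_c13439_pq.Boot

/-!
# Block CPX: real and complex adjoints have the same entropy numbers
-/

namespace Pool.PQ

namespace CPX

theorem cov_iff {X Y : Type*} [NormedAddCommGroup X] [NormedAddCommGroup Y] (T : X → Y) (n : ℕ)
    (w : Fin (2 ^ n) → Y) (ε : ℝ) :
    (T '' Metric.closedBall (0 : X) 1 ⊆ ⋃ k, Metric.closedBall (w k) ε) ↔
      ∀ x, ‖x‖ ≤ 1 → ∃ i, ‖T x - w i‖ ≤ ε := by
  constructor
  · intro h x hx
    have h1 : T x ∈ T '' Metric.closedBall (0 : X) 1 :=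
      ⟨x, by rw [Metric.mem_closedBall, dist_zero_right]; exact hx, rfl⟩
    obtain ⟨i, hi⟩ := Set.mem_iUnion.1 (h h1)
    rw [Metric.mem_closedBall, dist_eq_norm] at hi
    exact ⟨i, hi⟩
  · rintro h y ⟨x, hx, rfl⟩
    rw [Metric.mem_closedBall, dist_zero_right] at hx
    obtain ⟨i, hi⟩ := h x hx
    refine Set.mem_iUnion.2 ⟨i, ?_⟩
    rw [Metric.mem_closedBall, dist_eq_norm]
    exact hi

/-- two maps which correspond to each other under norm preserving bijections -/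
theorem en_congr {A B A' B' : Type*} [NormedAddCommGroup A] [NormedAddCommGroup B]
    [NormedAddCommGroup A'] [NormedAddCommGroup B'] (S : A → B) (S' : A' → B')
    (φ : A' → A) (ψ : B' → B) (hφ : ∀ a, ‖φ a‖ = ‖a‖) (hφs : Function.Surjective φ)
    (hψ : ∀ b c, ‖ψ b - ψ c‖ = ‖b - c‖) (hψs : Function.Surjective ψ)
    (h : ∀ a, S (φ a) = ψ (S' a)) (n : ℕ) : en S n = en S' n := by
  unfold en
  congr 1
  ext ε
  simp only [Set.mem_ofPred_eq, cov_iff]
  constructor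
  · rintro ⟨h0, w, hw⟩
    refine ⟨h0, fun i => Classical.choose (hψs (w i)), fun x hx => ?_⟩
    obtain ⟨i, hi⟩ := hw (φ x) (by rw [hφ]; exact hx)
    refine ⟨i, ?_⟩
    rw [← hψ, Classical.choose_spec (hψs (w i)), ← h]
    exact hi
  · rintro ⟨h0, w, hw⟩
    refine ⟨h0, fun i => ψ (w i), fun x hx => ?_⟩
    obtain ⟨a, rfl⟩ := hφs x
    rw [hφ] at hx
    obtain ⟨i, hi⟩ := hw a hx
    refine ⟨i, ?_⟩
    rw [h, hψ]
    exact hi

end CPX

open CPX in
/-- CPX -/
theorem stmt_CPX.{u, v, w} : Stmt_CPX.{u, v, w} := by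
  intro 𝕜 _ X Y _ _ _ _ T n
  letI := NormedSpace.restrictScalars ℝ 𝕜 X
  letI := NormedSpace.restrictScalars ℝ 𝕜 Y
  refine en_congr (adj T) (adj (T.restrictScalars ℝ))
    (StrongDual.extendRCLikeₗᵢ (𝕜 := 𝕜) (F := Y)) (StrongDual.extendRCLikeₗᵢ (𝕜 := 𝕜) (F := X))
    (fun a => LinearIsometryEquiv.norm_map _ a) (LinearIsometryEquiv.surjective _)
    (fun b c => ?_) (LinearIsometryEquiv.surjective _) (fun a => ?_) n
  · rw [← map_sub]
    exact LinearIsometryEquiv.norm_map _ _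
  · ext x
    show (StrongDual.extendRCLike a : StrongDual 𝕜 Y) (T x) =
      (StrongDual.extendRCLike (adj (T.restrictScalars ℝ) a) : StrongDual 𝕜 X) x
    rw [StrongDual.extendRCLike_apply, StrongDual.extendRCLike_apply]
    have h1 : T ((RCLike.I : 𝕜) • x) = (RCLike.I : 𝕜) • T x := map_smul T _ _
    rw [← h1]
    rfl

end Pool.PQ
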