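import Pool.Agent.Work.MP_c13439_pq.Interp
import Pool.Agent.Work.MP_c13439_pq_helper57.Gauss

/-!
# Block DBET: duality for `Between`
-/

open MeasureTheory ProbabilityTheory
open scoped RealInnerProductSpace Pointwise

namespace Pool.PQ

namespace DBET

variable {N : ℕ}

theorem cont (P : Seminorm ℝ (Eu N)) : Continuous P :=
  Pool.Agent.Work.MP_c13439_pq_h57.semi_cont P

theorem convex_lt (P : Seminorm ℝ (Eu N)) (a : ℝ) : Convex ℝ {u : Eu N | P u < a} := by
  have h := P.convex_ball (0 : Eu N) a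
  have h1 : P.ball 0 a = {u : Eu N | P u < a} := by
    ext u
    rw [Seminorm.mem_ball, sub_zero]
    rfl
  rwa [h1] at h

theorem geo {θ : ℝ} (h0 : 0 < θ) (h1 : θ < 1) {t X H : ℝ} (ht : 0 < t) (hX : 0 ≤ X) (hH : 0 ≤ H) :
    X ^ (1 - θ) * H ^ θ ≤ t ^ θ * X + t ^ (θ - 1) * H := by
  have ht1 : 0 < t ^ θ := Real.rpow_pos_of_pos ht _
  have ht2 : 0 < t ^ (θ - 1) := Real.rpow_pos_of_pos ht _
  have hA : 0 ≤ t ^ θ * X := mul_nonneg ht1.le hX
  have hB : 0 ≤ t ^ (θ - 1) * H := mul_nonneg ht2.le hH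
  have h2 := Real.geom_mean_le_arith_mean2_weighted (w₁ := 1 - θ) (w₂ := θ) (by linarith) h0.le
    hA hB (by ring)
  have h3 : (t ^ θ * X) ^ (1 - θ) * (t ^ (θ - 1) * H) ^ θ = X ^ (1 - θ) * H ^ θ := by
    rw [Real.mul_rpow ht1.le hX, Real.mul_rpow ht2.le hH, ← Real.rpow_mul ht.le,
      ← Real.rpow_mul ht.le]
    have h4 : t ^ (θ * (1 - θ)) * t ^ ((θ - 1) * θ) = 1 := by
      rw [← Real.rpow_add ht]
      have : θ * (1 - θ) + (θ - 1) * θ = 0 := by ring
      rw [this, Real.rpow_zero]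
    calc t ^ (θ * (1 - θ)) * X ^ (1 - θ) * (t ^ ((θ - 1) * θ) * H ^ θ)
        = (t ^ (θ * (1 - θ)) * t ^ ((θ - 1) * θ)) * (X ^ (1 - θ) * H ^ θ) := by ring
      _ = X ^ (1 - θ) * H ^ θ := by rw [h4, one_mul]
  rw [h3] at h2
  nlinarith [mul_nonneg h0.le hA, mul_nonneg (by linarith : 0 ≤ 1 - θ) hB]

theorem q_pos (X : DN N) {y : Eu N} (hy : y ≠ 0) : 0 < X.q y := by
  rcases (apply_nonneg X.q y).eq_or_lt with h | h
  · exact absurd (X.dual.eq_zero h.symm) hy
  · exact h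

end DBET

open DBET in
/-- DBET: duality. -/
theorem stmt_DBET : Stmt_DBET := by
  intro θ C h0 h1 hC N X H Z hB
  have hC0 : 0 < C := by linarith
  refine ⟨?_, ?_⟩
  · intro y
    by_cases hy : y = 0
    · rw [hy, map_zero]
      have e1 : 0 ≤ X.q (0 : Eu N) ^ (1 - θ) := Real.rpow_nonneg (apply_nonneg _ _) _
      have e2 : 0 ≤ H.q (0 : Eu N) ^ θ := Real.rpow_nonneg (apply_nonneg _ _) _
      positivity
    have hX := q_pos X hy
    have hH := q_pos H hy
    obtain ⟨z, hz1, hz2⟩ := Z.att_q y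
    obtain ⟨t, ht⟩ : ∃ t, t = H.q y / X.q y := ⟨_, rfl⟩
    have htp : 0 < t := by rw [ht]; positivity
    obtain ⟨x, hx1, hx2⟩ := hB.dec t htp z
    have ht1 : 0 < t ^ θ := Real.rpow_pos_of_pos htp _
    have ht2 : 0 < t ^ (θ - 1) := Real.rpow_pos_of_pos htp _
    have e1 : X.p x ≤ C * t ^ θ := hx1.trans
      (mul_le_mul_of_nonneg_left (mul_le_of_le_one_right ht1.le hz1) hC0.le)
    have e2 : H.p (z - x) ≤ C * t ^ (θ - 1) := hx2.trans
      (mul_le_mul_of_nonneg_left (mul_le_of_le_one_right ht2.le hz1) hC0.le)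
    have e3 : Z.q y = ⟪x, y⟫ + ⟪z - x, y⟫ := by
      rw [← hz2, ← inner_add_left, add_sub_cancel]
    have e4 : ⟪x, y⟫ ≤ C * t ^ θ * X.q y := (X.le x y).trans
      (mul_le_mul_of_nonneg_right e1 hX.le)
    have e5 : ⟪z - x, y⟫ ≤ C * t ^ (θ - 1) * H.q y := (H.le _ y).trans
      (mul_le_mul_of_nonneg_right e2 hH.le)
    have e6 : t ^ θ * X.q y = X.q y ^ (1 - θ) * H.q y ^ θ := by
      have h3 : 0 < X.q y ^ θ := Real.rpow_pos_of_pos hX _
      have h4 : X.q y ^ (1 - θ) * X.q y ^ θ = X.q y := by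
        rw [← Real.rpow_add hX]
        have : 1 - θ + θ = 1 := by ring
        rw [this, Real.rpow_one]
      rw [ht, Real.div_rpow hH.le hX.le, div_mul_eq_mul_div, div_eq_iff h3.ne']
      calc H.q y ^ θ * X.q y = H.q y ^ θ * (X.q y ^ (1 - θ) * X.q y ^ θ) := by rw [h4]
        _ = X.q y ^ (1 - θ) * H.q y ^ θ * X.q y ^ θ := by ring
    have e7 : t ^ (θ - 1) * H.q y = X.q y ^ (1 - θ) * H.q y ^ θ := by
      have h2 : t ^ (θ - 1) = t ^ θ / t := by
        rw [Real.rpow_sub htp, Real.rpow_one]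
      rw [h2, ← e6, ht]
      field_simp
    have e8 : Z.q y ≤ C * (X.q y ^ (1 - θ) * H.q y ^ θ) + C * (X.q y ^ (1 - θ) * H.q y ^ θ) := by
      rw [e3]
      refine add_le_add (e4.trans (le_of_eq ?_)) (e5.trans (le_of_eq ?_))
      · rw [← e6]; ring
      · rw [← e7]; ring
    linarith
  · intro t ht y
    by_cases hy : y = 0
    · refine ⟨0, ?_, ?_⟩
      · rw [hy, map_zero, map_zero]
        simp
      · rw [hy, sub_zero, map_zero, map_zero]
        simp
    have hZ := q_pos Z hy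
    have ht1 : 0 < t ^ θ := Real.rpow_pos_of_pos ht _
    have ht2 : 0 < t ^ (θ - 1) := Real.rpow_pos_of_pos ht _
    obtain ⟨a, ha⟩ : ∃ a, a = C * (t ^ θ * Z.q y) := ⟨_, rfl⟩
    obtain ⟨b, hb⟩ : ∃ b, b = C * (t ^ (θ - 1) * Z.q y) := ⟨_, rfl⟩
    have ha0 : 0 < a := by rw [ha]; positivity
    have hb0 : 0 < b := by rw [hb]; positivity
    have hM : y ∈ {u : Eu N | X.q u < 2 * a} + {v : Eu N | H.q v < 2 * b} := by
      by_contra hcon
      have hopen : IsOpen ({u : Eu N | X.q u < 2 * a} + {v : Eu N | H.q v < 2 * b}) :=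
        IsOpen.add_right (isOpen_lt (cont X.q) continuous_const)
      obtain ⟨f, hf⟩ := geometric_hahn_banach_open_point
        ((convex_lt X.q (2 * a)).add (convex_lt H.q (2 * b))) hopen hcon
      obtain ⟨z, hz⟩ : ∃ z : Eu N, ∀ w, ⟪z, w⟫ = f w :=
        ⟨(InnerProductSpace.toDual ℝ (Eu N)).symm f, fun w =>
          InnerProductSpace.toDual_symm_apply⟩
      obtain ⟨u, hu1, hu2⟩ := X.att_p z
      obtain ⟨v, hv1, hv2⟩ := H.att_p z
      have g1 : X.q (a • u) < 2 * a := by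
        rw [map_smul_eq_mul, Real.norm_of_nonneg ha0.le]
        nlinarith
      have g2 : H.q (b • v) < 2 * b := by
        rw [map_smul_eq_mul, Real.norm_of_nonneg hb0.le]
        nlinarith
      have g3 := hf (a • u + b • v) (Set.add_mem_add g1 g2)
      rw [← hz, ← hz, inner_add_right, inner_smul_right, inner_smul_right, hu2, hv2] at g3
      have g4 := geo h0 h1 ht (apply_nonneg X.p z) (apply_nonneg H.p z)
      have g5 := hB.up z
      have g6 := Z.le z y
      have g7 : a * X.p z + b * H.p z = Z.q y * (C * (t ^ θ * X.p z + t ^ (θ - 1) * H.p z)) := by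
        rw [ha, hb]; ring
      have g8 : Z.p z ≤ C * (t ^ θ * X.p z + t ^ (θ - 1) * H.p z) :=
        g5.trans (mul_le_mul_of_nonneg_left g4 hC0.le)
      have g9 : Z.p z * Z.q y ≤ Z.q y * (C * (t ^ θ * X.p z + t ^ (θ - 1) * H.p z)) := by
        rw [mul_comm]
        exact mul_le_mul_of_nonneg_left g8 hZ.le
      linarith
    obtain ⟨u, hu, v, hv, huv⟩ := hM
    refine ⟨u, ?_, ?_⟩
    · have h2 : X.q u < 2 * a := hu
      rw [ha] at h2
      linarith
    · have h2 : H.q v < 2 * b := hv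
      have h3 : y - u = v := by rw [← huv]; simp
      rw [h3]
      rw [hb] at h2
      linarith

end Pool.PQ
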