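import Pool.Agent.Work.MP_c13439_pq.Interp

/-! # Block DENS: the powers of linear forms are dense in `L_2(γ)` -/

set_option autoImplicit false

open MeasureTheory ProbabilityTheory
open scoped RealInnerProductSpace ENNReal

namespace Pool.PQ

namespace DENS

variable {N : ℕ}

theorem integrable_exp (h : Eu N) : Integrable (fun x => Real.exp ⟪h, x⟫) (gs N) := by
  have h1 := IsGaussian.map_eq_gaussianReal (μ := gs N) (innerSL ℝ h)
  have h2 : Integrable (fun s : ℝ => Real.exp (1 * s)) ((gs N).map (innerSL ℝ h)) := by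
    rw [h1]; exact integrable_exp_mul_gaussianReal 1
  have h3 := (integrable_map_measure (by fun_prop) (by fun_prop)).1 h2
  simpa [Function.comp_def] using h3

theorem memLp_exp (h : Eu N) : MemLp (fun x => Real.exp |⟪h, x⟫|) 2 (gs N) := by
  rw [memLp_two_iff_integrable_sq (by fun_prop)]
  have h1 := (integrable_exp ((2 : ℝ) • h)).add (integrable_exp ((-2 : ℝ) • h))
  refine h1.mono' (by fun_prop) (Filter.Eventually.of_forall fun x => ?_)
  rw [Real.norm_of_nonneg (by positivity), ← Real.exp_nat_mul, Pi.add_apply, inner_smul_left,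
    inner_smul_left]
  have e1 := Real.exp_pos ((2 : ℝ) * ⟪h, x⟫)
  have e2 := Real.exp_pos ((-2 : ℝ) * ⟪h, x⟫)
  simp only [conj_trivial]
  rcases abs_cases ⟪h, x⟫ with ⟨h2, _⟩ | ⟨h2, _⟩
  · rw [h2]; push_cast; linarith
  · rw [h2]; push_cast
    have h3 : (2 : ℝ) * -⟪h, x⟫ = -2 * ⟪h, x⟫ := by ring
    rw [h3]; linarith

theorem pow_le (s : ℝ) (j : ℕ) : |s| ^ j ≤ j.factorial * Real.exp |s| := by
  have h1 := Real.pow_div_factorial_le_exp |s| (abs_nonneg s) j
  rwa [div_le_iff₀ (by positivity), mul_comm] at h1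

theorem memLp_pow (h v : Eu N) (j : ℕ) : MemLp (fun x => ⟪h, x⟫ ^ j • v) 2 (gs N) := by
  refine (memLp_exp h).of_le_mul (c := j.factorial * ‖v‖) (by fun_prop)
    (Filter.Eventually.of_forall fun x => ?_)
  rw [norm_smul, norm_pow, Real.norm_eq_abs, Real.norm_of_nonneg (Real.exp_pos _).le]
  have h1 := pow_le ⟪h, x⟫ j
  have h2 := norm_nonneg v
  nlinarith

theorem integrable_mul_exp {u : Eu N → ℝ} (hu : MemLp u 2 (gs N)) (h : Eu N) :
    Integrable (fun x => |u x| * Real.exp |⟪h, x⟫|) (gs N) :=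
  MemLp.integrable_mul hu.abs (memLp_exp h)

/-- the Fourier transform of `u γ` vanishes -/
theorem fourier_zero {u : Eu N → ℝ} (hu : MemLp u 2 (gs N))
    (h0 : ∀ (h : Eu N) (j : ℕ), ∫ x, u x * ⟪h, x⟫ ^ j ∂gs N = 0) (h : Eu N) :
    ∫ x, (u x : ℂ) * Complex.exp (⟪h, x⟫ * Complex.I) ∂gs N = 0 := by
  have key : HasSum (fun n : ℕ => ∫ x, (u x : ℂ) * ((⟪h, x⟫ * Complex.I) ^ n / n.factorial) ∂gs N)
      (∫ x, (u x : ℂ) * Complex.exp (⟪h, x⟫ * Complex.I) ∂gs N) := by
    refine hasSum_integral_of_dominated_convergence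
      (fun n x => |u x| * (|⟪h, x⟫| ^ n / n.factorial)) ?_ ?_ ?_ ?_ ?_
    · intro n
      refine AEStronglyMeasurable.mul ?_ (by fun_prop)
      exact Complex.continuous_ofReal.comp_aestronglyMeasurable hu.1
    · intro n
      refine Filter.Eventually.of_forall fun x => ?_
      rw [norm_mul, norm_div, norm_pow, norm_mul, Complex.norm_I, mul_one, Complex.norm_real,
        Complex.norm_real, Complex.norm_natCast, Real.norm_eq_abs, Real.norm_eq_abs]
    · refine Filter.Eventually.of_forall fun x => ?_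
      exact (Real.summable_pow_div_factorial _).mul_left _
    · refine (integrable_mul_exp hu h).congr (Filter.Eventually.of_forall fun x => ?_)
      simp only
      rw [tsum_mul_left, Real.exp_eq_exp_ℝ, NormedSpace.exp_eq_tsum_div]
    · refine Filter.Eventually.of_forall fun x => ?_
      have h1 := NormedSpace.expSeries_div_hasSum_exp (𝔸 := ℂ) ((⟪h, x⟫ : ℂ) * Complex.I)
      rw [← Complex.exp_eq_exp_ℂ] at h1
      exact h1.mul_left _
  have h2 : ∀ n : ℕ, ∫ x, (u x : ℂ) * ((⟪h, x⟫ * Complex.I) ^ n / n.factorial) ∂gs N = 0 := by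
    intro n
    have h3 : ∀ x : Eu N, (u x : ℂ) * ((⟪h, x⟫ * Complex.I) ^ n / n.factorial) =
        (Complex.I ^ n / n.factorial) * ((u x * ⟪h, x⟫ ^ n : ℝ) : ℂ) := by
      intro x
      push_cast
      rw [mul_pow]
      ring
    simp only [h3]
    rw [integral_const_mul, integral_complex_ofReal, h0 h n, Complex.ofReal_zero, mul_zero]
  simp only [h2] at key
  exact key.unique hasSum_zero

theorem ae_zero {u : Eu N → ℝ} (hm : Measurable u) (hu : MemLp u 2 (gs N))
    (h0 : ∀ (h : Eu N) (j : ℕ), ∫ x, u x * ⟪h, x⟫ ^ j ∂gs N = 0) : u =ᵐ[gs N] 0 := by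
  have hi : Integrable u (gs N) := hu.integrable (by norm_num)
  have hfin : ∀ w : Eu N → ℝ, Integrable w (gs N) →
      IsFiniteMeasure ((gs N).withDensity fun x => ENNReal.ofReal (w x)) := by
    intro w hw
    exact isFiniteMeasure_withDensity_ofReal hw.2
  have hf1 := hfin u hi
  have hf2 := hfin (fun x => -u x) hi.neg
  have hint : ∀ w : Eu N → ℝ, Measurable w → Integrable w (gs N) → ∀ t : Eu N,
      charFun ((gs N).withDensity fun x => ENNReal.ofReal (w x)) t =
        ∫ x, ((max (w x) 0 : ℝ) : ℂ) * Complex.exp (⟪t, x⟫ * Complex.I) ∂gs N := by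
    intro w hw hwi t
    rw [charFun_apply, integral_withDensity_eq_integral_toReal_smul (by fun_prop)
      (Filter.Eventually.of_forall fun x => ENNReal.ofReal_lt_top)]
    refine integral_congr_ae (Filter.Eventually.of_forall fun x => ?_)
    simp only
    rw [ENNReal.toReal_ofReal', real_inner_comm, Complex.real_smul]
  have hI : ∀ w : Eu N → ℝ, Integrable w (gs N) → ∀ t : Eu N,
      Integrable (fun x => ((max (w x) 0 : ℝ) : ℂ) * Complex.exp (⟪t, x⟫ * Complex.I)) (gs N) := by
    intro w hw t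
    have h1 : Integrable (fun x => ((max (w x) 0 : ℝ) : ℂ)) (gs N) := (hw.pos_part).ofReal
    refine h1.mono ?_ (Filter.Eventually.of_forall fun x => ?_)
    · exact h1.1.mul (by fun_prop)
    · rw [norm_mul, Complex.norm_exp_ofReal_mul_I, mul_one]
  have heq : (gs N).withDensity (fun x => ENNReal.ofReal (u x)) =
      (gs N).withDensity fun x => ENNReal.ofReal (-u x) := by
    apply Measure.ext_of_charFun
    ext t
    rw [hint u hm hi t, hint (fun x => -u x) hm.neg hi.neg t, ← sub_eq_zero,
      ← integral_sub (hI u hi t) (hI (fun x => -u x) hi.neg t), ← fourier_zero hu h0 t]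
    refine integral_congr_ae (Filter.Eventually.of_forall fun x => ?_)
    simp only
    rw [← sub_mul, ← Complex.ofReal_sub]
    congr 2
    rcases le_total 0 (u x) with h | h
    · rw [max_eq_left h, max_eq_right (by linarith), sub_zero]
    · rw [max_eq_right h, max_eq_left (by linarith), zero_sub, neg_neg]
  have h2 := (withDensity_eq_iff (by fun_prop) (by fun_prop) (by
    have := hf1.measure_univ_lt_top.ne
    rwa [withDensity_apply _ MeasurableSet.univ, Measure.restrict_univ] at this)).1 heq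
  filter_upwards [h2] with x hx
  rcases le_total 0 (u x) with h | h
  · have h3 : ENNReal.ofReal (-u x) = 0 := ENNReal.ofReal_of_nonpos (by linarith)
    rw [h3, ENNReal.ofReal_eq_zero] at hx
    exact le_antisymm hx h
  · have h3 : ENNReal.ofReal (u x) = 0 := ENNReal.ofReal_of_nonpos h
    rw [h3, eq_comm, ENNReal.ofReal_eq_zero] at hx
    have h4 : (0 : ℝ) ≤ u x := by linarith
    exact le_antisymm h h4

end DENS

/-- Block DENS. -/
theorem stmt_DENS : Stmt_DENS := by
  intro N
  rw [Submodule.dense_iff_topologicalClosure_eq_top, Submodule.topologicalClosure_eq_top_iff,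
    Submodule.eq_bot_iff]
  intro f hf
  rw [Submodule.mem_orthogonal] at hf
  have h1 : ∀ v : Eu N, (fun x => ⟪f x, v⟫) =ᵐ[gs N] 0 := by
    intro v
    have hm : Measurable fun x => ⟪f x, v⟫ :=
      (Lp.stronglyMeasurable f).measurable.inner measurable_const
    have hL : MemLp (fun x => ⟪f x, v⟫) 2 (gs N) := by
      refine (Lp.memLp f).of_le_mul (c := ‖v‖) hm.aestronglyMeasurable
        (Filter.Eventually.of_forall fun x => ?_)
      rw [mul_comm]
      exact norm_inner_le_norm _ _
    refine DENS.ae_zero hm hL ?_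
    intro h j
    have hmem := DENS.memLp_pow h v j
    have h2 : hmem.toLp ∈ (⨆ k, pw N k : Submodule ℝ (L2 N)) := by
      refine Submodule.mem_iSup_of_mem j (Submodule.subset_span ?_)
      exact ⟨j, le_rfl, h, v, hmem.coeFn_toLp⟩
    have h3 := hf _ h2
    rw [L2.inner_def] at h3
    rw [← h3]
    refine integral_congr_ae ?_
    filter_upwards [hmem.coeFn_toLp] with x hx
    rw [hx, inner_smul_left, real_inner_comm, conj_trivial, mul_comm]
  have h2 : ∀ᵐ x ∂gs N, ∀ i : Fin N, ⟪f x, EuclideanSpace.single i (1 : ℝ)⟫ = 0 := by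
    rw [ae_all_iff]
    intro i
    exact h1 _
  rw [Lp.eq_zero_iff_ae_eq_zero]
  filter_upwards [h2] with x hx
  ext i
  have := hx i
  simpa [EuclideanSpace.inner_single_right] using this

end Pool.PQ
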