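import Pool.Agent.Work.MP_c13439_pq.Interp

/-! # MP_c13439_an, part (1), block ENT (helper87): elementary properties of entropy numbers -/

open MeasureTheory ProbabilityTheory Filter Topology
open scoped RealInnerProductSpace

namespace Pool.PQ

variable {N : ℕ}

theorem ent_semi_bound (p : Seminorm ℝ (Eu N)) : ∃ C : ℝ, 0 ≤ C ∧ ∀ x, p x ≤ C * ‖x‖ := by
  classical
  refine ⟨∑ i, p (EuclideanSpace.single i 1), Finset.sum_nonneg (fun i _ => apply_nonneg p _), ?_⟩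
  intro x
  have hx : x = ∑ i, x i • EuclideanSpace.single i (1 : ℝ) := by
    ext j
    simp [Finset.sum_apply, Pi.single_apply]
  calc p x = p (∑ i, x i • EuclideanSpace.single i (1 : ℝ)) := by rw [← hx]
    _ ≤ ∑ i, p (x i • EuclideanSpace.single i (1 : ℝ)) :=
        Finset.le_sum_of_subadditive p (map_zero p).le (map_add_le_add p) _ _
    _ = ∑ i, ‖x i‖ * p (EuclideanSpace.single i (1 : ℝ)) := by
        refine Finset.sum_congr rfl (fun i _ => ?_)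
        rw [map_smul_eq_mul]
    _ ≤ ∑ i, ‖x‖ * p (EuclideanSpace.single i (1 : ℝ)) := by
        refine Finset.sum_le_sum (fun i _ => ?_)
        exact mul_le_mul_of_nonneg_right (PiLp.norm_apply_le x i) (apply_nonneg p _)
    _ = (∑ i, p (EuclideanSpace.single i 1)) * ‖x‖ := by
        rw [Finset.sum_mul]
        exact Finset.sum_congr rfl (fun i _ => mul_comm _ _)

theorem ent_norm_le (U : DN N) : ∃ C : ℝ, 0 ≤ C ∧ ∀ x, ‖x‖ ≤ C * U.p x := by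
  obtain ⟨C, hC, h⟩ := ent_semi_bound U.q
  refine ⟨C, hC, fun x => ?_⟩
  rcases eq_or_ne x 0 with rfl | hx
  · simp
  have h1 : ‖x‖ * ‖x‖ ≤ U.p x * (C * ‖x‖) := by
    calc ‖x‖ * ‖x‖ = ⟪x, x⟫ := (real_inner_self_eq_norm_mul_norm x).symm
      _ ≤ U.p x * U.q x := U.le x x
      _ ≤ U.p x * (C * ‖x‖) := mul_le_mul_of_nonneg_left (h x) (apply_nonneg U.p x)
  have h2 : 0 < ‖x‖ := norm_pos_iff.2 hx
  have h3 : ‖x‖ * ‖x‖ ≤ (C * U.p x) * ‖x‖ := by linarith [h1, mul_comm (C * U.p x) ‖x‖,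
    (by ring : U.p x * (C * ‖x‖) = (C * U.p x) * ‖x‖)]
  exact le_of_mul_le_mul_right h3 h2

theorem ent_compare (U V : DN N) : ∃ c : ℝ, 0 < c ∧ ∀ x, V.p x ≤ c * U.p x := by
  obtain ⟨C, hC, h⟩ := ent_semi_bound V.p
  obtain ⟨C', hC', h'⟩ := ent_norm_le U
  refine ⟨C * C' + 1, by positivity, fun x => ?_⟩
  have h0 : 0 ≤ U.p x := apply_nonneg U.p x
  calc V.p x ≤ C * ‖x‖ := h x
    _ ≤ C * (C' * U.p x) := mul_le_mul_of_nonneg_left (h' x) hC
    _ ≤ (C * C' + 1) * U.p x := by nlinarith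

/-- the cover property -/
def Cvr (U V : Seminorm ℝ (Eu N)) (k : ℕ) (ε : ℝ) : Prop :=
  ∃ w : Fin (2 ^ k) → Eu N, ∀ x, U x ≤ 1 → ∃ i, V (x - w i) ≤ ε

theorem Cvr.mono {U V : Seminorm ℝ (Eu N)} {k : ℕ} {ε ε' : ℝ} (h : Cvr U V k ε) (hε : ε ≤ ε') :
    Cvr U V k ε' := by
  obtain ⟨w, hw⟩ := h
  exact ⟨w, fun x hx => (hw x hx).imp fun i hi => hi.trans hε⟩

theorem ent_le_of_cvr {U V : Seminorm ℝ (Eu N)} {k : ℕ} {ε : ℝ} (hε : 0 ≤ ε)
    (h : Cvr U V k ε) : ent U V k ≤ ε := by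
  refine le_of_forall_pos_le_add (fun δ hδ => ?_)
  refine csInf_le ⟨0, fun _ hy => hy.1.le⟩ ⟨by linarith, h.mono (by linarith)⟩

theorem ent_nonneg (U V : Seminorm ℝ (Eu N)) (k : ℕ) : 0 ≤ ent U V k :=
  Real.sInf_nonneg (fun _ hy => hy.1.le)

theorem cvr_of_ent_lt (U V : DN N) {k : ℕ} {ε : ℝ} (h : ent U.p V.p k < ε) :
    Cvr U.p V.p k ε := by
  obtain ⟨c, hc, hcV⟩ := ent_compare U V
  have hne : {ε : ℝ | 0 < ε ∧ ∃ w : Fin (2 ^ k) → Eu N, ∀ x, U.p x ≤ 1 →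
      ∃ i, V.p (x - w i) ≤ ε}.Nonempty := by
    refine ⟨c, hc, fun _ => 0, fun x hx => ⟨⟨0, by positivity⟩, ?_⟩⟩
    rw [sub_zero]
    calc V.p x ≤ c * U.p x := hcV x
      _ ≤ c * 1 := mul_le_mul_of_nonneg_left hx hc.le
      _ = c := mul_one c
  obtain ⟨ε', hε', hlt⟩ := exists_lt_of_csInf_lt hne h
  have h2 : Cvr U.p V.p k ε' := hε'.2
  exact h2.mono hlt.le

theorem Cvr.succ {U V : Seminorm ℝ (Eu N)} {k : ℕ} {ε : ℝ} (h : Cvr U V k ε) :
    Cvr U V (k + 1) ε := by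
  obtain ⟨w, hw⟩ := h
  refine ⟨fun i => w ⟨i.1 % 2 ^ k, Nat.mod_lt _ (by positivity)⟩, fun x hx => ?_⟩
  obtain ⟨i, hi⟩ := hw x hx
  refine ⟨⟨i.1, ?_⟩, ?_⟩
  · have := i.2
    rw [pow_succ]; omega
  · have e : (⟨i.1 % 2 ^ k, Nat.mod_lt _ (by positivity)⟩ : Fin (2 ^ k)) = i := by
      apply Fin.ext
      exact Nat.mod_eq_of_lt i.2
    show V (x - w ⟨i.1 % 2 ^ k, _⟩) ≤ ε
    rw [e]; exact hi

theorem Cvr.comp {U V W : Seminorm ℝ (Eu N)} {k l : ℕ} {e f : ℝ} (he : 0 < e)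
    (h1 : Cvr U V k e) (h2 : Cvr V W l f) : Cvr U W (k + l) (e * f) := by
  obtain ⟨w, hw⟩ := h1
  obtain ⟨v, hv⟩ := h2
  have hcard : Fintype.card (Fin (2 ^ (k + l))) = Fintype.card (Fin (2 ^ k) × Fin (2 ^ l)) := by
    simp [pow_add]
  let φ : Fin (2 ^ (k + l)) ≃ Fin (2 ^ k) × Fin (2 ^ l) := Fintype.equivOfCardEq hcard
  refine ⟨fun i => w (φ i).1 + e • v (φ i).2, fun x hx => ?_⟩
  obtain ⟨i, hi⟩ := hw x hx
  have h3 : V (e⁻¹ • (x - w i)) ≤ 1 := by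
    rw [map_smul_eq_mul, Real.norm_of_nonneg (inv_nonneg.2 he.le)]
    calc e⁻¹ * V (x - w i) ≤ e⁻¹ * e := mul_le_mul_of_nonneg_left hi (inv_nonneg.2 he.le)
      _ = 1 := inv_mul_cancel₀ he.ne'
  obtain ⟨j, hj⟩ := hv _ h3
  refine ⟨φ.symm (i, j), ?_⟩
  have e1 : x - (w (φ (φ.symm (i, j))).1 + e • v (φ (φ.symm (i, j))).2)
      = e • (e⁻¹ • (x - w i) - v j) := by
    rw [Equiv.apply_symm_apply, smul_sub, smul_smul, mul_inv_cancel₀ he.ne', one_smul]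
    abel
  show W (x - (w (φ (φ.symm (i, j))).1 + e • v (φ (φ.symm (i, j))).2)) ≤ e * f
  rw [e1, map_smul_eq_mul, Real.norm_of_nonneg he.le]
  exact mul_le_mul_of_nonneg_left hj he.le

theorem stmt_ENT : Stmt_ENT := by
  intro N U V
  refine ⟨fun k ε h => cvr_of_ent_lt U V h, fun k ε hε h => ent_le_of_cvr hε h,
    fun k => ⟨ent_nonneg _ _ _, ?_⟩, ?_, ?_⟩
  · refine le_of_forall_pos_le_add (fun δ hδ => ?_)
    exact ent_le_of_cvr (by linarith [ent_nonneg U.p V.p k])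
      (cvr_of_ent_lt U V (by linarith)).succ
  · intro W k l
    have h1 : ∀ δ : ℝ, 0 < δ →
        ent U.p W.p (k + l) ≤ (ent U.p V.p k + δ) * (ent V.p W.p l + δ) := by
      intro δ hδ
      have ha := ent_nonneg U.p V.p k
      have hb := ent_nonneg V.p W.p l
      exact ent_le_of_cvr (by positivity)
        ((cvr_of_ent_lt U V (by linarith)).comp (by linarith)
          (cvr_of_ent_lt V W (by linarith)))
    have h2 : Tendsto (fun δ : ℝ => (ent U.p V.p k + δ) * (ent V.p W.p l + δ)) (𝓝[>] 0)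
        (𝓝 (ent U.p V.p k * ent V.p W.p l)) := by
      have h3 : Continuous (fun δ : ℝ => (ent U.p V.p k + δ) * (ent V.p W.p l + δ)) := by fun_prop
      have h4 := h3.tendsto 0
      simp only [add_zero] at h4
      exact h4.mono_left nhdsWithin_le_nhds
    exact ge_of_tendsto h2 (eventually_nhdsWithin_of_forall (fun δ hδ => h1 δ hδ))
  · intro c hc h
    refine ent_le_of_cvr hc ⟨fun _ => 0, fun x hx => ⟨0, ?_⟩⟩
    rw [sub_zero]
    calc V.p x ≤ c * U.p x := h x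
      _ ≤ c * 1 := mul_le_mul_of_nonneg_left hx hc
      _ = c := mul_one c

end Pool.PQ
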