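import Pool.Agent.Work.MP_c13439_pq.Interp

/-! # MP_c13439_an, part (1), block ENTD (helper87): entropy numbers in finite dimension decay
faster than every power -/

open MeasureTheory ProbabilityTheory Filter Topology
open scoped RealInnerProductSpace

namespace Pool.PQ

variable {N : ℕ}

theorem entd_semi_bound (p : Seminorm ℝ (Eu N)) : ∃ C : ℝ, 0 ≤ C ∧ ∀ x, p x ≤ C * ‖x‖ := by
  classical
  refine ⟨∑ i, p (EuclideanSpace.single i 1), Finset.sum_nonneg (fun i _ => apply_nonneg p _), ?_⟩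
  intro x
  have hx : x = ∑ i, x i • EuclideanSpace.single i (1 : ℝ) := by
    ext j
    simp [Finset.sum_apply, Pi.single_apply]
  calc p x = p (∑ i, x i • EuclideanSpace.single i (1 : ℝ)) := by rw [← hx]
    _ ≤ ∑ i, p (x i • EuclideanSpace.single i (1 : ℝ)) :=
        Finset.le_sum_of_subadditive p (map_zero p).le (map_add_le_add p) _ _
    _ = ∑ i, ‖x i‖ * p (EuclideanSpace.single i (1 : ℝ)) := by
        refine Finset.sum_congr rfl (fun i _ => ?_)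
        rw [map_smul_eq_mul]
    _ ≤ ∑ i, ‖x‖ * p (EuclideanSpace.single i (1 : ℝ)) := by
        refine Finset.sum_le_sum (fun i _ => ?_)
        exact mul_le_mul_of_nonneg_right (PiLp.norm_apply_le x i) (apply_nonneg p _)
    _ = (∑ i, p (EuclideanSpace.single i 1)) * ‖x‖ := by
        rw [Finset.sum_mul]
        exact Finset.sum_congr rfl (fun i _ => mul_comm _ _)

theorem entd_norm_le (U : DN N) : ∃ C : ℝ, 0 ≤ C ∧ ∀ x, ‖x‖ ≤ C * U.p x := by
  obtain ⟨C, hC, h⟩ := entd_semi_bound U.q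
  refine ⟨C, hC, fun x => ?_⟩
  rcases eq_or_ne x 0 with rfl | hx
  · simp
  have h1 : ‖x‖ * ‖x‖ ≤ U.p x * (C * ‖x‖) := by
    calc ‖x‖ * ‖x‖ = ⟪x, x⟫ := (real_inner_self_eq_norm_mul_norm x).symm
      _ ≤ U.p x * U.q x := U.le x x
      _ ≤ U.p x * (C * ‖x‖) := mul_le_mul_of_nonneg_left (h x) (apply_nonneg U.p x)
  have h2 : 0 < ‖x‖ := norm_pos_iff.2 hx
  have h3 : ‖x‖ * ‖x‖ ≤ (C * U.p x) * ‖x‖ := by linarith [h1, mul_comm (C * U.p x) ‖x‖,
    (by ring : U.p x * (C * ‖x‖) = (C * U.p x) * ‖x‖)]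
  exact le_of_mul_le_mul_right h3 h2

/-- the unit ball is totally bounded -/
theorem entd_half (h1 : Stmt_ENT) (U : DN N) : ∃ m : ℕ, 1 ≤ m ∧ ent U.p U.p m ≤ 1 / 2 := by
  obtain ⟨C, hC, hCU⟩ := entd_semi_bound U.p
  obtain ⟨C', hC', hU⟩ := entd_norm_le U
  have hδ : 0 < 1 / (2 * (C + 1)) := by positivity
  obtain ⟨t, -, htf, ht⟩ := (isCompact_closedBall (0 : Eu N) C').finite_cover_balls hδ
  have htne : t.Nonempty := by
    have h0 : (0 : Eu N) ∈ Metric.closedBall (0 : Eu N) C' := by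
      simpa using hC'
    have := ht h0
    simp only [Set.mem_iUnion] at this
    obtain ⟨y, hy, -⟩ := this
    exact ⟨y, hy⟩
  obtain ⟨y0, hy0⟩ := htne
  let s : Finset (Eu N) := htf.toFinset
  have hs : ∀ y, y ∈ s ↔ y ∈ t := fun y => htf.mem_toFinset
  let m := s.card + 1
  have hm : s.card < 2 ^ m := lt_of_lt_of_le (Nat.lt_succ_self _) (Nat.lt_two_pow_self).le
  refine ⟨m, by omega, ?_⟩
  let φ := s.equivFin
  let w : Fin (2 ^ m) → Eu N := fun i => if h : i.1 < s.card then (φ.symm ⟨i.1, h⟩).1 else y0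
  refine (h1 N U U).2.1 m (1 / 2) (by norm_num) ⟨w, fun x hx => ?_⟩
  have hxb : x ∈ Metric.closedBall (0 : Eu N) C' := by
    rw [mem_closedBall_zero_iff]
    calc ‖x‖ ≤ C' * U.p x := hU x
      _ ≤ C' * 1 := mul_le_mul_of_nonneg_left hx hC'
      _ = C' := mul_one _
  have h2 := ht hxb
  simp only [Set.mem_iUnion] at h2
  obtain ⟨y, hy, hxy⟩ := h2
  have hys : y ∈ s := (hs y).2 hy
  refine ⟨⟨(φ ⟨y, hys⟩).1, (φ ⟨y, hys⟩).2.trans hm⟩, ?_⟩
  have hw : w ⟨(φ ⟨y, hys⟩).1, (φ ⟨y, hys⟩).2.trans hm⟩ = y := by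
    show (if h : (φ ⟨y, hys⟩).1 < s.card then (φ.symm ⟨(φ ⟨y, hys⟩).1, h⟩).1 else y0) = y
    rw [dif_pos (φ ⟨y, hys⟩).2]
    simp
  rw [hw]
  have hd : ‖x - y‖ < 1 / (2 * (C + 1)) := by
    rw [← dist_eq_norm]; exact hxy
  calc U.p (x - y) ≤ C * ‖x - y‖ := hCU _
    _ ≤ C * (1 / (2 * (C + 1))) := mul_le_mul_of_nonneg_left hd.le hC
    _ ≤ 1 / 2 := by
      rw [mul_one_div, div_le_div_iff₀ (by positivity) (by norm_num)]
      linarith

theorem stmt_ENTD (h1 : Stmt_ENT) : Stmt_ENTD := by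
  intro N U V α
  obtain ⟨m, hm1, hm⟩ := entd_half h1 U
  have hmono : ∀ (A B : DN N) (k l : ℕ), k ≤ l → ent A.p B.p l ≤ ent A.p B.p k := by
    intro A B k l hkl
    induction hkl with
    | refl => exact le_rfl
    | step _ ih => exact (((h1 N A B).2.2.1 _).2).trans ih
  have hUU : ∀ j : ℕ, ent U.p U.p (m * j) ≤ (1 / 2) ^ j := by
    intro j
    induction j with
    | zero =>
      simp only [mul_zero, pow_zero]
      exact (h1 N U U).2.2.2.2 1 zero_le_one (fun x => by rw [one_mul])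
    | succ j ih =>
      have h2 := (h1 N U U).2.2.2.1 U (m * j) m
      rw [Nat.mul_succ, pow_succ]
      refine h2.trans ?_
      exact mul_le_mul ih hm ((h1 N U U).2.2.1 _).1 (by positivity)
  have hUV : ∀ k : ℕ, ent U.p V.p k ≤ (1 / 2) ^ (k / m) * ent U.p V.p 0 := by
    intro k
    have h2 := (h1 N U U).2.2.2.1 V (m * (k / m)) 0
    rw [add_zero] at h2
    refine ((hmono U V _ _ (Nat.mul_div_le k m)).trans h2).trans ?_
    exact mul_le_mul_of_nonneg_right (hUU _) ((h1 N U V).2.2.1 _).1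
  -- a bound for `i ^ n 2^-i`
  obtain ⟨n, hn⟩ := exists_nat_ge α
  have htend := tendsto_pow_const_mul_const_pow_of_abs_lt_one n
    (show |(1 / 2 : ℝ)| < 1 by rw [abs_of_pos] <;> norm_num)
  obtain ⟨C0, hC0⟩ := htend.bddAbove_range
  have hC0' : ∀ i : ℕ, (i : ℝ) ^ n * (1 / 2) ^ i ≤ C0 := fun i => hC0 ⟨i, rfl⟩
  have hv0 : 0 ≤ ent U.p V.p 0 := ((h1 N U V).2.2.1 0).1
  refine ⟨2 * (m : ℝ) ^ n * C0 * ent U.p V.p 0, fun k => ?_⟩
  have hk1 : (1 : ℝ) ≤ (k : ℝ) + 1 := by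
    have : (0 : ℝ) ≤ k := Nat.cast_nonneg k
    linarith
  have hpow : ((k : ℝ) + 1) ^ α ≤ ((k : ℝ) + 1) ^ n := by
    rw [← Real.rpow_natCast]
    exact Real.rpow_le_rpow_of_exponent_le hk1 hn
  have hkm : (k : ℝ) + 1 ≤ m * ((k / m : ℕ) + 1 : ℕ) := by
    have : k + 1 ≤ m * (k / m + 1) := by
      have := Nat.div_add_mod k m
      have h4 := Nat.mod_lt k (show 0 < m by omega)
      rw [Nat.mul_add, Nat.mul_one]
      omega
    exact_mod_cast this
  calc ((k : ℝ) + 1) ^ α * ent U.p V.p k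
      ≤ ((k : ℝ) + 1) ^ n * ((1 / 2) ^ (k / m) * ent U.p V.p 0) :=
        mul_le_mul hpow (hUV k) ((h1 N U V).2.2.1 k).1 (by positivity)
    _ ≤ (m * ((k / m : ℕ) + 1 : ℕ)) ^ n * ((1 / 2) ^ (k / m) * ent U.p V.p 0) := by
        gcongr
    _ = 2 * (m : ℝ) ^ n * ((((k / m : ℕ) + 1 : ℕ) : ℝ) ^ n * (1 / 2) ^ (k / m + 1)) *
          ent U.p V.p 0 := by
        rw [mul_pow, pow_succ]; ring
    _ ≤ 2 * (m : ℝ) ^ n * C0 * ent U.p V.p 0 := by
        have h5 := hC0' (k / m + 1)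
        gcongr

end Pool.PQ
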