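import Pool.Agent.Work.MP_c13439_pq.Interp

/-!
# Block EUC: Euclidean norms and their duals
-/

open MeasureTheory ProbabilityTheory
open scoped RealInnerProductSpace

namespace Pool.PQ

theorem DN.ext_p {N : ℕ} (X Y : DN N) (h : X.p = Y.p) : X = Y := by
  have key : ∀ X Y : DN N, X.p = Y.p → ∀ y, X.q y ≤ Y.q y := by
    intro X Y h y
    obtain ⟨x, hx, hxy⟩ := X.att_q y
    rw [← hxy]
    refine (Y.le x y).trans ?_
    rw [← h]
    exact mul_le_of_le_one_left (apply_nonneg _ _) hx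
  have hq : X.q = Y.q := by
    ext y
    exact le_antisymm (key X Y h y) (key Y X h.symm y)
  cases X
  cases Y
  simp only at h hq
  subst h
  subst hq
  rfl

theorem euc_exists (N : ℕ) (S : Eu N ≃L[ℝ] Eu N) : ∃ H : DN N, (∀ x, H.p x = ‖S x‖) ∧
    ∀ y, H.q y = ‖ContinuousLinearMap.adjoint (S.symm : Eu N →L[ℝ] Eu N) y‖ := by
  have hAS : ∀ x, (S.symm : Eu N →L[ℝ] Eu N) (S x) = x := fun x => by simp
  refine ⟨{ p := (normSeminorm ℝ (Eu N)).comp (S : Eu N →L[ℝ] Eu N).toLinearMap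
            q := (normSeminorm ℝ (Eu N)).comp
              (ContinuousLinearMap.adjoint (S.symm : Eu N →L[ℝ] Eu N)).toLinearMap
            le := ?_
            att_q := ?_
            att_p := ?_ }, fun x => rfl, fun y => rfl⟩
  · intro x y
    change ⟪x, y⟫ ≤ ‖S x‖ * ‖ContinuousLinearMap.adjoint (S.symm : Eu N →L[ℝ] Eu N) y‖
    have h : ⟪x, y⟫ = ⟪S x, ContinuousLinearMap.adjoint (S.symm : Eu N →L[ℝ] Eu N) y⟫ := by
      rw [ContinuousLinearMap.adjoint_inner_right, hAS]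
    rw [h]
    exact real_inner_le_norm _ _
  · intro y
    change ∃ x, ‖S x‖ ≤ 1 ∧
      ⟪x, y⟫ = ‖ContinuousLinearMap.adjoint (S.symm : Eu N →L[ℝ] Eu N) y‖
    set w := ContinuousLinearMap.adjoint (S.symm : Eu N →L[ℝ] Eu N) y with hw
    by_cases h0 : w = 0
    · exact ⟨0, by simp, by simp [h0]⟩
    · have hn : ‖w‖ ≠ 0 := norm_ne_zero_iff.2 h0
      refine ⟨(S.symm : Eu N →L[ℝ] Eu N) (‖w‖⁻¹ • w), ?_, ?_⟩
      · have : S ((S.symm : Eu N →L[ℝ] Eu N) (‖w‖⁻¹ • w)) = ‖w‖⁻¹ • w := by simp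
        rw [this, norm_smul, norm_inv, norm_norm, inv_mul_cancel₀ hn]
      · rw [← ContinuousLinearMap.adjoint_inner_right, ← hw, real_inner_smul_left,
          real_inner_self_eq_norm_sq]
        field_simp
  · intro x
    change ∃ y, ‖ContinuousLinearMap.adjoint (S.symm : Eu N →L[ℝ] Eu N) y‖ ≤ 1 ∧
      ⟪x, y⟫ = ‖S x‖
    set w := S x with hw
    by_cases h0 : w = 0
    · exact ⟨0, by simp, by simp [h0]⟩
    · have hn : ‖w‖ ≠ 0 := norm_ne_zero_iff.2 h0
      refine ⟨ContinuousLinearMap.adjoint (S : Eu N →L[ℝ] Eu N) (‖w‖⁻¹ • w), ?_, ?_⟩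
      · have h1 : ContinuousLinearMap.adjoint (S.symm : Eu N →L[ℝ] Eu N)
            (ContinuousLinearMap.adjoint (S : Eu N →L[ℝ] Eu N) (‖w‖⁻¹ • w)) = ‖w‖⁻¹ • w := by
          apply ext_inner_left ℝ
          intro v
          rw [ContinuousLinearMap.adjoint_inner_right, ContinuousLinearMap.adjoint_inner_right]
          simp
        rw [h1, norm_smul, norm_inv, norm_norm, inv_mul_cancel₀ hn]
      · rw [ContinuousLinearMap.adjoint_inner_right, real_inner_smul_right]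
        change ‖w‖⁻¹ * ⟪w, w⟫ = ‖w‖
        rw [real_inner_self_eq_norm_sq]
        field_simp

theorem euc_dual (N : ℕ) (H : DN N) (h : H.IsEuclid) : H.dual.IsEuclid := by
  obtain ⟨S, hS⟩ := h
  obtain ⟨H', hp, hq⟩ := euc_exists N S
  have hpp : H.p = H'.p := by
    ext x
    rw [hS, hp]
  have hHH : H = H' := DN.ext_p H H' hpp
  refine ⟨ContinuousLinearEquiv.equivOfInverse
    (ContinuousLinearMap.adjoint (S.symm : Eu N →L[ℝ] Eu N))
    (ContinuousLinearMap.adjoint (S : Eu N →L[ℝ] Eu N)) ?_ ?_, ?_⟩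
  · intro y
    apply ext_inner_left ℝ
    intro v
    rw [ContinuousLinearMap.adjoint_inner_right, ContinuousLinearMap.adjoint_inner_right]
    simp
  · intro y
    apply ext_inner_left ℝ
    intro v
    rw [ContinuousLinearMap.adjoint_inner_right, ContinuousLinearMap.adjoint_inner_right]
    simp
  · intro x
    rw [DN.dual_p, hHH, hq]
    rfl

theorem stmt_EUC (_h1 : Stmt_EXDN) : Stmt_EUC :=
  ⟨euc_exists, euc_dual, fun _ X Y h => DN.ext_p X Y h⟩

end Pool.PQ
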