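import Pool.Agent.Work.MP_c13439_pq.Interp

/-!
# MP_c13439_an, block EXDN (helper45): every norm on `ℝ^N` has a dual norm
-/

set_option autoImplicit false

open MeasureTheory ProbabilityTheory Polynomial
open scoped RealInnerProductSpace

namespace Pool.PQ

namespace EXDN

variable {N : ℕ}

theorem cont (p : Seminorm ℝ (Eu N)) : Continuous p := by
  have h : ContinuousOn p Set.univ := p.convexOn.continuousOn isOpen_univ
  exact continuousOn_univ.1 h

/-- the unit ball of a norm is compact -/
theorem compact_ball (p : Seminorm ℝ (Eu N)) (hp : ∀ x, p x = 0 → x = 0) :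
    IsCompact {x : Eu N | p x ≤ 1} := by
  have hcl : IsClosed {x : Eu N | p x ≤ 1} := isClosed_le (cont p) continuous_const
  refine Metric.isCompact_of_isClosed_isBounded hcl ?_
  by_cases hne : (Metric.sphere (0 : Eu N) 1).Nonempty
  · obtain ⟨u, hu, hmin⟩ := (isCompact_sphere (0 : Eu N) 1).exists_isMinOn hne
      (cont p).continuousOn
    have hu1 : ‖u‖ = 1 := by simpa using hu
    have hpos : 0 < p u := by
      refine lt_of_le_of_ne (apply_nonneg p u) (fun h => ?_)
      have h1 := hp u h.symm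
      rw [h1, norm_zero] at hu1
      exact zero_ne_one hu1
    refine (Metric.isBounded_iff_subset_closedBall (0 : Eu N)).2 ⟨1 / p u, ?_⟩
    intro x hx
    rw [mem_closedBall_zero_iff]
    by_cases hx0 : x = 0
    · rw [hx0, norm_zero]
      positivity
    · have hn : 0 < ‖x‖ := norm_pos_iff.2 hx0
      have h1 : p u ≤ p (‖x‖⁻¹ • x) := by
        refine hmin ?_
        rw [mem_sphere_zero_iff_norm, norm_smul, norm_inv, norm_norm, inv_mul_cancel₀ hn.ne']
      rw [map_smul_eq_mul, norm_inv, norm_norm] at h1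
      have h2 : p u * ‖x‖ ≤ p x := by
        calc p u * ‖x‖ ≤ (‖x‖⁻¹ * p x) * ‖x‖ := mul_le_mul_of_nonneg_right h1 hn.le
          _ = p x := by field_simp
      rw [le_div_iff₀ hpos, mul_comm]
      exact h2.trans hx
  · have h0 : ∀ z : Eu N, z = 0 := by
      intro z
      by_contra hz
      refine hne ⟨‖z‖⁻¹ • z, ?_⟩
      rw [mem_sphere_zero_iff_norm, norm_smul, norm_inv, norm_norm,
        inv_mul_cancel₀ (norm_ne_zero_iff.2 hz)]
    refine (Metric.isBounded_iff_subset_closedBall (0 : Eu N)).2 ⟨0, ?_⟩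
    intro x _
    rw [h0 x]
    simp

end EXDN

open EXDN in
theorem stmt_EXDN : Stmt_EXDN := by
  intro N p hp
  have hB := compact_ball p hp
  have hBne : {x : Eu N | p x ≤ 1}.Nonempty := ⟨0, by simp⟩
  have hmax : ∀ y : Eu N, ∃ x0 : Eu N, p x0 ≤ 1 ∧ ∀ x, p x ≤ 1 → ⟪x, y⟫ ≤ ⟪x0, y⟫ := by
    intro y
    obtain ⟨x0, hx0, hm⟩ := hB.exists_isMaxOn hBne
      (f := fun x : Eu N => ⟪x, y⟫) (by fun_prop)
    exact ⟨x0, hx0, fun x hx => hm hx⟩
  choose m hm1 hm2 using hmax
  have hneg : ∀ x, p x ≤ 1 → p (-x) ≤ 1 := fun x hx => by rw [map_neg_eq_map]; exact hx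
  let q : Seminorm ℝ (Eu N) := Seminorm.ofSMulLE (fun y => ⟪m y, y⟫) (by simp)
    (fun y z => by
      rw [inner_add_right]
      exact add_le_add (hm2 y _ (hm1 _)) (hm2 z _ (hm1 _)))
    (fun r y => by
      rw [inner_smul_right, Real.norm_eq_abs]
      rcases le_total 0 r with hr | hr
      · rw [abs_of_nonneg hr]
        exact mul_le_mul_of_nonneg_left (hm2 y _ (hm1 _)) hr
      · rw [abs_of_nonpos hr]
        have h1 := hm2 y _ (hneg _ (hm1 (r • y)))
        rw [inner_neg_left] at h1
        have h2 := mul_le_mul_of_nonneg_left h1 (neg_nonneg.2 hr)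
        linarith)
  have hq : ∀ y, q y = ⟪m y, y⟫ := fun y => rfl
  refine ⟨{ p := p, q := q, le := ?_, att_q := ?_, att_p := ?_ }, rfl⟩
  · intro x y
    by_cases hx : p x = 0
    · rw [hp x hx]
      simp
    · have hpos : 0 < p x := lt_of_le_of_ne (apply_nonneg p x) (Ne.symm hx)
      have h1 := hm2 y ((p x)⁻¹ • x) (by
        rw [map_smul_eq_mul, norm_inv, Real.norm_eq_abs, abs_of_pos hpos,
          inv_mul_cancel₀ hpos.ne'])
      rw [real_inner_smul_left] at h1
      rw [hq]
      calc ⟪x, y⟫ = p x * ((p x)⁻¹ * ⟪x, y⟫) := by field_simp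
        _ ≤ p x * ⟪m y, y⟫ := mul_le_mul_of_nonneg_left h1 hpos.le
  · intro y
    exact ⟨m y, hm1 y, rfl⟩
  · intro x
    by_cases hx : x = 0
    · refine ⟨0, ?_, ?_⟩
      · rw [map_zero]
        exact zero_le_one
      · rw [hx, map_zero, inner_zero_left]
    · obtain ⟨g, hg1, hg2⟩ := exists_extension_of_le_sublinear
        (LinearPMap.mkSpanSingleton x (p x) hx) p
        (fun c hc z => by rw [map_smul_eq_mul, Real.norm_eq_abs, abs_of_pos hc])
        (fun z w => map_add_le_add p z w)
        (fun z => by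
          obtain ⟨z, hz⟩ := z
          obtain ⟨t, rfl⟩ := Submodule.mem_span_singleton.1 hz
          rw [LinearPMap.mkSpanSingleton'_apply x (p x) _ t hz, RingHom.id_apply]
          rw [map_smul_eq_mul, smul_eq_mul, Real.norm_eq_abs]
          exact mul_le_mul_of_nonneg_right (le_abs_self t) (apply_nonneg p x))
      have hgx : g x = p x := by
        have h1 := hg1 ⟨x, Submodule.mem_span_singleton_self x⟩
        rw [LinearPMap.mkSpanSingleton_apply] at h1
        exact h1
      let G : Eu N →L[ℝ] ℝ := LinearMap.toContinuousLinearMap g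
      refine ⟨(InnerProductSpace.toDual ℝ (Eu N)).symm G, ?_, ?_⟩
      · rw [hq, real_inner_comm, InnerProductSpace.toDual_symm_apply]
        exact (hg2 _).trans (hm1 _)
      · rw [real_inner_comm, InnerProductSpace.toDual_symm_apply]
        exact hgx

end Pool.PQ
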