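import Pool.Agent.Work.MP_c13439_pq.Boot

/-! # MP_c13439_an, part (2), block FD (helper40): restriction to finitely many points and
functionals -/

open MeasureTheory ProbabilityTheory
open scoped RealInnerProductSpace Topology

namespace Pool.PQ

namespace FD

variable {N : ℕ}

/-- The quotient norm of `ℓ_1`. -/
theorem exists_quot {J : Type*} [Fintype J] (ψ : (J → ℝ) →ₗ[ℝ] Eu N)
    (hψ : Function.Surjective ψ) :
    ∃ U : Seminorm ℝ (Eu N), ∀ w, U w ≤ 1 ↔ ∃ c : J → ℝ, ∑ j, |c j| ≤ 1 ∧ ψ c = w := by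
  classical
  set B : Set (J → ℝ) := {c | ∑ j, |c j| ≤ 1} with hB
  have hBc : Continuous fun c : J → ℝ => ∑ j, |c j| := by fun_prop
  have hBclosed : IsClosed B := isClosed_le hBc continuous_const
  have hBbdd : Bornology.IsBounded B := by
    refine (Metric.isBounded_closedBall (x := (0 : J → ℝ)) (r := 1)).subset ?_
    intro c hc
    rw [mem_closedBall_zero_iff, pi_norm_le_iff_of_nonneg zero_le_one]
    intro j
    rw [Real.norm_eq_abs]
    exact (Finset.single_le_sum (f := fun j => |c j|) (fun _ _ => abs_nonneg _)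
      (Finset.mem_univ j)).trans hc
  have hBcomp : IsCompact B := Metric.isCompact_of_isClosed_isBounded hBclosed hBbdd
  have hBconv : Convex ℝ B := by
    intro c hc d hd s t hs ht hst
    show ∑ j, |(s • c + t • d) j| ≤ 1
    calc ∑ j, |(s • c + t • d) j| ≤ ∑ j, (s * |c j| + t * |d j|) := by
          refine Finset.sum_le_sum fun j _ => ?_
          simp only [Pi.add_apply, Pi.smul_apply, smul_eq_mul]
          calc |s * c j + t * d j| ≤ |s * c j| + |t * d j| := abs_add_le _ _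
            _ = s * |c j| + t * |d j| := by rw [abs_mul, abs_mul, abs_of_nonneg hs, abs_of_nonneg ht]
      _ = s * ∑ j, |c j| + t * ∑ j, |d j| := by
          rw [Finset.sum_add_distrib, Finset.mul_sum, Finset.mul_sum]
      _ ≤ s * 1 + t * 1 := add_le_add (mul_le_mul_of_nonneg_left hc hs)
          (mul_le_mul_of_nonneg_left hd ht)
      _ = 1 := by linarith
  have hBnhds : B ∈ 𝓝 (0 : J → ℝ) := by
    have h0 : {c : J → ℝ | ∑ j, |c j| < 1} ∈ 𝓝 (0 : J → ℝ) := by
      refine (isOpen_lt hBc continuous_const).mem_nhds ?_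
      simp
    refine Filter.mem_of_superset h0 fun c hc => ?_
    have hc' : ∑ j, |c j| < 1 := hc
    exact hc'.le
  set K : Set (Eu N) := ψ '' B with hK
  have hKclosed : IsClosed K :=
    (hBcomp.image ψ.continuous_of_finiteDimensional).isClosed
  have hKconv : Convex ℝ K := hBconv.linear_image ψ
  have hKnhds : K ∈ 𝓝 (0 : Eu N) := by
    have := (ψ.isOpenMap_of_finiteDimensional hψ).image_mem_nhds hBnhds
    rwa [map_zero] at this
  have hKbal : Balanced ℝ K := by
    rintro a ha _ ⟨_, ⟨c, hc, rfl⟩, rfl⟩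
    refine ⟨a • c, ?_, by simp⟩
    show ∑ j, |(a • c) j| ≤ 1
    calc ∑ j, |(a • c) j| = |a| * ∑ j, |c j| := by
          rw [Finset.mul_sum]
          exact Finset.sum_congr rfl fun j _ => by simp [abs_mul]
      _ ≤ 1 * 1 := mul_le_mul (by rwa [Real.norm_eq_abs] at ha) hc
          (Finset.sum_nonneg fun _ _ => abs_nonneg _) zero_le_one
      _ = 1 := one_mul _
  refine ⟨gaugeSeminorm hKbal hKconv (absorbent_nhds_zero hKnhds), fun w => ?_⟩
  have h1 : gaugeSeminorm hKbal hKconv (absorbent_nhds_zero hKnhds) w = gauge K w := rfl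
  rw [h1, gauge_le_one_iff_mem_closure hKconv hKnhds, hKclosed.closure_eq]
  constructor
  · rintro ⟨c, hc, rfl⟩
    exact ⟨c, hc, rfl⟩
  · rintro ⟨c, hc, rfl⟩
    exact ⟨c, hc, rfl⟩

/-- The finite dimensional space. -/
theorem exists_space {J I : Type*} [Fintype J] [Fintype I] (M : (J → ℝ) →ₗ[ℝ] (I → ℝ)) :
    ∃ (N : ℕ) (ψ : (J → ℝ) →ₗ[ℝ] Eu N) (f : Eu N →ₗ[ℝ] (I → ℝ)), Function.Surjective ψ ∧
      (∀ c, f (ψ c) = M c) ∧ ∀ w, f w = 0 → w = 0 := by
  classical
  let φ : LinearMap.range M ≃ₗ[ℝ] Eu (Module.finrank ℝ (LinearMap.range M)) :=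
    LinearEquiv.ofFinrankEq _ _ (by simp)
  refine ⟨Module.finrank ℝ (LinearMap.range M), φ.toLinearMap ∘ₗ M.rangeRestrict,
    (LinearMap.range M).subtype ∘ₗ φ.symm.toLinearMap, ?_, ?_, ?_⟩
  · intro w
    obtain ⟨c, hc⟩ := M.surjective_rangeRestrict (φ.symm w)
    exact ⟨c, by simp [hc]⟩
  · intro c
    simp
  · intro w hw
    have h1 : φ.symm w = 0 := by
      apply Subtype.ext
      exact hw
    simpa using congrArg φ h1

end FD

theorem stmt_FD.{u, v} (h1 : Stmt_EXDN) (h2 : Stmt_ENB.{u, v}) : Stmt_FD.{u, v} := by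
  intro X Y _ _ _ _ T m y r δ hr hy hTy hsep
  classical
  -- the points
  have hx : ∀ j : Fin m × Fin m, ∃ x : X, ‖x‖ ≤ 1 ∧
      (j.1 ≠ j.2 → δ < y j.1 (T x) - y j.2 (T x)) := by
    intro j
    by_cases hj : j.1 = j.2
    · exact ⟨0, by simp, fun h => absurd hj h⟩
    · obtain ⟨x, hx1, hx2⟩ := ContinuousLinearMap.exists_lt_apply_of_lt_opNorm _ (hsep j.1 j.2 hj)
      have hval : (adj T (y j.1) - adj T (y j.2)) x = y j.1 (T x) - y j.2 (T x) := rfl
      rw [hval, Real.norm_eq_abs] at hx2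
      rcases lt_abs.1 hx2 with h | h
      · exact ⟨x, hx1.le, fun _ => h⟩
      · refine ⟨-x, by rw [norm_neg]; exact hx1.le, fun _ => ?_⟩
        simp only [map_neg]
        linarith
  choose x hx1 hx2 using hx
  -- the matrix
  let G : (Fin m × Fin m → ℝ) →ₗ[ℝ] X := Fintype.linearCombination ℝ x
  have hG : ∀ c, G c = ∑ j, c j • x j := fun c => Fintype.linearCombination_apply ℝ x c
  have hGn : ∀ c : Fin m × Fin m → ℝ, ∑ j, |c j| ≤ 1 → ‖G c‖ ≤ 1 := by
    intro c hc
    rw [hG]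
    refine (norm_sum_le _ _).trans (le_trans (Finset.sum_le_sum fun j _ => ?_) hc)
    rw [norm_smul, Real.norm_eq_abs]
    exact mul_le_of_le_one_right (abs_nonneg _) (hx1 j)
  obtain ⟨N, ψ, f, hψ, hfψ, hf0⟩ := FD.exists_space
    ((LinearMap.pi fun i => ((y i).comp T).toLinearMap) ∘ₗ G)
  have hfψ' : ∀ c i, f (ψ c) i = y i (T (G c)) := by
    intro c i
    rw [hfψ]
    rfl
  obtain ⟨U, hU⟩ := FD.exists_quot ψ hψ
  let V : Seminorm ℝ (Eu N) := (normSeminorm ℝ (Fin m → ℝ)).comp f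
  have hV : ∀ w, V w = ‖f w‖ := fun w => rfl
  -- `V ≤ r U`
  have hVU1 : ∀ w, U w ≤ 1 → V w ≤ r := by
    intro w hw
    obtain ⟨c, hc, rfl⟩ := (hU w).1 hw
    rw [hV, pi_norm_le_iff_of_nonneg hr.le]
    intro i
    rw [hfψ']
    have h3 : y i (T (G c)) = adj T (y i) (G c) := rfl
    rw [h3]
    calc ‖adj T (y i) (G c)‖ ≤ ‖adj T (y i)‖ * ‖G c‖ := ContinuousLinearMap.le_opNorm _ _
      _ ≤ r * 1 := mul_le_mul (hTy i) (hGn c hc) (norm_nonneg _) hr.le
      _ = r := mul_one r
  have hVU : ∀ w, V w ≤ r * U w := by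
    intro w
    have h3 : ∀ t : ℝ, U w < t → V w ≤ r * t := by
      intro t ht
      have ht0 : 0 < t := lt_of_le_of_lt (apply_nonneg U w) ht
      have h4 := hVU1 (t⁻¹ • w) (by
        rw [map_smul_eq_mul, Real.norm_of_nonneg (inv_nonneg.2 ht0.le)]
        calc t⁻¹ * U w ≤ t⁻¹ * t := mul_le_mul_of_nonneg_left ht.le (inv_nonneg.2 ht0.le)
          _ = 1 := inv_mul_cancel₀ ht0.ne')
      rw [map_smul_eq_mul, Real.norm_of_nonneg (inv_nonneg.2 ht0.le)] at h4
      calc V w = t * (t⁻¹ * V w) := by field_simp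
        _ ≤ t * r := mul_le_mul_of_nonneg_left h4 ht0.le
        _ = r * t := mul_comm _ _
    have h5 : V w / r ≤ U w := by
      refine le_of_forall_gt_imp_ge_of_dense (fun t ht => ?_)
      rw [div_le_iff₀ hr, mul_comm]
      exact h3 t ht
    rw [div_le_iff₀ hr] at h5
    linarith [mul_comm (U w) r]
  have hV0 : ∀ w, V w = 0 → w = 0 := by
    intro w hw
    rw [hV, norm_eq_zero] at hw
    exact hf0 w hw
  have hU0 : ∀ w, U w = 0 → w = 0 := by
    intro w hw
    refine hV0 w (le_antisymm ?_ (apply_nonneg V w))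
    have := hVU w
    rwa [hw, mul_zero] at this
  obtain ⟨U', hU'⟩ := h1 N U hU0
  obtain ⟨V', hV'⟩ := h1 N V hV0
  -- the functionals
  let F : Fin m → (Eu N →L[ℝ] ℝ) := fun i =>
    LinearMap.toContinuousLinearMap (LinearMap.proj i ∘ₗ f)
  have hz : ∀ (i : Fin m) (w : Eu N),
      ⟪w, (InnerProductSpace.toDual ℝ (Eu N)).symm (F i)⟫ = f w i := by
    intro i w
    rw [real_inner_comm, InnerProductSpace.toDual_symm_apply]
    rfl
  refine ⟨N, U', V', fun i => (InnerProductSpace.toDual ℝ (Eu N)).symm (F i), ?_, ?_, ?_, ?_⟩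
  · intro w
    rw [hU', hV']
    exact hVU w
  · intro k
    rw [hU', hV']
    obtain ⟨hen, -, hen0, -, -⟩ := h2 X Y T
    have h3 : ∀ ε : ℝ, en T k < ε → ent U V k ≤ 2 * ε := by
      intro ε hε
      have hε0 : 0 < ε := lt_of_le_of_lt (hen0 k) hε
      obtain ⟨w, hw⟩ := hen k ε hε
      -- the new centres
      let P : Fin (2 ^ k) → (Fin m × Fin m → ℝ) → Prop := fun i c =>
        ∑ j, |c j| ≤ 1 ∧ ‖T (G c) - w i‖ ≤ ε
      let v : Fin (2 ^ k) → Eu N := fun i => if h : ∃ c, P i c then ψ h.choose else 0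
      refine csInf_le ⟨0, fun _ hy => hy.1.le⟩ ⟨by positivity, v, fun u hu => ?_⟩
      obtain ⟨c, hc, rfl⟩ := (hU u).1 hu
      obtain ⟨i, hi⟩ := hw (G c) (hGn c hc)
      have hP : ∃ c, P i c := ⟨c, hc, hi⟩
      refine ⟨i, ?_⟩
      have hvi : v i = ψ hP.choose := dif_pos hP
      obtain ⟨hd1, hd2⟩ := hP.choose_spec
      rw [hvi, ← map_sub, hV, pi_norm_le_iff_of_nonneg (by positivity)]
      intro l
      rw [hfψ', map_sub, map_sub]
      have h4 : ‖T (G c) - T (G hP.choose)‖ ≤ 2 * ε := by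
        have h5 : T (G c) - T (G hP.choose) =
            (T (G c) - w i) - (T (G hP.choose) - w i) := by abel
        rw [h5]
        refine (norm_sub_le _ _).trans ?_
        linarith
      calc ‖y l (T (G c) - T (G hP.choose))‖
          ≤ ‖y l‖ * ‖T (G c) - T (G hP.choose)‖ := ContinuousLinearMap.le_opNorm _ _
        _ ≤ 1 * (2 * ε) := mul_le_mul (hy l) h4 (norm_nonneg _) zero_le_one
        _ = 2 * ε := one_mul _
    have h5 : ent U V k / 2 ≤ en T k := by
      refine le_of_forall_gt_imp_ge_of_dense (fun ε hε => ?_)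
      linarith [h3 ε hε]
    linarith
  · intro i
    obtain ⟨u, hu, he⟩ := V'.att_q ((InnerProductSpace.toDual ℝ (Eu N)).symm (F i))
    rw [← he, hz]
    rw [hV', hV] at hu
    exact (le_abs_self _).trans ((norm_le_pi_norm (f u) i).trans hu)
  · intro i j hij
    have hc : ∑ l, |(Pi.single (i, j) (1 : ℝ) : Fin m × Fin m → ℝ) l| ≤ 1 := by
      rw [Finset.sum_eq_single (i, j)]
      · simp
      · intro b _ hb
        simp [hb]
      · intro h
        exact absurd (Finset.mem_univ _) h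
    have hUw : U'.p (ψ (Pi.single (i, j) (1 : ℝ))) ≤ 1 := by
      rw [hU']
      exact (hU _).2 ⟨_, hc, rfl⟩
    have hGs : G (Pi.single (i, j) (1 : ℝ)) = x (i, j) := by
      rw [hG, Finset.sum_eq_single (i, j)]
      · simp
      · intro b _ hb
        simp [hb]
      · intro h
        exact absurd (Finset.mem_univ _) h
    have hle := U'.le (ψ (Pi.single (i, j) (1 : ℝ)))
      ((InnerProductSpace.toDual ℝ (Eu N)).symm (F i) -
        (InnerProductSpace.toDual ℝ (Eu N)).symm (F j))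
    rw [inner_sub_right, hz, hz, hfψ', hfψ', hGs] at hle
    have hgt := hx2 (i, j) hij
    simp only at hgt
    calc δ < y i (T (x (i, j))) - y j (T (x (i, j))) := hgt
      _ ≤ _ := hle
      _ ≤ 1 * U'.q ((InnerProductSpace.toDual ℝ (Eu N)).symm (F i) -
        (InnerProductSpace.toDual ℝ (Eu N)).symm (F j)) :=
          mul_le_mul_of_nonneg_right hUw (apply_nonneg _ _)
      _ = _ := one_mul _

end Pool.PQ
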