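import Pool.Agent.Work.MP_c13439_pq.Quant

/-!
# Block RATE: rates of the entropy numbers of the adjoint
-/

namespace Pool.PQ

namespace RATE

theorem key {α q b x v : ℝ} (hα : 1 < α) (hq : 1 / α ≤ q) (hb : 0 < b) (hx : 0 < x)
    (hv : 0 ≤ v) (hvu : v ≤ b * x ^ (-α)) : x * min 1 v ^ q ≤ b ^ (1 / α) := by
  have hα0 : 0 < α := by linarith
  have hq0 : 0 < q := lt_of_lt_of_le (by positivity) hq
  have hu : 0 < b * x ^ (-α) := mul_pos hb (Real.rpow_pos_of_pos hx _)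
  have h0 : 0 ≤ min 1 v := le_min zero_le_one hv
  have h1 : min 1 v ^ q ≤ min 1 (b * x ^ (-α)) ^ q :=
    Real.rpow_le_rpow h0 (min_le_min_left _ hvu) hq0.le
  have h2 : min 1 (b * x ^ (-α)) ^ q ≤ min 1 (b * x ^ (-α)) ^ (1 / α) :=
    Real.rpow_le_rpow_of_exponent_ge (lt_min zero_lt_one hu) (min_le_left _ _) hq
  have h3 : min 1 (b * x ^ (-α)) ^ (1 / α) ≤ (b * x ^ (-α)) ^ (1 / α) :=
    Real.rpow_le_rpow (le_min zero_le_one hu.le) (min_le_right _ _) (by positivity)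
  have h4 : (b * x ^ (-α)) ^ (1 / α) = b ^ (1 / α) * x⁻¹ := by
    rw [Real.mul_rpow hb.le (Real.rpow_nonneg hx.le _), ← Real.rpow_mul hx.le]
    have : -α * (1 / α) = -1 := by field_simp
    rw [this, Real.rpow_neg_one]
  calc x * min 1 v ^ q ≤ x * (b ^ (1 / α) * x⁻¹) :=
        mul_le_mul_of_nonneg_left (((h1.trans h2).trans h3).trans h4.le) hx.le
    _ = b ^ (1 / α) := by field_simp

theorem norm_le_en.{u, v} {X : Type u} {Y : Type v} [NormedAddCommGroup X] [NormedSpace ℝ X]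
    [NormedAddCommGroup Y] [NormedSpace ℝ Y] (h3 : Stmt_ENB.{u, v}) (T : X →L[ℝ] Y) : ‖T‖ ≤ en T 0 := by
  obtain ⟨h1, -, h0, -, -⟩ := h3 X Y T
  refine le_of_forall_pos_le_add fun δ hδ => ?_
  obtain ⟨w, hw⟩ := h1 0 (en T 0 + δ) (by linarith)
  have hball : ∀ x : X, ‖x‖ ≤ 1 → ‖T x‖ ≤ en T 0 + δ := by
    intro x hx
    obtain ⟨i, hi⟩ := hw x hx
    obtain ⟨j, hj⟩ := hw (-x) (by rwa [norm_neg])
    have hij : i = j := by
      apply Fin.ext
      have h2 : i.val < 2 ^ 0 := i.2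
      have h4 : j.val < 2 ^ 0 := j.2
      have h5 : (2 : ℕ) ^ 0 = 1 := pow_zero 2
      omega
    rw [← hij] at hj
    have h5 : (2 : ℝ) • T x = (T x - w i) - (T (-x) - w i) := by
      rw [map_neg, two_smul]; abel
    have h6 : ‖(2 : ℝ) • T x‖ ≤ (en T 0 + δ) + (en T 0 + δ) := by
      rw [h5]
      exact (norm_sub_le _ _).trans (add_le_add hi hj)
    rw [norm_smul, Real.norm_of_nonneg (by norm_num : (0 : ℝ) ≤ 2)] at h6
    linarith
  refine T.opNorm_le_of_unit_norm (by linarith [h0 0]) fun x hx => hball x hx.le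

theorem adj_norm_le {X Y : Type*} [NormedAddCommGroup X] [NormedSpace ℝ X] [NormedAddCommGroup Y]
    [NormedSpace ℝ Y] (T : X →L[ℝ] Y) : ‖adj T‖ ≤ ‖T‖ := by
  refine ContinuousLinearMap.opNorm_le_bound _ (norm_nonneg _) fun y => ?_
  have h1 : adj T y = y.comp T := rfl
  rw [h1, mul_comm]
  exact ContinuousLinearMap.opNorm_comp_le _ _

end RATE

open RATE in
/-- RATE -/
theorem stmt_RATE.{u, v} (h1 : Stmt_LOC.{u, v}) (h2 : Stmt_RATS) (h3 : Stmt_ENB.{u, v})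
    (h4 : Stmt_ENB.{v, u}) : Stmt_RATE.{u, v} := by
  intro α hα
  have hα0 : 0 < α := by linarith
  have hinv : 1 / α < 1 := by rw [div_lt_one hα0]; exact hα
  have hinv0 : 0 < 1 / α := by positivity
  obtain ⟨q, hq⟩ : ∃ q, q = (1 + 1 / α) / 2 := ⟨_, rfl⟩
  have hq0 : 0 < q := by rw [hq]; linarith
  have hq1 : q < 1 := by rw [hq]; linarith
  have hqa : 1 / α ≤ q := by rw [hq]; linarith
  obtain ⟨C1, hC1, hloc⟩ := h1 q hq0 hq1
  obtain ⟨C, hC, hrat⟩ := h2 α (8 * C1) hα (by linarith)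
  refine ⟨C, hC, fun X Y _ _ _ _ T M hM => ?_⟩
  obtain ⟨-, -, hT0, hTa, -⟩ := h3 X Y T
  obtain ⟨-, -, hA0, hAa, hAn⟩ := h4 _ _ (adj T)
  have hM0 : en T 0 ≤ M := by
    have := hM 0
    simpa using this
  have hTn := norm_le_en h3 T
  by_cases hT : ‖T‖ = 0
  · intro n
    have e1 : en (adj T) n ≤ 0 := (hAa (Nat.zero_le n)).trans
      (hAn.trans ((adj_norm_le T).trans hT.le))
    have hM1 : 0 ≤ M := (hT0 0).trans hM0
    refine e1.trans ?_
    have : 0 ≤ ((n : ℝ) + 1) ^ (-α) := Real.rpow_nonneg (by positivity) _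
    positivity
  have hTp : 0 < ‖T‖ := lt_of_le_of_ne (norm_nonneg _) (Ne.symm hT)
  have hMp : 0 < M := lt_of_lt_of_le hTp (hTn.trans hM0)
  obtain ⟨h, hh⟩ : ∃ h, h = 2 * ‖T‖ := ⟨_, rfl⟩
  have hhp : 0 < h := by rw [hh]; positivity
  have hhM : h ≤ 2 * M := by rw [hh]; linarith [hTn.trans hM0]
  have hbase : ∀ j : ℕ, 0 < (2 : ℝ) ^ j * M / h := fun j => by positivity
  -- the numbers A j
  obtain ⟨A, hA⟩ : ∃ A : ℕ → ℝ, ∀ j, A j = (2 ^ (j + 1) * (2 / h) * M) ^ (1 / α) :=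
    ⟨_, fun j => rfl⟩
  have hb1 : ∀ j : ℕ, 1 ≤ (2 : ℝ) ^ (j + 1) * (2 / h) * M := by
    intro j
    have e1 : (1 : ℝ) ≤ 2 ^ (j + 1) := one_le_pow₀ (by norm_num)
    have e2 : 1 ≤ 2 / h * M := by
      rw [div_mul_eq_mul_div, le_div_iff₀ hhp]
      linarith
    rw [mul_assoc]
    nlinarith
  have hA1 : ∀ j, 1 ≤ A j := by
    intro j
    rw [hA]
    exact Real.one_le_rpow (hb1 j) hinv0.le
  have hA2 : ∀ j, A j ≤ 4 * (2 ^ j * M / h) ^ (1 / α) := by
    intro j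
    have e1 : (2 : ℝ) ^ (j + 1) * (2 / h) * M = 4 * (2 ^ j * M / h) := by
      rw [pow_succ]; field_simp; ring
    rw [hA, e1, Real.mul_rpow (by norm_num) (hbase j).le]
    refine mul_le_mul_of_nonneg_right ?_ (Real.rpow_nonneg (hbase j).le _)
    calc (4 : ℝ) ^ (1 / α) ≤ 4 ^ (1 : ℝ) :=
          Real.rpow_le_rpow_of_exponent_le (by norm_num) hinv.le
      _ = 4 := Real.rpow_one 4
  refine hrat (en (adj T)) h M (fun j => ⌈C1 * A j⌉₊) hhp hhM hA0 hAa ?_ ?_ ?_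
  · refine lt_of_le_of_lt (hAn.trans (adj_norm_le T)) ?_
    rw [hh]; linarith
  · intro j k hk
    have e1 : h / 2 ^ (j + 1) < h / 2 ^ j := by
      rw [pow_succ]
      have : 0 < h / 2 ^ j := by positivity
      have e2 : h / (2 ^ j * 2) = h / 2 ^ j / 2 := by rw [div_div]
      rw [e2]; linarith
    obtain ⟨h', hh1, hh2⟩ := exists_between (max_lt hk e1)
    have hh3 : h / 2 ^ (j + 1) < h' := lt_of_le_of_lt (le_max_right _ _) hh1
    have hh4 : en (adj T) k < h' := lt_of_le_of_lt (le_max_left _ _) hh1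
    have hh0 : 0 < h' := lt_trans (by positivity) hh3
    have e3 : en (adj T) (k + ⌈C1 * A j⌉₊) ≤ h' / 2 := by
      refine hloc X Y T h' (A j) hh0 (hA1 j) ?_ k _ (Nat.le_ceil _) hh4
      intro i
      rw [hA]
      refine key hα hqa (lt_of_lt_of_le zero_lt_one (hb1 j)) (by positivity)
        (div_nonneg (mul_nonneg (by norm_num) (hT0 i)) hh0.le) ?_
      have e4 : 2 * en T i / h' ≤ 2 * en T i / (h / 2 ^ (j + 1)) :=
        div_le_div_of_nonneg_left (mul_nonneg (by norm_num) (hT0 i)) (by positivity) hh3.le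
      have e5 : 2 * en T i / (h / 2 ^ (j + 1)) = 2 ^ (j + 1) * (2 / h) * en T i := by
        field_simp
      rw [e5] at e4
      refine e4.trans ?_
      rw [mul_assoc (2 ^ (j + 1) * (2 / h)) M]
      exact mul_le_mul_of_nonneg_left (hM i) (by positivity)
    have e6 : h / 2 ^ (j + 1) = h / 2 ^ j / 2 := by rw [pow_succ, div_div]
    rw [e6]
    linarith
  · intro j
    have e1 : ((⌈C1 * A j⌉₊ : ℕ) : ℝ) < C1 * A j + 1 :=
      Nat.ceil_lt_add_one (by nlinarith [hA1 j])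
    have e2 := hA1 j
    have e3 := hA2 j
    have e4 : C1 * A j ≤ C1 * (4 * (2 ^ j * M / h) ^ (1 / α)) :=
      mul_le_mul_of_nonneg_left e3 (by linarith)
    have e5 : (1 : ℝ) ≤ C1 * A j := by nlinarith
    show ((⌈C1 * A j⌉₊ : ℕ) : ℝ) ≤ 8 * C1 * (2 ^ j * M / h) ^ (1 / α)
    linarith

end Pool.PQ
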