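import Pool.Agent.Work.MP_c13439_pq.Quant
import Pool.Agent.Work.MP_c13439_pq.RATE

/-! Block FWDQ. -/

namespace Pool.PQ

namespace FwdQ

theorem min_step {e h h' c q : ℝ} (j : ℕ) (hq : 0 ≤ q) (h0 : 0 ≤ e) (hpos : 0 < h)
    (hc : c = 2 / h) (h1 : h / 2 ^ (j + 1) < h') :
    min 1 (2 * e / h') ^ q ≤ min 1 (2 ^ (j + 1) * c * e) ^ q := by
  have hp : (0 : ℝ) < 2 ^ (j + 1) := by positivity
  have hh' : 0 < h' := lt_trans (by positivity) h1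
  have e1 : 2 * e / h' ≤ 2 ^ (j + 1) * c * e := by
    have e2 : 2 ^ (j + 1) * c * e = 2 * e / (h / 2 ^ (j + 1)) := by
      rw [hc]; field_simp
    rw [e2]
    exact div_le_div_of_nonneg_left (by positivity) (by positivity) h1.le
  refine Real.rpow_le_rpow ?_ (min_le_min_left 1 e1) hq
  exact le_min zero_le_one (div_nonneg (by positivity) hh'.le)

end FwdQ

theorem stmt_FWDQ.{u, v} (h1 : Stmt_LOC.{u, v}) (h2 : Stmt_LAYAQ) (h3 : Stmt_LAYBQ)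
    (h4 : Stmt_ENB.{u, v}) (h5 : Stmt_ENB.{v, u}) : Stmt_FWDQ.{u, v} := by
  intro p hp hp1
  have hq1 : (1 + p) / 2 < 1 := by linarith
  have hq0 : 0 < (1 + p) / 2 := by linarith
  have hpq : p < (1 + p) / 2 := by linarith
  obtain ⟨C1, hC1, hloc⟩ := h1 ((1 + p) / 2) hq0 hq1
  obtain ⟨C2, hC2, hA⟩ := h2 p ((1 + p) / 2) hp hpq
  obtain ⟨C3, hC3, hB⟩ := h3 p hp
  have h2p : (1 : ℝ) ≤ 2 ^ p := Real.one_le_rpow (by norm_num) hp.le
  refine ⟨C3 * ((C1 + 1) * C2) * (2 ^ p + 2 ^ p), ?_, fun X Y _ _ _ _ T hs => ?_⟩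
  · have a1 : 1 ≤ (C1 + 1) * C2 := by nlinarith
    have a2 : 1 ≤ C3 * ((C1 + 1) * C2) := by nlinarith
    nlinarith
  obtain ⟨-, -, en0, enA, -⟩ := h4 X Y T
  obtain ⟨-, -, fn0, fnA, fnT⟩ := h5 (Y →L[ℝ] ℝ) (X →L[ℝ] ℝ) (adj T)
  have hTn := RATE.norm_le_en h4 T
  have hadj := RATE.adj_norm_le T
  have hS0 : 0 ≤ ∑' n, en T n ^ p := tsum_nonneg fun n => Real.rpow_nonneg (en0 n) p
  by_cases hT : ‖T‖ = 0
  · have hz : ∀ n, en (adj T) n = 0 := fun n => le_antisymm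
      ((fnA (Nat.zero_le n)).trans (fnT.trans (hadj.trans hT.le))) (fn0 n)
    have hz2 : ∀ n : ℕ, en (adj T) n ^ p = 0 := fun n => by rw [hz n, Real.zero_rpow hp.ne']
    refine ⟨by simp only [hz2]; exact summable_zero, ?_⟩
    simp only [hz2, tsum_zero]
    positivity
  have hTp : 0 < ‖T‖ := lt_of_le_of_ne (norm_nonneg _) (Ne.symm hT)
  set h : ℝ := 2 * ‖T‖ with hh
  have hpos : 0 < h := by positivity
  obtain ⟨A, hA1, hA2, hA3, hA4⟩ := hA (en T) (2 / h) (by positivity) en0 enA hs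
  have hf0 : en (adj T) 0 < h := by
    rw [hh]; linarith
  have hceil : ∀ j, ((⌈C1 * A j⌉₊ : ℕ) : ℝ) ≤ (C1 + 1) * A j := by
    intro j
    have h6 := Nat.ceil_lt_add_one (show 0 ≤ C1 * A j from
      mul_nonneg (by linarith) (by linarith [hA1 j]))
    have h7 := hA1 j
    nlinarith
  have hle : ∀ j : ℕ, (2 : ℝ) ^ (-(p * j)) * ((⌈C1 * A j⌉₊ : ℕ) : ℝ) ≤
      (C1 + 1) * ((2 : ℝ) ^ (-(p * j)) * A j) := by
    intro j
    have h8 : (0 : ℝ) ≤ (2 : ℝ) ^ (-(p * j)) := Real.rpow_nonneg (by norm_num) _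
    calc (2 : ℝ) ^ (-(p * j)) * ((⌈C1 * A j⌉₊ : ℕ) : ℝ)
        ≤ (2 : ℝ) ^ (-(p * j)) * ((C1 + 1) * A j) := mul_le_mul_of_nonneg_left (hceil j) h8
      _ = (C1 + 1) * ((2 : ℝ) ^ (-(p * j)) * A j) := by ring
  have hsum : Summable fun j : ℕ => (2 : ℝ) ^ (-(p * j)) * ((⌈C1 * A j⌉₊ : ℕ) : ℝ) :=
    Summable.of_nonneg_of_le (fun j => mul_nonneg (Real.rpow_nonneg (by norm_num) _)
      (Nat.cast_nonneg _)) hle (hA3.mul_left (C1 + 1))
  have hstep : ∀ j k : ℕ, en (adj T) k < h / 2 ^ j →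
      en (adj T) (k + ⌈C1 * A j⌉₊) < h / 2 ^ (j + 1) := by
    intro j k hk
    have hlt : h / 2 ^ (j + 1) < h / 2 ^ j := by
      apply div_lt_div_of_pos_left hpos (by positivity)
      rw [pow_succ]
      have : (0 : ℝ) < 2 ^ j := by positivity
      linarith
    obtain ⟨h', hh1, hh2⟩ := exists_between (max_lt hk hlt)
    have ha := (le_max_left (en (adj T) k) (h / 2 ^ (j + 1))).trans_lt hh1
    have hb := (le_max_right (en (adj T) k) (h / 2 ^ (j + 1))).trans_lt hh1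
    have hh'0 : 0 < h' := lt_trans (by positivity) hb
    have hfin := hloc X Y T h' (A j) hh'0 (hA1 j) (fun i => by
      refine le_trans ?_ (hA2 j i)
      exact mul_le_mul_of_nonneg_left (FwdQ.min_step j hq0.le (en0 i) hpos rfl hb)
        (by positivity))
      k ⌈C1 * A j⌉₊ (Nat.le_ceil _) ha
    have e : h / 2 ^ (j + 1) = h / 2 ^ j / 2 := by rw [pow_succ, div_div]
    rw [e]
    exact lt_of_le_of_lt hfin (by linarith)
  obtain ⟨r1, r2⟩ := hB (en (adj T)) h (fun j => ⌈C1 * A j⌉₊) hpos fn0 fnA hf0 hstep hsum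
  refine ⟨r1, r2.trans ?_⟩
  have s1 : ∑' j : ℕ, (2 : ℝ) ^ (-(p * j)) * ((⌈C1 * A j⌉₊ : ℕ) : ℝ) ≤
      (C1 + 1) * (C2 * (1 + (2 / h) ^ p * ∑' n, en T n ^ p)) := by
    refine (hsum.tsum_le_tsum hle (hA3.mul_left (C1 + 1))).trans ?_
    rw [tsum_mul_left]
    exact mul_le_mul_of_nonneg_left hA4 (by linarith)
  have hhp : 0 ≤ h ^ p := Real.rpow_nonneg hpos.le p
  have s2 : h ^ p * (2 / h) ^ p = 2 ^ p := by
    rw [← Real.mul_rpow hpos.le (by positivity)]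
    congr 1
    field_simp
  have s3 : h ^ p ≤ 2 ^ p * ∑' n, en T n ^ p := by
    rw [hh, Real.mul_rpow (by norm_num) (norm_nonneg T)]
    refine mul_le_mul_of_nonneg_left ?_ (by positivity)
    refine (Real.rpow_le_rpow (norm_nonneg T) hTn hp.le).trans ?_
    exact hs.le_tsum 0 fun n _ => Real.rpow_nonneg (en0 n) p
  calc C3 * (h ^ p * ∑' j : ℕ, (2 : ℝ) ^ (-(p * j)) * ((⌈C1 * A j⌉₊ : ℕ) : ℝ))
      ≤ C3 * (h ^ p * ((C1 + 1) * (C2 * (1 + (2 / h) ^ p * ∑' n, en T n ^ p)))) := by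
        gcongr
    _ = C3 * ((C1 + 1) * C2) * (h ^ p + h ^ p * (2 / h) ^ p * ∑' n, en T n ^ p) := by ring
    _ = C3 * ((C1 + 1) * C2) * (h ^ p + 2 ^ p * ∑' n, en T n ^ p) := by rw [s2]
    _ ≤ C3 * ((C1 + 1) * C2) * (2 ^ p * (∑' n, en T n ^ p) + 2 ^ p * ∑' n, en T n ^ p) := by
        gcongr
    _ = C3 * ((C1 + 1) * C2) * (2 ^ p + 2 ^ p) * ∑' n, en T n ^ p := by ring

end Pool.PQ
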