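import Pool.Agent.Work.MP_c13439_pq.Interp

/-! Assembly of part (1). -/

open MeasureTheory ProbabilityTheory Polynomial
open scoped RealInnerProductSpace

namespace Pool.PQ

theorem Between.mono {N : ℕ} {θ C C' : ℝ} {X H Z : Seminorm ℝ (Eu N)} (h : Between θ C X H Z)
    (hC : C ≤ C') : Between θ C' X H Z where
  up z := (h.up z).trans (mul_le_mul_of_nonneg_right hC (mul_nonneg
    (Real.rpow_nonneg (apply_nonneg X z) _) (Real.rpow_nonneg (apply_nonneg H z) _)))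
  dec t ht z := by
    obtain ⟨x, h1, h2⟩ := h.dec t ht z
    exact ⟨x, h1.trans (mul_le_mul_of_nonneg_right hC (mul_nonneg (Real.rpow_nonneg ht.le _)
      (apply_nonneg Z z))), h2.trans (mul_le_mul_of_nonneg_right hC (mul_nonneg
      (Real.rpow_nonneg ht.le _) (apply_nonneg Z z)))⟩

theorem KConv.mono {N : ℕ} {K K' : ℝ} {Z : DN N} (h : KConv K Z) (hK : K ≤ K') : KConv K' Z :=
  fun A c hc hA => (h A c hc hA).trans (mul_le_mul_of_nonneg_right hK hc)

theorem stmt_INTERP (hZN : Stmt_ZNORM) (hZB : Stmt_ZBET) (hDB : Stmt_DBET) (hKS : Stmt_KSUM)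
    (hKC : Stmt_KCV) : Stmt_INTERP := by
  intro θ h0 h1
  obtain ⟨C, hC, hB⟩ := hZB θ h0 h1
  obtain ⟨K, hK, hP⟩ := hKS θ h0 h1
  refine ⟨max (2 * C) K, hK.trans (le_max_right _ _), fun N X H hH => ?_⟩
  obtain ⟨Z, hZ⟩ := (hZN N θ h0 h1 X H).2
  have hb := hB N X H Z hZ
  refine ⟨Z, hb.mono ?_, (hDB θ C h0 h1 hC N X H Z hb).mono (le_max_left _ _), ?_⟩
  · exact (by linarith : C ≤ 2 * C).trans (le_max_left _ _)
  · exact (hKC N Z K (by linarith) fun f hf V hV => hP N X H Z hH hZ f hf V hV).mono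
      (le_max_right _ _)

end Pool.PQ
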