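import Pool.Agent.Work.MP_c13439_pq.Interp

/-! # Block KCV: from functions to matrices -/

set_option autoImplicit false

open MeasureTheory ProbabilityTheory
open scoped RealInnerProductSpace ENNReal

namespace Pool.PQ

namespace KCV

variable {N : ℕ}

theorem cont (p : Seminorm ℝ (Eu N)) : Continuous p := by
  have h : ContinuousOn p Set.univ := p.convexOn.continuousOn isOpen_univ
  exact continuousOn_univ.1 h

theorem bdd (p : Seminorm ℝ (Eu N)) : ∃ C : ℝ, 0 ≤ C ∧ ∀ x, p x ≤ C * ‖x‖ := by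
  obtain ⟨C, hC, h⟩ := p.bound_of_continuous_normedSpace (cont p)
  exact ⟨C, hC.le, h⟩

theorem integrable_smul' {φ : Eu N → ℝ} {f : Eu N → Eu N} (h1 : MemLp φ 2 (gs N))
    (h2 : MemLp f 2 (gs N)) : Integrable (fun y => φ y • f y) (gs N) :=
  memLp_one_iff_integrable.1 (h2.smul h1)

/-- a finite norming set -/
theorem net (Z : DN N) {δ : ℝ} (hδ : δ < 1) : ∃ (m : ℕ) (w : Fin (m + 1) → Eu N),
    (∀ i, Z.p (w i) ≤ 1) ∧ ∀ u : Eu N, ∃ i, δ * Z.q u ≤ ⟪w i, u⟫ := by
  choose x hx1 hx2 using Z.att_q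
  have hc := cont Z.q
  have hS := isCompact_sphere (0 : Eu N) 1
  have hpos : ∀ u ∈ Metric.sphere (0 : Eu N) 1, 0 < Z.q u := by
    intro u hu
    refine lt_of_le_of_ne (apply_nonneg _ _) fun h => ?_
    have h1 := Z.dual.eq_zero (x := u) h.symm
    rw [mem_sphere_zero_iff_norm, h1, norm_zero] at hu
    exact zero_ne_one hu
  obtain ⟨t, htS, ht⟩ := hS.elim_nhds_subcover
    (fun u => {u' : Eu N | δ * Z.q u' < ⟪x u, u'⟫}) (by
      intro u hu
      refine IsOpen.mem_nhds (isOpen_lt (by fun_prop) (by fun_prop)) ?_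
      change δ * Z.q u < ⟪x u, u⟫
      rw [hx2]
      have := hpos u hu
      nlinarith)
  refine ⟨t.card, Fin.cons 0 fun i => x (t.equivFin.symm i), ?_, ?_⟩
  · intro i
    refine Fin.cases ?_ (fun i => ?_) i
    · simp
    · simp only [Fin.cons_succ]; exact hx1 _
  · intro u
    by_cases hu : u = 0
    · exact ⟨0, by simp [hu]⟩
    · have hn : 0 < ‖u‖ := norm_pos_iff.2 hu
      have h1 : ‖u‖⁻¹ • u ∈ Metric.sphere (0 : Eu N) 1 := by
        rw [mem_sphere_zero_iff_norm, norm_smul, norm_inv, norm_norm, inv_mul_cancel₀ hn.ne']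
      obtain ⟨u0, hu0, h2⟩ := Set.mem_iUnion₂.1 (ht h1)
      refine ⟨Fin.succ (t.equivFin ⟨u0, hu0⟩), ?_⟩
      simp only [Fin.cons_succ, Equiv.symm_apply_apply]
      have h3 : δ * Z.q (‖u‖⁻¹ • u) < ⟪x u0, ‖u‖⁻¹ • u⟫ := h2
      rw [map_smul_eq_mul, inner_smul_right, norm_inv, norm_norm] at h3
      have h4 : ‖u‖⁻¹ * (δ * Z.q u) < ‖u‖⁻¹ * ⟪x u0, u⟫ := by
        calc _ = δ * (‖u‖⁻¹ * Z.q u) := by ring
          _ < _ := h3
      exact (lt_of_mul_lt_mul_left h4 (inv_nonneg.2 hn.le)).le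

/-- measurable choice of a norming vector -/
theorem sel (Z : DN N) {δ : ℝ} (hδ : δ < 1) (B : Eu N →L[ℝ] Eu N) :
    ∃ (m : ℕ) (w : Fin (m + 1) → Eu N) (ι : Eu N → Fin (m + 1)), Measurable ι ∧
    (∀ i, Z.p (w i) ≤ 1) ∧ ∀ y : Eu N, δ * Z.q (B y) ≤ ⟪w (ι y), B y⟫ := by
  classical
  obtain ⟨m, w, hw1, hw2⟩ := net Z hδ
  have hp : ∀ y : Eu N, ∃ n : ℕ, ∃ h : n < m + 1, δ * Z.q (B y) ≤ ⟪w ⟨n, h⟩, B y⟫ := by
    intro y
    obtain ⟨i, hi⟩ := hw2 (B y)
    exact ⟨i, i.2, hi⟩
  refine ⟨m, w, fun y => ⟨Nat.find (hp y), (Nat.find_spec (hp y)).1⟩, ?_, hw1,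
    fun y => (Nat.find_spec (hp y)).2⟩
  have h1 : Measurable fun y => Nat.find (hp y) := by
    refine measurable_find hp fun k => ?_
    by_cases hk : k < m + 1
    · have h2 : {y : Eu N | ∃ h : k < m + 1, δ * Z.q (B y) ≤ ⟪w ⟨k, h⟩, B y⟫} =
          {y : Eu N | δ * Z.q (B y) ≤ ⟪w ⟨k, hk⟩, B y⟫} := by
        ext y
        exact ⟨fun ⟨_, h⟩ => h, fun h => ⟨hk, h⟩⟩
      rw [h2]
      have hc := cont Z.q
      exact (isClosed_le (by fun_prop) (by fun_prop)).measurableSet
    · have h2 : {y : Eu N | ∃ h : k < m + 1, δ * Z.q (B y) ≤ ⟪w ⟨k, h⟩, B y⟫} = ∅ := by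
        ext y
        simp [hk]
      rw [h2]
      exact MeasurableSet.empty
  refine measurable_to_countable' fun i => ?_
  have h3 : (fun y => (⟨Nat.find (hp y), (Nat.find_spec (hp y)).1⟩ : Fin (m + 1))) ⁻¹' {i} =
      (fun y => Nat.find (hp y)) ⁻¹' {(i : ℕ)} := by
    ext y
    simp only [Set.mem_preimage, Set.mem_singleton_iff, Fin.ext_iff]
  rw [h3]
  exact h1 (measurableSet_singleton _)

theorem memLp_q (q : Seminorm ℝ (Eu N)) (B : Eu N →L[ℝ] Eu N) :
    MemLp (fun y => q (B y)) 2 (gs N) := by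
  obtain ⟨C, hC, h⟩ := bdd q
  have hc := cont q
  refine (IsGaussian.memLp_id (gs N) 2 (by simp)).of_le_mul (c := C * ‖B‖)
    (by fun_prop) (Filter.Eventually.of_forall fun y => ?_)
  rw [Real.norm_of_nonneg (apply_nonneg _ _)]
  calc q (B y) ≤ C * ‖B y‖ := h _
    _ ≤ C * (‖B‖ * ‖y‖) := mul_le_mul_of_nonneg_left (B.le_opNorm y) hC
    _ = _ := by simp only [id]; ring

/-- the operator of a function -/
theorem exists_op {f : Eu N → Eu N} (hf : MemLp f 2 (gs N)) : ∃ V : Eu N →L[ℝ] Eu N,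
    ∀ h, V h = ∫ y, ⟪h, y⟫ • f y ∂gs N := by
  have hi : ∀ h : Eu N, Integrable (fun y => ⟪h, y⟫ • f y) (gs N) := by
    intro h
    have h1 : MemLp (fun y : Eu N => ⟪h, y⟫) 2 (gs N) :=
      IsGaussian.memLp_dual (gs N) (innerSL ℝ h) 2 (by simp)
    exact integrable_smul' h1 hf
  let V : Eu N →ₗ[ℝ] Eu N :=
    { toFun := fun h => ∫ y, ⟪h, y⟫ • f y ∂gs N
      map_add' := by
        intro a b
        rw [← integral_add (hi a) (hi b)]
        refine integral_congr_ae (Filter.Eventually.of_forall fun y => ?_)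
        simp only [inner_add_left, add_smul]
      map_smul' := by
        intro c a
        rw [RingHom.id_apply, ← integral_smul]
        refine integral_congr_ae (Filter.Eventually.of_forall fun y => ?_)
        simp only [inner_smul_left, conj_trivial, mul_smul] }
  exact ⟨LinearMap.toContinuousLinearMap V, fun h => rfl⟩

theorem trace_op {f : Eu N → Eu N} (hf : MemLp f 2 (gs N)) (A V : Eu N →L[ℝ] Eu N)
    (hV : ∀ h, V h = ∫ y, ⟪h, y⟫ • f y ∂gs N) :
    LinearMap.trace ℝ (Eu N) (A ∘L V).toLinearMap =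
      ∫ y, ⟪ContinuousLinearMap.adjoint A y, f y⟫ ∂gs N := by
  have hi : ∀ h : Eu N, Integrable (fun y => ⟪h, y⟫ • f y) (gs N) := by
    intro h
    have h1 : MemLp (fun y : Eu N => ⟪h, y⟫) 2 (gs N) :=
      IsGaussian.memLp_dual (gs N) (innerSL ℝ h) 2 (by simp)
    exact integrable_smul' h1 hf
  rw [LinearMap.trace_eq_sum_inner _ (EuclideanSpace.basisFun (Fin N) ℝ)]
  have h1 : ∀ i : Fin N, ⟪EuclideanSpace.basisFun (Fin N) ℝ i,
      (A ∘L V).toLinearMap (EuclideanSpace.basisFun (Fin N) ℝ i)⟫ =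
      ∫ y, ⟪EuclideanSpace.basisFun (Fin N) ℝ i, y⟫ *
        ⟪ContinuousLinearMap.adjoint A (EuclideanSpace.basisFun (Fin N) ℝ i), f y⟫ ∂gs N := by
    intro i
    change ⟪EuclideanSpace.basisFun (Fin N) ℝ i, A (V (EuclideanSpace.basisFun (Fin N) ℝ i))⟫ = _
    rw [← ContinuousLinearMap.adjoint_inner_left, hV, ← integral_inner (hi _)]
    refine integral_congr_ae (Filter.Eventually.of_forall fun y => ?_)
    simp only [inner_smul_right]
  rw [Finset.sum_congr rfl fun i _ => h1 i, ← integral_finsetSum]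
  · refine integral_congr_ae (Filter.Eventually.of_forall fun y => ?_)
    simp only
    have h3 : ContinuousLinearMap.adjoint A y = ∑ i, ⟪EuclideanSpace.basisFun (Fin N) ℝ i, y⟫ •
        ContinuousLinearMap.adjoint A (EuclideanSpace.basisFun (Fin N) ℝ i) := by
      conv_lhs => rw [← (EuclideanSpace.basisFun (Fin N) ℝ).sum_repr' y]
      rw [map_sum]
      exact Finset.sum_congr rfl fun i _ => map_smul _ _ _
    rw [h3, sum_inner]
    refine Finset.sum_congr rfl fun i _ => ?_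
    rw [inner_smul_left, conj_trivial]
  · intro i _
    have h2 := (hi (EuclideanSpace.basisFun (Fin N) ℝ i)).const_inner (𝕜 := ℝ)
      (ContinuousLinearMap.adjoint A (EuclideanSpace.basisFun (Fin N) ℝ i))
    refine h2.congr (Filter.Eventually.of_forall fun y => ?_)
    simp only [inner_smul_right]

end KCV

/-- Block KCV. -/
theorem stmt_KCV : Stmt_KCV := by
  intro N Z K hK hyp A c hc hA
  set B := ContinuousLinearMap.adjoint A with hB
  set L := ell Z.q B with hL
  have hL0 : 0 ≤ L := Real.sqrt_nonneg _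
  have hs := KCV.memLp_q Z.q B
  have hL2 : L ^ 2 = ∫ y, Z.q (B y) ^ 2 ∂gs N := by
    rw [hL, ell, Real.sq_sqrt (integral_nonneg fun y => sq_nonneg _)]
  have key : ∀ δ : ℝ, 0 ≤ δ → δ < 1 → δ * L ^ 2 ≤ c * (K * L) := by
    intro δ hδ0 hδ
    obtain ⟨m, w, ι, hι, hw, hsel⟩ := KCV.sel Z hδ B
    set f : Eu N → Eu N := fun y => Z.q (B y) • w (ι y) with hf
    have hfL : MemLp f 2 (gs N) := by
      obtain ⟨C, hC⟩ : ∃ C : ℝ, ∀ i, ‖w i‖ ≤ C :=
        ⟨∑ i, ‖w i‖, fun i => Finset.single_le_sum (f := fun i => ‖w i‖)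
          (fun i _ => norm_nonneg _) (Finset.mem_univ i)⟩
      refine hs.of_le_mul (c := C) ?_ (Filter.Eventually.of_forall fun y => ?_)
      · have h1 : Measurable fun y => w (ι y) := (measurable_of_countable w).comp hι
        exact hs.1.smul h1.aestronglyMeasurable
      · rw [norm_smul, mul_comm]
        exact mul_le_mul_of_nonneg_right (hC _) (norm_nonneg _)
    obtain ⟨V, hV⟩ := KCV.exists_op hfL
    have hV' : ∀ h, V h = ∫ y, ⟪h, y⟫ • (hfL.toLp f : Eu N → Eu N) y ∂gs N := by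
      intro h
      rw [hV]
      refine integral_congr_ae ?_
      filter_upwards [hfL.coeFn_toLp] with y hy
      rw [hy]
    have h1 := hyp (hfL.toLp f) ⟨m + 1, w, ι, fun y => Z.q (B y), hι, hs, hfL.coeFn_toLp⟩ V hV'
    have h2 : nrm Z.p (hfL.toLp f) ≤ L := by
      rw [nrm, hL, ell]
      refine Real.sqrt_le_sqrt ?_
      refine integral_mono_of_nonneg (Filter.Eventually.of_forall fun y => sq_nonneg _)
        hs.integrable_sq ?_
      filter_upwards [hfL.coeFn_toLp] with y hy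
      rw [hy, hf]
      simp only [map_smul_eq_mul, Real.norm_of_nonneg (apply_nonneg Z.q (B y))]
      have h3 := hw (ι y)
      have h4 := apply_nonneg Z.q (B y)
      have h5 := apply_nonneg Z.p (w (ι y))
      refine pow_le_pow_left₀ (mul_nonneg h4 h5) ?_ 2
      nlinarith
    have h3 := hA V
    rw [KCV.trace_op hfL A V hV, ← hB] at h3
    have h4 : δ * L ^ 2 ≤ ∫ y, ⟪B y, f y⟫ ∂gs N := by
      rw [hL2, ← integral_const_mul]
      refine integral_mono_ae (hs.integrable_sq.const_mul δ) ?_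
        (Filter.Eventually.of_forall fun y => ?_)
      · have hBL : MemLp (fun y => B y) 2 (gs N) :=
          B.comp_memLp' (IsGaussian.memLp_id (gs N) 2 (by simp))
        refine (L2.integrable_inner (𝕜 := ℝ) (hBL.toLp _) (hfL.toLp _)).congr ?_
        filter_upwards [hBL.coeFn_toLp, hfL.coeFn_toLp] with y h1 h2
        rw [h1, h2]
      · simp only [hf]
        rw [inner_smul_right, real_inner_comm]
        have h5 := hsel y
        have h6 := apply_nonneg Z.q (B y)
        nlinarith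
    calc δ * L ^ 2 ≤ c * ell Z.p V := h4.trans h3
      _ ≤ c * (K * nrm Z.p (hfL.toLp f)) := mul_le_mul_of_nonneg_left h1 hc
      _ ≤ c * (K * L) := mul_le_mul_of_nonneg_left (mul_le_mul_of_nonneg_left h2 hK) hc
  rcases hL0.eq_or_lt with h | h
  · rw [← h]; positivity
  · have key2 : ∀ δ : ℝ, 0 ≤ δ → δ < 1 → δ * L ≤ K * c := by
      intro δ h0 h1
      have h2 := key δ h0 h1
      have h3 : (δ * L) * L ≤ (K * c) * L := by nlinarith
      exact le_of_mul_le_mul_right h3 h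
    by_contra hcon
    rw [not_le] at hcon
    have hKc : 0 ≤ K * c := mul_nonneg hK hc
    have h5 := key2 ((K * c / L + 1) / 2) (by positivity) (by
      have : K * c / L < 1 := by rw [div_lt_one h]; exact hcon
      linarith)
    have h6 : (K * c / L + 1) / 2 * L = (K * c + L) / 2 := by field_simp
    rw [h6] at h5
    linarith

end Pool.PQ
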