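import Pool.Agent.Work.MP_c13439_pq.Interp

/-!
# Block KPOL: from `L_2(γ; X)` and `L_2(γ; H)` to `L_2(γ; Z)`
-/

open MeasureTheory ProbabilityTheory Polynomial
open scoped RealInnerProductSpace

namespace Pool.PQ

namespace KPOL

variable {N : ℕ}

theorem cont (p : Seminorm ℝ (Eu N)) : Continuous p :=
  continuousOn_univ.1 (ConvexOn.continuousOn isOpen_univ p.convexOn)

theorem memLp (p : Seminorm ℝ (Eu N)) (f : L2 N) : MemLp (fun x => p (f x)) 2 (gs N) := by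
  obtain ⟨c, hc, h⟩ := Seminorm.bound_of_continuous_normedSpace p (cont p)
  refine MemLp.of_le_mul (c := c) (Lp.memLp f)
    ((cont p).comp_aestronglyMeasurable (Lp.aestronglyMeasurable f)) ?_
  refine Filter.Eventually.of_forall fun x => ?_
  rw [Real.norm_of_nonneg (apply_nonneg _ _)]
  exact h _

theorem int_sq (p : Seminorm ℝ (Eu N)) (f : L2 N) :
    Integrable (fun x => p (f x) ^ 2) (gs N) := (memLp p f).integrable_sq

theorem nrm_sq (p : Seminorm ℝ (Eu N)) (f : L2 N) : nrm p f ^ 2 = ∫ x, p (f x) ^ 2 ∂gs N := by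
  unfold nrm
  exact Real.sq_sqrt (integral_nonneg fun x => sq_nonneg _)

theorem nrm_nonneg (p : Seminorm ℝ (Eu N)) (f : L2 N) : 0 ≤ nrm p f := Real.sqrt_nonneg _

theorem memLp_fin {n : ℕ} (a : Fin n → Eu N) {ι : Eu N → Fin n} (hι : Measurable ι)
    {s : Eu N → ℝ} (hs : MemLp s 2 (gs N)) : MemLp (fun y => s y • a (ι y)) 2 (gs N) := by
  have ha : Measurable fun y => a (ι y) := (measurable_of_countable a).comp hι
  refine MemLp.of_le_mul (c := ∑ i, ‖a i‖) hs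
    (hs.aestronglyMeasurable.smul ha.aestronglyMeasurable) ?_
  refine Filter.Eventually.of_forall fun y => ?_
  rw [norm_smul, mul_comm]
  refine mul_le_mul_of_nonneg_right ?_ (norm_nonneg _)
  exact Finset.single_le_sum (f := fun i => ‖a i‖) (fun i _ => norm_nonneg _)
    (Finset.mem_univ (ι y))

theorem kfun_sq_le (X H : Seminorm ℝ (Eu N)) (t : ℝ) (z x : Eu N) :
    kfun X H t z ^ 2 ≤ X x ^ 2 + (t * H (z - x)) ^ 2 := by
  have h0 : 0 ≤ kfun X H t z := Real.iInf_nonneg fun _ => Real.sqrt_nonneg _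
  have h1 : kfun X H t z ≤ Real.sqrt (X x ^ 2 + (t * H (z - x)) ^ 2) :=
    ciInf_le ⟨0, by rintro _ ⟨x, rfl⟩; exact Real.sqrt_nonneg _⟩ x
  calc kfun X H t z ^ 2 ≤ Real.sqrt (X x ^ 2 + (t * H (z - x)) ^ 2) ^ 2 :=
        pow_le_pow_left₀ h0 h1 2
    _ = _ := Real.sq_sqrt (by positivity)

theorem level (h1 : Stmt_KT) (X H : DN N) (U : L2 N →L[ℝ] L2 N) (M : ℝ) (m : ℕ) (hM : 0 ≤ M)
    (hX : ∀ f, nrm X.p (U f) ≤ M * nrm X.p f)
    (hH : ∀ f, nrm H.p (U f) ≤ M * (1 / 2 : ℝ) ^ m * nrm H.p f) (f : L2 N) (hf : Fin2 f)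
    (t : ℝ) (ht : 0 < t) :
    ∫ y, kfun X.p H.p t (U f y) ^ 2 ∂gs N ≤
      M ^ 2 * ∫ y, kfun X.p H.p (t * (1 / 2 : ℝ) ^ m) (f y) ^ 2 ∂gs N := by
  obtain ⟨n, v, ι, s, hι, hs, hfe⟩ := hf
  have ht' : 0 < t * (1 / 2 : ℝ) ^ m := by positivity
  obtain ⟨t', htt⟩ : ∃ t', t' = t * (1 / 2 : ℝ) ^ m := ⟨_, rfl⟩
  rw [← htt] at ht' ⊢
  obtain ⟨⟨k, hk, -⟩, -, -, -⟩ := h1 N X H t ht
  obtain ⟨⟨k', hk', -⟩, hatt, -, -⟩ := h1 N X H t' ht'
  choose a ha using fun i => hatt (v i)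
  obtain ⟨A, hA⟩ : ∃ A : L2 N, A =ᵐ[gs N] fun y => s y • a (ι y) :=
    ⟨(memLp_fin a hι hs).toLp _, MemLp.coeFn_toLp _⟩
  obtain ⟨B, hB⟩ : ∃ B : L2 N, B =ᵐ[gs N] fun y => s y • (v (ι y) - a (ι y)) :=
    ⟨(memLp_fin (fun i => v i - a i) hι hs).toLp _, MemLp.coeFn_toLp _⟩
  have hAB : f = A + B := by
    apply Lp.ext
    filter_upwards [hfe, hA, hB, Lp.coeFn_add A B] with y e1 e2 e3 e4
    rw [e4, Pi.add_apply, e1, e2, e3, ← smul_add, add_sub_cancel]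
  have hU : U f =ᵐ[gs N] fun y => U A y + U B y := by
    rw [hAB, map_add]
    exact Lp.coeFn_add _ _
  -- the estimate above
  have e1 : ∫ y, kfun X.p H.p t (U f y) ^ 2 ∂gs N ≤
      ∫ y, (X.p (U A y) ^ 2 + t ^ 2 * H.p (U B y) ^ 2) ∂gs N := by
    refine integral_mono_ae ?_ ?_ ?_
    · have := int_sq k (U f)
      simpa only [hk] using this
    · exact (int_sq X.p (U A)).add ((int_sq H.p (U B)).const_mul _)
    · filter_upwards [hU] with y hy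
      rw [hy]
      refine (kfun_sq_le X.p H.p t _ (U A y)).trans (le_of_eq ?_)
      rw [add_sub_cancel_left, mul_pow]
  have e2 : ∫ y, (X.p (U A y) ^ 2 + t ^ 2 * H.p (U B y) ^ 2) ∂gs N =
      nrm X.p (U A) ^ 2 + t ^ 2 * nrm H.p (U B) ^ 2 := by
    rw [integral_add (int_sq X.p (U A)) ((int_sq H.p (U B)).const_mul _),
      integral_const_mul, nrm_sq, nrm_sq]
  have e3 : ∫ y, kfun X.p H.p t' (f y) ^ 2 ∂gs N =
      nrm X.p A ^ 2 + t' ^ 2 * nrm H.p B ^ 2 := by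
    rw [nrm_sq, nrm_sq, ← integral_const_mul,
      ← integral_add (int_sq X.p A) ((int_sq H.p B).const_mul _)]
    refine integral_congr_ae ?_
    filter_upwards [hfe, hA, hB] with y g1 g2 g3
    rw [g1, g2, g3, ← hk', map_smul_eq_mul, map_smul_eq_mul, map_smul_eq_mul, hk', ha, mul_pow,
      Real.sq_sqrt (by positivity)]
    ring
  rw [e3]
  refine e1.trans (e2.le.trans ?_)
  have e4 : nrm X.p (U A) ^ 2 ≤ (M * nrm X.p A) ^ 2 :=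
    pow_le_pow_left₀ (nrm_nonneg _ _) (hX A) 2
  have e5 : nrm H.p (U B) ^ 2 ≤ (M * (1 / 2 : ℝ) ^ m * nrm H.p B) ^ 2 :=
    pow_le_pow_left₀ (nrm_nonneg _ _) (hH B) 2
  calc nrm X.p (U A) ^ 2 + t ^ 2 * nrm H.p (U B) ^ 2
      ≤ (M * nrm X.p A) ^ 2 + t ^ 2 * (M * (1 / 2 : ℝ) ^ m * nrm H.p B) ^ 2 :=
        add_le_add e4 (mul_le_mul_of_nonneg_left e5 (sq_nonneg _))
    _ = M ^ 2 * (nrm X.p A ^ 2 + t' ^ 2 * nrm H.p B ^ 2) := by rw [htt]; ring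

theorem two_zpow_pos (j : ℤ) : (0 : ℝ) < 2 ^ j := zpow_pos (by norm_num) j

theorem hasSum (h1 : Stmt_KT) (h2 : Stmt_ZNORM) {θ : ℝ} (hθ0 : 0 < θ) (hθ1 : θ < 1)
    (X H Z : DN N) (hZ : ∀ z, Z.p z = zfun θ X.p H.p z) (g : L2 N) :
    HasSum (fun j : ℤ => ∫ y, (4 : ℝ) ^ (-(θ * j)) * kfun X.p H.p (2 ^ j) (g y) ^ 2 ∂gs N)
      (∫ y, Z.p (g y) ^ 2 ∂gs N) := by
  have hw : ∀ j : ℤ, (0 : ℝ) < (4 : ℝ) ^ (-(θ * j)) := fun j =>
    Real.rpow_pos_of_pos (by norm_num) _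
  have hint : ∀ j : ℤ, Integrable
      (fun y => (4 : ℝ) ^ (-(θ * j)) * kfun X.p H.p (2 ^ j) (g y) ^ 2) (gs N) := by
    intro j
    obtain ⟨⟨k, hk, -⟩, -, -, -⟩ := h1 N X H (2 ^ j) (two_zpow_pos j)
    have := (int_sq k g).const_mul ((4 : ℝ) ^ (-(θ * j)))
    simpa only [hk] using this
  have hnn : ∀ (j : ℤ) (y : Eu N),
      0 ≤ (4 : ℝ) ^ (-(θ * j)) * kfun X.p H.p (2 ^ j) y ^ 2 := fun j y =>
    mul_nonneg (hw j).le (sq_nonneg _)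
  have hsum := (h2 N θ hθ0 hθ1 X H).1
  have hZ2 : ∀ y, Z.p y ^ 2 = ∑' j : ℤ, (4 : ℝ) ^ (-(θ * j)) * kfun X.p H.p (2 ^ j) y ^ 2 := by
    intro y
    rw [hZ]
    unfold zfun
    exact Real.sq_sqrt (tsum_nonneg fun j => hnn j y)
  have hS : Summable fun j : ℤ =>
      ∫ y, ‖(4 : ℝ) ^ (-(θ * j)) * kfun X.p H.p (2 ^ j) (g y) ^ 2‖ ∂gs N := by
    refine summable_of_sum_le (c := ∫ y, Z.p (g y) ^ 2 ∂gs N)
      (fun j => integral_nonneg fun y => norm_nonneg _) ?_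
    intro u
    rw [← integral_finsetSum u fun j _ => (hint j).norm]
    refine integral_mono (integrable_finsetSum u fun j _ => (hint j).norm) (int_sq Z.p g) ?_
    intro y
    simp only
    rw [hZ2]
    calc ∑ j ∈ u, ‖(4 : ℝ) ^ (-(θ * j)) * kfun X.p H.p (2 ^ j) (g y) ^ 2‖
        = ∑ j ∈ u, (4 : ℝ) ^ (-(θ * j)) * kfun X.p H.p (2 ^ j) (g y) ^ 2 :=
          Finset.sum_congr rfl fun j _ => Real.norm_of_nonneg (hnn j _)
      _ ≤ _ := (hsum (g y)).sum_le_tsum u fun j _ => hnn j _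
  have h := hasSum_integral_of_summable_integral_norm hint hS
  simpa only [← hZ2] using h

end KPOL

open KPOL in
/-- KPOL: from `L_2(γ; X)` and `L_2(γ; H)` to `L_2(γ; Z)`. -/
theorem stmt_KPOL (h1 : Stmt_KT) (h2 : Stmt_ZNORM) : Stmt_KPOL := by
  intro N θ hθ0 hθ1 X H Z hZ U M m hM hX hH f hf
  have s1 := KPOL.hasSum h1 h2 hθ0 hθ1 X H Z hZ (U f)
  have s2 := KPOL.hasSum h1 h2 hθ0 hθ1 X H Z hZ f
  have s3 := (Equiv.subRight (m : ℤ)).hasSum_iff.2 s2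
  have s4 := s3.mul_left (M ^ 2 * (4 : ℝ) ^ (-(θ * m)))
  have hle : ∫ y, Z.p (U f y) ^ 2 ∂gs N ≤
      M ^ 2 * (4 : ℝ) ^ (-(θ * m)) * ∫ y, Z.p (f y) ^ 2 ∂gs N := by
    refine hasSum_le (fun j => ?_) s1 s4
    have e1 := level h1 X H U M m hM hX hH f hf (2 ^ j) (two_zpow_pos j)
    have e2 : (2 : ℝ) ^ j * (1 / 2 : ℝ) ^ m = 2 ^ (j - (m : ℤ)) := by
      rw [zpow_sub₀ (by norm_num), zpow_natCast, one_div, inv_pow]
      rfl
    rw [e2] at e1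
    simp only [Function.comp, Equiv.subRight_apply]
    rw [integral_const_mul, integral_const_mul]
    have e3 : (4 : ℝ) ^ (-(θ * (j : ℝ))) =
        (4 : ℝ) ^ (-(θ * (m : ℝ))) * (4 : ℝ) ^ (-(θ * ((j - (m : ℤ) : ℤ) : ℝ))) := by
      rw [← Real.rpow_add (by norm_num)]
      congr 1
      push_cast
      ring
    calc (4 : ℝ) ^ (-(θ * (j : ℝ))) * ∫ y, kfun X.p H.p (2 ^ j) (U f y) ^ 2 ∂gs N
        ≤ (4 : ℝ) ^ (-(θ * (j : ℝ))) *
          (M ^ 2 * ∫ y, kfun X.p H.p (2 ^ (j - (m : ℤ))) (f y) ^ 2 ∂gs N) :=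
          mul_le_mul_of_nonneg_left e1 (Real.rpow_nonneg (by norm_num) _)
      _ = _ := by rw [e3]; ring
  have e5 : M ^ 2 * (4 : ℝ) ^ (-(θ * (m : ℝ))) = (M * (2 : ℝ) ^ (-(θ * (m : ℝ)))) ^ 2 := by
    rw [mul_pow]
    congr 1
    rw [← Real.rpow_natCast, ← Real.rpow_mul (by norm_num), mul_comm _ ((2 : ℕ) : ℝ),
      Real.rpow_mul (by norm_num)]
    norm_num
  rw [e5] at hle
  have h0 : 0 ≤ M * (2 : ℝ) ^ (-(θ * (m : ℝ))) :=
    mul_nonneg hM (Real.rpow_nonneg (by norm_num) _)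
  unfold nrm
  calc Real.sqrt (∫ x, Z.p (U f x) ^ 2 ∂gs N)
      ≤ Real.sqrt ((M * (2 : ℝ) ^ (-(θ * (m : ℝ)))) ^ 2 * ∫ y, Z.p (f y) ^ 2 ∂gs N) :=
        Real.sqrt_le_sqrt hle
    _ = _ := by rw [Real.sqrt_mul (sq_nonneg _), Real.sqrt_sq h0]

end Pool.PQ
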