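import Pool.Agent.Work.MP_c13439_pq.Interp

/-!
# MP_c13439_an, block KT of `pq_blocks`: the `K`-functional is a norm
-/

open MeasureTheory ProbabilityTheory Polynomial
open scoped RealInnerProductSpace

namespace Pool.PQ

namespace KT

variable {N : ℕ}

theorem cont (p : Seminorm ℝ (Eu N)) : Continuous p := by
  have h : ConvexOn ℝ Set.univ p := p.convexOn
  have h2 := ConvexOn.continuousOn isOpen_univ h
  exact continuousOn_univ.1 h2

/-- Minkowski's inequality in the plane. -/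
theorem mink (a b c d : ℝ) :
    Real.sqrt ((a + c) ^ 2 + (b + d) ^ 2) ≤ Real.sqrt (a ^ 2 + b ^ 2) + Real.sqrt (c ^ 2 + d ^ 2) := by
  have h1 : 0 ≤ Real.sqrt (a ^ 2 + b ^ 2) + Real.sqrt (c ^ 2 + d ^ 2) := by positivity
  apply Real.sqrt_le_iff.2 ⟨h1, ?_⟩
  have h2 : Real.sqrt (a ^ 2 + b ^ 2) ^ 2 = a ^ 2 + b ^ 2 := Real.sq_sqrt (by positivity)
  have h3 : Real.sqrt (c ^ 2 + d ^ 2) ^ 2 = c ^ 2 + d ^ 2 := Real.sq_sqrt (by positivity)
  have h4 : a * c + b * d ≤ Real.sqrt (a ^ 2 + b ^ 2) * Real.sqrt (c ^ 2 + d ^ 2) := by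
    rw [← Real.sqrt_mul (by positivity)]
    apply Real.le_sqrt_of_sq_le
    nlinarith [sq_nonneg (a * d - b * c)]
  nlinarith

/-- the function to be minimised -/
noncomputable def phi (X H : Seminorm ℝ (Eu N)) (t : ℝ) (z x : Eu N) : ℝ :=
  Real.sqrt (X x ^ 2 + (t * H (z - x)) ^ 2)

theorem phi_nonneg (X H : Seminorm ℝ (Eu N)) (t : ℝ) (z x : Eu N) : 0 ≤ phi X H t z x :=
  Real.sqrt_nonneg _

theorem phi_bdd (X H : Seminorm ℝ (Eu N)) (t : ℝ) (z : Eu N) :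
    BddBelow (Set.range fun x => phi X H t z x) :=
  ⟨0, by rintro _ ⟨x, rfl⟩; exact phi_nonneg X H t z x⟩

theorem kfun_le (X H : Seminorm ℝ (Eu N)) (t : ℝ) (z x : Eu N) :
    kfun X H t z ≤ phi X H t z x :=
  ciInf_le (phi_bdd X H t z) x

theorem kfun_nonneg (X H : Seminorm ℝ (Eu N)) (t : ℝ) (z : Eu N) : 0 ≤ kfun X H t z :=
  Real.iInf_nonneg fun x => phi_nonneg X H t z x

theorem lower (X : DN N) : ∃ c : ℝ, 0 < c ∧ ∀ x, ‖x‖ ≤ c * X.p x := by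
  obtain ⟨c, hc, h⟩ := Seminorm.bound_of_continuous_normedSpace X.q (cont X.q)
  refine ⟨c, hc, fun x => ?_⟩
  have h1 := X.le x x
  have h2 : ‖x‖ * ‖x‖ ≤ X.p x * X.q x := by
    rw [real_inner_self_eq_norm_sq] at h1
    nlinarith
  have h3 : X.p x * X.q x ≤ X.p x * (c * ‖x‖) :=
    mul_le_mul_of_nonneg_left (h x) (apply_nonneg _ _)
  rcases eq_or_lt_of_le (norm_nonneg x) with h0 | h0
  · rw [← h0]
    have : 0 ≤ X.p x := apply_nonneg _ _
    positivity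
  · have h4 : ‖x‖ * ‖x‖ ≤ (c * X.p x) * ‖x‖ := by nlinarith
    exact le_of_mul_le_mul_right h4 h0

theorem attained (X H : DN N) (t : ℝ) (z : Eu N) :
    ∃ x, kfun X.p H.p t z = phi X.p H.p t z x := by
  have hc : Continuous fun x => phi X.p H.p t z x := by
    unfold phi
    exact Real.continuous_sqrt.comp (((cont X.p).pow 2).add
      ((continuous_const.mul ((cont H.p).comp (continuous_const.sub continuous_id))).pow 2))
  obtain ⟨c, hc0, hc1⟩ := lower X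
  have hlim : Filter.Tendsto (fun x => phi X.p H.p t z x) (Filter.cocompact (Eu N))
      Filter.atTop := by
    have h1 : Filter.Tendsto (fun x : Eu N => c⁻¹ * ‖x‖) (Filter.cocompact (Eu N))
        Filter.atTop :=
      Filter.Tendsto.const_mul_atTop (inv_pos.2 hc0) tendsto_norm_cocompact_atTop
    refine Filter.tendsto_atTop_mono (fun x => ?_) h1
    have h2 : c⁻¹ * ‖x‖ ≤ X.p x := by
      rw [inv_mul_le_iff₀ hc0]
      exact hc1 x
    refine h2.trans ?_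
    unfold phi
    apply Real.le_sqrt_of_sq_le
    nlinarith [sq_nonneg (t * H.p (z - x))]
  obtain ⟨x, hx⟩ := hc.exists_forall_le hlim
  exact ⟨x, le_antisymm (kfun_le X.p H.p t z x) (le_ciInf hx)⟩

theorem kfun_add (X H : DN N) (t : ℝ) (ht : 0 < t) (z₁ z₂ : Eu N) :
    kfun X.p H.p t (z₁ + z₂) ≤ kfun X.p H.p t z₁ + kfun X.p H.p t z₂ := by
  obtain ⟨x₁, h1⟩ := attained X H t z₁
  obtain ⟨x₂, h2⟩ := attained X H t z₂
  rw [h1, h2]
  refine (kfun_le X.p H.p t (z₁ + z₂) (x₁ + x₂)).trans ?_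
  unfold phi
  have hX := map_add_le_add X.p x₁ x₂
  have hH : H.p (z₁ + z₂ - (x₁ + x₂)) ≤ H.p (z₁ - x₁) + H.p (z₂ - x₂) := by
    have h3 : z₁ + z₂ - (x₁ + x₂) = (z₁ - x₁) + (z₂ - x₂) := by abel
    rw [h3]
    exact map_add_le_add H.p _ _
  have hX0 : 0 ≤ X.p (x₁ + x₂) := apply_nonneg _ _
  have hH0 : 0 ≤ H.p (z₁ + z₂ - (x₁ + x₂)) := apply_nonneg _ _
  refine le_trans (Real.sqrt_le_sqrt ?_) (mink (X.p x₁) (t * H.p (z₁ - x₁)) (X.p x₂)
    (t * H.p (z₂ - x₂)))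
  have h4 : X.p (x₁ + x₂) ^ 2 ≤ (X.p x₁ + X.p x₂) ^ 2 := pow_le_pow_left₀ hX0 hX 2
  have h5 : t * H.p (z₁ + z₂ - (x₁ + x₂)) ≤ t * H.p (z₁ - x₁) + t * H.p (z₂ - x₂) := by
    rw [← mul_add]
    exact mul_le_mul_of_nonneg_left hH ht.le
  have h6 : (t * H.p (z₁ + z₂ - (x₁ + x₂))) ^ 2 ≤
      (t * H.p (z₁ - x₁) + t * H.p (z₂ - x₂)) ^ 2 := pow_le_pow_left₀ (by positivity) h5 2
  linarith

theorem kfun_smul_le (X H : DN N) (t : ℝ) (a : ℝ) (z : Eu N) :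
    kfun X.p H.p t (a • z) ≤ ‖a‖ * kfun X.p H.p t z := by
  obtain ⟨x, h1⟩ := attained X H t z
  rw [h1]
  refine (kfun_le X.p H.p t (a • z) (a • x)).trans (le_of_eq ?_)
  unfold phi
  rw [← smul_sub, map_smul_eq_mul, map_smul_eq_mul]
  have h2 : (‖a‖ * X.p x) ^ 2 + (t * (‖a‖ * H.p (z - x))) ^ 2 =
      ‖a‖ ^ 2 * (X.p x ^ 2 + (t * H.p (z - x)) ^ 2) := by ring
  rw [h2, Real.sqrt_mul (by positivity), Real.sqrt_sq (norm_nonneg a)]

theorem kfun_le_left (X H : DN N) (t : ℝ) (z : Eu N) : kfun X.p H.p t z ≤ X.p z := by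
  refine (kfun_le X.p H.p t z z).trans (le_of_eq ?_)
  unfold phi
  rw [sub_self, map_zero, mul_zero]
  have : X.p z ^ 2 + (0 : ℝ) ^ 2 = X.p z ^ 2 := by ring
  rw [this, Real.sqrt_sq (apply_nonneg _ _)]

theorem kfun_le_right (X H : DN N) (t : ℝ) (ht : 0 < t) (z : Eu N) :
    kfun X.p H.p t z ≤ t * H.p z := by
  refine (kfun_le X.p H.p t z 0).trans (le_of_eq ?_)
  unfold phi
  rw [sub_zero, map_zero]
  have h0 : 0 ≤ H.p z := apply_nonneg _ _
  have : (0 : ℝ) ^ 2 + (t * H.p z) ^ 2 = (t * H.p z) ^ 2 := by ring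
  rw [this, Real.sqrt_sq (by positivity)]

theorem kfun_zero (X H : DN N) (t : ℝ) : kfun X.p H.p t 0 = 0 := by
  refine le_antisymm ?_ (kfun_nonneg _ _ _ _)
  have h := kfun_le_left X H t 0
  rwa [map_zero] at h

theorem kfun_eq_zero (X H : DN N) (t : ℝ) (ht : 0 < t) (z : Eu N)
    (h : kfun X.p H.p t z = 0) : z = 0 := by
  obtain ⟨x, h1⟩ := attained X H t z
  rw [h] at h1
  unfold phi at h1
  have h2 : X.p x ^ 2 + (t * H.p (z - x)) ^ 2 ≤ 0 := Real.sqrt_eq_zero'.1 h1.symm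
  have h3 : X.p x ^ 2 = 0 := by nlinarith [sq_nonneg (X.p x), sq_nonneg (t * H.p (z - x))]
  have h4 : (t * H.p (z - x)) ^ 2 = 0 := by
    nlinarith [sq_nonneg (X.p x), sq_nonneg (t * H.p (z - x))]
  have h5 : x = 0 := X.eq_zero (pow_eq_zero_iff (two_ne_zero) |>.1 h3)
  have h6 : t * H.p (z - x) = 0 := pow_eq_zero_iff (two_ne_zero) |>.1 h4
  have h7 : H.p (z - x) = 0 := (mul_eq_zero.1 h6).resolve_left ht.ne'
  have h8 : z - x = 0 := H.eq_zero h7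
  rw [h5, sub_zero] at h8
  exact h8

end KT

theorem stmt_KT : Stmt_KT := by
  intro N X H t ht
  refine ⟨⟨Seminorm.ofSMulLE (kfun X.p H.p t) (KT.kfun_zero X H t) (KT.kfun_add X H t ht)
    (KT.kfun_smul_le X H t), fun z => rfl, fun z hz => KT.kfun_eq_zero X H t ht z hz⟩,
    fun z => KT.attained X H t z, KT.kfun_le_left X H t, KT.kfun_le_right X H t ht⟩

end Pool.PQ
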