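import Pool.Agent.Work.MP_c13439_pq.Boot

/-!
# MP_c13439_an, part 3: quantitative forms

The theorem in its final form has constants depending only on the exponents, and contains the
rates `O(n^(-α))`, `α > 1`.  Only `Stmt_LOC` is used, the rest is analysis of sequences.
-/

namespace Pool.PQ

/-- LAYAQ.  LAYA with constants. -/
def Stmt_LAYAQ : Prop :=
  ∀ p q : ℝ, 0 < p → p < q → ∃ C : ℝ, 1 ≤ C ∧ ∀ (e : ℕ → ℝ) (c : ℝ), 0 < c → (∀ n, 0 ≤ e n) →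
    Antitone e → Summable (fun n => e n ^ p) → ∃ A : ℕ → ℝ, (∀ j, 1 ≤ A j) ∧
      (∀ j k : ℕ, ((k : ℝ) + 1) * min 1 (2 ^ (j + 1) * c * e k) ^ q ≤ A j) ∧
      (Summable fun j : ℕ => (2 : ℝ) ^ (-(p * j)) * A j) ∧
      ∑' j : ℕ, (2 : ℝ) ^ (-(p * j)) * A j ≤ C * (1 + c ^ p * ∑' n, e n ^ p)

/-- LAYBQ.  LAYB with constants. -/
def Stmt_LAYBQ : Prop :=
  ∀ p : ℝ, 0 < p → ∃ C : ℝ, 1 ≤ C ∧ ∀ (f : ℕ → ℝ) (h : ℝ) (n : ℕ → ℕ), 0 < h →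
    (∀ k, 0 ≤ f k) → Antitone f → f 0 < h →
    (∀ j k : ℕ, f k < h / 2 ^ j → f (k + n j) < h / 2 ^ (j + 1)) →
    (Summable fun j : ℕ => (2 : ℝ) ^ (-(p * j)) * (n j : ℝ)) →
    (Summable fun k => f k ^ p) ∧
      ∑' k, f k ^ p ≤ C * (h ^ p * ∑' j : ℕ, (2 : ℝ) ^ (-(p * j)) * (n j : ℝ))

/-- FWDQ (deps LOC LAYAQ LAYBQ ENB).
PROOF. As FWD, with `h = 2 ‖T‖` (`T ≠ 0`); `‖T‖ ≤ en T 0` (a ball of radius `ε` which contains `T x`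
and `- T x` gives `‖T x‖ ≤ ε`), `c = 2 / h`, `n j = ⌈C A j⌉ ≤ 2 C A j`:
`Σ f^p ≤ C' h^p (1 + c^p Σ e^p) ≤ C'' Σ e^p` as `h^p = 2^p ‖T‖^p ≤ 2^p Σ e^p`. -/
def Stmt_FWDQ.{u, v} : Prop :=
  ∀ p : ℝ, 0 < p → p < 1 → ∃ C : ℝ, 1 ≤ C ∧ ∀ (X : Type u) (Y : Type v) [NormedAddCommGroup X]
    [NormedSpace ℝ X] [NormedAddCommGroup Y] [NormedSpace ℝ Y] (T : X →L[ℝ] Y),
    Summable (fun n => en T n ^ p) → (Summable fun n => en (adj T) n ^ p) ∧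
      ∑' n, en (adj T) n ^ p ≤ C * ∑' n, en T n ^ p

/-- RATS (100 lines).  Pure analysis of sequences, for the rates.
PROOF. `n i ≤ B (2^i M / h)^(1/α)`, `h ≤ 2 M`: `M_j = Σ_{i<j} n i ≤ B' (2^j M / h)^(1/α)`,
`f (M_j) < h / 2^j`.  For `k` let `j` be maximal with `M_j ≤ k` (if there is none, `f k = 0`):
`f k ≤ h / 2^j`, `k + 1 ≤ M_(j+1)`, so `2^(j+1) ≥ (h/M) ((k+1)/B')^α`. -/
def Stmt_RATS : Prop :=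
  ∀ α B : ℝ, 1 < α → 1 ≤ B → ∃ C : ℝ, 1 ≤ C ∧ ∀ (f : ℕ → ℝ) (h M : ℝ) (n : ℕ → ℕ), 0 < h →
    h ≤ 2 * M → (∀ k, 0 ≤ f k) → Antitone f → f 0 < h →
    (∀ j k : ℕ, f k < h / 2 ^ j → f (k + n j) < h / 2 ^ (j + 1)) →
    (∀ j, (n j : ℝ) ≤ B * (2 ^ j * M / h) ^ (1 / α)) →
    ∀ k : ℕ, f k ≤ C * (M * ((k : ℝ) + 1) ^ (-α))

/-- RATE (deps LOC RATS ENB).
PROOF. `q = (1 + 1/α) / 2`, `h = 2 ‖T‖ ≤ 2 M` (`T ≠ 0`), `x = k + 1`, `b = 2^(j+1) (2/h) M ≥ 1`: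
`x min(1, b x^(-α))^q ≤ b^(1/α)` in both cases `x^α ≥ b`, `x^α < b` (`α q > 1`).  So LOC applies with
`A j = b^(1/α)`, `n j = ⌈C A j⌉`. -/
def Stmt_RATE.{u, v} : Prop :=
  ∀ α : ℝ, 1 < α → ∃ C : ℝ, 1 ≤ C ∧ ∀ (X : Type u) (Y : Type v) [NormedAddCommGroup X]
    [NormedSpace ℝ X] [NormedAddCommGroup Y] [NormedSpace ℝ Y] (T : X →L[ℝ] Y) (M : ℝ),
    (∀ n : ℕ, en T n ≤ M * ((n : ℝ) + 1) ^ (-α)) →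
    ∀ n : ℕ, en (adj T) n ≤ C * (M * ((n : ℝ) + 1) ^ (-α))

/-- FINAL (deps FWDQ RATE CPX BID). -/
def Stmt_FINAL.{u, v, w} : Prop :=
  (∀ p : ℝ, 0 < p → p < 1 → ∃ C : ℝ, ∀ (𝕜 : Type u) [RCLike 𝕜] (X : Type v) (Y : Type w)
    [NormedAddCommGroup X] [NormedSpace 𝕜 X] [NormedAddCommGroup Y] [NormedSpace 𝕜 Y]
    (T : X →L[𝕜] Y),
    (Summable (fun n : ℕ => en T n ^ p) ↔ Summable fun n : ℕ => en (adj T) n ^ p) ∧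
    ∑' n, en (adj T) n ^ p ≤ C * ∑' n, en T n ^ p ∧
    ∑' n, en T n ^ p ≤ C * ∑' n, en (adj T) n ^ p) ∧
  ∀ α : ℝ, 1 < α → ∃ C : ℝ, ∀ (𝕜 : Type u) [RCLike 𝕜] (X : Type v) (Y : Type w)
    [NormedAddCommGroup X] [NormedSpace 𝕜 X] [NormedAddCommGroup Y] [NormedSpace 𝕜 Y]
    (T : X →L[𝕜] Y) (M : ℝ),
    ((∀ n : ℕ, en T n ≤ M * ((n : ℝ) + 1) ^ (-α)) →
      ∀ n : ℕ, en (adj T) n ≤ C * (M * ((n : ℝ) + 1) ^ (-α))) ∧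
    ((∀ n : ℕ, en (adj T) n ≤ M * ((n : ℝ) + 1) ^ (-α)) →
      ∀ n : ℕ, en T n ≤ C * (M * ((n : ℝ) + 1) ^ (-α)))

end Pool.PQ
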