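import Pool.Agent.Work.MP_c13439_pq.LAYA
import Pool.Agent.Work.MP_c13439_pq.Quant

/-!
# MP_c13439_an, block LAYAQ (helper41)

Pure analysis: the entropy numbers of `T`, with constants.
-/

namespace Pool.PQ

open LAYA in
/-- LAYAQ -/
theorem stmt_LAYAQ : Stmt_LAYAQ := by
  intro p q hp hq
  have hq0 : 0 < q := by linarith
  obtain ⟨C, hC0, hC⟩ := level_sum p q hp hq
  have hgeo : Summable fun j : ℕ => (2 : ℝ) ^ (-(p * j)) := by
    have h1 : Summable fun j : ℕ => ((2 : ℝ) ^ (-p)) ^ j :=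
      summable_geometric_of_lt_one (by positivity)
        (Real.rpow_lt_one_of_one_lt_of_neg one_lt_two (by linarith))
    refine h1.congr fun j => ?_
    rw [← Real.rpow_natCast, ← Real.rpow_mul two_pos.le]
    congr 1
    ring
  have hG0 : 0 ≤ ∑' j : ℕ, (2 : ℝ) ^ (-(p * j)) := tsum_nonneg fun j => by positivity
  refine ⟨1 + (∑' j : ℕ, (2 : ℝ) ^ (-(p * j))) + C * 2 ^ p, ?_, ?_⟩
  · have : 0 ≤ C * (2 : ℝ) ^ p := by positivity
    linarith
  intro e c hc he0 hanti hsum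
  -- the terms
  have hterm : ∀ j l : ℕ, 0 ≤ min 1 ((2 : ℝ) ^ (j + 1) * c * e l) := by
    intro j l
    have := he0 l
    positivity
  have hle : ∀ j l : ℕ, min 1 ((2 : ℝ) ^ (j + 1) * c * e l) ^ q ≤
      (2 ^ (j + 1) * c) ^ p * e l ^ p := by
    intro j l
    have h0 := hterm j l
    have h1 : min 1 ((2 : ℝ) ^ (j + 1) * c * e l) ≤ 1 := min_le_left _ _
    have h2 : min 1 ((2 : ℝ) ^ (j + 1) * c * e l) ^ q ≤
        min 1 ((2 : ℝ) ^ (j + 1) * c * e l) ^ p := by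
      rcases h0.eq_or_lt with h | h
      · rw [← h, Real.zero_rpow hq0.ne', Real.zero_rpow hp.ne']
      · exact Real.rpow_le_rpow_of_exponent_ge h h1 hq.le
    refine h2.trans ?_
    rw [← Real.mul_rpow (by positivity) (he0 l)]
    exact Real.rpow_le_rpow h0 (min_le_right _ _) hp.le
  have hsumj : ∀ j : ℕ, Summable fun l => min 1 ((2 : ℝ) ^ (j + 1) * c * e l) ^ q := by
    intro j
    refine Summable.of_nonneg_of_le (fun l => ?_) (hle j) (hsum.mul_left _)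
    exact Real.rpow_nonneg (hterm j l) q
  -- summability over the levels
  have hpart : ∀ J : ℕ, ∑ j ∈ Finset.range J, (2 : ℝ) ^ (-(p * j)) *
      ∑' l, min 1 ((2 : ℝ) ^ (j + 1) * c * e l) ^ q ≤ ∑' l, C * (2 * c * e l) ^ p := by
    intro J
    have h1 : ∀ j ∈ Finset.range J, Summable fun l =>
        (2 : ℝ) ^ (-(p * j)) * min 1 ((2 : ℝ) ^ (j + 1) * c * e l) ^ q :=
      fun j _ => (hsumj j).mul_left _
    have h2 : ∑ j ∈ Finset.range J, (2 : ℝ) ^ (-(p * j)) *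
        ∑' l, min 1 ((2 : ℝ) ^ (j + 1) * c * e l) ^ q =
        ∑' l, ∑ j ∈ Finset.range J,
          (2 : ℝ) ^ (-(p * j)) * min 1 ((2 : ℝ) ^ (j + 1) * c * e l) ^ q := by
      rw [Summable.tsum_finsetSum h1]
      refine Finset.sum_congr rfl fun j _ => ?_
      rw [tsum_mul_left]
    rw [h2]
    have h3 : Summable fun l => C * (2 * c * e l) ^ p := by
      have h4 : Summable fun l => C * ((2 * c) ^ p * e l ^ p) :=
        (hsum.mul_left _).mul_left _
      refine h4.congr fun l => ?_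
      rw [← Real.mul_rpow (by positivity) (he0 l)]
    refine Summable.tsum_le_tsum (fun l => ?_) (summable_sum h1) h3
    have h5 := hC J (2 * c * e l) (by have := he0 l; positivity)
    refine le_trans (le_of_eq ?_) h5
    refine Finset.sum_congr rfl fun j _ => ?_
    congr 3
    rw [pow_succ]
    ring
  have hnn : ∀ j : ℕ, 0 ≤ (2 : ℝ) ^ (-(p * j)) *
      ∑' l, min 1 ((2 : ℝ) ^ (j + 1) * c * e l) ^ q := by
    intro j
    have : 0 ≤ ∑' l, min 1 ((2 : ℝ) ^ (j + 1) * c * e l) ^ q :=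
      tsum_nonneg fun l => Real.rpow_nonneg (hterm j l) q
    positivity
  have hmain : Summable fun j : ℕ => (2 : ℝ) ^ (-(p * j)) *
      ∑' l, min 1 ((2 : ℝ) ^ (j + 1) * c * e l) ^ q :=
    summable_of_sum_range_le hnn hpart
  have hmain' : ∑' j : ℕ, (2 : ℝ) ^ (-(p * j)) *
      ∑' l, min 1 ((2 : ℝ) ^ (j + 1) * c * e l) ^ q ≤ ∑' l, C * (2 * c * e l) ^ p :=
    Real.tsum_le_of_sum_range_le hnn hpart
  have hval : ∑' l, C * (2 * c * e l) ^ p = C * (2 ^ p * c ^ p) * ∑' l, e l ^ p := by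
    rw [← tsum_mul_left]
    refine tsum_congr fun l => ?_
    rw [Real.mul_rpow (by positivity) (he0 l), Real.mul_rpow two_pos.le hc.le]
    ring
  refine ⟨fun j => 1 + ∑' l, min 1 ((2 : ℝ) ^ (j + 1) * c * e l) ^ q, ?_, ?_, ?_, ?_⟩
  · intro j
    have : 0 ≤ ∑' l, min 1 ((2 : ℝ) ^ (j + 1) * c * e l) ^ q :=
      tsum_nonneg fun l => Real.rpow_nonneg (hterm j l) q
    show (1 : ℝ) ≤ 1 + ∑' l, min 1 ((2 : ℝ) ^ (j + 1) * c * e l) ^ q
    linarith
  · intro j k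
    have h1 : ((k : ℝ) + 1) * min 1 ((2 : ℝ) ^ (j + 1) * c * e k) ^ q ≤
        ∑ l ∈ Finset.range (k + 1), min 1 ((2 : ℝ) ^ (j + 1) * c * e l) ^ q := by
      have h2 : ∀ l ∈ Finset.range (k + 1), min 1 ((2 : ℝ) ^ (j + 1) * c * e k) ^ q ≤
          min 1 ((2 : ℝ) ^ (j + 1) * c * e l) ^ q := by
        intro l hl
        have h3 : e k ≤ e l := hanti (Nat.lt_succ_iff.1 (Finset.mem_range.1 hl))
        refine Real.rpow_le_rpow (hterm j k) ?_ hq0.le
        exact min_le_min le_rfl (by gcongr)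
      have h4 := Finset.sum_le_sum h2
      rw [Finset.sum_const, Finset.card_range, nsmul_eq_mul] at h4
      push_cast at h4
      exact h4
    have h5 : ∑ l ∈ Finset.range (k + 1), min 1 ((2 : ℝ) ^ (j + 1) * c * e l) ^ q ≤
        ∑' l, min 1 ((2 : ℝ) ^ (j + 1) * c * e l) ^ q :=
      (hsumj j).sum_le_tsum _ fun l _ => Real.rpow_nonneg (hterm j l) q
    show _ ≤ 1 + ∑' l, min 1 ((2 : ℝ) ^ (j + 1) * c * e l) ^ q
    linarith
  · refine (hgeo.add hmain).congr fun j => ?_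
    ring
  · have h6 : ∑' j : ℕ, (2 : ℝ) ^ (-(p * j)) *
        (1 + ∑' l, min 1 ((2 : ℝ) ^ (j + 1) * c * e l) ^ q) =
        (∑' j : ℕ, (2 : ℝ) ^ (-(p * j))) + ∑' j : ℕ, (2 : ℝ) ^ (-(p * j)) *
          ∑' l, min 1 ((2 : ℝ) ^ (j + 1) * c * e l) ^ q := by
      rw [← hgeo.tsum_add hmain]
      refine tsum_congr fun j => ?_
      ring
    show ∑' j : ℕ, (2 : ℝ) ^ (-(p * j)) *
        (1 + ∑' l, min 1 ((2 : ℝ) ^ (j + 1) * c * e l) ^ q) ≤ _
    rw [h6]
    have h7 : 0 ≤ c ^ p * ∑' n, e n ^ p := by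
      have : 0 ≤ ∑' n, e n ^ p := tsum_nonneg fun n => Real.rpow_nonneg (he0 n) p
      positivity
    have h8 : 0 ≤ C * (2 : ℝ) ^ p := by positivity
    rw [hval] at hmain'
    have h9 : C * (2 ^ p * c ^ p) * ∑' l, e l ^ p = C * 2 ^ p * (c ^ p * ∑' n, e n ^ p) := by
      ring
    rw [h9] at hmain'
    nlinarith [mul_nonneg hG0 h7]

end Pool.PQ
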