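import Pool.Agent.Work.MP_c13439_pq.Quant

/-!
# MP_c13439_pq, block LAYBQ (helper97)

Summation over the dyadic scales, with a constant.
-/

set_option autoImplicit false
set_option maxHeartbeats 4000000

open Finset

namespace Pool.PQ

namespace LAYBQ

lemma fM_lt (f : ℕ → ℝ) (h : ℝ) (n : ℕ → ℕ) (h0 : f 0 < h)
    (hs : ∀ j k : ℕ, f k < h / 2 ^ j → f (k + n j) < h / 2 ^ (j + 1)) (j : ℕ) :
    f (∑ i ∈ range j, n i) < h / 2 ^ j := by
  induction j with
  | zero => simpa using h0
  | succ j ih =>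
    rw [Finset.sum_range_succ]
    exact hs j _ ih

lemma sum_M (r : ℝ) (hr0 : 0 < r) (hr1 : r < 1) (n : ℕ → ℕ) (T : ℝ)
    (hT : ∀ J, ∑ j ∈ range J, r ^ j * (n j : ℝ) ≤ T) (J : ℕ) :
    ∑ j ∈ range (J + 1), r ^ j * ((∑ i ∈ range j, n i : ℕ) : ℝ) ≤ r * T / (1 - r) := by
  have h1r : 0 < 1 - r := by linarith
  have hT0 : 0 ≤ T := by simpa using hT 0
  induction J with
  | zero =>
    simp
    positivity
  | succ J ih =>
    rw [Finset.sum_range_succ']
    have e1 : ∑ j ∈ range (J + 1), r ^ (j + 1) * ((∑ i ∈ range (j + 1), n i : ℕ) : ℝ) =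
        r * (∑ j ∈ range (J + 1), r ^ j * ((∑ i ∈ range j, n i : ℕ) : ℝ)) +
          r * ∑ j ∈ range (J + 1), r ^ j * (n j : ℝ) := by
      rw [Finset.mul_sum, Finset.mul_sum, ← Finset.sum_add_distrib]
      refine Finset.sum_congr rfl (fun j _ => ?_)
      rw [Finset.sum_range_succ]
      push_cast
      ring
    rw [e1]
    simp only [range_zero, sum_empty, Nat.cast_zero, mul_zero, add_zero]
    have h2 := mul_le_mul_of_nonneg_left ih hr0.le
    have h3 := mul_le_mul_of_nonneg_left (hT (J + 1)) hr0.le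
    have e2 : r * (r * T / (1 - r)) + r * T = r * T / (1 - r) := by
      field_simp
      ring
    linarith

end LAYBQ

open Classical in
theorem stmt_LAYBQ : Stmt_LAYBQ := by
  intro p hp
  set r : ℝ := (2 : ℝ) ^ (-p) with hr
  have hr0 : 0 < r := Real.rpow_pos_of_pos (by norm_num) _
  have hr1 : r < 1 := Real.rpow_lt_one_of_one_lt_of_neg (by norm_num) (by linarith)
  refine ⟨max 1 (2 ^ p * (r / (1 - r))), le_max_left _ _, ?_⟩
  intro f h n hh hf hanti h0 hs hsum
  have hrj : ∀ j : ℕ, (2 : ℝ) ^ (-(p * j)) = r ^ j := by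
    intro j
    rw [hr, ← Real.rpow_natCast, ← Real.rpow_mul (by norm_num)]
    congr 1
    ring
  simp only [hrj] at hsum
  have hpos : ∀ j : ℕ, 0 ≤ r ^ j * (n j : ℝ) := fun j =>
    mul_nonneg (pow_nonneg hr0.le _) (Nat.cast_nonneg _)
  set T := ∑' j : ℕ, r ^ j * (n j : ℝ) with hTdef
  have hT : ∀ J, ∑ j ∈ range J, r ^ j * (n j : ℝ) ≤ T := fun J =>
    hsum.sum_le_tsum _ (fun j _ => hpos j)
  set M : ℕ → ℕ := fun j => ∑ i ∈ range j, n i with hM
  -- for every `k` with `f k > 0` some level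
  have hlev : ∀ k, 0 < f k → ∃ j, k < M j ∧ f k ^ p ≤ (2 * h) ^ p * r ^ j := by
    intro k hk
    have hex : ∃ j, k < M j := by
      by_contra hcon
      push Not at hcon
      obtain ⟨j, hj⟩ := exists_nat_gt (h / f k)
      have h1 : f k < h / 2 ^ j := lt_of_le_of_lt (hanti (hcon j)) (LAYBQ.fM_lt f h n h0 hs j)
      have h2 : (j : ℝ) < 2 ^ j := by exact_mod_cast Nat.lt_two_pow_self
      have h3 : h / f k < 2 ^ j := hj.trans h2
      rw [div_lt_iff₀ hk] at h3
      rw [lt_div_iff₀ (by positivity)] at h1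
      linarith
    refine ⟨Nat.find hex, Nat.find_spec hex, ?_⟩
    have hne : Nat.find hex ≠ 0 := by
      intro h0'
      have := Nat.find_spec hex
      rw [h0'] at this
      simp [hM] at this
    obtain ⟨j, hj⟩ := Nat.exists_eq_succ_of_ne_zero hne
    have hle : M j ≤ k := by
      have := Nat.find_min hex (m := j) (by omega)
      omega
    rw [hj]
    have h1 : f k < h / 2 ^ j := lt_of_le_of_lt (hanti hle) (LAYBQ.fM_lt f h n h0 hs j)
    have h2 : f k ≤ 2 * h * 2 ^ (-((j : ℝ) + 1)) := by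
      refine h1.le.trans (le_of_eq ?_)
      rw [Real.rpow_neg (by norm_num), Real.rpow_add (by norm_num), Real.rpow_natCast,
        Real.rpow_one]
      field_simp
    have h3 : f k ^ p ≤ (2 * h * 2 ^ (-((j : ℝ) + 1))) ^ p :=
      Real.rpow_le_rpow (hf k) h2 hp.le
    refine h3.trans (le_of_eq ?_)
    rw [Real.mul_rpow (by positivity) (by positivity)]
    congr 1
    rw [← Real.rpow_mul (by norm_num), ← hrj]
    congr 1
    push_cast
    ring
  -- bound for the partial sums
  have hfin : ∀ K, ∑ k ∈ range K, f k ^ p ≤ (2 * h) ^ p * (r * T / (1 - r)) := ?_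
  · have hT0 : 0 ≤ T := by simpa using hT 0
    refine ⟨summable_of_sum_range_le (fun k => Real.rpow_nonneg (hf k) _) hfin, ?_⟩
    refine (Real.tsum_le_of_sum_range_le (fun k => Real.rpow_nonneg (hf k) _) hfin).trans ?_
    have e1 : (2 * h) ^ p * (r * T / (1 - r)) = (2 ^ p * (r / (1 - r))) * (h ^ p * T) := by
      rw [Real.mul_rpow (by norm_num) hh.le]
      ring
    have e2 : ∑' j : ℕ, (2 : ℝ) ^ (-(p * j)) * (n j : ℝ) = T := by
      rw [hTdef]
      exact tsum_congr (fun j => by rw [hrj])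
    rw [e1, e2]
    exact mul_le_mul_of_nonneg_right (le_max_right _ _)
      (mul_nonneg (Real.rpow_nonneg hh.le _) hT0)
  intro K
  have hch : ∀ k, ∃ j, 0 < f k → k < M j ∧ f k ^ p ≤ (2 * h) ^ p * r ^ j := by
    intro k
    by_cases hk : 0 < f k
    · obtain ⟨j, hj⟩ := hlev k hk
      exact ⟨j, fun _ => hj⟩
    · exact ⟨0, fun h' => absurd h' hk⟩
  choose jj hjj using hch
  set J := (range K).sup jj with hJ
  have hbound : ∀ k ∈ range K, f k ^ p ≤
      ∑ j ∈ range (J + 1), (2 * h) ^ p * (r ^ j * (if k < M j then 1 else 0)) := by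
    intro k hk
    have hnn : ∀ j ∈ range (J + 1), 0 ≤ (2 * h) ^ p * (r ^ j * (if k < M j then (1 : ℝ) else 0)) := by
      intro j _
      refine mul_nonneg (Real.rpow_nonneg (by positivity) _)
        (mul_nonneg (pow_nonneg hr0.le _) ?_)
      split_ifs <;> norm_num
    by_cases hpos' : 0 < f k
    · obtain ⟨h1, h2⟩ := hjj k hpos'
      have hmem : jj k ∈ range (J + 1) := by
        rw [mem_range, Nat.lt_succ_iff]
        exact Finset.le_sup (f := jj) hk
      refine h2.trans ?_
      have := Finset.single_le_sum hnn hmem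
      rw [if_pos h1, mul_one] at this
      exact this
    · have h1 : f k = 0 := le_antisymm (not_lt.1 hpos') (hf k)
      rw [h1, Real.zero_rpow hp.ne']
      exact Finset.sum_nonneg hnn
  refine (Finset.sum_le_sum hbound).trans ?_
  rw [Finset.sum_comm]
  have hcount : ∀ j ∈ range (J + 1), ∑ k ∈ range K, (2 * h) ^ p *
      (r ^ j * (if k < M j then (1 : ℝ) else 0)) ≤ (2 * h) ^ p * (r ^ j * (M j : ℝ)) := by
    intro j _
    rw [← Finset.mul_sum, ← Finset.mul_sum]
    refine mul_le_mul_of_nonneg_left (mul_le_mul_of_nonneg_left ?_ (pow_nonneg hr0.le _))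
      (Real.rpow_nonneg (by positivity) _)
    rw [← Finset.sum_filter, Finset.sum_const, nsmul_eq_mul, mul_one]
    have : ((range K).filter (fun k => k < M j)).card ≤ M j := by
      refine (Finset.card_le_card (t := range (M j)) ?_).trans (le_of_eq (card_range _))
      intro k hk
      rw [mem_filter] at hk
      exact mem_range.2 hk.2
    exact_mod_cast this
  refine (Finset.sum_le_sum hcount).trans ?_
  rw [← Finset.mul_sum]
  exact mul_le_mul_of_nonneg_left (LAYBQ.sum_M r hr0 hr1 n T hT J)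
    (Real.rpow_nonneg (by positivity) _)

end Pool.PQ
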