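import Pool.Agent.Work.MP_c13439_pq.Boot
import Pool.Agent.Work.MP_c13439_pq_helper57.LemL

/-! # Block LEML (helper57) -/

set_option autoImplicit false

open MeasureTheory ProbabilityTheory
open scoped RealInnerProductSpace

namespace Pool.PQ

theorem stmt_LEML : Stmt_LEML := by
  obtain ⟨C, hC, h⟩ := Pool.Agent.Work.MP_c13439_pq_h57.LEML
  refine ⟨max C 1, le_max_right _ _, fun N Z Z' K hK hKc => ?_⟩
  rcases Nat.eq_zero_or_pos N with rfl | hN
  · refine ⟨ContinuousLinearEquiv.refl ℝ (Eu 0), ?_, fun V => ?_⟩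
    · have h1 : ∀ x : Eu 0, x = 0 := fun x => Subsingleton.elim _ _
      unfold ell
      have h2 : ∀ x : Eu 0, Z'.p (((ContinuousLinearEquiv.refl ℝ (Eu 0)).symm :
          Eu 0 →L[ℝ] Eu 0) x) ^ 2 = 0 := by
        intro x
        rw [h1 (((ContinuousLinearEquiv.refl ℝ (Eu 0)).symm : Eu 0 →L[ℝ] Eu 0) x), map_zero]
        norm_num
      simp_rw [h2]
      simp
    · have h1 : LinearMap.trace ℝ (Eu 0) (((ContinuousLinearEquiv.refl ℝ (Eu 0) :
          Eu 0 ≃L[ℝ] Eu 0) : Eu 0 →L[ℝ] Eu 0) ∘L V).toLinearMap = 0 := by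
        have : (((ContinuousLinearEquiv.refl ℝ (Eu 0) :
          Eu 0 ≃L[ℝ] Eu 0) : Eu 0 →L[ℝ] Eu 0) ∘L V).toLinearMap = 0 := by
          ext x; exact congrFun (congrArg _ (Subsingleton.elim _ _)) _
        rw [this, map_zero]
      rw [h1]
      simp
  · obtain ⟨S, h1, h2⟩ := h N hN Z Z' K hK hKc
    refine ⟨S, h1.le, Pool.Agent.Work.MP_c13439_pq_h57.StarLe.mono' h2 ?_⟩
    gcongr
    exact le_max_left _ _

end Pool.PQ
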