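import Pool.Agent.Work.MP_c13439_pq.Boot

/-!
# MP_c13439_an, block LOC (helper45): entropy numbers of the adjoint, from radius `h` to `h / 2`
-/

set_option autoImplicit false

open MeasureTheory ProbabilityTheory Polynomial
open scoped RealInnerProductSpace

namespace Pool.PQ

namespace LOC

/-- a maximal separated family is a net -/
theorem net {α : Type*} (G : Set α) (d : α → α → ℝ) (ρ : ℝ) (M : ℕ)
    (hd : ∀ a, d a a ≤ ρ) (hsymm : ∀ a b, d a b = d b a)
    (hM : ∀ S : Finset α, (∀ a ∈ S, a ∈ G) → (∀ a ∈ S, ∀ b ∈ S, a ≠ b → ρ < d a b) →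
      S.card ≤ M) :
    ∃ S : Finset α, S.card ≤ M ∧ ∀ y ∈ G, ∃ s ∈ S, d y s ≤ ρ := by
  classical
  set P : ℕ → Prop := fun m => ∃ S : Finset α, (∀ a ∈ S, a ∈ G) ∧
    (∀ a ∈ S, ∀ b ∈ S, a ≠ b → ρ < d a b) ∧ S.card = m with hP
  have h0 : P 0 := ⟨∅, by simp, by simp, rfl⟩
  obtain ⟨S, hSG, hS, hcard⟩ := Nat.findGreatest_spec (P := P) (Nat.zero_le M) h0
  refine ⟨S, hM S hSG hS, ?_⟩
  intro y hy
  by_contra hcon
  push Not at hcon
  have hyS : y ∉ S := fun h => absurd (hd y) (not_le.2 (hcon y h))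
  have h1 : P (S.card + 1) := by
    refine ⟨insert y S, ?_, ?_, Finset.card_insert_of_notMem hyS⟩
    · intro a ha
      rcases Finset.mem_insert.1 ha with rfl | ha
      · exact hy
      · exact hSG a ha
    · intro a ha b hb hab
      rcases Finset.mem_insert.1 ha with ha | ha
      · rcases Finset.mem_insert.1 hb with hb | hb
        · exact absurd (ha.trans hb.symm) hab
        · rw [ha]
          exact hcon b hb
      · rcases Finset.mem_insert.1 hb with hb | hb
        · rw [hb, hsymm]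
          exact hcon a ha
        · exact hS a ha b hb hab
  have h2 : S.card + 1 ≤ M := by
    obtain ⟨S', hS1, hS2, hS3⟩ := h1
    rw [← hS3]
    exact hM S' hS1 hS2
  have h3 := Nat.le_findGreatest (P := P) h2 h1
  omega

/-- a family indexed by `Fin M` with the values of a small finset -/
theorem fin_family {α : Type*} [Inhabited α] (S : Finset α) (M : ℕ) (h : S.card ≤ M) :
    ∃ v : Fin M → α, ∀ s ∈ S, ∃ l, v l = s := by
  classical
  have h1 : Fintype.card S ≤ Fintype.card (Fin M) := by simpa using h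
  obtain ⟨e⟩ := Function.Embedding.nonempty_of_card_le h1
  refine ⟨fun l => if hl : ∃ s : S, e s = l then (hl.choose : α) else default, ?_⟩
  intro s hs
  refine ⟨e ⟨s, hs⟩, ?_⟩
  have hl : ∃ s' : S, e s' = e ⟨s, hs⟩ := ⟨⟨s, hs⟩, rfl⟩
  have h3 : (fun l => if hl : ∃ s : S, e s = l then (hl.choose : α) else default) (e ⟨s, hs⟩) =
      (hl.choose : α) := dif_pos hl
  have h2 := e.injective hl.choose_spec
  rw [h3, h2]

end LOC

open LOC in
theorem stmt_LOC.{u, v} (h1 : Stmt_TOP.{u, v}) (h2 : Stmt_ENB.{v, u}) : Stmt_LOC.{u, v} := by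
  classical
  intro q hq0 hq1
  obtain ⟨C, hC1, hC⟩ := h1 q hq0 hq1
  refine ⟨C, hC1, ?_⟩
  intro X Y _ _ _ _ T h A hh hA hT k n hn hk
  obtain ⟨e1, e2, _, _, _⟩ := h2 (Y →L[ℝ] ℝ) (X →L[ℝ] ℝ) (adj T)
  obtain ⟨w, hw⟩ := e1 k h hk
  have hpiece : ∀ i : Fin (2 ^ k), ∃ v : Fin (2 ^ n) → (Y →L[ℝ] ℝ), ∀ y : Y →L[ℝ] ℝ,
      ‖y‖ ≤ 1 → ‖adj T y - w i‖ ≤ h → ∃ l, ‖adj T y - adj T (v l)‖ ≤ h / 2 := by
    intro i
    obtain ⟨S, hScard, hSnet⟩ := net {y : Y →L[ℝ] ℝ | ‖y‖ ≤ 1 ∧ ‖adj T y - w i‖ ≤ h}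
      (fun a b => ‖adj T a - adj T b‖) (h / 2) (2 ^ n)
      (fun a => by rw [sub_self, norm_zero]; linarith)
      (fun a b => norm_sub_rev _ _) (by
        intro S hSG hS
        rcases S.eq_empty_or_nonempty with hSe | ⟨y0, hy0⟩
        · rw [hSe]
          simp
        · obtain ⟨g1, g2⟩ := hSG y0 hy0
          have hm := hC X Y T h A hh hA hT S.card
            (fun l => (1 / 2 : ℝ) • (((S.equivFin.symm l : S) : Y →L[ℝ] ℝ) - y0)) ?_ ?_ ?_
          · have h3 : ((S.card : ℕ) : ℝ) ≤ (2 : ℝ) ^ ((n : ℕ) : ℝ) :=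
              hm.trans (Real.rpow_le_rpow_of_exponent_le (by norm_num) hn)
            rw [Real.rpow_natCast] at h3
            exact_mod_cast h3
          · intro l
            obtain ⟨g3, g4⟩ := hSG _ (S.equivFin.symm l).2
            rw [norm_smul, Real.norm_eq_abs, abs_of_pos (by norm_num : (0 : ℝ) < 1 / 2)]
            have := norm_sub_le ((S.equivFin.symm l : S) : Y →L[ℝ] ℝ) y0
            linarith
          · intro l
            obtain ⟨g3, g4⟩ := hSG _ (S.equivFin.symm l).2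
            rw [map_smul, map_sub, norm_smul, Real.norm_eq_abs,
              abs_of_pos (by norm_num : (0 : ℝ) < 1 / 2)]
            have h4 : adj T ((S.equivFin.symm l : S) : Y →L[ℝ] ℝ) - adj T y0 =
                (adj T ((S.equivFin.symm l : S) : Y →L[ℝ] ℝ) - w i) - (adj T y0 - w i) := by
              abel
            have h5 := norm_sub_le (adj T ((S.equivFin.symm l : S) : Y →L[ℝ] ℝ) - w i)
              (adj T y0 - w i)
            rw [h4]
            linarith
          · intro l l' hll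
            have hne : ((S.equivFin.symm l : S) : Y →L[ℝ] ℝ) ≠
                ((S.equivFin.symm l' : S) : Y →L[ℝ] ℝ) := by
              intro he
              exact hll (S.equivFin.symm.injective (Subtype.ext he))
            have h5 := hS _ (S.equivFin.symm l).2 _ (S.equivFin.symm l').2 hne
            have h6 : adj T ((1 / 2 : ℝ) • (((S.equivFin.symm l : S) : Y →L[ℝ] ℝ) - y0)) -
                adj T ((1 / 2 : ℝ) • (((S.equivFin.symm l' : S) : Y →L[ℝ] ℝ) - y0)) =
                (1 / 2 : ℝ) • (adj T ((S.equivFin.symm l : S) : Y →L[ℝ] ℝ) -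
                  adj T ((S.equivFin.symm l' : S) : Y →L[ℝ] ℝ)) := by
              rw [← map_sub, ← smul_sub, map_smul, ← map_sub]
              congr 2
              abel
            rw [h6, norm_smul, Real.norm_eq_abs, abs_of_pos (by norm_num : (0 : ℝ) < 1 / 2)]
            linarith)
    obtain ⟨v, hv⟩ := fin_family S (2 ^ n) hScard
    refine ⟨v, ?_⟩
    intro y hy1 hy2
    obtain ⟨s, hs, hys⟩ := hSnet y ⟨hy1, hy2⟩
    obtain ⟨l, hl⟩ := hv s hs
    exact ⟨l, by rw [hl]; exact hys⟩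
  choose v hv using hpiece
  refine e2 (k + n) (h / 2) (by linarith) ?_
  let E : Fin (2 ^ (k + n)) ≃ Fin (2 ^ k) × Fin (2 ^ n) :=
    (finCongr (pow_add 2 k n)).trans finProdFinEquiv.symm
  refine ⟨fun j => adj T (v (E j).1 (E j).2), ?_⟩
  intro y hy
  obtain ⟨i, hi⟩ := hw y hy
  obtain ⟨l, hl⟩ := hv i y hy hi
  refine ⟨E.symm (i, l), ?_⟩
  show ‖adj T y - adj T (v (E (E.symm (i, l))).1 (E (E.symm (i, l))).2)‖ ≤ h / 2
  rw [Equiv.apply_symm_apply]
  exact hl

end Pool.PQ
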