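import Pool.Agent.Work.MP_c13439_pq.Interp

/-!
# MP_c13439_an, block MEH: existence and symmetry of the Mehler operator (helper23)
-/

open MeasureTheory ProbabilityTheory
open scoped RealInnerProductSpace ENNReal

namespace Pool.PQ

namespace MEHAux

variable {N : ℕ}

/-- `(x, y) ↦ x / 2 + (√3 / 2) y` -/
noncomputable def mix (z : Eu N × Eu N) : Eu N := (1 / 2 : ℝ) • z.1 + (Real.sqrt 3 / 2) • z.2

/-- the involution `(x, y) ↦ (x / 2 + √3 / 2 y, √3 / 2 x - y / 2)` -/
noncomputable def rho (z : Eu N × Eu N) : Eu N × Eu N :=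
  (mix z, (Real.sqrt 3 / 2) • z.1 - (1 / 2 : ℝ) • z.2)

theorem mp_neg : MeasurePreserving (fun x : Eu N => -x) (gs N) (gs N) := by
  refine ⟨by fun_prop, ?_⟩
  exact stdGaussian_map (LinearIsometryEquiv.neg ℝ : Eu N ≃ₗᵢ[ℝ] Eu N)

theorem mp_rho : MeasurePreserving (rho : Eu N × Eu N → Eu N × Eu N)
    ((gs N).prod (gs N)) ((gs N).prod (gs N)) := by
  have h1 : MeasurePreserving (ContinuousLinearMap.rotation (E := Eu N) (Real.pi / 3))
      ((gs N).prod (gs N)) ((gs N).prod (gs N)) := by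
    refine ⟨by fun_prop, ?_⟩
    exact IsGaussian.map_rotation_eq_self_of_forall_strongDual_eq_zero
      (fun L => integral_strongDual_stdGaussian L) _
  have h2 : MeasurePreserving (Prod.map id (fun x : Eu N => -x) : Eu N × Eu N → Eu N × Eu N)
      ((gs N).prod (gs N)) ((gs N).prod (gs N)) :=
    (MeasurePreserving.id (gs N)).prod mp_neg
  have h3 := h2.comp h1
  have h4 : (rho : Eu N × Eu N → Eu N × Eu N) = (Prod.map id (fun x : Eu N => -x)) ∘
      (ContinuousLinearMap.rotation (E := Eu N) (Real.pi / 3)) := by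
    ext z : 1
    simp only [rho, mix, Function.comp, ContinuousLinearMap.rotation_apply,
      Real.cos_pi_div_three, Real.sin_pi_div_three, Prod.map, id]
    refine Prod.ext rfl ?_
    simp only
    rw [neg_smul]
    abel
  rw [h4]
  exact h3

theorem mp_mix : MeasurePreserving (mix : Eu N × Eu N → Eu N) ((gs N).prod (gs N)) (gs N) := by
  have h2 : MeasurePreserving (Prod.fst : Eu N × Eu N → Eu N) ((gs N).prod (gs N)) (gs N) :=
    measurePreserving_fst
  exact h2.comp mp_rho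

theorem mix_rho (z : Eu N × Eu N) : mix (rho z) = z.1 := by
  have h3 : Real.sqrt 3 / 2 * (Real.sqrt 3 / 2) = 3 / 4 := by
    have := Real.mul_self_sqrt (show (0 : ℝ) ≤ 3 by norm_num)
    linarith
  unfold rho
  simp only [mix, smul_add, smul_sub, smul_smul, h3]
  have e1 : (1 / 2 : ℝ) * (Real.sqrt 3 / 2) = Real.sqrt 3 / 2 * (1 / 2) := by ring
  rw [e1]
  have e2 : (1 / 2 * (1 / 2) : ℝ) • z.1 + (Real.sqrt 3 / 2 * (1 / 2)) • z.2 +
      ((3 / 4 : ℝ) • z.1 - (Real.sqrt 3 / 2 * (1 / 2)) • z.2) =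
      (1 / 2 * (1 / 2) : ℝ) • z.1 + (3 / 4 : ℝ) • z.1 := by abel
  rw [e2, ← add_smul]
  norm_num

/-- composition with the first coordinate -/
noncomputable def J₁ (N : ℕ) : L2 N →ₗᵢ[ℝ] Lp (Eu N) 2 ((gs N).prod (gs N)) :=
  Lp.compMeasurePreservingₗᵢ ℝ Prod.fst measurePreserving_fst

/-- composition with `mix` -/
noncomputable def J₂ (N : ℕ) : L2 N →ₗᵢ[ℝ] Lp (Eu N) 2 ((gs N).prod (gs N)) :=
  Lp.compMeasurePreservingₗᵢ ℝ mix mp_mix

theorem J₁_ae (f : L2 N) : J₁ N f =ᵐ[(gs N).prod (gs N)] fun z => f z.1 :=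
  Lp.coeFn_compMeasurePreserving f measurePreserving_fst

theorem J₂_ae (f : L2 N) : J₂ N f =ᵐ[(gs N).prod (gs N)] fun z => f (mix z) :=
  Lp.coeFn_compMeasurePreserving f mp_mix

/-- the Mehler operator -/
noncomputable def T (N : ℕ) : L2 N →L[ℝ] L2 N :=
  (ContinuousLinearMap.adjoint (J₁ N).toContinuousLinearMap).comp (J₂ N).toContinuousLinearMap

theorem T_inner (f g : L2 N) : ⟪T N f, g⟫ = ⟪J₂ N f, J₁ N g⟫ := by
  unfold T
  rw [ContinuousLinearMap.comp_apply, ContinuousLinearMap.adjoint_inner_left]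
  rfl

theorem symm (f g : L2 N) : ⟪T N f, g⟫ = ⟪f, T N g⟫ := by
  rw [T_inner, real_inner_comm (T N g) f, T_inner, real_inner_comm, L2.inner_def, L2.inner_def]
  have e1 : ∫ z, ⟪J₁ N g z, J₂ N f z⟫ ∂((gs N).prod (gs N)) =
      ∫ z, ⟪g z.1, f (mix z)⟫ ∂((gs N).prod (gs N)) := by
    apply integral_congr_ae
    filter_upwards [J₁_ae g, J₂_ae f] with z h1 h2
    rw [h1, h2]
  have e2 : ∫ z, ⟪J₂ N g z, J₁ N f z⟫ ∂((gs N).prod (gs N)) =
      ∫ z, ⟪g (mix z), f z.1⟫ ∂((gs N).prod (gs N)) := by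
    apply integral_congr_ae
    filter_upwards [J₁_ae f, J₂_ae g] with z h1 h2
    rw [h1, h2]
  rw [e1, e2]
  have hm : AEStronglyMeasurable (fun z : Eu N × Eu N => (⟪g (mix z), f z.1⟫ : ℝ))
      ((gs N).prod (gs N)) := by
    apply AEStronglyMeasurable.inner
    · exact (Lp.aestronglyMeasurable g).comp_measurePreserving mp_mix
    · exact (Lp.aestronglyMeasurable f).comp_measurePreserving measurePreserving_fst
  have h1 := integral_map (μ := (gs N).prod (gs N)) (φ := rho)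
    (f := fun z : Eu N × Eu N => (⟪g (mix z), f z.1⟫ : ℝ)) mp_rho.aemeasurable
    (by rw [mp_rho.map_eq]; exact hm)
  rw [mp_rho.map_eq] at h1
  rw [h1]
  apply integral_congr_ae
  filter_upwards with z
  rw [mix_rho]
  rfl

theorem isMehler (N : ℕ) : IsMehler (T N) := by
  intro f
  have hF : Integrable (fun z : Eu N × Eu N => f (mix z)) ((gs N).prod (gs N)) := by
    have h1 : Integrable (f : Eu N → Eu N) (gs N) := (Lp.memLp f).integrable (by norm_num)
    exact mp_mix.integrable_comp_of_integrable h1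
  have hI : Integrable (fun x => ∫ y, f (mix (x, y)) ∂gs N) (gs N) := hF.integral_prod_left
  have hT : Integrable (T N f : Eu N → Eu N) (gs N) := (Lp.memLp _).integrable (by norm_num)
  apply Integrable.ae_eq_of_forall_setIntegral_eq _ _ hT hI
  intro s hs _
  have hμs : gs N s ≠ ∞ := measure_ne_top _ _
  apply ext_inner_left ℝ
  intro v
  have hs' : MeasurableSet (Prod.fst ⁻¹' s : Set (Eu N × Eu N)) := measurable_fst hs
  have hμs' : ((gs N).prod (gs N)) (Prod.fst ⁻¹' s) ≠ ∞ := measure_ne_top _ _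
  have e1 : (⟪v, ∫ x in s, T N f x ∂gs N⟫ : ℝ) = ⟪indicatorConstLp 2 hs hμs v, T N f⟫ :=
    (L2.inner_indicatorConstLp_eq_inner_setIntegral ℝ hs hμs v (T N f)).symm
  have e2 : J₁ N (indicatorConstLp 2 hs hμs v) = indicatorConstLp 2 hs' hμs' v :=
    Lp.indicatorConstLp_compMeasurePreserving hs hμs v measurePreserving_fst
  rw [e1, real_inner_comm, T_inner, real_inner_comm, e2,
    L2.inner_indicatorConstLp_eq_inner_setIntegral ℝ hs' hμs' v (J₂ N f)]
  congr 1
  have e3 : ∫ z in Prod.fst ⁻¹' s, J₂ N f z ∂((gs N).prod (gs N)) =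
      ∫ z in Prod.fst ⁻¹' s, f (mix z) ∂((gs N).prod (gs N)) := by
    apply integral_congr_ae
    exact ae_restrict_of_ae (J₂_ae f)
  have e4 : (Prod.fst ⁻¹' s : Set (Eu N × Eu N)) = s ×ˢ Set.univ := by
    ext z; simp
  rw [e3, e4, setIntegral_prod _ hF.integrableOn]
  simp only [Measure.restrict_univ]

end MEHAux

theorem stmt_MEH : Stmt_MEH := fun N => ⟨MEHAux.T N, MEHAux.isMehler N, MEHAux.symm⟩

end Pool.PQ
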