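import Pool.Agent.Work.MP_c13439_pq.MEH
import Pool.Agent.Work.MP_c13439_pq_helper57.Gauss

/-!
# MP_c13439_an, block MEHN: `T` is a contraction of `L_2(γ; p)` and commutes with matrices
-/

open MeasureTheory ProbabilityTheory
open scoped RealInnerProductSpace ENNReal

namespace Pool.PQ

namespace MEHN

variable {N : ℕ}

theorem cvx (p : Seminorm ℝ (Eu N)) : ConvexOn ℝ Set.univ (fun x : Eu N => p x ^ 2) := by
  have h : ConvexOn ℝ Set.univ (fun x : Eu N => p x) := p.convexOn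
  exact h.pow (fun x _ => apply_nonneg p x) 2

theorem int_sq (p : Seminorm ℝ (Eu N)) (f : L2 N) :
    Integrable (fun x => p (f x) ^ 2) (gs N) := by
  obtain ⟨C, hC, h⟩ := Pool.Agent.Work.MP_c13439_pq_h57.semi_bound p
  have hc : Continuous p := Pool.Agent.Work.MP_c13439_pq_h57.semi_cont p
  have h2 : MemLp (fun x => p (f x)) 2 (gs N) := by
    refine MemLp.of_le_mul (c := C) (Lp.memLp f)
      (hc.comp_aestronglyMeasurable (Lp.aestronglyMeasurable f))
      (Filter.Eventually.of_forall fun x => ?_)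
    rw [Real.norm_of_nonneg (apply_nonneg p _)]
    exact h _
  exact h2.integrable_sq

theorem int_mix (f : L2 N) :
    Integrable (fun z : Eu N × Eu N => f (MEHAux.mix z)) ((gs N).prod (gs N)) :=
  MEHAux.mp_mix.integrable_comp_of_integrable ((Lp.memLp f).integrable (by norm_num))

theorem int_mix_sq (p : Seminorm ℝ (Eu N)) (f : L2 N) :
    Integrable (fun z : Eu N × Eu N => p (f (MEHAux.mix z)) ^ 2) ((gs N).prod (gs N)) :=
  MEHAux.mp_mix.integrable_comp_of_integrable (int_sq p f)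

theorem contr {T : L2 N →L[ℝ] L2 N} (hT : IsMehler T) (p : Seminorm ℝ (Eu N)) (f : L2 N) :
    nrm p (T f) ≤ nrm p f := by
  have hc : Continuous p := Pool.Agent.Work.MP_c13439_pq_h57.semi_cont p
  unfold nrm
  apply Real.sqrt_le_sqrt
  have h1 : ∫ x, p (T f x) ^ 2 ∂gs N ≤
      ∫ x, (∫ y, p (f (MEHAux.mix (x, y))) ^ 2 ∂gs N) ∂gs N := by
    apply integral_mono_ae (int_sq p (T f)) (int_mix_sq p f).integral_prod_left
    filter_upwards [hT f, (int_mix f).prod_right_ae, (int_mix_sq p f).prod_right_ae]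
      with x h1 h2 h3
    have h4 := (cvx p).map_integral_le (μ := gs N)
      (f := fun y => f (MEHAux.mix (x, y))) (by fun_prop) isClosed_univ
      (Filter.Eventually.of_forall fun _ => Set.mem_univ _) h2 h3
    rw [h1]
    exact h4
  have h2 : ∫ x, (∫ y, p (f (MEHAux.mix (x, y))) ^ 2 ∂gs N) ∂gs N =
      ∫ z : Eu N × Eu N, p (f (MEHAux.mix z)) ^ 2 ∂((gs N).prod (gs N)) :=
    (integral_prod _ (int_mix_sq p f)).symm
  have h3 : ∫ z : Eu N × Eu N, p (f (MEHAux.mix z)) ^ 2 ∂((gs N).prod (gs N)) =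
      ∫ x, p (f x) ^ 2 ∂gs N := by
    have h4 := integral_map (μ := (gs N).prod (gs N)) (φ := MEHAux.mix)
      (f := fun x : Eu N => p (f x) ^ 2) MEHAux.mp_mix.aemeasurable
      (by rw [MEHAux.mp_mix.map_eq]; exact (int_sq p f).aestronglyMeasurable)
    rw [MEHAux.mp_mix.map_eq] at h4
    exact h4.symm
  exact h1.trans (h2.trans h3).le

theorem comm {T : L2 N →L[ℝ] L2 N} (hT : IsMehler T) (S : Eu N →L[ℝ] Eu N) (f : L2 N) :
    T (S.compLp f) = S.compLp (T f) := by
  have h0 : ∀ᵐ z ∂((gs N).prod (gs N)), (S.compLp f : L2 N) (MEHAux.mix z) =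
      S (f (MEHAux.mix z)) :=
    MEHAux.mp_mix.quasiMeasurePreserving.ae (ContinuousLinearMap.coeFn_compLp S f)
  apply Lp.ext
  filter_upwards [hT (S.compLp f), ContinuousLinearMap.coeFn_compLp S (T f), hT f,
    Measure.ae_ae_of_ae_prod h0, (int_mix f).prod_right_ae] with x h1 h2 h3 h4 h5
  rw [h1, h2, h3]
  have h6 := ContinuousLinearMap.integral_comp_comm S h5
  have h7 : ∫ y, (S.compLp f : L2 N) ((1 / 2 : ℝ) • x + (Real.sqrt 3 / 2) • y) ∂gs N =
      ∫ y, S (f (MEHAux.mix (x, y))) ∂gs N := by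
    apply integral_congr_ae
    filter_upwards [h4] with y hy
    exact hy
  rw [h7, h6]
  rfl

end MEHN

theorem stmt_MEHN : Stmt_MEHN := fun _ _ hT => ⟨MEHN.contr hT, MEHN.comm hT⟩

end Pool.PQ
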