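import Pool.Agent.Work.MP_c13439_pq.Interp

/-!
# MP_c13439_an, block MEHP: the Mehler operator on powers of linear forms
-/

open MeasureTheory ProbabilityTheory
open scoped RealInnerProductSpace ENNReal

namespace Pool.PQ

namespace MEHPAux

variable {N : ℕ}

/-- the map `(x, y) ↦ x / 2 + (√3 / 2) y` preserves the Gaussian measures -/
theorem mp_mix : MeasurePreserving
    (fun z : Eu N × Eu N => (1 / 2 : ℝ) • z.1 + (Real.sqrt 3 / 2) • z.2)
    ((gs N).prod (gs N)) (gs N) := by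
  have h1 : MeasurePreserving (ContinuousLinearMap.rotation (E := Eu N) (Real.pi / 3))
      ((gs N).prod (gs N)) ((gs N).prod (gs N)) := by
    refine ⟨by fun_prop, ?_⟩
    exact IsGaussian.map_rotation_eq_self_of_forall_strongDual_eq_zero
      (fun L => integral_strongDual_stdGaussian L) _
  have h2 : MeasurePreserving (Prod.fst : Eu N × Eu N → Eu N) ((gs N).prod (gs N)) (gs N) :=
    measurePreserving_fst
  have h3 := h2.comp h1
  have h4 : (fun z : Eu N × Eu N => (1 / 2 : ℝ) • z.1 + (Real.sqrt 3 / 2) • z.2) =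
      Prod.fst ∘ (ContinuousLinearMap.rotation (E := Eu N) (Real.pi / 3)) := by
    ext z : 1
    simp [ContinuousLinearMap.rotation_apply, Real.cos_pi_div_three, Real.sin_pi_div_three]
  rw [h4]
  exact h3

/-- `T f` can be computed with any representative of `f` -/
theorem mehler_congr {T : L2 N →L[ℝ] L2 N} (hT : IsMehler T) {f : L2 N} {g : Eu N → Eu N}
    (hfg : f =ᵐ[gs N] g) :
    T f =ᵐ[gs N] fun x => ∫ y, g ((1 / 2 : ℝ) • x + (Real.sqrt 3 / 2) • y) ∂gs N := by
  have h1 : ∀ᵐ z ∂((gs N).prod (gs N)),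
      f ((1 / 2 : ℝ) • z.1 + (Real.sqrt 3 / 2) • z.2) =
        g ((1 / 2 : ℝ) • z.1 + (Real.sqrt 3 / 2) • z.2) :=
    mp_mix.quasiMeasurePreserving.ae hfg
  have h2 := Measure.ae_ae_of_ae_prod h1
  filter_upwards [hT f, h2] with x hx hx2
  rw [hx]
  exact integral_congr_ae hx2

theorem int_pow (h : Eu N) (j : ℕ) : Integrable (fun x : Eu N => ⟪h, x⟫ ^ j) (gs N) := by
  have h1 : MemLp (fun x : Eu N => ⟪h, x⟫) (j : ℝ≥0∞) (gs N) :=
    IsGaussian.memLp_dual (gs N) (innerSL ℝ h) j (by simp)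
  have h2 := h1.integrable_norm_pow'
  refine h2.mono' (Continuous.aestronglyMeasurable (by fun_prop)) ?_
  filter_upwards with x
  rw [norm_pow]

theorem memLp_pow (h v : Eu N) (j : ℕ) :
    MemLp (fun x : Eu N => ⟪h, x⟫ ^ j • v) 2 (gs N) := by
  rw [memLp_two_iff_integrable_sq_norm (Continuous.aestronglyMeasurable (by fun_prop))]
  have h1 : (fun x : Eu N => ‖⟪h, x⟫ ^ j • v‖ ^ 2) =
      fun x : Eu N => ⟪h, x⟫ ^ (2 * j) * ‖v‖ ^ 2 := by
    funext x
    rw [norm_smul, mul_pow, Real.norm_eq_abs, sq_abs, ← pow_mul, mul_comm j 2]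
  rw [h1]
  exact (int_pow h (2 * j)).mul_const _

/-- `⟪h, ·⟫ ^ j v` as an element of `L2` -/
noncomputable def mono (h v : Eu N) (j : ℕ) : L2 N := (memLp_pow h v j).toLp _

theorem mono_ae (h v : Eu N) (j : ℕ) :
    mono h v j =ᵐ[gs N] fun x => ⟪h, x⟫ ^ j • v := MemLp.coeFn_toLp _

theorem mono_mem (h v : Eu N) {j k : ℕ} (hjk : j ≤ k) : mono h v j ∈ pw N k :=
  Submodule.subset_span ⟨j, hjk, h, v, mono_ae h v j⟩

theorem coeFn_sum {ι : Type} (s : Finset ι) (F : ι → L2 N) :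
    (⇑(∑ i ∈ s, F i) : Eu N → Eu N) =ᵐ[gs N] fun x => ∑ i ∈ s, (F i : Eu N → Eu N) x := by
  classical
  induction s using Finset.induction_on with
  | empty =>
    simp only [Finset.sum_empty]
    exact Lp.coeFn_zero _ _ _
  | insert a s ha ih =>
    rw [Finset.sum_insert ha]
    filter_upwards [Lp.coeFn_add (F a) (∑ i ∈ s, F i), ih] with x h1 h2
    rw [h1, Pi.add_apply, h2, Finset.sum_insert ha]

/-- the coefficients -/
noncomputable def co (h : Eu N) (j i : ℕ) : ℝ :=
  (1 / 2 : ℝ) ^ i * ((j.choose i : ℝ) * ∫ y, (Real.sqrt 3 / 2 * ⟪h, y⟫) ^ (j - i) ∂gs N)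

theorem mehler_mono {T : L2 N →L[ℝ] L2 N} (hT : IsMehler T) {f : L2 N} {h v : Eu N} {j : ℕ}
    (hf : f =ᵐ[gs N] fun x => ⟪h, x⟫ ^ j • v) :
    T f = ∑ i ∈ Finset.range (j + 1), co h j i • mono h v i := by
  apply Lp.ext
  have h1 : ∀ i : ℕ, ∀ᵐ x ∂gs N, (co h j i • mono h v i : L2 N) x = co h j i • (⟪h, x⟫ ^ i • v) := by
    intro i
    filter_upwards [Lp.coeFn_smul (co h j i) (mono h v i), mono_ae h v i] with x h2 h3
    rw [h2, Pi.smul_apply, h3]
  have h4 := ae_all_iff.2 h1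
  filter_upwards [mehler_congr hT hf,
    coeFn_sum (Finset.range (j + 1)) (fun i => co h j i • mono h v i), h4] with x h5 h6 h7
  rw [h5, h6, integral_smul_const]
  have h8 : ∀ y : Eu N, ⟪h, (1 / 2 : ℝ) • x + (Real.sqrt 3 / 2) • y⟫ ^ j =
      ∑ i ∈ Finset.range (j + 1), ((1 / 2 : ℝ) * ⟪h, x⟫) ^ i *
        (Real.sqrt 3 / 2 * ⟪h, y⟫) ^ (j - i) * (j.choose i : ℝ) := by
    intro y
    rw [inner_add_right, real_inner_smul_right, real_inner_smul_right, add_pow]
  simp_rw [h8]
  have h9 : ∀ (c : ℝ) (n : ℕ), Integrable (fun y : Eu N => (c * ⟪h, y⟫) ^ n) (gs N) := by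
    intro c n
    simp_rw [mul_pow]
    exact (int_pow h n).const_mul _
  rw [integral_finsetSum, Finset.sum_smul]
  · refine Finset.sum_congr rfl fun i _ => ?_
    rw [h7 i, integral_mul_const, integral_const_mul, smul_smul]
    congr 1
    unfold co
    rw [mul_pow]
    ring
  · intro i _
    exact ((h9 _ _).const_mul _).mul_const _

theorem co_self (h : Eu N) (j : ℕ) : co h j j = (1 / 2 : ℝ) ^ j := by
  unfold co
  simp

theorem gen_mem {T : L2 N →L[ℝ] L2 N} (hT : IsMehler T) {f : L2 N} {h v : Eu N} {j k : ℕ}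
    (hf : f =ᵐ[gs N] fun x => ⟪h, x⟫ ^ j • v) (hjk : j ≤ k) : T f ∈ pw N k := by
  rw [mehler_mono hT hf]
  refine Submodule.sum_mem _ fun i hi => Submodule.smul_mem _ _ (mono_mem h v ?_)
  have := Finset.mem_range.1 hi
  omega

theorem gen_sub {T : L2 N →L[ℝ] L2 N} (hT : IsMehler T) {f : L2 N} {h v : Eu N} {k : ℕ}
    (hf : f =ᵐ[gs N] fun x => ⟪h, x⟫ ^ (k + 1) • v) :
    T f - (1 / 2 : ℝ) ^ (k + 1) • f ∈ pw N k := by
  have h0 : f = mono h v (k + 1) := Lp.ext (hf.trans (mono_ae h v (k + 1)).symm)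
  rw [mehler_mono hT hf, Finset.sum_range_succ, co_self, ← h0, add_sub_cancel_right]
  refine Submodule.sum_mem _ fun i hi => Submodule.smul_mem _ _ (mono_mem h v ?_)
  have := Finset.mem_range.1 hi
  omega

end MEHPAux

open MEHPAux in
theorem stmt_MEHP : Stmt_MEHP := by
  intro N T hT
  constructor
  · intro f hf
    unfold pw at hf
    induction hf using Submodule.span_induction with
    | mem f hf =>
      obtain ⟨j, hj, h, v, hf⟩ := hf
      obtain rfl : j = 0 := by omega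
      have h0 : f = mono h v 0 := Lp.ext (hf.trans (mono_ae h v 0).symm)
      rw [mehler_mono hT hf, Finset.sum_range_succ, Finset.sum_range_zero, co_self, ← h0]
      simp
    | zero => simp
    | add f g _ _ h1 h2 => rw [map_add, h1, h2]
    | smul c f _ h1 => rw [map_smul, h1]
  · intro k f hf
    unfold pw at hf
    induction hf using Submodule.span_induction with
    | mem f hf =>
      obtain ⟨j, hj, h, v, hf⟩ := hf
      rcases Nat.lt_or_ge k j with h1 | h1
      · obtain rfl : j = k + 1 := by omega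
        exact gen_sub hT hf
      · refine Submodule.sub_mem _ (gen_mem hT hf h1) (Submodule.smul_mem _ _ ?_)
        exact Submodule.subset_span ⟨j, h1, h, v, hf⟩
    | zero => simp
    | add f g _ _ h1 h2 =>
      have h3 : T (f + g) - (1 / 2 : ℝ) ^ (k + 1) • (f + g) =
          (T f - (1 / 2 : ℝ) ^ (k + 1) • f) + (T g - (1 / 2 : ℝ) ^ (k + 1) • g) := by
        rw [map_add, smul_add]
        abel
      rw [h3]
      exact Submodule.add_mem _ h1 h2
    | smul c f _ h1 =>
      have h3 : T (c • f) - (1 / 2 : ℝ) ^ (k + 1) • (c • f) =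
          c • (T f - (1 / 2 : ℝ) ^ (k + 1) • f) := by
        rw [map_smul, smul_sub, smul_comm]
      rw [h3]
      exact Submodule.smul_mem _ _ h1

end Pool.PQ
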