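import Pool.Agent.Work.MP_c13439_pq.Quant

/-!
# Block RATS: rates of decay of sequences
-/

namespace Pool.PQ

namespace RATS

theorem sum_bound {f : ℕ → ℝ} {h : ℝ} {n : ℕ → ℕ} (h0 : f 0 < h)
    (hstep : ∀ j k : ℕ, f k < h / 2 ^ j → f (k + n j) < h / 2 ^ (j + 1)) (j : ℕ) :
    f (∑ i ∈ Finset.range j, n i) < h / 2 ^ j := by
  induction j with
  | zero => simpa using h0
  | succ j ih =>
    rw [Finset.sum_range_succ]
    exact hstep j _ ih

theorem geo_bound {n : ℕ → ℕ} {D r : ℝ} (hD : 0 ≤ D) (hr : 1 < r)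
    (hn : ∀ j, (n j : ℝ) ≤ D * r ^ j) (j : ℕ) :
    ((∑ i ∈ Finset.range j, n i : ℕ) : ℝ) ≤ D * (r ^ j / (r - 1)) := by
  have hr1 : 0 < r - 1 := by linarith
  induction j with
  | zero =>
    simp only [Finset.range_zero, Finset.sum_empty, Nat.cast_zero, pow_zero]
    positivity
  | succ j ih =>
    rw [Finset.sum_range_succ, Nat.cast_add]
    have h1 : D * (r ^ (j + 1) / (r - 1)) = D * (r ^ j / (r - 1)) + D * r ^ j := by
      rw [← mul_add]
      congr 1
      field_simp
      ring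
    rw [h1]
    exact add_le_add ih (hn j)

end RATS

open RATS in
theorem stmt_RATS : Stmt_RATS := by
  intro α B hα hB
  have hα0 : 0 < α := by linarith
  obtain ⟨β, hβ⟩ : ∃ β, β = 1 / α := ⟨_, rfl⟩
  have hβ0 : 0 < β := by rw [hβ]; positivity
  have hβα : α * β = 1 := by rw [hβ]; field_simp
  obtain ⟨r, hr⟩ : ∃ r : ℝ, r = 2 ^ β := ⟨_, rfl⟩
  have hr1 : 1 < r := by rw [hr]; exact Real.one_lt_rpow (by norm_num) hβ0
  have hr2 : 0 < r - 1 := by linarith
  obtain ⟨B', hB'⟩ : ∃ B', B' = 2 * B / (r - 1) := ⟨_, rfl⟩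
  have hB'0 : 0 < B' := by rw [hB']; positivity
  refine ⟨max 1 (2 * B' ^ α), le_max_left _ _, ?_⟩
  intro f h M n hh hM hf0 hanti h0 hstep hn k
  have hM0 : 0 < M := by linarith
  obtain ⟨x, hx⟩ : ∃ x, x = M / h := ⟨_, rfl⟩
  have hx0 : 0 < x := by rw [hx]; positivity
  have hxh : h * x = M := by rw [hx]; field_simp
  have hk0 : (0 : ℝ) < (k : ℝ) + 1 := by positivity
  -- the numbers
  have hn' : ∀ j, (n j : ℝ) ≤ (B * x ^ β) * r ^ j := by
    intro j
    refine (hn j).trans (le_of_eq ?_)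
    rw [mul_div_assoc, ← hx, ← hβ, Real.mul_rpow (by positivity) hx0.le, hr,
      ← Real.rpow_natCast (2 ^ β) j, ← Real.rpow_mul (by norm_num), mul_comm β, Real.rpow_mul
      (by norm_num), Real.rpow_natCast]
    ring
  have hS := geo_bound (D := B * x ^ β) (by positivity) hr1 hn'
  have hrj : ∀ j : ℕ, x ^ β * r ^ j = (x * 2 ^ j) ^ β := by
    intro j
    rw [Real.mul_rpow hx0.le (by positivity), hr, ← Real.rpow_natCast (2 ^ β) j,
      ← Real.rpow_mul (by norm_num), mul_comm β, Real.rpow_mul (by norm_num), Real.rpow_natCast]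
  obtain ⟨Y, hY⟩ : ∃ Y, Y = (((k : ℝ) + 1) / B') ^ α / x := ⟨_, rfl⟩
  have hY0 : 0 < Y := by rw [hY]; positivity
  have hYh : 2 * (h / Y) = 2 * B' ^ α * (M * ((k : ℝ) + 1) ^ (-α)) := by
    rw [hY, Real.div_rpow hk0.le hB'0.le, Real.rpow_neg hk0.le, ← hxh]
    have e1 : 0 < B' ^ α := Real.rpow_pos_of_pos hB'0 _
    have e2 : 0 < ((k : ℝ) + 1) ^ α := Real.rpow_pos_of_pos hk0 _
    field_simp
  have hmain : f k ≤ 2 * (h / Y) := by
    rcases lt_or_ge Y 1 with hY1 | hY1
    · have e1 : f k ≤ h := (hanti (Nat.zero_le k)).trans h0.le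
      have e2 : h ≤ h / Y := by
        rw [le_div_iff₀ hY0]
        nlinarith
      have e3 : 0 < h / Y := by positivity
      linarith
    · obtain ⟨j, hj1, hj2⟩ := exists_nat_pow_near hY1 (by norm_num : (1 : ℝ) < 2)
      have e1 : x * 2 ^ j ≤ (((k : ℝ) + 1) / B') ^ α := by
        have := mul_le_mul_of_nonneg_left hj1 hx0.le
        rw [hY, mul_div_cancel₀ _ hx0.ne'] at this
        exact this
      have e2 : (x * 2 ^ j) ^ β ≤ ((k : ℝ) + 1) / B' := by
        have := Real.rpow_le_rpow (by positivity) e1 hβ0.le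
        rwa [← Real.rpow_mul (by positivity), hβα, Real.rpow_one] at this
      have e3 : ((∑ i ∈ Finset.range j, n i : ℕ) : ℝ) < (k : ℝ) + 1 := by
        refine (hS j).trans_lt ?_
        have e4 : B * x ^ β * (r ^ j / (r - 1)) = B / (r - 1) * (x * 2 ^ j) ^ β := by
          rw [← hrj]
          ring
        rw [e4]
        have e5 : 0 < (x * 2 ^ j) ^ β := Real.rpow_pos_of_pos (by positivity) _
        rw [le_div_iff₀ hB'0, hB'] at e2
        have e6 : 0 < B / (r - 1) * (x * 2 ^ j) ^ β := by positivity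
        calc B / (r - 1) * (x * 2 ^ j) ^ β
            < 2 * (B / (r - 1) * (x * 2 ^ j) ^ β) := by linarith
          _ = (x * 2 ^ j) ^ β * (2 * B / (r - 1)) := by ring
          _ ≤ _ := e2
      have e7 : (∑ i ∈ Finset.range j, n i) ≤ k := by
        have : (∑ i ∈ Finset.range j, n i) < k + 1 := by exact_mod_cast e3
        omega
      have e8 : f k < h / 2 ^ j := (hanti e7).trans_lt (sum_bound h0 hstep j)
      have e9 : h / 2 ^ j ≤ 2 * (h / Y) := by
        have e10 : h / 2 ^ j = 2 * (h / 2 ^ (j + 1)) := by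
          rw [pow_succ]
          field_simp
        rw [e10]
        have : h / 2 ^ (j + 1) ≤ h / Y := div_le_div_of_nonneg_left hh.le hY0 hj2.le
        linarith
      linarith
  rw [hYh] at hmain
  refine hmain.trans (mul_le_mul_of_nonneg_right (le_max_right _ _) ?_)
  have e2 : 0 < ((k : ℝ) + 1) ^ (-α) := Real.rpow_pos_of_pos hk0 _
  positivity

end Pool.PQ
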