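import Pool.Agent.Work.MP_c13439_pq.Interp

/-!
# Block SPEC: spectral bound for a symmetric operator which is triangular with eigenvalues `2^(-k)`
-/

open Polynomial
open scoped RealInnerProductSpace

namespace Pool.PQ.SPEC

variable {E : Type} [NormedAddCommGroup E] [InnerProductSpace ℝ E]

/-- a polynomial in `T` on an eigenvector -/
lemma aeval_eig (T : E →L[ℝ] E) (c : ℝ[X]) {l : ℝ} {f : E} (h : T f = l • f) :
    aeval T c f = c.eval l • f := by
  induction c using Polynomial.induction_on' with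
  | add p q hp hq =>
    rw [map_add, add_apply, hp, hq, eval_add, add_smul]
  | monomial n a =>
    rw [aeval_monomial, eval_monomial]
    have hpow : ∀ n : ℕ, (T ^ n) f = l ^ n • f := by
      intro n
      induction n with
      | zero => simp
      | succ n ih =>
        rw [pow_succ, mul_apply_eq_comp, h, map_smul, ih, smul_smul, pow_succ, mul_comm]
    rw [mul_apply_eq_comp, hpow n, Algebra.algebraMap_eq_smul_one,
      smul_apply, one_apply_eq_self, smul_smul]

/-- decomposition into eigenvectors -/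
lemma decomp (T : E →L[ℝ] E) (F : ℕ → Submodule ℝ E) (h0 : ∀ f ∈ F 0, T f = f)
    (h1 : ∀ k, ∀ f ∈ F (k + 1), T f - (1 / 2 : ℝ) ^ (k + 1) • f ∈ F k) (n : ℕ) :
    ∀ f ∈ F n, ∃ g : ℕ → E, f = ∑ k ∈ Finset.range (n + 1), g k ∧
      ∀ k, T (g k) = (1 / 2 : ℝ) ^ k • g k := by
  induction n with
  | zero =>
    intro f hf
    refine ⟨fun k => if k = 0 then f else 0, by simp, fun k => ?_⟩
    by_cases hk : k = 0
    · subst hk
      simp [h0 f hf]
    · simp [hk]
  | succ n ih =>
    intro f hf
    obtain ⟨g, hg, hT⟩ := ih _ (h1 n f hf)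
    set c : ℕ → ℝ := fun k => ((1 / 2 : ℝ) ^ k - (1 / 2 : ℝ) ^ (n + 1))⁻¹ with hc
    set r : E := f - ∑ k ∈ Finset.range (n + 1), c k • g k with hr
    have hcne : ∀ k ∈ Finset.range (n + 1), (1 / 2 : ℝ) ^ k - (1 / 2 : ℝ) ^ (n + 1) ≠ 0 := by
      intro k hk
      have hk' := Finset.mem_range.mp hk
      have : (1 / 2 : ℝ) ^ (n + 1) < (1 / 2 : ℝ) ^ k :=
        pow_lt_pow_right_of_lt_one₀ (by norm_num) (by norm_num) hk'
      exact (sub_pos.mpr this).ne'
    have hTr : T r = (1 / 2 : ℝ) ^ (n + 1) • r := by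
      have e1 : T f = (1 / 2 : ℝ) ^ (n + 1) • f + ∑ k ∈ Finset.range (n + 1), g k := by
        rw [← hg]; abel
      rw [hr, map_sub, e1, map_sum, smul_sub, Finset.smul_sum]
      have e2 : ∀ k ∈ Finset.range (n + 1), T (c k • g k)
          = g k + (1 / 2 : ℝ) ^ (n + 1) • c k • g k := by
        intro k hk
        rw [map_smul, hT k, smul_smul, smul_smul]
        have : c k * (1 / 2 : ℝ) ^ k = 1 + (1 / 2 : ℝ) ^ (n + 1) * c k := by
          have h := inv_mul_cancel₀ (hcne k hk)
          simp only [hc]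
          linear_combination h
        rw [this, add_smul, one_smul]
      rw [Finset.sum_congr rfl e2, Finset.sum_add_distrib]
      abel
    refine ⟨fun k => if k ≤ n then c k • g k else if k = n + 1 then r else 0, ?_, fun k => ?_⟩
    · rw [Finset.sum_range_succ, Finset.sum_congr rfl (fun k hk => if_pos
        (by have := Finset.mem_range.mp hk; omega))]
      simp [hr]
    · by_cases hk : k ≤ n
      · simp only [hk, if_true]
        rw [map_smul, hT k, smul_comm]
      · by_cases hk' : k = n + 1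
        · subst hk'
          simpa using hTr
        · simp [hk, hk']

lemma norm_sum_sq (v : ℕ → E) (s : Finset ℕ) (h : ∀ k l, k ≠ l → ⟪v k, v l⟫ = 0) :
    ‖∑ k ∈ s, v k‖ ^ 2 = ∑ k ∈ s, ‖v k‖ ^ 2 := by
  rw [← real_inner_self_eq_norm_sq, sum_inner]
  refine Finset.sum_congr rfl fun k hk => ?_
  rw [inner_sum, Finset.sum_eq_single_of_mem k hk (fun l _ hl => h k l hl.symm),
    real_inner_self_eq_norm_sq]

end Pool.PQ.SPEC

namespace Pool.PQ

open SPEC

theorem stmt_SPEC : Stmt_SPEC := by
  intro E _ _ T F hsym h0 h1 hmono hdense c M hM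
  have hM0 : 0 ≤ M := (abs_nonneg _).trans (hM 0)
  have key : ∀ f ∈ (⨆ k, F k : Submodule ℝ E), ‖aeval T c f‖ ≤ M * ‖f‖ := by
    intro f hf
    have hdir : Directed (· ≤ ·) F := (monotone_nat_of_le_succ hmono).directed_le
    obtain ⟨n, hn⟩ := (Submodule.mem_iSup_of_directed F hdir).mp hf
    obtain ⟨g, hg, hT⟩ := decomp T F h0 h1 n f hn
    have horth : ∀ k l, k ≠ l → ⟪g k, g l⟫ = 0 := by
      intro k l hkl
      have h := hsym (g k) (g l)
      rw [hT k, hT l, real_inner_smul_left, real_inner_smul_right] at h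
      have hne : (1 / 2 : ℝ) ^ k - (1 / 2 : ℝ) ^ l ≠ 0 := by
        intro h'
        apply hkl
        have := sub_eq_zero.mp h'
        exact pow_right_injective₀ (by norm_num : (0 : ℝ) < 1 / 2) (by norm_num) this
      have h2 : ((1 / 2 : ℝ) ^ k - (1 / 2 : ℝ) ^ l) * ⟪g k, g l⟫ = 0 := by
        linear_combination h
      exact (mul_eq_zero.mp h2).resolve_left hne
    have e : aeval T c f = ∑ k ∈ Finset.range (n + 1), c.eval ((1 / 2 : ℝ) ^ k) • g k := by
      rw [hg, map_sum]
      exact Finset.sum_congr rfl fun k _ => aeval_eig T c (hT k)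
    have h2 : ‖aeval T c f‖ ^ 2 ≤ (M * ‖f‖) ^ 2 := by
      rw [e, norm_sum_sq (fun k => c.eval ((1 / 2 : ℝ) ^ k) • g k), mul_pow]
      · rw [hg, norm_sum_sq g _ horth, Finset.mul_sum]
        refine Finset.sum_le_sum fun k _ => ?_
        rw [norm_smul, mul_pow, Real.norm_eq_abs]
        exact mul_le_mul_of_nonneg_right (pow_le_pow_left₀ (abs_nonneg _) (hM k) 2) (by positivity)
      · intro k l hkl
        rw [real_inner_smul_left, real_inner_smul_right, horth k l hkl, mul_zero, mul_zero]
    exact le_of_sq_le_sq h2 (by positivity)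
  intro f
  have hclosed : IsClosed {f : E | ‖aeval T c f‖ ≤ M * ‖f‖} :=
    isClosed_le (by fun_prop) (by fun_prop)
  exact hclosed.closure_subset_iff.mpr (fun x hx => key x hx) (hdense f)

end Pool.PQ
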