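import Mathlib

/-!
# MP_c13439_an, Q1 for `0 < p < 1` (note 2014): common definitions

Everything is about norms on `ℝ^N = Eu N`, `T = id`.  `DN N`: a norm `p` together with its dual
norm `q` (with respect to the Euclidean inner product); `X.dual` is the pair `(q, p)`.
`ent U V k`: entropy numbers of the identity from `(ℝ^N, U)` to `(ℝ^N, V)`, `2 ^ k` balls.
`ell p B = (E p(B g)²)^(1/2)`, `g` a standard Gaussian vector; `StarLe p A c`: the trace dual
norm of `A` is at most `c`.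
-/

open MeasureTheory ProbabilityTheory
open scoped RealInnerProductSpace

namespace Pool.PQ

/-- `ℝ^N` -/
abbrev Eu (N : ℕ) := EuclideanSpace ℝ (Fin N)

/-- the standard Gaussian measure on `ℝ^N` -/
noncomputable abbrev gs (N : ℕ) : Measure (Eu N) := stdGaussian (Eu N)

variable {N : ℕ}

/-- A norm `p` on `ℝ^N` together with its dual norm `q`. -/
structure DN (N : ℕ) where
  p : Seminorm ℝ (Eu N)
  q : Seminorm ℝ (Eu N)
  le : ∀ x y : Eu N, ⟪x, y⟫ ≤ p x * q y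
  att_q : ∀ y : Eu N, ∃ x, p x ≤ 1 ∧ ⟪x, y⟫ = q y
  att_p : ∀ x : Eu N, ∃ y, q y ≤ 1 ∧ ⟪x, y⟫ = p x

/-- The dual norm, as a norm with its dual norm. -/
def DN.dual (X : DN N) : DN N where
  p := X.q
  q := X.p
  le x y := by rw [real_inner_comm, mul_comm]; exact X.le y x
  att_q y := by
    obtain ⟨z, hz, h⟩ := X.att_p y
    exact ⟨z, hz, by rw [real_inner_comm]; exact h⟩
  att_p x := by
    obtain ⟨z, hz, h⟩ := X.att_q x
    exact ⟨z, hz, by rw [real_inner_comm]; exact h⟩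

@[simp] theorem DN.dual_p (X : DN N) : X.dual.p = X.q := rfl
@[simp] theorem DN.dual_q (X : DN N) : X.dual.q = X.p := rfl
@[simp] theorem DN.dual_dual (X : DN N) : X.dual.dual = X := rfl

theorem DN.eq_zero (X : DN N) {x : Eu N} (h : X.p x = 0) : x = 0 := by
  have h1 := X.le x x
  rw [h, zero_mul] at h1
  exact inner_self_eq_zero.1 (le_antisymm h1 real_inner_self_nonneg)

/-- The norm is Euclidean: `p x = |S x|` for an invertible matrix `S`. -/
def DN.IsEuclid (H : DN N) : Prop := ∃ S : Eu N ≃L[ℝ] Eu N, ∀ x, H.p x = ‖S x‖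

/-- Entropy numbers of the identity of `ℝ^N` from the norm `U` to the norm `V`: the infimum of
the `ε > 0` such that the unit ball of `U` is covered by `2 ^ k` balls of radius `ε` of `V`. -/
noncomputable def ent (U V : Seminorm ℝ (Eu N)) (k : ℕ) : ℝ :=
  sInf {ε : ℝ | 0 < ε ∧ ∃ w : Fin (2 ^ k) → Eu N, ∀ x, U x ≤ 1 → ∃ i, V (x - w i) ≤ ε}

/-- `ell p B = (E p(B g)²)^(1/2)` -/
noncomputable def ell (p : Seminorm ℝ (Eu N)) (B : Eu N →L[ℝ] Eu N) : ℝ :=
  Real.sqrt (∫ x, p (B x) ^ 2 ∂gs N)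

/-- The trace dual norm of `A` (of the norm `ell p`) is at most `c`. -/
def StarLe (p : Seminorm ℝ (Eu N)) (A : Eu N →L[ℝ] Eu N) (c : ℝ) : Prop :=
  ∀ V : Eu N →L[ℝ] Eu N, LinearMap.trace ℝ (Eu N) (A ∘L V).toLinearMap ≤ c * ell p V

/-- `Z` is between `X` and `H`, with exponent `θ` and constant `C`. -/
structure Between (θ C : ℝ) (X H Z : Seminorm ℝ (Eu N)) : Prop where
  up : ∀ z, Z z ≤ C * (X z ^ (1 - θ) * H z ^ θ)
  dec : ∀ t : ℝ, 0 < t → ∀ z, ∃ x, X x ≤ C * (t ^ θ * Z z) ∧ H (z - x) ≤ C * (t ^ (θ - 1) * Z z)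

/-- `Z` is `K`-convex with constant `K`: `l(A^*) ≤ K l^*(A)` for all `A : Z → ℝ^N`. -/
def KConv (K : ℝ) (Z : DN N) : Prop :=
  ∀ (A : Eu N →L[ℝ] Eu N) (c : ℝ), 0 ≤ c → StarLe Z.p A c →
    ell Z.q (ContinuousLinearMap.adjoint A) ≤ K * c

end Pool.PQ
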