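import Pool.Agent.Work.MP_c13439_pq.Boot
import Pool.Agent.Work.MP_c13439_pq_helper57.Sud

/-! # Block SUD (helper57) -/

set_option autoImplicit false

open MeasureTheory ProbabilityTheory
open scoped RealInnerProductSpace

namespace Pool.PQ

theorem stmt_SUD : Stmt_SUD := by
  refine ⟨96, by norm_num, fun N V H S hH k => ⟨?_, ?_⟩⟩
  · have h0 : 0 ≤ ell V.p (S.symm : Eu N →L[ℝ] Eu N) := Real.sqrt_nonneg _
    have h1 := Pool.Agent.Work.MP_c13439_pq_h57.SUD1 S H.p V.p hH k
    refine h1.trans ?_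
    rw [mul_div_assoc]
    exact mul_le_mul_of_nonneg_right (by norm_num) (by positivity)
  · refine (Pool.Agent.Work.MP_c13439_pq_h57.SUD2 S V H.p hH k).trans (le_of_eq ?_)
    rw [mul_div_assoc]

end Pool.PQ
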