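import Pool.Agent.Work.MP_c13439_pq.Interp

/-!
# MP_c13439_an, block TGT of `pq_blocks`: entropy numbers with interpolated target
-/

open MeasureTheory ProbabilityTheory Polynomial
open scoped RealInnerProductSpace

namespace Pool.PQ

namespace TGT

variable {N : ℕ}

theorem step (h1 : Stmt_ENT) {θ C : ℝ} (hθ0 : 0 < θ) (hθ1 : θ < 1) (hC : 1 ≤ C)
    (X H Z V : DN N) (hB : Between θ C X.p H.p Z.p) (k l : ℕ) {e f : ℝ}
    (he : ent V.p X.p k < e) (hf : ent V.p H.p l < f) (he0 : 0 < e) (hf0 : 0 < f) :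
    ent V.p Z.p (k + l) ≤ 2 * C * (e ^ (1 - θ) * f ^ θ) := by
  classical
  obtain ⟨w, hw⟩ := (h1 N V X).1 k e he
  obtain ⟨v, hv⟩ := (h1 N V H).1 l f hf
  have hC0 : 0 ≤ C := by linarith
  have hnn : 0 ≤ 2 * C * (e ^ (1 - θ) * f ^ θ) := by positivity
  apply (h1 N V Z).2.1 (k + l) _ hnn
  -- the centres
  let P : Fin (2 ^ k) × Fin (2 ^ l) → Eu N → Prop := fun ij x =>
    V.p x ≤ 1 ∧ X.p (x - w ij.1) ≤ e ∧ H.p (x - v ij.2) ≤ f
  let c : Fin (2 ^ k) × Fin (2 ^ l) → Eu N := fun ij => if h : ∃ x, P ij x then h.choose else 0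
  have hc : ∀ ij x, P ij x → P ij (c ij) := by
    intro ij x hx
    have h : ∃ x, P ij x := ⟨x, hx⟩
    have : c ij = h.choose := dif_pos h
    rw [this]
    exact h.choose_spec
  have hpow : 2 ^ (k + l) = 2 ^ k * 2 ^ l := pow_add 2 k l
  refine ⟨fun i => c (finProdFinEquiv.symm (Fin.cast hpow i)), ?_⟩
  intro x hx
  obtain ⟨i, hi⟩ := hw x hx
  obtain ⟨j, hj⟩ := hv x hx
  refine ⟨Fin.cast hpow.symm (finProdFinEquiv (i, j)), ?_⟩
  have h2 : finProdFinEquiv.symm (Fin.cast hpow (Fin.cast hpow.symm (finProdFinEquiv (i, j))))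
      = (i, j) := by
    have : Fin.cast hpow (Fin.cast hpow.symm (finProdFinEquiv (i, j))) = finProdFinEquiv (i, j) :=
      Fin.ext rfl
    rw [this, Equiv.symm_apply_apply]
  simp only [h2]
  obtain ⟨-, hcX, hcH⟩ := hc (i, j) x ⟨hx, hi, hj⟩
  simp only at hcX hcH
  set y := c (i, j) with hy
  have hX : X.p (x - y) ≤ 2 * e := by
    have h3 : x - y = (x - w i) - (y - w i) := by abel
    rw [h3]
    have h4 := map_sub_le_add X.p (x - w i) (y - w i)
    linarith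
  have hH : H.p (x - y) ≤ 2 * f := by
    have h3 : x - y = (x - v j) - (y - v j) := by abel
    rw [h3]
    have h4 := map_sub_le_add H.p (x - v j) (y - v j)
    linarith
  have h5 := hB.up (x - y)
  have h6 : X.p (x - y) ^ (1 - θ) ≤ (2 * e) ^ (1 - θ) :=
    Real.rpow_le_rpow (apply_nonneg _ _) hX (by linarith)
  have h7 : H.p (x - y) ^ θ ≤ (2 * f) ^ θ := Real.rpow_le_rpow (apply_nonneg _ _) hH hθ0.le
  have h8 : X.p (x - y) ^ (1 - θ) * H.p (x - y) ^ θ ≤ (2 * e) ^ (1 - θ) * (2 * f) ^ θ :=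
    mul_le_mul h6 h7 (Real.rpow_nonneg (apply_nonneg _ _) _) (by positivity)
  have h9 : (2 * e) ^ (1 - θ) * (2 * f) ^ θ = 2 * (e ^ (1 - θ) * f ^ θ) := by
    rw [Real.mul_rpow (by norm_num) he0.le, Real.mul_rpow (by norm_num) hf0.le]
    have : (2 : ℝ) ^ (1 - θ) * 2 ^ θ = 2 := by
      rw [← Real.rpow_add (by norm_num)]
      simp
    calc (2 : ℝ) ^ (1 - θ) * e ^ (1 - θ) * (2 ^ θ * f ^ θ)
        = ((2 : ℝ) ^ (1 - θ) * 2 ^ θ) * (e ^ (1 - θ) * f ^ θ) := by ring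
      _ = 2 * (e ^ (1 - θ) * f ^ θ) := by rw [this]
  calc Z.p (x - y) ≤ C * (X.p (x - y) ^ (1 - θ) * H.p (x - y) ^ θ) := h5
    _ ≤ C * ((2 * e) ^ (1 - θ) * (2 * f) ^ θ) := mul_le_mul_of_nonneg_left h8 hC0
    _ = 2 * C * (e ^ (1 - θ) * f ^ θ) := by rw [h9]; ring

end TGT

theorem stmt_TGT (h1 : Stmt_ENT) : Stmt_TGT := by
  intro θ C hθ0 hθ1 hC N X H Z V hB k l
  have hE : 0 ≤ ent V.p X.p k := ((h1 N V X).2.2.1 k).1
  have hF : 0 ≤ ent V.p H.p l := ((h1 N V H).2.2.1 l).1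
  have hcont : Filter.Tendsto (fun δ : ℝ => 2 * C * ((ent V.p X.p k + δ) ^ (1 - θ) *
      (ent V.p H.p l + δ) ^ θ)) (nhdsWithin 0 (Set.Ioi 0))
      (nhds (2 * C * (ent V.p X.p k ^ (1 - θ) * ent V.p H.p l ^ θ))) := by
    have h2 : Continuous (fun δ : ℝ => 2 * C * ((ent V.p X.p k + δ) ^ (1 - θ) *
      (ent V.p H.p l + δ) ^ θ)) := by
      refine continuous_const.mul (Continuous.mul ?_ ?_)
      · exact (continuous_const.add continuous_id).rpow_const (fun _ => Or.inr (by linarith))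
      · exact (continuous_const.add continuous_id).rpow_const (fun _ => Or.inr hθ0.le)
    have h3 := (h2.tendsto 0).mono_left (nhdsWithin_le_nhds (s := Set.Ioi (0 : ℝ)))
    simpa using h3
  refine ge_of_tendsto hcont ?_
  filter_upwards [self_mem_nhdsWithin] with δ hδ
  have hδ' : (0 : ℝ) < δ := hδ
  exact TGT.step h1 hθ0 hθ1 hC X H Z V hB k l (by linarith) (by linarith) (by linarith)
    (by linarith)

end Pool.PQ
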