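import Pool.Agent.Work.MP_c13439_pq.Boot

/-!
# Block TOP: the local estimate at scale `r`
-/

set_option autoImplicit false

open MeasureTheory ProbabilityTheory
open scoped RealInnerProductSpace

namespace Pool.PQ

namespace TopB

variable {N : ℕ}

/-- A multiple of a seminorm. -/
noncomputable def mulS (p : Seminorm ℝ (Eu N)) (r : ℝ) (hr : 0 ≤ r) : Seminorm ℝ (Eu N) :=
  Seminorm.of (fun x => r * p x)
    (fun x y => by rw [← mul_add]; exact mul_le_mul_of_nonneg_left (map_add_le_add p x y) hr)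
    (fun a x => by rw [map_smul_eq_mul]; ring)

/-- The norm `V.p / r`, with its dual norm `r V.q`. -/
noncomputable def scale (V : DN N) (r : ℝ) (hr : 0 < r) : DN N where
  p := mulS V.p r⁻¹ (inv_pos.2 hr).le
  q := mulS V.q r hr.le
  le x y := by
    change ⟪x, y⟫ ≤ (r⁻¹ * V.p x) * (r * V.q y)
    have h1 : (r⁻¹ * V.p x) * (r * V.q y) = V.p x * V.q y := by
      field_simp
    rw [h1]
    exact V.le x y
  att_q y := by
    obtain ⟨x, hx, h⟩ := V.att_q y
    refine ⟨r • x, ?_, ?_⟩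
    · change r⁻¹ * V.p (r • x) ≤ 1
      rw [map_smul_eq_mul, Real.norm_of_nonneg hr.le, ← mul_assoc, inv_mul_cancel₀ hr.ne', one_mul]
      exact hx
    · change ⟪r • x, y⟫ = r * V.q y
      rw [real_inner_smul_left, h]
  att_p x := by
    obtain ⟨y, hy, h⟩ := V.att_p x
    refine ⟨r⁻¹ • y, ?_, ?_⟩
    · change r * V.q (r⁻¹ • y) ≤ 1
      rw [map_smul_eq_mul, Real.norm_of_nonneg (inv_pos.2 hr).le, ← mul_assoc,
        mul_inv_cancel₀ hr.ne', one_mul]
      exact hy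
    · change ⟪x, r⁻¹ • y⟫ = r⁻¹ * V.p x
      rw [real_inner_smul_right, h]

theorem scale_p (V : DN N) {r : ℝ} (hr : 0 < r) (x : Eu N) : (scale V r hr).p x = r⁻¹ * V.p x :=
  rfl

theorem scale_q (V : DN N) {r : ℝ} (hr : 0 < r) (x : Eu N) : (scale V r hr).q x = r * V.q x :=
  rfl

theorem ent_scale (h : Stmt_ENT) (U V : DN N) {r : ℝ} (hr : 0 < r) (k : ℕ) :
    ent U.p (scale V r hr).p k ≤ ent U.p V.p k / r := by
  rw [le_div_iff₀ hr]
  refine le_of_forall_gt_imp_ge_of_dense fun ε hε => ?_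
  rw [← le_div_iff₀ hr]
  have h0 : 0 ≤ ε := ((h N U V).2.2.1 k).1.trans hε.le
  obtain ⟨w, hw⟩ := (h N U V).1 k ε hε
  refine (h N U (scale V r hr)).2.1 k _ (by positivity) ⟨w, fun x hx => ?_⟩
  obtain ⟨i, hi⟩ := hw x hx
  refine ⟨i, ?_⟩
  rw [scale_p, div_eq_inv_mul]
  exact mul_le_mul_of_nonneg_left hi (inv_pos.2 hr).le

theorem ent_anti (h : Stmt_ENT) (U V : DN N) (k : ℕ) : ent U.p V.p k ≤ ent U.p V.p 0 := by
  induction k with
  | zero => exact le_rfl
  | succ k ih => exact ((h N U V).2.2.1 k).2.trans ih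

end TopB

open TopB

theorem stmt_TOP.{u, v} (h1 : Stmt_BOOT) (h2 : Stmt_FD.{u, v}) (h3 : Stmt_ENT) (_h4 : Stmt_EXDN) :
    Stmt_TOP.{u, v} := by
  intro q hq0 hq1
  obtain ⟨C, hC1, hC⟩ := h1 q hq0 hq1
  refine ⟨17 * C, by linarith, ?_⟩
  intro X Y _ _ _ _ T r A hr hA hk m y hy hTy hsep
  obtain ⟨N, U, V, z, hVU, hent, hVz, hUz⟩ := h2 X Y T m y r (r / 8) hr hy hTy hsep
  set V₁ := scale V r hr with hV₁
  have hV₁U : ∀ x, V₁.p x ≤ 1 * U.p x := by
    intro x
    rw [hV₁, scale_p, one_mul, inv_mul_le_iff₀ hr]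
    exact hVU x
  have hE : ∀ k : ℕ, ent U.p V₁.p k ≤ 1 ∧ ent U.p V₁.p k ≤ (A / (k + 1)) ^ (1 / q) := by
    intro k
    have ha : ent U.p V₁.p k ≤ 1 :=
      (ent_anti h3 U V₁ k).trans ((h3 N U V₁).2.2.2.2 1 zero_le_one hV₁U)
    refine ⟨ha, ?_⟩
    have hb : ent U.p V₁.p k ≤ 2 * en T k / r :=
      (ent_scale h3 U V hr k).trans (div_le_div_of_nonneg_right (hent k) hr.le)
    have h0 : 0 ≤ ent U.p V₁.p k := ((h3 N U V₁).2.2.1 k).1
    have hc : ent U.p V₁.p k ≤ min 1 (2 * en T k / r) := le_min ha hb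
    have hkp : (0 : ℝ) < (k : ℝ) + 1 := by positivity
    have hd : ent U.p V₁.p k ^ q ≤ A / (k + 1) := by
      rw [le_div_iff₀ hkp, mul_comm]
      exact (mul_le_mul_of_nonneg_left (Real.rpow_le_rpow h0 hc hq0.le) hkp.le).trans (hk k)
    calc ent U.p V₁.p k = (ent U.p V₁.p k ^ q) ^ (1 / q) := by
          rw [← Real.rpow_mul h0, mul_one_div_cancel hq0.ne', Real.rpow_one]
      _ ≤ (A / (k + 1)) ^ (1 / q) :=
          Real.rpow_le_rpow (Real.rpow_nonneg h0 _) hd (by positivity)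
  have hboot := hC N U V₁ A hA hE
  -- the choice of `k`
  set k : ℕ := ⌈16 * C * A⌉₊ with hkdef
  have hk1 : 16 * C * A ≤ k := Nat.le_ceil _
  have hCA : 1 ≤ C * A := one_le_mul_of_one_le_of_one_le hC1 hA
  have hk2 : (k : ℝ) ≤ 17 * C * A := by
    have := (Nat.ceil_lt_add_one (by nlinarith : 0 ≤ 16 * C * A)).le
    rw [← hkdef] at this
    nlinarith
  have hkp : (0 : ℝ) < (k : ℝ) + 1 := by positivity
  have hkA : A / ((k : ℝ) + 1) ≤ 1 := by
    rw [div_le_one hkp]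
    nlinarith
  have hsmall : ent V₁.q U.q k < 1 / 16 := by
    refine lt_of_le_of_lt (hboot k) ?_
    have he : (A / ((k : ℝ) + 1)) ^ (2 / (1 + q)) ≤ A / ((k : ℝ) + 1) := by
      have hexp : (1 : ℝ) ≤ 2 / (1 + q) := by
        rw [one_le_div (by linarith)]
        linarith
      calc (A / ((k : ℝ) + 1)) ^ (2 / (1 + q)) ≤ (A / ((k : ℝ) + 1)) ^ (1 : ℝ) :=
            Real.rpow_le_rpow_of_exponent_ge (by positivity) hkA hexp
        _ = A / ((k : ℝ) + 1) := Real.rpow_one _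
    calc C * (A / ((k : ℝ) + 1)) ^ (2 / (1 + q)) ≤ C * (A / ((k : ℝ) + 1)) :=
          mul_le_mul_of_nonneg_left he (by linarith)
      _ = C * A / ((k : ℝ) + 1) := by ring
      _ < 1 / 16 := by
          rw [div_lt_iff₀ hkp]
          linarith
  obtain ⟨w, hw⟩ := (h3 N V₁.dual U.dual).1 k (1 / 16) hsmall
  have hz : ∀ i, V₁.dual.p (r⁻¹ • z i) ≤ 1 := by
    intro i
    rw [DN.dual_p, map_smul_eq_mul, Real.norm_of_nonneg (inv_pos.2 hr).le, hV₁, scale_q,
      ← mul_assoc, inv_mul_cancel₀ hr.ne', one_mul]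
    exact hVz i
  choose f hf using fun i => hw _ (hz i)
  have hinj : Function.Injective f := by
    intro i j hij
    by_contra hne
    have ha := hf i
    have hb := hf j
    rw [← hij] at hb
    have hc := hUz i j hne
    have hd : U.dual.p (r⁻¹ • z i - r⁻¹ • z j) ≤ 1 / 8 := by
      have he : r⁻¹ • z i - r⁻¹ • z j =
          (r⁻¹ • z i - w (f i)) - (r⁻¹ • z j - w (f i)) := by abel
      rw [he]
      refine (map_sub_le_add U.dual.p _ _).trans ?_
      linarith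
    rw [DN.dual_p, ← smul_sub, map_smul_eq_mul, Real.norm_of_nonneg (inv_pos.2 hr).le,
      inv_mul_le_iff₀ hr] at hd
    linarith
  have hcard : m ≤ 2 ^ k := by
    have := Fintype.card_le_of_injective f hinj
    simpa using this
  calc (m : ℝ) ≤ ((2 ^ k : ℕ) : ℝ) := by exact_mod_cast hcard
    _ = (2 : ℝ) ^ (k : ℝ) := by
        rw [Real.rpow_natCast]
        push_cast
        rfl
    _ ≤ 2 ^ (17 * C * A) := Real.rpow_le_rpow_of_exponent_le one_le_two hk2

end Pool.PQ
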