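import Pool.Agent.Work.MP_c13439_pq.Interp

/-!
# Block VHIL: decay of `V_(n+1) - V_n` on `L_2(γ; H)`, `H` Euclidean, and convergence of `V_n`
-/

open MeasureTheory ProbabilityTheory Polynomial
open scoped RealInnerProductSpace

namespace Pool.PQ.VHIL

variable {N : ℕ}

lemma norm_L2 (F : L2 N) : ‖F‖ = Real.sqrt (∫ x, ‖F x‖ ^ 2 ∂gs N) := by
  rw [← Real.sqrt_sq (norm_nonneg F), ← real_inner_self_eq_norm_sq, L2.inner_def]
  congr 1
  refine integral_congr_ae (Filter.Eventually.of_forall fun x => ?_)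
  exact real_inner_self_eq_norm_sq _

lemma nrm_euclid (S : Eu N →L[ℝ] Eu N) (p : Seminorm ℝ (Eu N)) (hp : ∀ x, p x = ‖S x‖)
    (f : L2 N) : nrm p f = ‖S.compLp f‖ := by
  rw [norm_L2, nrm]
  congr 1
  refine integral_congr_ae ?_
  filter_upwards [S.coeFn_compLp f] with x hx
  rw [hp, hx]

lemma aeval_comm (T A : L2 N →L[ℝ] L2 N) (h : ∀ f, T (A f) = A (T f)) (c : ℝ[X]) (f : L2 N) :
    aeval T c (A f) = A (aeval T c f) := by
  induction c using Polynomial.induction_on' with
  | add p q hp hq =>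
    rw [map_add, add_apply, hp, hq, add_apply, map_add]
  | monomial n a =>
    have hpow : ∀ (n : ℕ) (f : L2 N), (T ^ n) (A f) = A ((T ^ n) f) := by
      intro n
      induction n with
      | zero => intro f; simp
      | succ n ih =>
        intro f
        rw [pow_succ, mul_apply_eq_comp, h, ih, mul_apply_eq_comp]
    rw [aeval_monomial, mul_apply_eq_comp, hpow n, Algebra.algebraMap_eq_smul_one,
      smul_apply, one_apply_eq_self, mul_apply_eq_comp, smul_apply, one_apply_eq_self, map_smul]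

lemma pw_mono (k : ℕ) : pw N k ≤ pw N (k + 1) := by
  refine Submodule.span_mono ?_
  rintro f ⟨j, hj, h, v, hf⟩
  exact ⟨j, by omega, h, v, hf⟩

/-- the bound `M_n` -/
noncomputable def bd (n : ℕ) : ℝ := 2 ^ (2 * n + 3) * (1 / 2 : ℝ) ^ ((n + 1) * (n + 2) / 2)

lemma bd_le (n : ℕ) : bd n ≤ 8 * (1 / 2 : ℝ) ^ n := by
  have h : 3 * n ≤ (n + 1) * (n + 2) / 2 := by
    rw [Nat.le_div_iff_mul_le (by norm_num)]
    rcases n with _ | _ | n
    · norm_num
    · norm_num
    · nlinarith
  have h1 : (1 / 2 : ℝ) ^ ((n + 1) * (n + 2) / 2) ≤ (1 / 2 : ℝ) ^ (3 * n) :=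
    pow_le_pow_of_le_one (by norm_num) (by norm_num) h
  calc bd n ≤ 2 ^ (2 * n + 3) * (1 / 2 : ℝ) ^ (3 * n) :=
        mul_le_mul_of_nonneg_left h1 (by positivity)
    _ = 8 * (1 / 2 : ℝ) ^ n := by
        rw [pow_add, show 3 * n = 2 * n + n by ring, pow_add (1 / 2 : ℝ)]
        have : (2 : ℝ) ^ (2 * n) * (1 / 2 : ℝ) ^ (2 * n) = 1 := by
          rw [← mul_pow]; norm_num
        linear_combination 8 * (1 / 2 : ℝ) ^ n * this

lemma bd_le_four (n : ℕ) : bd n ≤ 4 := by
  have h : 2 * n + 1 ≤ (n + 1) * (n + 2) / 2 := by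
    rw [Nat.le_div_iff_mul_le (by norm_num)]
    rcases n with _ | n
    · norm_num
    · nlinarith
  have h1 : (1 / 2 : ℝ) ^ ((n + 1) * (n + 2) / 2) ≤ (1 / 2 : ℝ) ^ (2 * n + 1) :=
    pow_le_pow_of_le_one (by norm_num) (by norm_num) h
  calc bd n ≤ 2 ^ (2 * n + 3) * (1 / 2 : ℝ) ^ (2 * n + 1) :=
        mul_le_mul_of_nonneg_left h1 (by positivity)
    _ = 4 := by
        rw [show 2 * n + 3 = (2 * n + 1) + 2 by ring, pow_add (2 : ℝ)]
        have : (2 : ℝ) ^ (2 * n + 1) * (1 / 2 : ℝ) ^ (2 * n + 1) = 1 := by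
          rw [← mul_pow]; norm_num
        linear_combination 4 * this

lemma int_inner_mul (u v : Eu N) : ∫ x, ⟪u, x⟫ * ⟪v, x⟫ ∂gs N = ⟪u, v⟫ := by
  have h1 : covarianceBilin (stdGaussian (Eu N)) u v = ⟪u, v⟫ := by
    rw [covarianceBilin_stdGaussian]; rfl
  rw [covarianceBilin_apply IsGaussian.memLp_two_id] at h1
  simpa using h1

lemma int_inner (u : Eu N) : ∫ x, ⟪u, x⟫ ∂gs N = 0 := by
  have h1 : ∫ x, x ∂gs N = 0 := by simp
  have h2 : Integrable (fun x : Eu N => x) (gs N) := by
    have : MemLp (id : Eu N → Eu N) 2 (stdGaussian (Eu N)) := IsGaussian.memLp_two_id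
    exact this.integrable (by norm_num)
  rw [integral_inner h2, h1, inner_zero_right]

lemma aeval_eig (T : L2 N →L[ℝ] L2 N) (c : ℝ[X]) {l : ℝ} {f : L2 N} (h : T f = l • f) :
    aeval T c f = c.eval l • f := by
  induction c using Polynomial.induction_on' with
  | add p q hp hq =>
    rw [map_add, add_apply, hp, hq, eval_add, add_smul]
  | monomial n a =>
    rw [aeval_monomial, eval_monomial]
    have hpow : ∀ n : ℕ, (T ^ n) f = l ^ n • f := by
      intro n
      induction n with
      | zero => simp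
      | succ n ih =>
        rw [pow_succ, mul_apply_eq_comp, h, map_smul, ih, smul_smul, pow_succ, mul_comm]
    rw [mul_apply_eq_comp, hpow n, Algebra.algebraMap_eq_smul_one,
      smul_apply, one_apply_eq_self, smul_smul]

/-- functions `⟪h, x⟫ v` -/
def IsLin (l : L2 N) : Prop := ∃ h v : Eu N, l =ᵐ[gs N] fun x => ⟪h, x⟫ • v

/-- the span of the linear functions -/
noncomputable def L0 (N : ℕ) : Submodule ℝ (L2 N) := Submodule.span ℝ {l | IsLin l}

lemma lin_orth_const {l z : L2 N} (hl : IsLin l) (hz : z ∈ pw N 0) : ⟪l, z⟫ = 0 := by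
  obtain ⟨h, v, hl⟩ := hl
  unfold pw at hz
  induction hz using Submodule.span_induction with
  | mem z hz =>
    obtain ⟨j, hj, h', v', hz⟩ := hz
    have hj0 : j = 0 := by omega
    subst hj0
    rw [L2.inner_def]
    have e : ∫ x, ⟪l x, z x⟫ ∂gs N = ∫ x, ⟪h, x⟫ * ⟪v, v'⟫ ∂gs N := by
      refine integral_congr_ae ?_
      filter_upwards [hl, hz] with x hx hx'
      rw [hx, hx', pow_zero, one_smul, real_inner_smul_left]
    rw [e, integral_mul_const, int_inner, zero_mul]
  | zero => rw [inner_zero_right]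
  | add a b _ _ ha hb => rw [inner_add_right, ha, hb, add_zero]
  | smul c a _ ha => rw [real_inner_smul_right, ha, mul_zero]

lemma T_lin (h2 : Stmt_MEHP) {T : L2 N →L[ℝ] L2 N} (hT : IsMehler T)
    (hsym : ∀ f g : L2 N, ⟪T f, g⟫ = ⟪f, T g⟫) {l : L2 N} (hl : IsLin l) :
    T l = (1 / 2 : ℝ) • l := by
  have hmem : l ∈ pw N (0 + 1) := by
    obtain ⟨h, v, hl⟩ := hl
    refine Submodule.subset_span ⟨1, by omega, h, v, ?_⟩
    filter_upwards [hl] with x hx
    rw [hx, pow_one]
  have hz := (h2 N T hT).2 0 l hmem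
  rw [zero_add, pow_one] at hz
  have hTz := (h2 N T hT).1 _ hz
  have hlz := lin_orth_const hl hz
  have e : ⟪T l - (1 / 2 : ℝ) • l, T l - (1 / 2 : ℝ) • l⟫ = (0 : ℝ) := by
    conv_lhs => rw [inner_sub_left, hsym, hTz, real_inner_smul_left, hlz]
    simp
  have := inner_self_eq_zero.mp e
  exact sub_eq_zero.mp this

/-- `T - 1/2` -/
noncomputable def R (T : L2 N →L[ℝ] L2 N) : L2 N →L[ℝ] L2 N :=
  T - (1 / 2 : ℝ) • ContinuousLinearMap.id ℝ (L2 N)

lemma R_apply (T : L2 N →L[ℝ] L2 N) (f : L2 N) : R T f = T f - (1 / 2 : ℝ) • f := by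
  simp [R]

lemma pw_le (h2 : Stmt_MEHP) {T : L2 N →L[ℝ] L2 N} (hT : IsMehler T) (m : ℕ) :
    pw N m ≤ L0 N ⊔ LinearMap.range (R T).toLinearMap := by
  have h0 : pw N 0 ≤ LinearMap.range (R T).toLinearMap := by
    intro d hd
    refine ⟨(2 : ℝ) • d, ?_⟩
    change R T ((2 : ℝ) • d) = d
    rw [R_apply, map_smul, (h2 N T hT).1 d hd, smul_smul]
    norm_num
    rw [two_smul]
    abel
  induction m with
  | zero => exact h0.trans le_sup_right
  | succ m ih =>
    rcases Nat.eq_zero_or_pos m with rfl | hm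
    · refine Submodule.span_le.mpr ?_
      rintro f ⟨j, hj, h, v, hf⟩
      rcases Nat.eq_zero_or_pos j with rfl | hj'
      · exact (h0.trans le_sup_right) (Submodule.subset_span ⟨0, le_rfl, h, v, hf⟩)
      · have : j = 1 := by omega
        subst this
        refine (le_sup_left : L0 N ≤ _) (Submodule.subset_span ⟨h, v, ?_⟩)
        filter_upwards [hf] with x hx
        rw [hx, pow_one]
    · intro d hd
      have he := ih ((h2 N T hT).2 m d hd)
      have hr : R T d ∈ L0 N ⊔ LinearMap.range (R T).toLinearMap :=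
        (le_sup_right : LinearMap.range (R T).toLinearMap ≤ _) ⟨d, rfl⟩
      have hne : (1 / 2 : ℝ) - (1 / 2 : ℝ) ^ (m + 1) ≠ 0 := by
        have : (1 / 2 : ℝ) ^ (m + 1) < (1 / 2 : ℝ) ^ 1 :=
          pow_lt_pow_right_of_lt_one₀ (by norm_num) (by norm_num) (by omega)
        rw [pow_one] at this
        exact (sub_pos.mpr this).ne'
      have e : d = ((1 / 2 : ℝ) - (1 / 2 : ℝ) ^ (m + 1))⁻¹ •
          ((T d - (1 / 2 : ℝ) ^ (m + 1) • d) - R T d) := by
        rw [R_apply]
        have : (T d - (1 / 2 : ℝ) ^ (m + 1) • d) - (T d - (1 / 2 : ℝ) • d)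
            = ((1 / 2 : ℝ) - (1 / 2 : ℝ) ^ (m + 1)) • d := by
          rw [sub_smul]; abel
        rw [this, smul_smul, inv_mul_cancel₀ hne, one_smul]
      rw [e]
      exact Submodule.smul_mem _ _ (Submodule.sub_mem _ he hr)

lemma memLp_id : MemLp (fun x : Eu N => x) 2 (gs N) := IsGaussian.memLp_two_id

lemma memLp_inner (h : Eu N) : MemLp (fun x : Eu N => ⟪h, x⟫) 2 (gs N) :=
  (innerSL ℝ h).comp_memLp' memLp_id

/-- `u = f - g` is orthogonal to the linear functions -/
lemma u_orth {f g : L2 N} {V : Eu N →L[ℝ] Eu N} (hV : ∀ h, V h = ∫ y, ⟪h, y⟫ • f y ∂gs N)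
    (hg : g =ᵐ[gs N] fun x => V x) {l : L2 N} (hl : l ∈ L0 N) : ⟪f - g, l⟫ = 0 := by
  unfold L0 at hl
  induction hl using Submodule.span_induction with
  | mem l hl =>
    obtain ⟨h, v, hl⟩ := hl
    have hint : Integrable (fun y => ⟪h, y⟫ • f y) (gs N) :=
      memLp_one_iff_integrable.mp ((Lp.memLp f).smul (memLp_inner h))
    have e1 : ⟪f, l⟫ = ⟪v, V h⟫ := by
      rw [hV h, ← integral_inner hint, L2.inner_def]
      refine integral_congr_ae ?_
      filter_upwards [hl] with x hx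
      rw [hx, real_inner_smul_right, real_inner_smul_right, real_inner_comm v (f x)]
    have e2 : ⟪g, l⟫ = ⟪v, V h⟫ := by
      have h3 : ⟪v, V h⟫ = ∫ x, ⟪h, x⟫ * ⟪ContinuousLinearMap.adjoint V v, x⟫ ∂gs N := by
        rw [int_inner_mul, ContinuousLinearMap.adjoint_inner_right, real_inner_comm]
      rw [h3, L2.inner_def]
      refine integral_congr_ae ?_
      filter_upwards [hl, hg] with x hx hx'
      rw [hx, hx', real_inner_smul_right, ContinuousLinearMap.adjoint_inner_left, real_inner_comm v]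
    rw [inner_sub_left, e1, e2, sub_self]
  | zero => rw [inner_zero_right]
  | add a b _ _ ha hb => rw [inner_add_right, ha, hb, add_zero]
  | smul c a _ ha => rw [real_inner_smul_right, ha, mul_zero]

/-- the identity function -/
noncomputable def X0 (N : ℕ) : L2 N := MemLp.toLp (fun x : Eu N => x) memLp_id

lemma compLp_mem (V : Eu N →L[ℝ] Eu N) : V.compLp (X0 N) ∈ L0 N := by
  have hsum : V = ∑ i, (innerSL ℝ (EuclideanSpace.basisFun (Fin N) ℝ i)).smulRight
      (V (EuclideanSpace.basisFun (Fin N) ℝ i)) := by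
    ext1 x
    rw [sum_apply]
    conv_lhs => rw [← (EuclideanSpace.basisFun (Fin N) ℝ).sum_repr' x, map_sum]
    refine Finset.sum_congr rfl fun i _ => ?_
    rw [map_smul]
    rfl
  rw [hsum]
  refine Finset.sum_induction (fun i => (innerSL ℝ (EuclideanSpace.basisFun (Fin N) ℝ i)).smulRight
      (V (EuclideanSpace.basisFun (Fin N) ℝ i)))
    (fun A : Eu N →L[ℝ] Eu N => A.compLp (X0 N) ∈ L0 N) ?_ ?_ ?_
  · intro A B hA hB
    rw [ContinuousLinearMap.add_compLp]
    exact Submodule.add_mem _ hA hB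
  · have : (0 : Eu N →L[ℝ] Eu N).compLp (X0 N) = 0 := by
      apply Lp.ext
      filter_upwards [ContinuousLinearMap.coeFn_compLp (0 : Eu N →L[ℝ] Eu N) (X0 N),
        Lp.coeFn_zero (Eu N) 2 (gs N)] with x h1 h2
      rw [h1, h2]
      simp
    rw [this]
    exact Submodule.zero_mem _
  · intro i _
    refine Submodule.subset_span ⟨EuclideanSpace.basisFun (Fin N) ℝ i,
      V (EuclideanSpace.basisFun (Fin N) ℝ i), ?_⟩
    filter_upwards [ContinuousLinearMap.coeFn_compLp
      ((innerSL ℝ (EuclideanSpace.basisFun (Fin N) ℝ i)).smulRight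
      (V (EuclideanSpace.basisFun (Fin N) ℝ i))) (X0 N),
      MemLp.coeFn_toLp (memLp_id (N := N))] with x h1 h2
    rw [h1, X0, h2]
    rfl

lemma g_mem {g : L2 N} {V : Eu N →L[ℝ] Eu N} (hg : g =ᵐ[gs N] fun x => V x) : g ∈ L0 N := by
  have : g = V.compLp (X0 N) := by
    apply Lp.ext
    filter_upwards [hg, V.coeFn_compLp (X0 N), MemLp.coeFn_toLp (memLp_id (N := N))] with x h1 h2 h3
    rw [h1, h2, X0, h3]
  rw [this]
  exact compLp_mem V

end Pool.PQ.VHIL

namespace Pool.PQ

open VHIL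

theorem stmt_VHIL (h1 : Stmt_MEHN) (h2 : Stmt_MEHP) (h3 : Stmt_DENS) (h4 : Stmt_SPEC)
    (h5 : Stmt_COEF) (h6 : Stmt_EUC) : Stmt_VHIL := by
  intro N T hT hsym
  have spec : ∀ (c : ℝ[X]) (M : ℝ), (∀ k : ℕ, |c.eval ((1 / 2 : ℝ) ^ k)| ≤ M) → ∀ f : L2 N,
      ‖aeval T c f‖ ≤ M * ‖f‖ :=
    h4 (L2 N) T (pw N) hsym (h2 N T hT).1 (h2 N T hT).2 pw_mono (h3 N)
  obtain ⟨c1, c2, c3, c4⟩ := h5
  refine ⟨fun H hH f n => ?_, fun f g V hV hg => ?_⟩
  · obtain ⟨S, hS⟩ := hH
    have e : S.toContinuousLinearMap.compLp (aeval T (vpoly (n + 1) - vpoly n) f)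
        = aeval T (vpoly (n + 1) - vpoly n) (S.toContinuousLinearMap.compLp f) := by
      have := aeval_comm T (S.toContinuousLinearMap.compLpL 2 (gs N))
        (fun f => (h1 N T hT).2 S.toContinuousLinearMap f) (vpoly (n + 1) - vpoly n) f
      exact this.symm
    rw [nrm_euclid S.toContinuousLinearMap H.p hS, nrm_euclid S.toContinuousLinearMap H.p hS, e]
    exact spec _ _ (c4 n) _
  · -- uniform bound
    have hunif : ∀ (n : ℕ) (x : L2 N), ‖aeval T (vpoly n) x‖ ≤ 4 * ‖x‖ := by
      intro n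
      refine spec _ _ fun k => ?_
      by_cases hk : k = 1
      · subst hk
        rw [pow_one, c1 n]
        norm_num
      · exact (c3 n k hk).trans (bd_le_four n)
    have hrange : ∀ (n : ℕ) (x : L2 N), ‖aeval T (vpoly n) (R T x)‖ ≤ 8 * (1 / 2 : ℝ) ^ n * ‖x‖ := by
      intro n x
      have e : aeval T (vpoly n) (R T x) = aeval T (vpoly n * (X - C (1 / 2))) x := by
        rw [map_mul, mul_apply_eq_comp, map_sub, aeval_X, aeval_C, R_apply, sub_apply,
          Algebra.algebraMap_eq_smul_one, smul_apply, one_apply_eq_self]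
      rw [e]
      refine spec _ _ (fun k => ?_) x
      rw [eval_mul, abs_mul, eval_sub, eval_X, eval_C]
      by_cases hk : k = 1
      · subst hk
        rw [pow_one, sub_self, abs_zero, mul_zero]
        positivity
      · have hb : |(1 / 2 : ℝ) ^ k - 1 / 2| ≤ 1 := by
          have h0 : (0 : ℝ) ≤ (1 / 2 : ℝ) ^ k := by positivity
          have h1' : (1 / 2 : ℝ) ^ k ≤ 1 := pow_le_one₀ (by norm_num) (by norm_num)
          rw [abs_le]
          constructor <;> linarith
        calc |(vpoly n).eval ((1 / 2 : ℝ) ^ k)| * |(1 / 2 : ℝ) ^ k - 1 / 2|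
            ≤ bd n * 1 := mul_le_mul (c3 n k hk) hb (abs_nonneg _) ((abs_nonneg _).trans (c3 n k hk))
          _ ≤ 8 * (1 / 2 : ℝ) ^ n := by rw [mul_one]; exact bd_le n
    -- eigenvectors
    have heig : ∀ l ∈ L0 N, T l = (1 / 2 : ℝ) • l := by
      intro l hl
      unfold L0 at hl
      induction hl using Submodule.span_induction with
      | mem l hl => exact T_lin h2 hT hsym hl
      | zero => simp
      | add a b _ _ ha hb => rw [map_add, ha, hb, smul_add]
      | smul c a _ ha => rw [map_smul, ha, smul_comm]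
    have hfix : ∀ l ∈ L0 N, ∀ n, aeval T (vpoly n) l = l := by
      intro l hl n
      rw [aeval_eig T _ (heig l hl), c1 n, one_smul]
    have hgL := g_mem hg
    set u : L2 N := f - g with hu
    have huo : ∀ l ∈ L0 N, ⟪u, l⟫ = 0 := fun l hl => u_orth hV hg hl
    -- enough: `V_n u` tends to zero
    have hu0 : Filter.Tendsto (fun n => aeval T (vpoly n) u) Filter.atTop (nhds 0) := by
      rw [Metric.tendsto_atTop]
      intro ε hε
      obtain ⟨d, hd, hdu⟩ := Metric.mem_closure_iff.mp (h3 N u) (ε / 12) (by positivity)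
      have hd' : d ∈ L0 N ⊔ LinearMap.range (R T).toLinearMap := by
        have hle : (⨆ k, pw N k : Submodule ℝ (L2 N)) ≤ L0 N ⊔ LinearMap.range (R T).toLinearMap :=
          iSup_le (pw_le h2 hT)
        exact hle hd
      obtain ⟨l, hl, r, hr, hlr⟩ := Submodule.mem_sup.mp hd'
      obtain ⟨x, hx⟩ := hr
      change R T x = r at hx
      rw [dist_eq_norm] at hdu
      -- the linear part is small
      have hrl : ⟪r, l⟫ = 0 := by
        rw [← hx, R_apply, inner_sub_left, hsym, heig l hl, real_inner_smul_left,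
          real_inner_smul_right, sub_self]
      have hlsmall : ‖l‖ ≤ ε / 12 := by
        have h7 : ‖l‖ ^ 2 ≤ ‖u - d‖ * ‖l‖ := by
          have h8 : ⟪d - u, l⟫ = ‖l‖ ^ 2 := by
            rw [inner_sub_left, huo l hl, ← hlr, inner_add_left, hrl, real_inner_self_eq_norm_sq]
            ring
          rw [← h8, norm_sub_rev]
          exact real_inner_le_norm _ _
        by_contra hcon
        push Not at hcon
        have hlpos : 0 < ‖l‖ := lt_trans (by positivity) hcon
        have : ‖l‖ ≤ ‖u - d‖ := by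
          rw [sq] at h7
          exact le_of_mul_le_mul_right h7 hlpos
        linarith
      -- choose n
      have ht : Filter.Tendsto (fun n : ℕ => 8 * (1 / 2 : ℝ) ^ n * ‖x‖) Filter.atTop (nhds 0) := by
        have h9 : Filter.Tendsto (fun n : ℕ => (1 / 2 : ℝ) ^ n) Filter.atTop (nhds 0) :=
          tendsto_pow_atTop_nhds_zero_of_lt_one (by norm_num) (by norm_num)
        have h10 := (h9.const_mul 8).mul_const ‖x‖
        simpa using h10
      rw [Metric.tendsto_atTop] at ht
      obtain ⟨n0, hn0⟩ := ht (ε / 12) (by positivity)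
      refine ⟨n0, fun n hn => ?_⟩
      have h11 := hn0 n hn
      rw [dist_zero_right, Real.norm_eq_abs] at h11
      have h12 := (le_abs_self _).trans h11.le
      have h13 : aeval T (vpoly n) u = aeval T (vpoly n) (u - d) + (l + aeval T (vpoly n) r) := by
        have h16 : aeval T (vpoly n) d = l + aeval T (vpoly n) r := by
          rw [← hlr, map_add, hfix l hl n]
        rw [← h16, ← map_add]
        congr 1
        abel
      rw [dist_zero_right, h13]
      have h14 := hunif n (u - d)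
      have h15 := hrange n x
      rw [hx] at h15
      calc ‖aeval T (vpoly n) (u - d) + (l + aeval T (vpoly n) r)‖
          ≤ ‖aeval T (vpoly n) (u - d)‖ + (‖l‖ + ‖aeval T (vpoly n) r‖) :=
            (norm_add_le _ _).trans (by gcongr; exact norm_add_le _ _)
        _ < ε := by linarith
    have hfg : f = u + g := by rw [hu]; abel
    have e : (fun n => aeval T (vpoly n) f) = fun n => aeval T (vpoly n) u + g := by
      funext n
      conv_lhs => rw [hfg, map_add, hfix g hgL n]
    rw [e]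
    simpa using hu0.add_const g

end Pool.PQ
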