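import Pool.Agent.Work.MP_c13439_pq.Interp
import Pool.Agent.Work.MP_c13439_pq_helper57.Gauss

/-!
# Block VNRM: growth of `V_n` on `L_2(γ; p)`
-/

open MeasureTheory ProbabilityTheory Polynomial
open scoped RealInnerProductSpace

namespace Pool.PQ

namespace VNRM

variable {N : ℕ}

theorem memLp (p : Seminorm ℝ (Eu N)) (f : L2 N) : MemLp (fun x => p (f x)) 2 (gs N) := by
  obtain ⟨C, hC, h⟩ := Pool.Agent.Work.MP_c13439_pq_h57.semi_bound p
  have hc : Continuous p := Pool.Agent.Work.MP_c13439_pq_h57.semi_cont p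
  refine MemLp.of_le_mul (c := C) (Lp.memLp f)
    (hc.comp_aestronglyMeasurable (Lp.aestronglyMeasurable f))
    (Filter.Eventually.of_forall fun x => ?_)
  rw [Real.norm_of_nonneg (apply_nonneg p _)]
  exact h _

/-- the function `p ∘ f` in `L_2(γ; ℝ)` -/
noncomputable def uu (p : Seminorm ℝ (Eu N)) (f : L2 N) : Lp ℝ 2 (gs N) := (memLp p f).toLp _

theorem uu_ae (p : Seminorm ℝ (Eu N)) (f : L2 N) : uu p f =ᵐ[gs N] fun x => p (f x) :=
  MemLp.coeFn_toLp _

theorem nrm_eq (p : Seminorm ℝ (Eu N)) (f : L2 N) : nrm p f = ‖uu p f‖ := by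
  have h1 : ‖uu p f‖ ^ 2 = ∫ x, p (f x) ^ 2 ∂gs N := by
    rw [← real_inner_self_eq_norm_sq, MeasureTheory.L2.inner_def]
    refine integral_congr_ae ?_
    filter_upwards [uu_ae p f] with x hx
    rw [real_inner_self_eq_norm_sq, hx, Real.norm_of_nonneg (apply_nonneg p _)]
  unfold nrm
  rw [← h1, Real.sqrt_sq (norm_nonneg _)]

theorem nrm_nonneg (p : Seminorm ℝ (Eu N)) (f : L2 N) : 0 ≤ nrm p f := Real.sqrt_nonneg _

theorem nrm_add (p : Seminorm ℝ (Eu N)) (f g : L2 N) : nrm p (f + g) ≤ nrm p f + nrm p g := by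
  rw [nrm_eq, nrm_eq, nrm_eq]
  refine le_trans ?_ (norm_add_le _ _)
  refine Lp.norm_le_norm_of_ae_le ?_
  filter_upwards [uu_ae p (f + g), uu_ae p f, uu_ae p g, Lp.coeFn_add f g,
    Lp.coeFn_add (uu p f) (uu p g)] with x h1 h2 h3 h4 h5
  rw [h1, h5, Pi.add_apply, h2, h3, h4, Pi.add_apply,
    Real.norm_of_nonneg (apply_nonneg p _),
    Real.norm_of_nonneg (add_nonneg (apply_nonneg p _) (apply_nonneg p _))]
  exact map_add_le_add p _ _

theorem nrm_smul (p : Seminorm ℝ (Eu N)) (c : ℝ) (f : L2 N) : nrm p (c • f) = |c| * nrm p f := by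
  unfold nrm
  have h1 : ∫ x, p ((c • f : L2 N) x) ^ 2 ∂gs N = |c| ^ 2 * ∫ x, p (f x) ^ 2 ∂gs N := by
    rw [← integral_const_mul]
    refine integral_congr_ae ?_
    filter_upwards [Lp.coeFn_smul c f] with x hx
    rw [hx, Pi.smul_apply, map_smul_eq_mul, mul_pow, Real.norm_eq_abs]
  rw [h1, Real.sqrt_mul (sq_nonneg _), Real.sqrt_sq (abs_nonneg c)]

theorem nrm_sub (p : Seminorm ℝ (Eu N)) (f g : L2 N) : nrm p (f - g) ≤ nrm p f + nrm p g := by
  have h1 : f - g = f + (-1 : ℝ) • g := by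
    rw [neg_smul, one_smul, sub_eq_add_neg]
  rw [h1]
  refine (nrm_add p _ _).trans (le_of_eq ?_)
  rw [nrm_smul]
  norm_num

theorem step (T : L2 N →L[ℝ] L2 N) (q : ℝ[X]) (c a : ℝ) (f : L2 N) :
    aeval T (q * (C c * (X - C a))) f = aeval T q (c • (T f - a • f)) := by
  rw [map_mul, ContinuousLinearMap.mul_apply, map_mul, map_sub, aeval_X, aeval_C, aeval_C,
    Algebra.algebraMap_eq_smul_one, Algebra.algebraMap_eq_smul_one]
  rfl

theorem bound {T : L2 N →L[ℝ] L2 N} {p : Seminorm ℝ (Eu N)}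
    (hT : ∀ f : L2 N, nrm p (T f) ≤ nrm p f) (n : ℕ) :
    ∀ f : L2 N, nrm p (aeval T (vpoly n) f) ≤ 4 * 5 ^ n * nrm p f := by
  induction n with
  | zero =>
    intro f
    have h1 : aeval T (vpoly 0) f = (2 : ℝ) • (f - T f) := by
      show aeval T (C 2 * (1 - X)) f = _
      rw [map_mul, ContinuousLinearMap.mul_apply, map_sub, aeval_X, aeval_C, map_one,
        Algebra.algebraMap_eq_smul_one]
      rfl
    rw [h1, nrm_smul]
    have h2 := nrm_sub p f (T f)
    have h3 := hT f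
    rw [abs_of_pos (by norm_num : (0 : ℝ) < 2)]
    linarith
  | succ n ih =>
    intro f
    have h1 : vpoly (n + 1) = vpoly n * (C ((1 / 2 - (1 / 2 : ℝ) ^ (n + 2))⁻¹)
      * (X - C ((1 / 2 : ℝ) ^ (n + 2)))) := rfl
    rw [h1, step]
    refine (ih _).trans ?_
    rw [nrm_smul]
    have ha0 : 0 < (1 / 2 : ℝ) ^ (n + 2) := by positivity
    have ha1 : (1 / 2 : ℝ) ^ (n + 2) ≤ 1 / 4 := by
      have := pow_le_pow_of_le_one (by norm_num : (0 : ℝ) ≤ 1 / 2) (by norm_num)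
        (show 2 ≤ n + 2 by omega)
      refine this.trans (by norm_num)
    generalize (1 / 2 : ℝ) ^ (n + 2) = a at ha0 ha1
    have hc : |(1 / 2 - a)⁻¹| ≤ 4 := by
      rw [abs_inv, abs_of_pos (by linarith)]
      rw [inv_le_comm₀ (by linarith) (by norm_num)]
      linarith
    have h2 := nrm_sub p (T f) (a • f)
    have h3 := hT f
    rw [nrm_smul, abs_of_pos ha0] at h2
    have h4 := nrm_nonneg p f
    have h5 : nrm p (T f - a • f) ≤ 5 / 4 * nrm p f := by nlinarith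
    have h6 : |(1 / 2 - a)⁻¹| * nrm p (T f - a • f) ≤ 5 * nrm p f := by
      calc |(1 / 2 - a)⁻¹| * nrm p (T f - a • f) ≤ 4 * (5 / 4 * nrm p f) :=
            mul_le_mul hc h5 (nrm_nonneg _ _) (by norm_num)
        _ = 5 * nrm p f := by ring
    calc 4 * 5 ^ n * (|(1 / 2 - a)⁻¹| * nrm p (T f - a • f)) ≤ 4 * 5 ^ n * (5 * nrm p f) :=
          mul_le_mul_of_nonneg_left h6 (by positivity)
      _ = 4 * 5 ^ (n + 1) * nrm p f := by ring

end VNRM

open VNRM in
/-- VNRM -/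
theorem stmt_VNRM (h1 : Stmt_MEHN) : Stmt_VNRM := by
  intro N T hT p f
  have hc := (h1 N T hT).1 p
  refine ⟨?_, ?_⟩
  · have := bound hc 0 f
    rwa [pow_zero, mul_one] at this
  · intro n
    have e1 : aeval T (vpoly (n + 1) - vpoly n) f
        = aeval T (vpoly (n + 1)) f - aeval T (vpoly n) f := by
      rw [map_sub]; rfl
    rw [e1]
    refine (nrm_sub p _ _).trans ((add_le_add (bound hc _ f) (bound hc _ f)).trans ?_)
    have h2 := nrm_nonneg p f
    rw [← add_mul]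
    refine mul_le_mul_of_nonneg_right ?_ h2
    have h3 : (5 : ℝ) ^ n ≤ 8 ^ n := pow_le_pow_left₀ (by norm_num) (by norm_num) n
    have h4 : (2 : ℝ) ^ (3 * n + 5) = 32 * 8 ^ n := by
      rw [pow_add, pow_mul]
      norm_num
      ring
    rw [h4, pow_succ]
    nlinarith [pow_pos (by norm_num : (0 : ℝ) < 8) n]

end Pool.PQ
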