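import Pool.Agent.Work.MP_c13439_pq.Interp

/-!
# Block ZBET (helper64): the interpolation norm is between the two norms
-/

open MeasureTheory ProbabilityTheory
open scoped RealInnerProductSpace

namespace Pool.PQ

namespace ZBETAux

lemma w4 (θ : ℝ) (j : ℤ) : (4 : ℝ) ^ (-(θ * j)) = ((2 : ℝ) ^ j) ^ (-(2 * θ)) := by
  rw [← Real.rpow_intCast, ← Real.rpow_mul (by norm_num), show (4 : ℝ) = 2 ^ (2 : ℝ) by norm_num,
    ← Real.rpow_mul (by norm_num)]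
  congr 1
  ring

lemma nonneg_k {N : ℕ} (X H : Seminorm ℝ (Eu N)) (t : ℝ) (z : Eu N) : 0 ≤ kfun X H t z :=
  Real.iInf_nonneg fun _ => Real.sqrt_nonneg _

/-- geometric bounds on both sides give a bound of the sum over the integers -/
lemma sum_le {f : ℤ → ℝ} (hf : Summable f) (s : ℤ) {M a b : ℝ} (ha : 0 ≤ a) (ha1 : a < 1)
    (hb : 0 ≤ b) (hb1 : b < 1) (h1 : ∀ n : ℕ, f (s + n) ≤ M * b ^ n)
    (h2 : ∀ n : ℕ, f (s - 1 - n) ≤ M * a ^ n) :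
    ∑' j, f j ≤ M * ((1 - a)⁻¹ + (1 - b)⁻¹) := by
  have hg : Summable fun m : ℤ => f (s + m) := (Equiv.addLeft s).summable_iff.2 hf
  have e : ∑' j, f j = ∑' m : ℤ, f (s + m) := ((Equiv.addLeft s).tsum_eq f).symm
  have hg1 : Summable fun n : ℕ => f (s + (n : ℤ)) :=
    hg.comp_injective (i := fun n : ℕ => (n : ℤ)) Nat.cast_injective
  have hg2 : Summable fun n : ℕ => f (s + -((n : ℤ) + 1)) :=
    hg.comp_injective (i := fun n : ℕ => -((n : ℤ) + 1)) (by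
      intro x y h
      simpa using h)
  rw [e, tsum_of_nat_of_neg_add_one (f := fun m : ℤ => f (s + m)) hg1 hg2]
  have k1 : ∑' n : ℕ, f (s + (n : ℤ)) ≤ M * (1 - b)⁻¹ := by
    rw [← tsum_geometric_of_lt_one hb hb1, ← tsum_mul_left]
    exact hg1.tsum_le_tsum h1 ((summable_geometric_of_lt_one hb hb1).mul_left M)
  have k2 : ∑' n : ℕ, f (s + -((n : ℤ) + 1)) ≤ M * (1 - a)⁻¹ := by
    rw [← tsum_geometric_of_lt_one ha ha1, ← tsum_mul_left]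
    refine hg2.tsum_le_tsum (fun n => ?_) ((summable_geometric_of_lt_one ha ha1).mul_left M)
    have := h2 n
    rwa [show s - 1 - (n : ℤ) = s + -((n : ℤ) + 1) by ring] at this
  linarith

lemma up_est {θ x h : ℝ} (hθ : 0 < θ) (hθ1 : θ < 1) (hx : 0 < x) (hh : 0 < h) (K : ℤ → ℝ)
    (h0 : ∀ j, 0 ≤ K j) (h1 : ∀ j, K j ≤ x) (h2 : ∀ j, K j ≤ (2 : ℝ) ^ j * h)
    (hs : Summable fun j : ℤ => (4 : ℝ) ^ (-(θ * j)) * K j ^ 2) :
    ∑' j : ℤ, (4 : ℝ) ^ (-(θ * j)) * K j ^ 2 ≤ (x ^ (1 - θ) * h ^ θ) ^ 2 *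
      ((1 - (2 : ℝ) ^ (-(2 - 2 * θ)))⁻¹ + (1 - (2 : ℝ) ^ (-(2 * θ)))⁻¹) := by
  obtain ⟨j₀, hj1, hj2⟩ := exists_mem_Ico_zpow (div_pos hx hh) (one_lt_two (α := ℝ))
  have hM : (x ^ (1 - θ) * h ^ θ) ^ 2 = x ^ (2 - 2 * θ) * h ^ (2 * θ) := by
    rw [mul_pow, ← Real.rpow_natCast, ← Real.rpow_natCast, ← Real.rpow_mul hx.le,
      ← Real.rpow_mul hh.le]
    congr 2 <;> push_cast <;> ring
  have hpow : ∀ (n : ℕ) (c : ℝ), ((2 : ℝ) ^ n) ^ c = ((2 : ℝ) ^ c) ^ n := by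
    intro n c
    rw [← Real.rpow_natCast, ← Real.rpow_mul (by norm_num), ← Real.rpow_natCast,
      ← Real.rpow_mul (by norm_num), mul_comm]
  refine sum_le hs (j₀ + 1) (Real.rpow_nonneg (by norm_num) _)
    (Real.rpow_lt_one_of_one_lt_of_neg (by norm_num) (by linarith))
    (Real.rpow_nonneg (by norm_num) _)
    (Real.rpow_lt_one_of_one_lt_of_neg (by norm_num) (by linarith)) ?_ ?_
  · intro n
    have hu : (0 : ℝ) < (2 : ℝ) ^ (j₀ + 1) := by positivity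
    rw [w4, zpow_add₀ (two_ne_zero), zpow_natCast, Real.mul_rpow hu.le (by positivity), hpow, hM]
    have k1 : ((2 : ℝ) ^ (j₀ + 1)) ^ (-(2 * θ)) ≤ (x / h) ^ (-(2 * θ)) :=
      Real.rpow_le_rpow_of_nonpos (div_pos hx hh) hj2.le (by linarith)
    have k2 : K (j₀ + 1 + n) ^ 2 ≤ x ^ 2 := pow_le_pow_left₀ (h0 _) (h1 _) 2
    have k3 : (x / h) ^ (-(2 * θ)) * x ^ 2 = x ^ (2 - 2 * θ) * h ^ (2 * θ) := by
      rw [Real.div_rpow hx.le hh.le, Real.rpow_neg hh.le, div_inv_eq_mul,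
        show x ^ (2 - 2 * θ) = x ^ (-(2 * θ)) * x ^ 2 by
          rw [← Real.rpow_natCast x 2, ← Real.rpow_add hx]; congr 1; push_cast; ring]
      ring
    rw [← k3]
    have k4 : (0 : ℝ) ≤ ((2 : ℝ) ^ (-(2 * θ))) ^ n := by positivity
    calc ((2 : ℝ) ^ (j₀ + 1)) ^ (-(2 * θ)) * ((2 : ℝ) ^ (-(2 * θ))) ^ n * K (j₀ + 1 + n) ^ 2
        ≤ (x / h) ^ (-(2 * θ)) * ((2 : ℝ) ^ (-(2 * θ))) ^ n * x ^ 2 := by
          apply mul_le_mul (mul_le_mul_of_nonneg_right k1 k4) k2 (sq_nonneg _)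
          positivity
      _ = (x / h) ^ (-(2 * θ)) * x ^ 2 * ((2 : ℝ) ^ (-(2 * θ))) ^ n := by ring
  · intro n
    have hu : (0 : ℝ) < (2 : ℝ) ^ j₀ := by positivity
    have e1 : (2 : ℝ) ^ (j₀ + 1 - 1 - (n : ℤ)) = (2 : ℝ) ^ j₀ * ((2 : ℝ) ^ n)⁻¹ := by
      rw [add_sub_cancel_right, zpow_sub₀ two_ne_zero, zpow_natCast, div_eq_mul_inv]
    have hu2 : (0 : ℝ) < (2 : ℝ) ^ j₀ * ((2 : ℝ) ^ n)⁻¹ := by positivity
    rw [w4, e1, hM]
    have k2 : K (j₀ + 1 - 1 - n) ^ 2 ≤ ((2 : ℝ) ^ j₀ * ((2 : ℝ) ^ n)⁻¹ * h) ^ 2 := by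
      have := h2 (j₀ + 1 - 1 - n)
      rw [e1] at this
      exact pow_le_pow_left₀ (h0 _) this 2
    have k3 : (x / h) ^ (2 - 2 * θ) * h ^ 2 = x ^ (2 - 2 * θ) * h ^ (2 * θ) := by
      rw [Real.div_rpow hx.le hh.le, show h ^ 2 = h ^ (2 - 2 * θ) * h ^ (2 * θ) by
          rw [← Real.rpow_natCast h 2, ← Real.rpow_add hh]; congr 1; push_cast; ring]
      have := (Real.rpow_pos_of_pos hh (2 - 2 * θ)).ne'
      field_simp
    have k4 : ((2 : ℝ) ^ j₀ * ((2 : ℝ) ^ n)⁻¹) ^ (-(2 * θ)) *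
        ((2 : ℝ) ^ j₀ * ((2 : ℝ) ^ n)⁻¹ * h) ^ 2 =
        ((2 : ℝ) ^ j₀) ^ (2 - 2 * θ) * ((2 : ℝ) ^ (-(2 - 2 * θ))) ^ n * h ^ 2 := by
      rw [mul_pow ((2 : ℝ) ^ j₀ * ((2 : ℝ) ^ n)⁻¹) h, ← mul_assoc,
        ← Real.rpow_natCast ((2 : ℝ) ^ j₀ * ((2 : ℝ) ^ n)⁻¹) 2, ← Real.rpow_add hu2,
        show -(2 * θ) + ((2 : ℕ) : ℝ) = 2 - 2 * θ by push_cast; ring,
        Real.mul_rpow hu.le (by positivity), Real.inv_rpow (by positivity),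
        ← Real.rpow_neg (by positivity), hpow]
    have k5 : ((2 : ℝ) ^ j₀) ^ (2 - 2 * θ) ≤ (x / h) ^ (2 - 2 * θ) :=
      Real.rpow_le_rpow hu.le hj1 (by linarith)
    have k6 : (0 : ℝ) ≤ ((2 : ℝ) ^ (-(2 - 2 * θ))) ^ n := by positivity
    rw [← k3]
    calc ((2 : ℝ) ^ j₀ * ((2 : ℝ) ^ n)⁻¹) ^ (-(2 * θ)) * K (j₀ + 1 - 1 - n) ^ 2
        ≤ ((2 : ℝ) ^ j₀ * ((2 : ℝ) ^ n)⁻¹) ^ (-(2 * θ)) *
          ((2 : ℝ) ^ j₀ * ((2 : ℝ) ^ n)⁻¹ * h) ^ 2 :=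
          mul_le_mul_of_nonneg_left k2 (Real.rpow_nonneg hu2.le _)
      _ = ((2 : ℝ) ^ j₀) ^ (2 - 2 * θ) * ((2 : ℝ) ^ (-(2 - 2 * θ))) ^ n * h ^ 2 := k4
      _ ≤ (x / h) ^ (2 - 2 * θ) * ((2 : ℝ) ^ (-(2 - 2 * θ))) ^ n * h ^ 2 :=
          mul_le_mul_of_nonneg_right (mul_le_mul_of_nonneg_right k5 k6) (sq_nonneg _)
      _ = (x / h) ^ (2 - 2 * θ) * h ^ 2 * ((2 : ℝ) ^ (-(2 - 2 * θ))) ^ n := by ring

end ZBETAux

open ZBETAux

theorem stmt_ZBET (h1 : Stmt_KT) (h2 : Stmt_ZNORM) : Stmt_ZBET := by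
  intro θ hθ hθ1
  set c : ℝ := (1 - (2 : ℝ) ^ (-(2 - 2 * θ)))⁻¹ + (1 - (2 : ℝ) ^ (-(2 * θ)))⁻¹ with hc
  have hc0 : 0 ≤ c := by
    have a1 : (2 : ℝ) ^ (-(2 - 2 * θ)) < 1 :=
      Real.rpow_lt_one_of_one_lt_of_neg (by norm_num) (by linarith)
    have a2 : (2 : ℝ) ^ (-(2 * θ)) < 1 :=
      Real.rpow_lt_one_of_one_lt_of_neg (by norm_num) (by linarith)
    have a3 : 0 ≤ (1 - (2 : ℝ) ^ (-(2 - 2 * θ)))⁻¹ := inv_nonneg.2 (by linarith)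
    have a4 : 0 ≤ (1 - (2 : ℝ) ^ (-(2 * θ)))⁻¹ := inv_nonneg.2 (by linarith)
    linarith
  refine ⟨max 2 (Real.sqrt c), le_max_of_le_left (by norm_num), ?_⟩
  intro N X H Z hZ
  have hsum := (h2 N θ hθ hθ1 X H).1
  constructor
  · intro z
    by_cases hz : z = 0
    · subst hz
      rw [map_zero Z.p]
      have : 0 ≤ max 2 (Real.sqrt c) := le_max_of_le_left (by norm_num)
      have e1 : 0 ≤ X.p (0 : Eu N) := apply_nonneg _ _
      have e2 : 0 ≤ H.p (0 : Eu N) := apply_nonneg _ _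
      positivity
    · have hX : 0 < X.p z := lt_of_le_of_ne (apply_nonneg _ _) fun h => hz (X.eq_zero h.symm)
      have hH : 0 < H.p z := lt_of_le_of_ne (apply_nonneg _ _) fun h => hz (H.eq_zero h.symm)
      have k := up_est hθ hθ1 hX hH (fun j : ℤ => kfun X.p H.p (2 ^ j) z)
        (fun j => nonneg_k _ _ _ _) (fun j => (h1 N X H (2 ^ j) (by positivity)).2.2.1 z)
        (fun j => (h1 N X H (2 ^ j) (by positivity)).2.2.2 z) (hsum z)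
      rw [hZ z, zfun]
      calc Real.sqrt (∑' j : ℤ, (4 : ℝ) ^ (-(θ * j)) * kfun X.p H.p (2 ^ j) z ^ 2)
          ≤ Real.sqrt ((X.p z ^ (1 - θ) * H.p z ^ θ) ^ 2 * c) := Real.sqrt_le_sqrt k
        _ = X.p z ^ (1 - θ) * H.p z ^ θ * Real.sqrt c := by
            rw [Real.sqrt_mul (sq_nonneg _), Real.sqrt_sq (by positivity)]
        _ ≤ X.p z ^ (1 - θ) * H.p z ^ θ * max 2 (Real.sqrt c) :=
            mul_le_mul_of_nonneg_left (le_max_right _ _) (by positivity)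
        _ = _ := by ring
  · intro t ht z
    obtain ⟨j, hj1, hj2⟩ := exists_mem_Ico_zpow ht (one_lt_two (α := ℝ))
    obtain ⟨x, hx⟩ := (h1 N X H (2 ^ j) (by positivity)).2.1 z
    have hu : (0 : ℝ) < (2 : ℝ) ^ j := by positivity
    have hZ0 : 0 ≤ Z.p z := apply_nonneg _ _
    -- one term of the series
    have k1 : (4 : ℝ) ^ (-(θ * j)) * kfun X.p H.p (2 ^ j) z ^ 2 ≤ Z.p z ^ 2 := by
      have k0 : ∀ i : ℤ, 0 ≤ (4 : ℝ) ^ (-(θ * i)) * kfun X.p H.p (2 ^ i) z ^ 2 := fun i => by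
        positivity
      have := (hsum z).le_tsum j fun i _ => k0 i
      rw [hZ z, zfun, Real.sq_sqrt (tsum_nonneg k0)]
      exact this
    have k2 : kfun X.p H.p (2 ^ j) z ≤ ((2 : ℝ) ^ j) ^ θ * Z.p z := by
      rw [w4] at k1
      have e1 : ((2 : ℝ) ^ j) ^ (-(2 * θ)) = ((((2 : ℝ) ^ j) ^ θ) ^ 2)⁻¹ := by
        rw [Real.rpow_neg hu.le, ← Real.rpow_natCast (((2 : ℝ) ^ j) ^ θ) 2,
          ← Real.rpow_mul hu.le]
        congr 2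
        push_cast
        ring
      rw [e1, inv_mul_le_iff₀ (by positivity), ← mul_pow] at k1
      exact le_of_sq_le_sq k1 (by positivity)
    have k3 : X.p x ≤ kfun X.p H.p (2 ^ j) z := by
      rw [hx]
      apply Real.le_sqrt_of_sq_le
      nlinarith [sq_nonneg ((2 : ℝ) ^ j * H.p (z - x))]
    have k4 : (2 : ℝ) ^ j * H.p (z - x) ≤ kfun X.p H.p (2 ^ j) z := by
      rw [hx]
      apply Real.le_sqrt_of_sq_le
      nlinarith [sq_nonneg (X.p x)]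
    have hC2 : (2 : ℝ) ≤ max 2 (Real.sqrt c) := le_max_left _ _
    refine ⟨x, ?_, ?_⟩
    · have e1 : ((2 : ℝ) ^ j) ^ θ ≤ t ^ θ := Real.rpow_le_rpow hu.le hj1 hθ.le
      have e2 : X.p x ≤ t ^ θ * Z.p z :=
        (k3.trans k2).trans (mul_le_mul_of_nonneg_right e1 hZ0)
      have e3 : 0 ≤ t ^ θ * Z.p z := by positivity
      nlinarith
    · have e1 : H.p (z - x) ≤ ((2 : ℝ) ^ j) ^ (θ - 1) * Z.p z := by
        have : (2 : ℝ) ^ j * H.p (z - x) ≤ ((2 : ℝ) ^ j) ^ θ * Z.p z := k4.trans k2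
        rw [Real.rpow_sub_one hu.ne', div_mul_eq_mul_div, le_div_iff₀ hu]
        linarith
      have e2 : ((2 : ℝ) ^ j) ^ (θ - 1) ≤ (t / 2) ^ (θ - 1) := by
        apply Real.rpow_le_rpow_of_nonpos (by positivity) _ (by linarith)
        rw [zpow_add_one₀ two_ne_zero] at hj2
        linarith
      have e3 : (t / 2) ^ (θ - 1) ≤ 2 * t ^ (θ - 1) := by
        rw [Real.div_rpow ht.le (by norm_num), div_eq_mul_inv, ← Real.rpow_neg (by norm_num),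
          mul_comm]
        apply mul_le_mul_of_nonneg_right _ (by positivity)
        calc (2 : ℝ) ^ (-(θ - 1)) ≤ 2 ^ (1 : ℝ) :=
              Real.rpow_le_rpow_of_exponent_le (by norm_num) (by linarith)
          _ = 2 := by norm_num
      have e4 : 0 ≤ t ^ (θ - 1) * Z.p z := by positivity
      have e5 : H.p (z - x) ≤ 2 * (t ^ (θ - 1) * Z.p z) := by
        calc H.p (z - x) ≤ ((2 : ℝ) ^ j) ^ (θ - 1) * Z.p z := e1
          _ ≤ 2 * t ^ (θ - 1) * Z.p z := mul_le_mul_of_nonneg_right (e2.trans e3) hZ0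
          _ = _ := by ring
      nlinarith

end Pool.PQ
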