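import Pool.Agent.Work.MP_c13439_pq.Interp

/-!
# Block ZNORM (helper93): the interpolation norm is a norm
-/

open MeasureTheory ProbabilityTheory Polynomial
open scoped RealInnerProductSpace

namespace Pool.PQ

namespace ZNORM

lemma two_zpow_pos (j : ℤ) : (0 : ℝ) < 2 ^ j := zpow_pos (by norm_num) j

lemma kfun_nonneg {N : ℕ} (X H : Seminorm ℝ (Eu N)) (t : ℝ) (z : Eu N) : 0 ≤ kfun X H t z :=
  Real.iInf_nonneg fun _ => Real.sqrt_nonneg _

/-- the weights -/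
lemma w_pos (θ : ℝ) (j : ℤ) : (0 : ℝ) < (4 : ℝ) ^ (-(θ * j)) := Real.rpow_pos_of_pos (by norm_num) _

lemma summable_geo {r : ℝ} (hr : 0 < r) : Summable fun n : ℕ => (4 : ℝ) ^ (-(r * (n : ℝ))) := by
  have h : (fun n : ℕ => (4 : ℝ) ^ (-(r * (n : ℝ)))) = fun n : ℕ => ((4 : ℝ) ^ (-r)) ^ n := by
    funext n
    rw [← Real.rpow_natCast, ← Real.rpow_mul (by norm_num)]
    congr 1
    ring
  rw [h]
  apply summable_geometric_of_lt_one (Real.rpow_nonneg (by norm_num) _)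
  apply Real.rpow_lt_one_of_one_lt_of_neg (by norm_num)
  linarith

lemma summ (h1 : Stmt_KT) {N : ℕ} {θ : ℝ} (hθ0 : 0 < θ) (hθ1 : θ < 1) (X H : DN N) (z : Eu N) :
    Summable fun j : ℤ => (4 : ℝ) ^ (-(θ * j)) * kfun X.p H.p (2 ^ j) z ^ 2 := by
  have hX : ∀ j : ℤ, kfun X.p H.p (2 ^ j) z ≤ X.p z := fun j => (h1 N X H _ (two_zpow_pos j)).2.2.1 z
  have hH : ∀ j : ℤ, kfun X.p H.p (2 ^ j) z ≤ 2 ^ j * H.p z :=
    fun j => (h1 N X H _ (two_zpow_pos j)).2.2.2 z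
  apply Summable.of_nat_of_neg
  · refine Summable.of_nonneg_of_le (fun n => ?_) (fun n => ?_)
      ((summable_geo hθ0).mul_right (X.p z ^ 2))
    · exact mul_nonneg (w_pos θ _).le (sq_nonneg _)
    · have h2 : kfun X.p H.p (2 ^ (n : ℤ)) z ^ 2 ≤ X.p z ^ 2 :=
        pow_le_pow_left₀ (kfun_nonneg _ _ _ _) (hX _) 2
      have h3 := mul_le_mul_of_nonneg_left h2 (w_pos θ (n : ℤ)).le
      simpa using h3
  · refine Summable.of_nonneg_of_le (fun n => ?_) (fun n => ?_)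
      ((summable_geo (sub_pos.2 hθ1)).mul_right (H.p z ^ 2))
    · exact mul_nonneg (w_pos θ _).le (sq_nonneg _)
    · have h2 : kfun X.p H.p (2 ^ (-(n : ℤ))) z ^ 2 ≤ ((2 : ℝ) ^ (-(n : ℤ)) * H.p z) ^ 2 :=
        pow_le_pow_left₀ (kfun_nonneg _ _ _ _) (hH _) 2
      refine (mul_le_mul_of_nonneg_left h2 (w_pos θ (-(n : ℤ))).le).trans (le_of_eq ?_)
      rw [mul_pow, ← mul_assoc]
      congr 1
      have h4 : ((2 : ℝ) ^ (-(n : ℤ))) ^ 2 = (4 : ℝ) ^ (-(n : ℝ)) := by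
        rw [← zpow_natCast, ← zpow_mul, mul_comm, zpow_mul]
        norm_num
      rw [h4, ← Real.rpow_add (by norm_num)]
      congr 1
      push_cast
      ring

/-- the square root of a term -/
noncomputable def term (θ : ℝ) {N : ℕ} (X H : DN N) (z : Eu N) (j : ℤ) : ℝ :=
  (2 : ℝ) ^ (-(θ * j)) * kfun X.p H.p (2 ^ j) z

lemma term_nonneg (θ : ℝ) {N : ℕ} (X H : DN N) (z : Eu N) (j : ℤ) : 0 ≤ term θ X H z j :=
  mul_nonneg (Real.rpow_nonneg (by norm_num) _) (kfun_nonneg _ _ _ _)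

lemma term_sq (θ : ℝ) {N : ℕ} (X H : DN N) (z : Eu N) (j : ℤ) :
    term θ X H z j ^ 2 = (4 : ℝ) ^ (-(θ * j)) * kfun X.p H.p (2 ^ j) z ^ 2 := by
  unfold term
  rw [mul_pow]
  congr 1
  rw [← Real.rpow_natCast, ← Real.rpow_mul (by norm_num), mul_comm, Real.rpow_mul (by norm_num)]
  norm_num

lemma zfun_eq (θ : ℝ) {N : ℕ} (X H : DN N) (z : Eu N) :
    zfun θ X.p H.p z = (∑' j : ℤ, term θ X H z j ^ (2 : ℝ)) ^ (1 / (2 : ℝ)) := by
  unfold zfun
  rw [Real.sqrt_eq_rpow]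
  congr 1
  apply tsum_congr
  intro j
  rw [Real.rpow_two, term_sq]

end ZNORM

open ZNORM in
theorem stmt_ZNORM (h1 : Stmt_KT) (h2 : Stmt_EXDN) : Stmt_ZNORM := by
  intro N θ hθ0 hθ1 X H
  refine ⟨fun z => summ h1 hθ0 hθ1 X H z, ?_⟩
  have hk : ∀ j : ℤ, ∃ k : Seminorm ℝ (Eu N), (∀ z, k z = kfun X.p H.p (2 ^ j) z) ∧
      ∀ z, k z = 0 → z = 0 := fun j => (h1 N X H _ (two_zpow_pos j)).1
  choose k hk1 hk2 using hk
  have hsum : ∀ z, Summable fun j : ℤ => term θ X H z j ^ (2 : ℝ) := by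
    intro z
    refine (summ h1 hθ0 hθ1 X H z).congr ?_
    intro j
    rw [Real.rpow_two, term_sq]
  have hadd : ∀ x y, zfun θ X.p H.p (x + y) ≤ zfun θ X.p H.p x + zfun θ X.p H.p y := by
    intro x y
    rw [zfun_eq, zfun_eq, zfun_eq]
    have hL := Real.Lp_add_le_tsum_of_nonneg (p := 2) (by norm_num)
      (fun j => term_nonneg θ X H x j) (fun j => term_nonneg θ X H y j) (hsum x) (hsum y)
    refine le_trans ?_ hL.2
    apply Real.rpow_le_rpow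
    · exact tsum_nonneg fun j => Real.rpow_nonneg (term_nonneg _ _ _ _ _) _
    · refine Summable.tsum_le_tsum ?_ (hsum (x + y)) hL.1
      intro j
      apply Real.rpow_le_rpow (term_nonneg _ _ _ _ _) _ (by norm_num)
      unfold term
      rw [← mul_add]
      apply mul_le_mul_of_nonneg_left _ (Real.rpow_nonneg (by norm_num) _)
      rw [← hk1, ← hk1, ← hk1]
      exact map_add_le_add _ _ _
    · norm_num
  have hsmul : ∀ (c : ℝ) x, zfun θ X.p H.p (c • x) = ‖c‖ * zfun θ X.p H.p x := by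
    intro c x
    unfold zfun
    have h3 : (fun j : ℤ => (4 : ℝ) ^ (-(θ * j)) * kfun X.p H.p (2 ^ j) (c • x) ^ 2) =
        fun j : ℤ => ‖c‖ ^ 2 * ((4 : ℝ) ^ (-(θ * j)) * kfun X.p H.p (2 ^ j) x ^ 2) := by
      funext j
      rw [← hk1, ← hk1, map_smul_eq_mul]
      ring
    rw [h3, tsum_mul_left, Real.sqrt_mul (sq_nonneg _), Real.sqrt_sq (norm_nonneg _)]
  let P : Seminorm ℝ (Eu N) := Seminorm.of (zfun θ X.p H.p) hadd hsmul
  have hP : ∀ z, P z = zfun θ X.p H.p z := fun z => rfl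
  have hP0 : ∀ z, P z = 0 → z = 0 := by
    intro z hz
    rw [hP] at hz
    unfold zfun at hz
    have hnn : ∀ j : ℤ, 0 ≤ (4 : ℝ) ^ (-(θ * j)) * kfun X.p H.p (2 ^ j) z ^ 2 :=
      fun j => mul_nonneg (w_pos θ _).le (sq_nonneg _)
    rw [Real.sqrt_eq_zero (tsum_nonneg hnn)] at hz
    have h3 := ((summ h1 hθ0 hθ1 X H z).hasSum_iff.2 hz)
    have h4 := (hasSum_zero_iff_of_nonneg hnn).1 h3
    have h5 := congrFun h4 0
    simp only [Pi.zero_apply] at h5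
    rcases mul_eq_zero.1 h5 with h6 | h6
    · exact absurd h6 (w_pos θ 0).ne'
    · have h7 : kfun X.p H.p (2 ^ (0 : ℤ)) z = 0 := by simpa using h6
      rw [← hk1] at h7
      exact hk2 0 z h7
  obtain ⟨Z, hZ⟩ := h2 N P hP0
  exact ⟨Z, fun z => by rw [hZ]; exact hP z⟩

end Pool.PQ
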