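import Pool.Agent.Work.MP_c13439_pq.Boot
import Pool.Agent.Work.MP_c13439_pq.Quant
import Pool.Agent.Work.MP_c13439_pq.EXDN
import Pool.Agent.Work.MP_c13439_pq.EUC
import Pool.Agent.Work.MP_c13439_pq.ENT
import Pool.Agent.Work.MP_c13439_pq.ENTD
import Pool.Agent.Work.MP_c13439_pq.KT
import Pool.Agent.Work.MP_c13439_pq.ZNORM
import Pool.Agent.Work.MP_c13439_pq.ZBET
import Pool.Agent.Work.MP_c13439_pq.DBET
import Pool.Agent.Work.MP_c13439_pq.SRC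
import Pool.Agent.Work.MP_c13439_pq.TGT
import Pool.Agent.Work.MP_c13439_pq.MEH
import Pool.Agent.Work.MP_c13439_pq.MEHN
import Pool.Agent.Work.MP_c13439_pq.MEHP
import Pool.Agent.Work.MP_c13439_pq.DENS
import Pool.Agent.Work.MP_c13439_pq.SPEC
import Pool.Agent.Work.MP_c13439_pq.COEF
import Pool.Agent.Work.MP_c13439_pq.VNRM
import Pool.Agent.Work.MP_c13439_pq.VHIL
import Pool.Agent.Work.MP_c13439_pq.KPOL
import Pool.Agent.Work.MP_c13439_pq.KSUM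
import Pool.Agent.Work.MP_c13439_pq.KCV
import Pool.Agent.Work.MP_c13439_pq.INTERP
import Pool.Agent.Work.MP_c13439_pq.SUD
import Pool.Agent.Work.MP_c13439_pq.LEML
import Pool.Agent.Work.MP_c13439_pq.BSUM
import Pool.Agent.Work.MP_c13439_pq.BENT
import Pool.Agent.Work.MP_c13439_pq.BLAM
import Pool.Agent.Work.MP_c13439_pq.BHALF
import Pool.Agent.Work.MP_c13439_pq.BSTEP
import Pool.Agent.Work.MP_c13439_pq.BOOT
import Pool.Agent.Work.MP_c13439_pq.ENB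
import Pool.Agent.Work.MP_c13439_pq.FD
import Pool.Agent.Work.MP_c13439_pq.TOP
import Pool.Agent.Work.MP_c13439_pq.LOC
import Pool.Agent.Work.MP_c13439_pq.LAYAQ
import Pool.Agent.Work.MP_c13439_pq.LAYBQ
import Pool.Agent.Work.MP_c13439_pq.FWDQ
import Pool.Agent.Work.MP_c13439_pq.RATS
import Pool.Agent.Work.MP_c13439_pq.RATE
import Pool.Agent.Work.MP_c13439_pq.CPX
import Pool.Agent.Work.MP_c13439_pq.BID

/-! Assembly of all blocks; universe polymorphic form. -/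

set_option linter.style.haveILetI false

namespace Pool.PQ

universe u v w

theorem all_INTERP : Stmt_INTERP :=
  stmt_INTERP (stmt_ZNORM stmt_KT stmt_EXDN) (stmt_ZBET stmt_KT (stmt_ZNORM stmt_KT stmt_EXDN))
    stmt_DBET (stmt_KSUM stmt_MEH (stmt_VNRM stmt_MEHN)
      (stmt_VHIL stmt_MEHN stmt_MEHP stmt_DENS stmt_SPEC stmt_COEF (stmt_EUC stmt_EXDN))
      (stmt_KPOL stmt_KT (stmt_ZNORM stmt_KT stmt_EXDN))) stmt_KCV

theorem all_BOOT : Stmt_BOOT :=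
  stmt_BOOT (stmt_BSTEP all_INTERP
      (stmt_BLAM (stmt_BENT stmt_ENT (stmt_SRC stmt_ENT) (stmt_TGT stmt_ENT)) stmt_BSUM stmt_LEML
        stmt_ENT)
      (stmt_BHALF stmt_ENT stmt_SUD (stmt_TGT stmt_ENT) (stmt_SRC stmt_ENT) (stmt_EUC stmt_EXDN))
      (stmt_EUC stmt_EXDN))
    (stmt_ENTD stmt_ENT) (stmt_EUC stmt_EXDN) stmt_ENT

theorem all_LOC : Stmt_LOC.{u, v} :=
  stmt_LOC (stmt_TOP all_BOOT (stmt_FD stmt_EXDN stmt_ENB) stmt_ENT stmt_EXDN) stmt_ENB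

theorem all_FWDQ : Stmt_FWDQ.{u, v} := stmt_FWDQ all_LOC stmt_LAYAQ stmt_LAYBQ stmt_ENB stmt_ENB

theorem all_RATE : Stmt_RATE.{u, v} := stmt_RATE all_LOC stmt_RATS stmt_ENB stmt_ENB

theorem en_nonneg' {X : Type u} {Y : Type v} [NormedAddCommGroup X] [NormedAddCommGroup Y]
    (T : X → Y) (n : ℕ) : 0 ≤ en T n := Real.sInf_nonneg fun _ hε => hε.1.le

/-- Forward direction, scalars `𝕜`. -/
theorem fwd_sum : ∀ p : ℝ, 0 < p → p < 1 → ∃ C : ℝ, 1 ≤ C ∧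
    ∀ (𝕜 : Type u) [RCLike 𝕜] (X : Type v) (Y : Type w) [NormedAddCommGroup X] [NormedSpace 𝕜 X]
      [NormedAddCommGroup Y] [NormedSpace 𝕜 Y] (T : X →L[𝕜] Y),
      Summable (fun n : ℕ => en T n ^ p) → (Summable fun n : ℕ => en (adj T) n ^ p) ∧
        ∑' n, en (adj T) n ^ p ≤ C * ∑' n, en T n ^ p := by
  intro p h0 h1
  obtain ⟨C, hC1, h⟩ := all_FWDQ.{v, w} p h0 h1
  refine ⟨C, hC1, fun 𝕜 _ X Y _ _ _ _ T hs => ?_⟩
  letI := NormedSpace.restrictScalars ℝ 𝕜 X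
  letI := NormedSpace.restrictScalars ℝ 𝕜 Y
  have h2 := h X Y (T.restrictScalars ℝ) hs
  have h3 : ∀ n, en (adj T) n = en (adj (T.restrictScalars ℝ)) n := fun n => stmt_CPX 𝕜 X Y T n
  simp only [h3]
  exact h2

theorem fwd_rate : ∀ α : ℝ, 1 < α → ∃ C : ℝ, 1 ≤ C ∧
    ∀ (𝕜 : Type u) [RCLike 𝕜] (X : Type v) (Y : Type w) [NormedAddCommGroup X] [NormedSpace 𝕜 X]
      [NormedAddCommGroup Y] [NormedSpace 𝕜 Y] (T : X →L[𝕜] Y) (M : ℝ),
      (∀ n : ℕ, en T n ≤ M * ((n : ℝ) + 1) ^ (-α)) →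
      ∀ n : ℕ, en (adj T) n ≤ C * (M * ((n : ℝ) + 1) ^ (-α)) := by
  intro α hα
  obtain ⟨C, hC1, h⟩ := all_RATE.{v, w} α hα
  refine ⟨C, hC1, fun 𝕜 _ X Y _ _ _ _ T M hs n => ?_⟩
  letI := NormedSpace.restrictScalars ℝ 𝕜 X
  letI := NormedSpace.restrictScalars ℝ 𝕜 Y
  have h2 := h X Y (T.restrictScalars ℝ) M hs n
  have h3 : en (adj T) n = en (adj (T.restrictScalars ℝ)) n := stmt_CPX 𝕜 X Y T n
  rw [h3]; exact h2

/-- **Duality of the entropy classes for `p < 1`.** -/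
theorem main_sum (p : ℝ) (h0 : 0 < p) (h1 : p < 1) : ∃ C : ℝ, ∀ (𝕜 : Type u) [RCLike 𝕜]
    (X : Type v) (Y : Type w) [NormedAddCommGroup X] [NormedSpace 𝕜 X] [NormedAddCommGroup Y]
    [NormedSpace 𝕜 Y] (T : X →L[𝕜] Y),
    (Summable (fun n : ℕ => en T n ^ p) ↔ Summable fun n : ℕ => en (adj T) n ^ p) ∧
    ∑' n, en (adj T) n ^ p ≤ C * ∑' n, en T n ^ p ∧
    ∑' n, en T n ^ p ≤ C * ∑' n, en (adj T) n ^ p := by
  obtain ⟨C, hC1, h⟩ := fwd_sum.{u, v, w} p h0 h1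
  obtain ⟨C', hC1', h'⟩ := fwd_sum.{u, max u w, max u v} p h0 h1
  have key : ∀ (𝕜 : Type u) [RCLike 𝕜] (X : Type v) (Y : Type w) [NormedAddCommGroup X]
      [NormedSpace 𝕜 X] [NormedAddCommGroup Y] [NormedSpace 𝕜 Y] (T : X →L[𝕜] Y),
      Summable (fun n : ℕ => en (adj T) n ^ p) → (Summable fun n : ℕ => en T n ^ p) ∧
        ∑' n, en T n ^ p ≤ 2 ^ p * C' * ∑' n, en (adj T) n ^ p := by
    intro 𝕜 _ X Y _ _ _ _ T hs
    obtain ⟨h2, h3⟩ := h' 𝕜 _ _ (adj T) hs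
    have hle : ∀ n, en T n ^ p ≤ 2 ^ p * en (adj (adj T)) n ^ p := fun n => by
      rw [← Real.mul_rpow (by norm_num) (en_nonneg' _ n)]
      exact Real.rpow_le_rpow (en_nonneg' _ n) (stmt_BID 𝕜 X Y T n) h0.le
    have hsum : Summable (fun n : ℕ => en T n ^ p) :=
      Summable.of_nonneg_of_le (fun n => Real.rpow_nonneg (en_nonneg' _ n) p) hle
        (h2.mul_left ((2 : ℝ) ^ p))
    refine ⟨hsum, (hsum.tsum_le_tsum hle (h2.mul_left _)).trans ?_⟩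
    rw [tsum_mul_left, mul_assoc]
    exact mul_le_mul_of_nonneg_left h3 (Real.rpow_nonneg (by norm_num) p)
  refine ⟨max C (2 ^ p * C'), fun 𝕜 _ X Y _ _ _ _ T => ?_⟩
  have hiff : Summable (fun n : ℕ => en T n ^ p) ↔ Summable fun n : ℕ => en (adj T) n ^ p :=
    ⟨fun hs => (h 𝕜 X Y T hs).1, fun hs => (key 𝕜 X Y T hs).1⟩
  refine ⟨hiff, ?_, ?_⟩
  · by_cases hs : Summable (fun n : ℕ => en T n ^ p)
    · exact (h 𝕜 X Y T hs).2.trans (mul_le_mul_of_nonneg_right (le_max_left _ _)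
        (tsum_nonneg fun n => Real.rpow_nonneg (en_nonneg' _ n) p))
    · rw [tsum_eq_zero_of_not_summable hs, tsum_eq_zero_of_not_summable (fun h' => hs (hiff.2 h')),
        mul_zero]
  · by_cases hs : Summable (fun n : ℕ => en (adj T) n ^ p)
    · exact (key 𝕜 X Y T hs).2.trans (mul_le_mul_of_nonneg_right (le_max_right _ _)
        (tsum_nonneg fun n => Real.rpow_nonneg (en_nonneg' _ n) p))
    · rw [tsum_eq_zero_of_not_summable hs, tsum_eq_zero_of_not_summable (fun h' => hs (hiff.1 h')),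
        mul_zero]

/-- **Duality of polynomial rates faster than `1 / n`.** -/
theorem main_rate (α : ℝ) (hα : 1 < α) : ∃ C : ℝ, ∀ (𝕜 : Type u) [RCLike 𝕜]
    (X : Type v) (Y : Type w) [NormedAddCommGroup X] [NormedSpace 𝕜 X] [NormedAddCommGroup Y]
    [NormedSpace 𝕜 Y] (T : X →L[𝕜] Y) (M : ℝ),
    ((∀ n : ℕ, en T n ≤ M * ((n : ℝ) + 1) ^ (-α)) →
      ∀ n : ℕ, en (adj T) n ≤ C * (M * ((n : ℝ) + 1) ^ (-α))) ∧
    ((∀ n : ℕ, en (adj T) n ≤ M * ((n : ℝ) + 1) ^ (-α)) →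
      ∀ n : ℕ, en T n ≤ C * (M * ((n : ℝ) + 1) ^ (-α))) := by
  obtain ⟨C, hC1, h⟩ := fwd_rate.{u, v, w} α hα
  obtain ⟨C', hC1', h'⟩ := fwd_rate.{u, max u w, max u v} α hα
  refine ⟨max C (2 * C'), fun 𝕜 _ X Y _ _ _ _ T M => ⟨fun hs n => ?_, fun hs n => ?_⟩⟩
  · have h0 : 0 ≤ M * ((n : ℝ) + 1) ^ (-α) := (en_nonneg' _ n).trans (hs n)
    exact (h 𝕜 X Y T M hs n).trans (mul_le_mul_of_nonneg_right (le_max_left _ _) h0)
  · have h0 : 0 ≤ M * ((n : ℝ) + 1) ^ (-α) := (en_nonneg' _ n).trans (hs n)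
    have h1 := h' 𝕜 _ _ (adj T) M hs n
    calc en T n ≤ 2 * en (adj (adj T)) n := stmt_BID 𝕜 X Y T n
      _ ≤ 2 * (C' * (M * ((n : ℝ) + 1) ^ (-α))) := by linarith
      _ = 2 * C' * (M * ((n : ℝ) + 1) ^ (-α)) := by ring
      _ ≤ _ := mul_le_mul_of_nonneg_right (le_max_right _ _) h0

end Pool.PQ
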