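import Pool.Agent.Work.MP_c13439_pq.Interp

/-!
# MP_c13439_an, parts (2) - (5): bootstrap, reduction to finite dimension, telescoping

Table `pq_blocks`.  Each block is one `Stmt_X : Prop` with its proof on paper.

Notation: `θ = (1 - p) / 2`, `α = 1 / (1 + p) = 1 / (2 (1 - θ))`, `δ = (1 - θ)²`.
-/

open MeasureTheory ProbabilityTheory Polynomial
open scoped RealInnerProductSpace

namespace Pool.PQ

variable {N : ℕ}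

/-! ### Gaussian tools (helper57) -/

/-- SUD.  Dual Sudakov and Sudakov inequalities.  `S : Z → ℝ^N`, `S⁻¹ : ℝ^N → Z'`. -/
def Stmt_SUD : Prop :=
  ∃ C : ℝ, 1 ≤ C ∧ ∀ (N : ℕ) (V H : DN N) (S : Eu N ≃L[ℝ] Eu N), (∀ x, H.p x = ‖S x‖) →
    ∀ k : ℕ, ent H.p V.p k ≤ C * (ell V.p (S.symm : Eu N →L[ℝ] Eu N) / Real.sqrt (k + 1)) ∧
      ent V.p H.p k ≤
        C * (ell V.q (ContinuousLinearMap.adjoint (S : Eu N →L[ℝ] Eu N)) / Real.sqrt (k + 1))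

/-- LEML.  Lemma L of note 2014. -/
def Stmt_LEML : Prop :=
  ∃ C : ℝ, 1 ≤ C ∧ ∀ (N : ℕ) (Z Z' : DN N) (K : ℝ), 0 ≤ K → KConv K Z' →
    ∃ S : Eu N ≃L[ℝ] Eu N, ell Z'.p (S.symm : Eu N →L[ℝ] Eu N) ≤ 1 ∧
      StarLe Z.p (S : Eu N →L[ℝ] Eu N)
        (C * K * (∑ k ∈ Finset.Icc 1 N, Real.sqrt (ent Z.p Z'.p k / k)) ^ 2)

/-! ### Bootstrap -/

/-- BSUM (100 lines).
PROOF. `√(e k / k) ≤ √D A^(θ/2) k^(-(1+θ)/2)`; the sum over `k ≤ A` is at most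
`√D A^(θ/2) (2/(1-θ)) A^((1-θ)/2)`.  `√(e k / k) ≤ √D A^((s+θ)/2) k^(-(s+θ+1)/2)`, exponent `> 1`;
the sum over `k > A` is at most `C √D A^((s+θ)/2) A^(1-(s+θ+1)/2)`. -/
def Stmt_BSUM : Prop :=
  ∀ θ s : ℝ, 0 < θ → θ < 1 → 1 < s + θ → ∃ C : ℝ, 0 ≤ C ∧
    ∀ (A D : ℝ) (e : ℕ → ℝ) (N : ℕ), 1 ≤ A → 0 ≤ D → (∀ k, 1 ≤ k → 0 ≤ e k ∧
      e k ≤ D * (A / k) ^ θ ∧ e k ≤ D * (A / k) ^ (s + θ)) →
    (∑ k ∈ Finset.Icc 1 N, Real.sqrt (e k / k)) ^ 2 ≤ C * (A * D)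

/-- BENT (deps ENT SRC TGT; 80 lines).
PROOF. SRC with `V = Z'`, then TGT for `X → Z'` and `H → Z'`, `ent H H k ≤ 1`:
`2 C ((2 C e^(1-θ) f^θ)^(1-θ) (2 C g^(1-θ))^θ)`. -/
def Stmt_BENT : Prop :=
  ∀ θ C : ℝ, 0 < θ → θ < 1 → 1 ≤ C → ∀ (N : ℕ) (X Y H Z Z' : DN N),
    Between θ C X.p H.p Z.p → Between θ C Y.p H.p Z'.p → ∀ k : ℕ,
      ent Z.p Z'.p (4 * k) ≤ (2 * C) ^ 2 * (ent X.p Y.p k ^ ((1 - θ) ^ 2) *
        (ent X.p H.p k * ent H.p Y.p k) ^ (θ * (1 - θ)))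

/-- `H` factors `X → Y` and `Y^* → X^*` with constants `a`, `b`. -/
def Good (α A a b : ℝ) (X Y H : DN N) : Prop :=
  ∀ k : ℕ, ent X.p H.p k ≤ a * (A / (k + 1)) ^ α ∧ ent H.q X.q k ≤ a * (A / (k + 1)) ^ α ∧
    ent H.p Y.p k ≤ b * (A / (k + 1)) ^ α ∧ ent Y.q H.q k ≤ b * (A / (k + 1)) ^ α

/-- BLAM (deps BENT BSUM LEML ENT; 120 lines).  The new Euclidean norm.
PROOF. BENT and `Good`: `ent Z Z' (4 k) ≤ (2 C)² (a b)^(θ(1-θ)) (A/(k+1))^θ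
min(1, (A/(k+1))^(1/p))^((1-θ)²)` since `2 α θ (1-θ) = θ`; so for `k ≥ 1`, `e k = ent Z Z' k`
satisfies the hypothesis of BSUM with `4 A`, `s = (1-θ)²/p`, `s + θ > 1` as `1 - θ > p`. -/
def Stmt_BLAM : Prop :=
  ∀ p : ℝ, 0 < p → p < 1 → ∀ C₀ : ℝ, 1 ≤ C₀ → ∃ C : ℝ, 1 ≤ C ∧
    ∀ (N : ℕ) (X Y H Z Z' : DN N) (A a b : ℝ), 1 ≤ A → 0 ≤ a → 0 ≤ b →
      (∀ k : ℕ, ent X.p Y.p k ≤ 1 ∧ ent X.p Y.p k ≤ (A / (k + 1)) ^ (1 / p)) →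
      Good (1 / (1 + p)) A a b X Y H → Between ((1 - p) / 2) C₀ X.p H.p Z.p →
      Between ((1 - p) / 2) C₀ Y.p H.p Z'.p → KConv C₀ Z' →
      ∃ S : Eu N ≃L[ℝ] Eu N, ell Z'.p (S.symm : Eu N →L[ℝ] Eu N) ≤ 1 ∧
        StarLe Z.p (S : Eu N →L[ℝ] Eu N) (C * (A * (a * b) ^ ((1 - p) / 2 * ((1 + p) / 2))))

/-- BHALF (deps ENT SUD TGT SRC EUC; 150 lines).  The two halves of the new factorization.
PROOF. `ent X H₁ (2 k) ≤ ent X Z k · ent Z H₁ k`, `ent X Z (0 + k) ≤ 2 C₀ (ent X H k)^θ` (TGT,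
`ent X X 0 ≤ 1`), `ent Z H₁ k ≤ C ell Z.q (S^*) / √(k+1) ≤ C C₀ c / √(k+1)` (SUD, KConv); and
`α θ + 1/2 = α`; indices `2 k + 1` by monotonicity.  Dual half: `ent H₁.q X.q (2 k) ≤
ent H₁.q Z.q k · ent Z.q X.q k`, SUD for `V = Z.dual`, `H₁.dual` (`H₁.q y = ‖(S⁻¹)^* y‖`, EUC,
its inverse is `S^*`), SRC for the duals.  The same for `Y`, with `1` in place of `C₀ c`. -/
def Stmt_BHALF : Prop :=
  ∀ p : ℝ, 0 < p → p < 1 → ∀ C₀ : ℝ, 1 ≤ C₀ → ∃ C : ℝ, 1 ≤ C ∧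
    ∀ (N : ℕ) (X Y H H₁ Z Z' : DN N) (A a b c : ℝ) (S : Eu N ≃L[ℝ] Eu N), 1 ≤ A → 0 ≤ a →
      0 ≤ b → 0 ≤ c → Good (1 / (1 + p)) A a b X Y H →
      Between ((1 - p) / 2) C₀ X.p H.p Z.p → Between ((1 - p) / 2) C₀ X.q H.q Z.q →
      Between ((1 - p) / 2) C₀ Y.p H.p Z'.p → Between ((1 - p) / 2) C₀ Y.q H.q Z'.q →
      KConv C₀ Z → (∀ x, H₁.p x = ‖S x‖) → ell Z'.p (S.symm : Eu N →L[ℝ] Eu N) ≤ 1 →
      StarLe Z.p (S : Eu N →L[ℝ] Eu N) c →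
      Good (1 / (1 + p)) A (C * (a ^ ((1 - p) / 2) * c / Real.sqrt A))
        (C * (b ^ ((1 - p) / 2) / Real.sqrt A)) X Y H₁

/-- BSTEP (deps INTERP BLAM BHALF EUC; 80 lines).
PROOF. `θ + θ (1 - θ) = 1 - (1 - θ)²`. -/
def Stmt_BSTEP : Prop :=
  ∀ p : ℝ, 0 < p → p < 1 → ∃ C : ℝ, 1 ≤ C ∧
    ∀ (N : ℕ) (X Y H : DN N) (A a b : ℝ), 1 ≤ A → 0 ≤ a → 0 ≤ b → H.IsEuclid →
      (∀ k : ℕ, ent X.p Y.p k ≤ 1 ∧ ent X.p Y.p k ≤ (A / (k + 1)) ^ (1 / p)) →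
      Good (1 / (1 + p)) A a b X Y H →
      ∃ (H₁ : DN N) (a₁ b₁ : ℝ), H₁.IsEuclid ∧ 0 ≤ a₁ ∧ 0 ≤ b₁ ∧
        Good (1 / (1 + p)) A a₁ b₁ X Y H₁ ∧ a₁ * b₁ ≤ C * (a * b) ^ (1 - ((1 + p) / 2) ^ 2)

/-- BOOT (deps BSTEP ENTD EUC ENT; 150 lines).
PROOF. `M` = the set of the products `a b` over all Euclidean `H` and `a, b ≥ 0` with `Good`; it
is nonempty by ENTD; `c = sInf M`; if `c > 0` some `m ∈ M` has `m ≤ 2 c`, BSTEP gives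
`c ≤ C (2 c)^(1-δ)`, so `c ≤ (2 C)^(1/δ)`.  So some `H` has `a b ≤ 2 (2 C)^(1/δ) + 1`, and
`ent Y.q X.q (2 k) ≤ ent Y.q H.q k · ent H.q X.q k ≤ a b (A/(k+1))^(2 α)`. -/
def Stmt_BOOT : Prop :=
  ∀ p : ℝ, 0 < p → p < 1 → ∃ C : ℝ, 1 ≤ C ∧ ∀ (N : ℕ) (X Y : DN N) (A : ℝ), 1 ≤ A →
    (∀ k : ℕ, ent X.p Y.p k ≤ 1 ∧ ent X.p Y.p k ≤ (A / (k + 1)) ^ (1 / p)) →
    ∀ k : ℕ, ent Y.q X.q k ≤ C * (A / (k + 1)) ^ (2 / (1 + p))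

/-! ### Operators on Banach spaces -/

/-- Entropy numbers of a map, `2 ^ n` balls, as in the frozen statement. -/
noncomputable def en {X Y : Type*} [NormedAddCommGroup X] [NormedAddCommGroup Y] (T : X → Y)
    (n : ℕ) : ℝ :=
  sInf {ε : ℝ | 0 < ε ∧ ∃ w : Fin (2 ^ n) → Y,
    T '' Metric.closedBall (0 : X) 1 ⊆ ⋃ k, Metric.closedBall (w k) ε}

/-- The adjoint `T^* : Y^* → X^*`, as in the frozen statement. -/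
noncomputable def adj {𝕜 X Y : Type*} [RCLike 𝕜] [NormedAddCommGroup X] [NormedSpace 𝕜 X]
    [NormedAddCommGroup Y] [NormedSpace 𝕜 Y] (T : X →L[𝕜] Y) : (Y →L[𝕜] 𝕜) →L[𝕜] (X →L[𝕜] 𝕜) :=
  (ContinuousLinearMap.compL 𝕜 X Y 𝕜).flip T

/-- ENB (80 lines).  Elementary properties of `en`. -/
def Stmt_ENB.{u, v} : Prop :=
  ∀ (X : Type u) (Y : Type v) [NormedAddCommGroup X] [NormedSpace ℝ X] [NormedAddCommGroup Y]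
    [NormedSpace ℝ Y] (T : X →L[ℝ] Y),
    (∀ (k : ℕ) (ε : ℝ), en T k < ε → ∃ w : Fin (2 ^ k) → Y, ∀ x, ‖x‖ ≤ 1 →
      ∃ i, ‖T x - w i‖ ≤ ε) ∧
    (∀ (k : ℕ) (ε : ℝ), 0 ≤ ε → (∃ w : Fin (2 ^ k) → Y, ∀ x, ‖x‖ ≤ 1 → ∃ i, ‖T x - w i‖ ≤ ε) →
      en T k ≤ ε) ∧
    (∀ k : ℕ, 0 ≤ en T k) ∧ Antitone (en T) ∧ en T 0 ≤ ‖T‖

/-- FD (deps EXDN ENB; 200 lines).  Restriction to finitely many points and functionals.
PROOF. For `i ≠ j` choose `x (i, j)` in the unit ball of `X` with `δ < (y i - y j) (T x)`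
(`ContinuousLinearMap.exists_lt_apply_of_lt_opNorm`, and a sign); `x (i, i) = 0`.  Matrix
`M : (Fin m × Fin m → ℝ) → (Fin m → ℝ)`, `(M c) i = y i (T (Σ_j c_j x_j))`; `W` its range,
dimension `N`, identified with `Eu N`; `V` = the sup norm on `W`, `U w` = infimum of `Σ |c_j|`
over `M c = w` (attained); both are norms; EXDN.  `V ≤ r U` since `|M_ij| ≤ r`.  `z i` =
representative of the functional `w ↦ w i`; `V.q (z i) ≤ 1` (`att_q`); `U.q (z i - z j) > δ`: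
test with `w = M e_(i,j)`, `U w ≤ 1`.  Coverings: `U w ≤ 1`, `w = M c`, `Σ |c_j| ≤ 1`,
`x = Σ c_j x_j` has norm `≤ 1`; the sets `{w : ‖(y i)_i applied to (T x - w_k)‖_∞ ≤ ε}` cover; choose
the centres inside: radius `2 ε`. -/
def Stmt_FD.{u, v} : Prop :=
  ∀ (X : Type u) (Y : Type v) [NormedAddCommGroup X] [NormedSpace ℝ X] [NormedAddCommGroup Y]
    [NormedSpace ℝ Y] (T : X →L[ℝ] Y) (m : ℕ) (y : Fin m → (Y →L[ℝ] ℝ)) (r δ : ℝ), 0 < r →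
    (∀ i, ‖y i‖ ≤ 1) → (∀ i, ‖adj T (y i)‖ ≤ r) →
    (∀ i j, i ≠ j → δ < ‖adj T (y i) - adj T (y j)‖) →
    ∃ (N : ℕ) (U V : DN N) (z : Fin m → Eu N), (∀ w, V.p w ≤ r * U.p w) ∧
      (∀ k, ent U.p V.p k ≤ 2 * en T k) ∧ (∀ i, V.q (z i) ≤ 1) ∧
      ∀ i j, i ≠ j → δ < U.q (z i - z j)

/-- TOP (deps BOOT FD ENT EXDN; 150 lines).  The local estimate at scale `r`.
PROOF. FD with `δ = r / 8`; `V₁` = the norm `V.p / r`, dual norm `r V.q`; `V₁ ≤ U`,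
`ent U V₁ k = ent U V k / r`; BOOT with `p = q`: `ent V₁.q U.q k ≤ C (A/(k+1))^(2/(1+q)) < 1/16`
for `k = ⌈C' A⌉`; the points `z i / r` are in the unit ball of `V₁.q` and more than `1/8` apart for
`U.q`, so no two of them are in the same ball of radius `1/16`: `m ≤ 2 ^ k`. -/
def Stmt_TOP.{u, v} : Prop :=
  ∀ q : ℝ, 0 < q → q < 1 → ∃ C : ℝ, 1 ≤ C ∧
    ∀ (X : Type u) (Y : Type v) [NormedAddCommGroup X] [NormedSpace ℝ X] [NormedAddCommGroup Y]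
      [NormedSpace ℝ Y] (T : X →L[ℝ] Y) (r A : ℝ), 0 < r → 1 ≤ A →
      (∀ k : ℕ, ((k : ℝ) + 1) * min 1 (2 * en T k / r) ^ q ≤ A) →
      ∀ (m : ℕ) (y : Fin m → (Y →L[ℝ] ℝ)), (∀ i, ‖y i‖ ≤ 1) → (∀ i, ‖adj T (y i)‖ ≤ r) →
        (∀ i j, i ≠ j → r / 8 < ‖adj T (y i) - adj T (y j)‖) → (m : ℝ) ≤ 2 ^ (C * A)

/-- LOC (deps TOP ENB; 120 lines).  From radius `h` to radius `h / 2`.
PROOF. In each of the `2 ^ k` pieces `G_i = {y : ‖y‖ ≤ 1, ‖T^* y - w_i‖ ≤ h}` take a maximal family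
`y_l` with `‖T^* (y_l - y_l')‖ > h / 2` (finite: TOP applied to `(y_l - y_1) / 2`, `r = h`, which has
norm `≤ 1`, `‖T^* ·‖ ≤ h`, distances `> h / 4 > h / 8`; so at most `2 ^ (C A)` members). -/
def Stmt_LOC.{u, v} : Prop :=
  ∀ q : ℝ, 0 < q → q < 1 → ∃ C : ℝ, 1 ≤ C ∧
    ∀ (X : Type u) (Y : Type v) [NormedAddCommGroup X] [NormedSpace ℝ X] [NormedAddCommGroup Y]
      [NormedSpace ℝ Y] (T : X →L[ℝ] Y) (h A : ℝ), 0 < h → 1 ≤ A →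
      (∀ k : ℕ, ((k : ℝ) + 1) * min 1 (2 * en T k / h) ^ q ≤ A) →
      ∀ k n : ℕ, C * A ≤ n → en (adj T) k < h → en (adj T) (k + n) ≤ h / 2

/-- LAYA (120 lines).  Pure analysis: the entropy numbers of `T`.
PROOF. `(k+1) min(1, c e_k)^q ≤ Σ_{l ≤ k} min(1, c e_l)^q` (`e` is antitone).  Exchange the sums:
`Σ_j 2^(-jp) min(1, 2^(j+1) c e_l)^q ≤ C (c e_l)^p` (geometric series on both sides of the `j` with
`2^(j+1) c e_l ≈ 1`; `p < q`). -/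
def Stmt_LAYA : Prop :=
  ∀ p q : ℝ, 0 < p → p < q → ∀ (e : ℕ → ℝ) (c : ℝ), 0 < c → (∀ n, 0 ≤ e n) → Antitone e →
    Summable (fun n => e n ^ p) → ∃ A : ℕ → ℝ, (∀ j, 1 ≤ A j) ∧
      (∀ j k : ℕ, ((k : ℝ) + 1) * min 1 (2 ^ (j + 1) * c * e k) ^ q ≤ A j) ∧
      Summable fun j : ℕ => (2 : ℝ) ^ (-(p * j)) * A j

/-- LAYB (100 lines).  Pure analysis: the entropy numbers of the adjoint.
PROOF. `M j = Σ_{i < j} n i`: `f (M j) ≤ h 2^(-j)` by induction.  If `f n > 0` let `j` be maximal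
with `M j ≤ n` (if there is no maximal one, `f n = 0`); `f n ≤ h 2^(-j)` and `n < M (j+1)`; so
`f n ^ p ≤ (2 h)^p Σ_j 2^(-jp) [n < M j]`, and `Σ_j 2^(-jp) M j ≤ C Σ_i 2^(-ip) n i`. -/
def Stmt_LAYB : Prop :=
  ∀ p : ℝ, 0 < p → ∀ (f : ℕ → ℝ) (h : ℝ) (n : ℕ → ℕ), 0 < h → (∀ k, 0 ≤ f k) → Antitone f →
    f 0 < h → (∀ j k : ℕ, f k < h / 2 ^ j → f (k + n j) < h / 2 ^ (j + 1)) →
    (Summable fun j : ℕ => (2 : ℝ) ^ (-(p * j)) * (n j : ℝ)) → Summable fun k => f k ^ p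

/-- FWD (deps LOC LAYA LAYB ENB; 100 lines).  The theorem for real spaces, one direction.
PROOF. `q = (1 + p) / 2`, `h = ‖T‖ + 1 > en (adj T) 0`, LAYA for `e = en T`, `c = 2 / h`, LAYB with
`n j = ⌈C A j⌉`: if `f k < h / 2^j` choose `h'` with `max (f k) (h / 2^(j+1)) < h' < h / 2^j`; then
`2 en T i / h' ≤ 2^(j+1) c en T i`, so LOC at scale `h'` gives `f (k + n j) ≤ h' / 2 < h / 2^(j+1)`. -/
def Stmt_FWD.{u, v} : Prop :=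
  ∀ p : ℝ, 0 < p → p < 1 → ∀ (X : Type u) (Y : Type v) [NormedAddCommGroup X] [NormedSpace ℝ X]
    [NormedAddCommGroup Y] [NormedSpace ℝ Y] (T : X →L[ℝ] Y),
    Summable (fun n => en T n ^ p) → Summable fun n => en (adj T) n ^ p

/-- CPX (80 lines).  Real and complex adjoints have the same entropy numbers.
PROOF. `F ↦ Re F` is an isometric real linear bijection of `X →L[𝕜] 𝕜` onto `X →L[ℝ] ℝ`
(`StrongDual.extendRCLikeₗ`, `StrongDual.norm_extendRCLike` or similar) and commutes with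
`adj`. -/
def Stmt_CPX.{u, v, w} : Prop :=
  ∀ (𝕜 : Type u) [RCLike 𝕜] (X : Type v) (Y : Type w) [NormedAddCommGroup X] [NormedSpace 𝕜 X]
    [NormedAddCommGroup Y] [NormedSpace 𝕜 Y] (T : X →L[𝕜] Y) (n : ℕ),
    letI := NormedSpace.restrictScalars ℝ 𝕜 X
    letI := NormedSpace.restrictScalars ℝ 𝕜 Y
    en (adj T) n = en (adj (T.restrictScalars ℝ)) n

/-- BID (60 lines).  `e_n(T) ≤ 2 e_n(T^**)`.
PROOF. `J_Y T = T^** J_X`, `J` isometric (`NormedSpace.inclusionInDoubleDualLi`); centres in `Y^**`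
are replaced by points of `T(B_X)`, radius `2 ε`. -/
def Stmt_BID.{u, v, w} : Prop :=
  ∀ (𝕜 : Type u) [RCLike 𝕜] (X : Type v) (Y : Type w) [NormedAddCommGroup X] [NormedSpace 𝕜 X]
    [NormedAddCommGroup Y] [NormedSpace 𝕜 Y] (T : X →L[𝕜] Y) (n : ℕ),
    en T n ≤ 2 * en (adj (adj T)) n

/-- MAIN (deps FWD CPX BID ENB): the frozen statement with `p < 1`, for operators between two
spaces. -/
def Stmt_MAIN.{u, v, w} : Prop :=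
  ∀ (𝕜 : Type u) [RCLike 𝕜] (X : Type v) (Y : Type w) [NormedAddCommGroup X] [NormedSpace 𝕜 X]
    [NormedAddCommGroup Y] [NormedSpace 𝕜 Y] (T : X →L[𝕜] Y) (p : ℝ), 0 < p → p < 1 →
    (Summable (fun n : ℕ => en T n ^ p) ↔ Summable fun n : ℕ => en (adj T) n ^ p)

end Pool.PQ
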