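import Pool.Agent.Work.MP_c13439_pq.Boot

/-!
# Block ENB: elementary properties of `en`
-/

namespace Pool.PQ

namespace ENB

theorem cov_iff {X Y : Type*} [NormedAddCommGroup X] [NormedAddCommGroup Y] (T : X → Y) (n : ℕ)
    (w : Fin (2 ^ n) → Y) (ε : ℝ) :
    (T '' Metric.closedBall (0 : X) 1 ⊆ ⋃ k, Metric.closedBall (w k) ε) ↔
      ∀ x, ‖x‖ ≤ 1 → ∃ i, ‖T x - w i‖ ≤ ε := by
  constructor
  · intro h x hx
    have h1 : T x ∈ T '' Metric.closedBall (0 : X) 1 :=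
      ⟨x, by rw [Metric.mem_closedBall, dist_zero_right]; exact hx, rfl⟩
    obtain ⟨i, hi⟩ := Set.mem_iUnion.1 (h h1)
    rw [Metric.mem_closedBall, dist_eq_norm] at hi
    exact ⟨i, hi⟩
  · rintro h y ⟨x, hx, rfl⟩
    rw [Metric.mem_closedBall, dist_zero_right] at hx
    obtain ⟨i, hi⟩ := h x hx
    refine Set.mem_iUnion.2 ⟨i, ?_⟩
    rw [Metric.mem_closedBall, dist_eq_norm]
    exact hi

theorem bdd {X Y : Type*} [NormedAddCommGroup X] [NormedAddCommGroup Y] (T : X → Y) (n : ℕ) :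
    BddBelow {ε : ℝ | 0 < ε ∧ ∃ w : Fin (2 ^ n) → Y,
      T '' Metric.closedBall (0 : X) 1 ⊆ ⋃ k, Metric.closedBall (w k) ε} :=
  ⟨0, fun _ h => h.1.le⟩

theorem le_of {X Y : Type*} [NormedAddCommGroup X] [NormedAddCommGroup Y] (T : X → Y) (k : ℕ)
    {ε : ℝ} (hε : 0 ≤ ε) (h : ∃ w : Fin (2 ^ k) → Y, ∀ x, ‖x‖ ≤ 1 → ∃ i, ‖T x - w i‖ ≤ ε) :
    en T k ≤ ε := by
  refine le_of_forall_pos_le_add fun δ hδ => ?_
  obtain ⟨w, hw⟩ := h
  refine csInf_le (bdd T k) ⟨by linarith, w, ?_⟩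
  rw [cov_iff]
  intro x hx
  obtain ⟨i, hi⟩ := hw x hx
  exact ⟨i, by linarith⟩

end ENB

open ENB in
/-- ENB -/
theorem stmt_ENB.{u, v} : Stmt_ENB.{u, v} := by
  intro X Y _ _ _ _ T
  have h1 : ∀ (k : ℕ) (ε : ℝ), en T k < ε → ∃ w : Fin (2 ^ k) → Y, ∀ x, ‖x‖ ≤ 1 →
      ∃ i, ‖T x - w i‖ ≤ ε := by
    intro k ε hε
    have hne : {ε : ℝ | 0 < ε ∧ ∃ w : Fin (2 ^ k) → Y,
        (T : X → Y) '' Metric.closedBall (0 : X) 1 ⊆ ⋃ k, Metric.closedBall (w k) ε}.Nonempty := by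
      refine ⟨‖T‖ + 1, by positivity, fun _ => 0, ?_⟩
      rw [cov_iff]
      intro x hx
      refine ⟨⟨0, by positivity⟩, ?_⟩
      rw [sub_zero]
      have := T.le_opNorm x
      nlinarith [norm_nonneg T, norm_nonneg x]
    obtain ⟨ε', ⟨h1, w, hw⟩, h2⟩ := exists_lt_of_csInf_lt hne hε
    rw [cov_iff] at hw
    refine ⟨w, fun x hx => ?_⟩
    obtain ⟨i, hi⟩ := hw x hx
    exact ⟨i, hi.trans h2.le⟩
  have h3 : ∀ k : ℕ, 0 ≤ en T k := fun k => Real.sInf_nonneg fun _ h => h.1.le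
  refine ⟨h1, fun k ε hε h => le_of T k hε h, h3, ?_, ?_⟩
  · intro k l hkl
    refine le_of_forall_pos_le_add fun δ hδ => ?_
    obtain ⟨w, hw⟩ := h1 k (en T k + δ) (by linarith)
    refine le_of T l (by linarith [h3 k]) ⟨fun i => if h : i.val < 2 ^ k then w ⟨i.val, h⟩ else 0, ?_⟩
    intro x hx
    obtain ⟨i, hi⟩ := hw x hx
    have hlt : i.val < 2 ^ l := i.2.trans_le (Nat.pow_le_pow_right (by norm_num) hkl)
    refine ⟨⟨i.val, hlt⟩, ?_⟩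
    show ‖T x - (if h : i.val < 2 ^ k then w ⟨i.val, h⟩ else 0)‖ ≤ _
    rw [dif_pos i.2]
    exact hi
  · refine le_of T 0 (norm_nonneg T) ⟨fun _ => 0, fun x hx => ⟨⟨0, by norm_num⟩, ?_⟩⟩
    rw [sub_zero]
    have := T.le_opNorm x
    nlinarith [norm_nonneg T, norm_nonneg x]

end Pool.PQ
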