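import Pool.Agent.Work.MP_c13439_pq.Defs

/-!
# MP_c13439_an, part (1): real interpolation with a Euclidean norm, and `K`-convexity

Table `pq_blocks`.  Each block is one `Stmt_X : Prop`, with its proof on paper.  The result of
this part is `Stmt_INTERP` (assembly: helper38) together with `Stmt_SRC`, `Stmt_TGT`.

Idea of the `K`-convexity (no cube, no central limit theorem): ONE operator
`T f x = E f(x / 2 + (√3 / 2) g)` on `L_2(γ; ℝ^N)`.  It is a contraction of `L_2(γ; p)` for every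
seminorm `p`, symmetric, and `T (⟨x, h⟩^k v) - 2^(-k) ⟨x, h⟩^k v` is in the span of the lower
powers of the same linear form; so `T` has the eigenvalues `2^(-k)` and nothing else, and
`V_n = ∏_{k ≤ n+1, k ≠ 1} (T - 2^(-k)) / (1/2 - 2^(-k))` converges to the projection `P` on the
linear functions, superexponentially on `L_2(γ; Euclidean)`, while it grows at most
exponentially on `L_2(γ; p)`.  The differences `V_(n+1) - V_n` are summable on `L_2(γ; Z)`.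
-/

open MeasureTheory ProbabilityTheory Polynomial
open scoped RealInnerProductSpace

namespace Pool.PQ

variable {N : ℕ}

/-! ### Norms and their duals -/

/-- EXDN (80 lines).  Every norm on `ℝ^N` has a dual norm.
PROOF. `q y = sSup {⟪x, y⟫ : p x ≤ 1}`.  `p` is a norm on a finite dimensional space, hence
`c ‖x‖ ≤ p x ≤ C ‖x‖` with `c > 0` (compactness of the sphere and continuity of `p`), so the unit
ball of `p` is compact and the supremum is attained (`att_q`) and finite; `q` is a seminorm.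
`att_p`: Hahn-Banach (`exists_extension_norm_eq` for the norm `p`, or separation of `x / p x`
from the open unit ball of `p`, `geometric_hahn_banach_open`), and the representation of linear
functionals as `⟪·, y⟫` (`InnerProductSpace.toDual`). -/
def Stmt_EXDN : Prop :=
  ∀ (N : ℕ) (p : Seminorm ℝ (Eu N)), (∀ x, p x = 0 → x = 0) → ∃ X : DN N, X.p = p

/-- EUC (60 lines).  Euclidean norms.  `p x = |S x|`, `q y = |(S⁻¹)^* y|`.
PROOF. `⟪x, y⟫ = ⟪S x, (S⁻¹)^* y⟫`; equality for `S x` proportional to `(S⁻¹)^* y`. Second part: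
`DN.q` is determined by `DN.p` (from `le`, `att_q`). -/
def Stmt_EUC : Prop :=
  (∀ (N : ℕ) (S : Eu N ≃L[ℝ] Eu N), ∃ H : DN N, (∀ x, H.p x = ‖S x‖) ∧
    ∀ y, H.q y = ‖ContinuousLinearMap.adjoint (S.symm : Eu N →L[ℝ] Eu N) y‖) ∧
  (∀ (N : ℕ) (H : DN N), H.IsEuclid → H.dual.IsEuclid) ∧
  ∀ (N : ℕ) (X Y : DN N), X.p = Y.p → X = Y

/-! ### Entropy numbers -/

/-- ENT (120 lines).  Elementary properties of the entropy numbers.
PROOF. The set of the admissible `ε` is nonempty (`V ≤ c U` for norms on `ℝ^N`, one ball), bounded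
below and an upper set.  (4): cover the unit ball of `U` by `2 ^ k` balls of radius `e` of `V`,
each of them by `2 ^ l` balls of radius `e f` of `W`. -/
def Stmt_ENT : Prop :=
  ∀ (N : ℕ) (U V : DN N),
    (∀ (k : ℕ) (ε : ℝ), ent U.p V.p k < ε →
      ∃ w : Fin (2 ^ k) → Eu N, ∀ x, U.p x ≤ 1 → ∃ i, V.p (x - w i) ≤ ε) ∧
    (∀ (k : ℕ) (ε : ℝ), 0 ≤ ε →
      (∃ w : Fin (2 ^ k) → Eu N, ∀ x, U.p x ≤ 1 → ∃ i, V.p (x - w i) ≤ ε) → ent U.p V.p k ≤ ε) ∧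
    (∀ k : ℕ, 0 ≤ ent U.p V.p k ∧ ent U.p V.p (k + 1) ≤ ent U.p V.p k) ∧
    (∀ (W : DN N) (k l : ℕ), ent U.p W.p (k + l) ≤ ent U.p V.p k * ent V.p W.p l) ∧
    ∀ c : ℝ, 0 ≤ c → (∀ x, V.p x ≤ c * U.p x) → ent U.p V.p 0 ≤ c

/-- ENTD (deps ENT; 80 lines).  In finite dimension the entropy numbers decay faster than every
power.
PROOF. The unit ball of `U` is totally bounded: `ent U U m < 1 / 2` for some `m`, so
`ent U U (m j) ≤ 2^(-j)` by ENT (4); `ent U V k ≤ ent U U (m j) ent U V 0` for `m j ≤ k`. -/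
def Stmt_ENTD : Prop :=
  ∀ (N : ℕ) (U V : DN N) (α : ℝ), ∃ C : ℝ, ∀ k : ℕ, ((k : ℝ) + 1) ^ α * ent U.p V.p k ≤ C

/-! ### Interpolation -/

/-- `K(t, z)`: infimum of `(X(x)² + t² H(z - x)²)^(1/2)`. -/
noncomputable def kfun (X H : Seminorm ℝ (Eu N)) (t : ℝ) (z : Eu N) : ℝ :=
  ⨅ x : Eu N, Real.sqrt (X x ^ 2 + (t * H (z - x)) ^ 2)

/-- The interpolation norm `(Σ_j 4^(-jθ) K(2^j, z)²)^(1/2)`. -/
noncomputable def zfun (θ : ℝ) (X H : Seminorm ℝ (Eu N)) (z : Eu N) : ℝ :=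
  Real.sqrt (∑' j : ℤ, (4 : ℝ) ^ (-(θ * j)) * kfun X H (2 ^ j) z ^ 2)

/-- KT (120 lines).  `K(t, ·)` is a norm, the infimum is attained, `K(t, z) ≤ X z`,
`K(t, z) ≤ t H z`.
PROOF. Attained: `x ↦ X x + ..` is continuous and tends to infinity (`X` is a norm).  Triangle
inequality: add the decompositions and use Minkowski in `ℝ²`. -/
def Stmt_KT : Prop :=
  ∀ (N : ℕ) (X H : DN N) (t : ℝ), 0 < t →
    (∃ k : Seminorm ℝ (Eu N), (∀ z, k z = kfun X.p H.p t z) ∧ ∀ z, k z = 0 → z = 0) ∧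
    (∀ z, ∃ x, kfun X.p H.p t z = Real.sqrt (X.p x ^ 2 + (t * H.p (z - x)) ^ 2)) ∧
    (∀ z, kfun X.p H.p t z ≤ X.p z) ∧ ∀ z, kfun X.p H.p t z ≤ t * H.p z

/-- ZNORM (deps KT, EXDN; 120 lines).  `zfun` is a norm; the series converges.
PROOF. Summable: compare with `4^(-jθ) X(z)²` for `j ≥ 0` and `4^(j(1-θ)) H(z)²` for `j < 0`.
Triangle inequality: `Real.Lp_add_le_tsum_of_nonneg` with exponent `2`. -/
def Stmt_ZNORM : Prop :=
  ∀ (N : ℕ) (θ : ℝ), 0 < θ → θ < 1 → ∀ X H : DN N,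
    (∀ z, Summable fun j : ℤ => (4 : ℝ) ^ (-(θ * j)) * kfun X.p H.p (2 ^ j) z ^ 2) ∧
    ∃ Z : DN N, ∀ z, Z.p z = zfun θ X.p H.p z

/-- ZBET (deps KT, ZNORM; 150 lines).
PROOF. `up`: `j₀` with `2^j₀ ≤ X z / H z < 2^(j₀+1)` (`z ≠ 0`); use `K(2^j, z) ≤ 2^j H z` for
`j ≤ j₀` and `K ≤ X z` for `j > j₀`; geometric series: the two parts are at most
`(1 - 4^(θ-1))⁻¹` and `(1 - 4^(-θ))⁻¹` times `X^(2(1-θ)) H^(2θ)`.
`dec`: one term of the series gives `K(2^j, z) ≤ 2^(jθ) Z z`; `2^j ≤ t < 2^(j+1)` and the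
attained decomposition give `X x ≤ t^θ Z z`, `H (z - x) ≤ 2^(j(θ-1)) Z z ≤ 2 t^(θ-1) Z z`. -/
def Stmt_ZBET : Prop :=
  ∀ θ : ℝ, 0 < θ → θ < 1 → ∃ C : ℝ, 1 ≤ C ∧ ∀ (N : ℕ) (X H Z : DN N),
    (∀ z, Z.p z = zfun θ X.p H.p z) → Between θ C X.p H.p Z.p

/-- DBET (150 lines).  Duality.
PROOF. `up`: `⟪z, y⟫ = ⟪x, y⟫ + ⟪z - x, y⟫ ≤ C (t^θ X.q y + t^(θ-1) H.q y) Z.p z` by `dec`; take
`t = H.q y / X.q y` (`y ≠ 0`), and `att_q` for `Z`.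
`dec`: put `a = C t^θ Z.q y`, `b = C t^(θ-1) Z.q y`; `M = {u : X.q u ≤ a} + {v : H.q v ≤ b}` is
compact and convex.  If `y ∉ M`, some `z` has `⟪z, w⟫ < ⟪z, y⟫` for all `w ∈ M`
(`geometric_hahn_banach_compact_closed`); by `att_p` for `X`, `H` the supremum of the left hand
side is `a X.p z + b H.p z ≥ a^(1-θ) b^θ X.p z^(1-θ) H.p z^θ` (`Real.geom_mean_le_arith_mean2`,
`(1-θ) s + θ t ≤ s + t`) `= C Z.q y X.p z^(1-θ) H.p z^θ ≥ Z.q y Z.p z ≥ ⟪z, y⟫`. -/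
def Stmt_DBET : Prop :=
  ∀ θ C : ℝ, 0 < θ → θ < 1 → 1 ≤ C → ∀ (N : ℕ) (X H Z : DN N),
    Between θ C X.p H.p Z.p → Between θ (2 * C) X.q H.q Z.q

/-- SRC (deps ENT; 100 lines).  Entropy numbers with interpolated source.
PROOF. Let `e > ent X V k`, `f > ent H V l`, positive; `t = f / e`.  For `Z z ≤ 1` write
`z = x + h`, `X x ≤ C t^θ`, `H h ≤ C t^(θ-1)`; scaled coverings of the two balls by `2^k`, `2^l`
balls of radii `C t^θ e`, `C t^(θ-1) f` of `V`, sums of the centres: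
radius `C (t^θ e + t^(θ-1) f) = 2 C e^(1-θ) f^θ`; let `e`, `f` tend to the entropy numbers. -/
def Stmt_SRC : Prop :=
  ∀ θ C : ℝ, 0 < θ → θ < 1 → 1 ≤ C → ∀ (N : ℕ) (X H Z V : DN N), Between θ C X.p H.p Z.p →
    ∀ k l : ℕ, ent Z.p V.p (k + l) ≤
      2 * C * (ent X.p V.p k ^ (1 - θ) * ent H.p V.p l ^ θ)

/-- TGT (deps ENT; 100 lines).  Entropy numbers with interpolated target.
PROOF. Cover the unit ball of `V` by `2^k` balls of radius `e` of `X` and by `2^l` balls of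
radius `f` of `H`; choose a point of the unit ball of `V` in each nonempty intersection; a
point in the same intersection has `X`-distance `≤ 2 e` and `H`-distance `≤ 2 f` from it, so
`Z`-distance `≤ 2 C e^(1-θ) f^θ` by `up`. -/
def Stmt_TGT : Prop :=
  ∀ θ C : ℝ, 0 < θ → θ < 1 → 1 ≤ C → ∀ (N : ℕ) (X H Z V : DN N), Between θ C X.p H.p Z.p →
    ∀ k l : ℕ, ent V.p Z.p (k + l) ≤
      2 * C * (ent V.p X.p k ^ (1 - θ) * ent V.p H.p l ^ θ)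

/-! ### The operator `T` -/

/-- square integrable functions with values in `ℝ^N` -/
noncomputable abbrev L2 (N : ℕ) := Lp (Eu N) 2 (gs N)

/-- the norm of `f` in `L_2(γ; p)` -/
noncomputable def nrm (p : Seminorm ℝ (Eu N)) (f : L2 N) : ℝ :=
  Real.sqrt (∫ x, p (f x) ^ 2 ∂gs N)

/-- `T f x = E f(x / 2 + (√3 / 2) g)` -/
def IsMehler (T : L2 N →L[ℝ] L2 N) : Prop :=
  ∀ f : L2 N, T f =ᵐ[gs N] fun x => ∫ y, f ((1 / 2 : ℝ) • x + (Real.sqrt 3 / 2) • y) ∂gs N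

/-- MEH (150 lines).  Existence and symmetry of `T`.
PROOF. `ρ (x, y) = (x/2 + √3/2 y, √3/2 x - y/2)` preserves `γ ⊗ γ`
(`IsGaussian.map_rotation_eq_self`, `γ` symmetric: `stdGaussian_map` for `-1`; or char. function)
and `ρ ∘ ρ = id`.  `J₁ f (x, y) = f x`, `J₂ f = (J₁ f) ∘ ρ` are isometries `L2 N → Lp 2 (γ ⊗ γ)`
(`Lp.compMeasurePreserving`); `T = J₁^* J₂`; by Fubini `J₁^* F x = ∫ F (x, y) dγ(y)` a.e.; the
symmetry is the change of variables `ρ`. -/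
def Stmt_MEH : Prop :=
  ∀ N : ℕ, ∃ T : L2 N →L[ℝ] L2 N, IsMehler T ∧ ∀ f g : L2 N, ⟪T f, g⟫ = ⟪f, T g⟫

/-- MEHN (100 lines).  `T` is a contraction of `L_2(γ; p)`, and commutes with matrices.
PROOF. Jensen for the continuous convex function `p ^ 2` (`ConvexOn.map_integral_le`), Fubini and
`(x, y) ↦ x/2 + √3/2 y` preserving the measures.  Integrability: `p ≤ c ‖·‖`.  Second part:
`ContinuousLinearMap.integral_comp_comm`. -/
def Stmt_MEHN : Prop :=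
  ∀ (N : ℕ) (T : L2 N →L[ℝ] L2 N), IsMehler T →
    (∀ (p : Seminorm ℝ (Eu N)) (f : L2 N), nrm p (T f) ≤ nrm p f) ∧
    ∀ (S : Eu N →L[ℝ] Eu N) (f : L2 N), T (S.compLp f) = S.compLp (T f)

/-- `F k`: the span of the functions `⟪h, x⟫ ^ j v`, `j ≤ k`. -/
noncomputable def pw (N k : ℕ) : Submodule ℝ (L2 N) :=
  Submodule.span ℝ {f | ∃ j ≤ k, ∃ h v : Eu N, f =ᵐ[gs N] fun x => ⟪h, x⟫ ^ j • v}

/-- MEHP (120 lines).  `T` on powers of linear forms.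
PROOF. For `f = ⟪h, ·⟫^j v`: `T f x = E (⟪h, x⟫ / 2 + √3/2 ⟪h, g⟫)^j v`, binomial formula, the
first term is `2^(-j) f`, the others are in `pw N (j - 1)`.  The powers are in `L_2`
(`IsGaussian.memLp_dual` for all exponents, or Fernique). -/
def Stmt_MEHP : Prop :=
  ∀ (N : ℕ) (T : L2 N →L[ℝ] L2 N), IsMehler T → (∀ f ∈ pw N 0, T f = f) ∧
    ∀ k, ∀ f ∈ pw N (k + 1), T f - (1 / 2 : ℝ) ^ (k + 1) • f ∈ pw N k

/-- DENS (150 lines).  The powers of linear forms are dense in `L_2(γ)`.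
PROOF. The orthogonal complement of the closure is zero: let `⟪f, ⟪h, ·⟫^j v⟫ = 0` for all
`h, v, j`.  Fix `v`, `u = ⟪f ·, v⟫ ∈ L_2(γ; ℝ)`.  `∫ |u| e^|⟪h, x⟫| dγ < ∞` (Cauchy-Schwarz,
exponential moments of `γ`), so by dominated convergence `∫ u e^(i⟪h, x⟫) dγ =
Σ_j i^j / j! ∫ u ⟪h, x⟫^j dγ = 0` for all `h`; the finite measures `u⁺ γ` and `u⁻ γ` have the same
characteristic function (`Measure.ext_of_charFun`), hence `u = 0` a.e. -/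
def Stmt_DENS : Prop := ∀ N : ℕ, Dense ((⨆ k, pw N k : Submodule ℝ (L2 N)) : Set (L2 N))

/-- SPEC (120 lines).  Pure Hilbert space theory.
PROOF. By induction on `n` every `f ∈ F n` is a sum of `f_k`, `k ≤ n`, with
`T f_k = 2^(-k) f_k`: `g = T f - 2^(-n) f ∈ F (n-1)`, `g = Σ g_k`, and
`f_n = f - Σ_{k<n} (2^(-k) - 2^(-n))⁻¹ g_k` has `T f_n = 2^(-n) f_n`.  The `f_k` are orthogonal
(`T` is symmetric), `aeval T c f = Σ c(2^(-k)) f_k`; so the bound holds on a dense subspace. -/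
def Stmt_SPEC : Prop :=
  ∀ (E : Type) [NormedAddCommGroup E] [InnerProductSpace ℝ E] (T : E →L[ℝ] E)
    (F : ℕ → Submodule ℝ E), (∀ f g : E, ⟪T f, g⟫ = ⟪f, T g⟫) → (∀ f ∈ F 0, T f = f) →
    (∀ k, ∀ f ∈ F (k + 1), T f - (1 / 2 : ℝ) ^ (k + 1) • f ∈ F k) → (∀ k, F k ≤ F (k + 1)) →
    Dense ((⨆ k, F k : Submodule ℝ E) : Set E) →
    ∀ (c : ℝ[X]) (M : ℝ), (∀ k : ℕ, |c.eval ((1 / 2 : ℝ) ^ k)| ≤ M) → ∀ f : E,
      ‖aeval T c f‖ ≤ M * ‖f‖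

/-! ### The polynomials -/

/-- `V_n = ∏_{k ≤ n + 1, k ≠ 1} (X - 2^(-k)) / (1/2 - 2^(-k))` -/
noncomputable def vpoly : ℕ → ℝ[X]
  | 0 => C 2 * (1 - X)
  | n + 1 => vpoly n * (C ((1 / 2 - (1 / 2 : ℝ) ^ (n + 2))⁻¹) * (X - C ((1 / 2 : ℝ) ^ (n + 2))))

/-- COEF (100 lines).  Values of `V_n` at the points `2^(-k)`.
PROOF. Induction on `n`; for `k ≥ n + 2` the factors are `|2^(-k) - 2^(-j)| ≤ 2^(-j)`,
`1/2 - 2^(-j) ≥ 1/4` (`j ≥ 2`), the first one is `≤ 2`; so `|V_n(2^(-k))| ≤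
2 ∏_{2 ≤ j ≤ n+1} 4 · 2^(-j)`, and `V_(n+1) - V_n = V_n (X - 1/2) / (1/2 - 2^(-(n+2)))`. -/
def Stmt_COEF : Prop :=
  (∀ n : ℕ, (vpoly n).eval (1 / 2) = 1) ∧
  (∀ n k : ℕ, k ≤ n + 1 → k ≠ 1 → (vpoly n).eval ((1 / 2 : ℝ) ^ k) = 0) ∧
  (∀ n k : ℕ, k ≠ 1 →
    |(vpoly n).eval ((1 / 2 : ℝ) ^ k)| ≤ 2 ^ (2 * n + 3) * (1 / 2 : ℝ) ^ ((n + 1) * (n + 2) / 2)) ∧
  ∀ n k : ℕ, |(vpoly (n + 1) - vpoly n).eval ((1 / 2 : ℝ) ^ k)| ≤
    2 ^ (2 * n + 3) * (1 / 2 : ℝ) ^ ((n + 1) * (n + 2) / 2)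

/-- VNRM (deps MEHN; 80 lines).  Growth of `V_n` on `L_2(γ; p)`.
PROOF. `nrm p` is a seminorm on `L2 N` (Minkowski; or: `nrm p f` is the `L_2` norm of
`p ∘ f`), `nrm p (T f) ≤ nrm p f`; each factor of `V_n` has norm `≤ (1 + 1/4) / (1/4) ≤ 8`,
the first one `≤ 4`; `V_(n+1) - V_n` has one more factor, `≤ (3/2) / (1/4) ≤ 8`. -/
def Stmt_VNRM : Prop :=
  ∀ (N : ℕ) (T : L2 N →L[ℝ] L2 N), IsMehler T → ∀ (p : Seminorm ℝ (Eu N)) (f : L2 N),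
    nrm p (aeval T (vpoly 0) f) ≤ 4 * nrm p f ∧
    ∀ n : ℕ, nrm p (aeval T (vpoly (n + 1) - vpoly n) f) ≤ 2 ^ (3 * n + 5) * nrm p f

/-- VHIL (deps MEHN, MEHP, DENS, SPEC, COEF; 80 lines).  Decay on `L_2(γ; H)`, `H` Euclidean, and
convergence to the projection `P f = ∫ ⟪·, y⟫ f(y) dγ(y)`.
PROOF. First part: `H z = |S z|`, `nrm H f = ‖S ∘ f‖`, `T` commutes with `S`, SPEC.  Second part:
`V_n f - P f` is `O(2^(-n))` for `f` in the dense subspace: write `f = Σ f_k` as in the proof of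
SPEC (or: `P` is symmetric, bounded, and `P T = T P = P / 2`, `P f ∈ pw N 1`; apply SPEC to
`f - P f`, for which `⟪f - P f, linear⟫ = 0`, hence its component `f_1` is zero). -/
def Stmt_VHIL : Prop :=
  ∀ (N : ℕ) (T : L2 N →L[ℝ] L2 N), IsMehler T → (∀ f g : L2 N, ⟪T f, g⟫ = ⟪f, T g⟫) →
    (∀ (H : DN N), H.IsEuclid → ∀ (f : L2 N) (n : ℕ),
      nrm H.p (aeval T (vpoly (n + 1) - vpoly n) f) ≤
        2 ^ (2 * n + 3) * (1 / 2 : ℝ) ^ ((n + 1) * (n + 2) / 2) * nrm H.p f) ∧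
    ∀ (f g : L2 N) (V : Eu N →L[ℝ] Eu N), (∀ h, V h = ∫ y, ⟪h, y⟫ • f y ∂gs N) →
      (g =ᵐ[gs N] fun x => V x) →
      Filter.Tendsto (fun n => aeval T (vpoly n) f) Filter.atTop (nhds g)

/-! ### `K`-convexity -/

/-- Functions `y ↦ s(y) v(ι(y))` with finitely many vectors `v i`. -/
def Fin2 (f : L2 N) : Prop :=
  ∃ (m : ℕ) (v : Fin m → Eu N) (ι : Eu N → Fin m) (s : Eu N → ℝ), Measurable ι ∧
    MemLp s 2 (gs N) ∧ f =ᵐ[gs N] fun y => s y • v (ι y)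

/-- KPOL (deps KT, ZNORM; 150 lines).  From `L_2(γ; X)` and `L_2(γ; H)` to `L_2(γ; Z)`.
PROOF. Let `t > 0`, `t' = t 2^(-m)` where `ε = M 2^(-m)`.  Let `v i = a i + b i` be the optimal
decompositions for `K(t', v i)`; `a = s a(ι)`, `b = s b(ι)`: pointwise
`X(a y)² + (t' H(b y))² = K(t', f y)²`.  `K(t, U f y)² ≤ X((U a) y)² + (t H((U b) y))²`, so
`∫ K(t, U f)² ≤ M² ∫ X(a)² + t² ε² ∫ H(b)² = M² ∫ K(t', f)²`.  Sum over `t = 2^j` with the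
weights `4^(-jθ)` (interchange: all terms are nonnegative, `lintegral_tsum`; shift `j`). -/
def Stmt_KPOL : Prop :=
  ∀ (N : ℕ) (θ : ℝ), 0 < θ → θ < 1 → ∀ (X H Z : DN N), (∀ z, Z.p z = zfun θ X.p H.p z) →
    ∀ (U : L2 N →L[ℝ] L2 N) (M : ℝ) (m : ℕ), 0 ≤ M → (∀ f, nrm X.p (U f) ≤ M * nrm X.p f) →
      (∀ f, nrm H.p (U f) ≤ M * (1 / 2 : ℝ) ^ m * nrm H.p f) →
      ∀ f : L2 N, Fin2 f → nrm Z.p (U f) ≤ M * (2 : ℝ) ^ (-(θ * m)) * nrm Z.p f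

/-- KSUM (deps VNRM, VHIL, KPOL; 100 lines).  The projection is bounded on `L_2(γ; Z)`.
PROOF. `P f = V_0 f + Σ (V_(n+1) f - V_n f)` in `L2 N`, `nrm Z.p` is a continuous seminorm;
KPOL with `M = 2^(3n+5)`, `m = n + 2 + (n+1)(n+2)/2`;
`K = 4 + Σ_n 2^(3n+5) 2^(-θ(n + 2 + (n+1)(n+2)/2))`. -/
def Stmt_KSUM : Prop :=
  ∀ θ : ℝ, 0 < θ → θ < 1 → ∃ K : ℝ, 1 ≤ K ∧ ∀ (N : ℕ) (X H Z : DN N), H.IsEuclid →
    (∀ z, Z.p z = zfun θ X.p H.p z) → ∀ (f : L2 N), Fin2 f → ∀ V : Eu N →L[ℝ] Eu N,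
      (∀ h, V h = ∫ y, ⟪h, y⟫ • f y ∂gs N) → ell Z.p V ≤ K * nrm Z.p f

/-- KCV (120 lines).  From functions to matrices (for one norm `Z`).
PROOF. Let `ε > 0`; finite net: `v i`, `i < m`, with `Z.p (v i) ≤ 1` and
`max_i ⟪v i, u⟫ ≥ (1 - ε) Z.q u` for all `u` (compactness of `{Z.q u = 1}`); `ι y` the first
index with `⟪v i, A^* y⟫` maximal, `s y = Z.q (A^* y)`, `f y = s y v(ι y)`.  Then
`(1 - ε) ∫ Z.q(A^* y)² ≤ ∫ ⟪A^* y, f y⟫ dγ = tr(A V_f) ≤ c ell Z.p V_f ≤ c K nrm Z.p f ≤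
c K ell Z.q (A^*)`, with `V_f h = ∫ ⟪h, y⟫ f y dγ` (expand `y` in an orthonormal basis). -/
def Stmt_KCV : Prop :=
  ∀ (N : ℕ) (Z : DN N) (K : ℝ), 0 ≤ K →
    (∀ (f : L2 N), Fin2 f → ∀ V : Eu N →L[ℝ] Eu N, (∀ h, V h = ∫ y, ⟪h, y⟫ • f y ∂gs N) →
      ell Z.p V ≤ K * nrm Z.p f) → KConv K Z

/-- INTERP: the result of this part (assembly by helper38: ZNORM, ZBET, DBET, KSUM, KCV). -/
def Stmt_INTERP : Prop :=
  ∀ θ : ℝ, 0 < θ → θ < 1 → ∃ C : ℝ, 1 ≤ C ∧ ∀ (N : ℕ) (X H : DN N), H.IsEuclid →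
    ∃ Z : DN N, Between θ C X.p H.p Z.p ∧ Between θ C X.q H.q Z.q ∧ KConv C Z

end Pool.PQ
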