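import Pool.Agent.Work.MP_c13439_pq.VNRM

/-!
# Block KSUM: the projection is bounded on `L_2(γ; Z)` (helper89)
-/

open MeasureTheory ProbabilityTheory Polynomial
open scoped RealInnerProductSpace

namespace Pool.PQ

namespace KSUM

variable {N : ℕ}

/-- the exponents -/
def mm (n : ℕ) : ℕ := n + 2 + (n + 1) * (n + 2) / 2

/-- the constants -/
noncomputable def cc (θ : ℝ) (n : ℕ) : ℝ := 2 ^ (3 * n + 5) * (2 : ℝ) ^ (-(θ * (mm n : ℕ)))

theorem mm_succ (n : ℕ) : mm (n + 1) = mm n + (n + 3) := by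
  unfold mm
  have h : (n + 1 + 1) * (n + 1 + 2) = (n + 1) * (n + 2) + (n + 2) * 2 := by ring
  rw [h, Nat.add_mul_div_right _ _ (by norm_num)]
  ring

theorem cc_pos (θ : ℝ) (n : ℕ) : 0 < cc θ n := by
  unfold cc
  positivity

theorem cc_succ (θ : ℝ) (n : ℕ) :
    cc θ (n + 1) = cc θ n * (8 * ((2 : ℝ) ^ (-θ)) ^ (n + 3)) := by
  unfold cc
  rw [mm_succ]
  have h1 : (2 : ℝ) ^ (-(θ * ((mm n + (n + 3) : ℕ) : ℝ))) =
      (2 : ℝ) ^ (-(θ * (mm n : ℕ))) * ((2 : ℝ) ^ (-θ)) ^ (n + 3) := by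
    rw [← Real.rpow_natCast ((2 : ℝ) ^ (-θ)) (n + 3), ← Real.rpow_mul (by norm_num),
      ← Real.rpow_add (by norm_num)]
    push_cast
    ring_nf
  have h2 : (2 : ℝ) ^ (3 * (n + 1) + 5) = 2 ^ (3 * n + 5) * 8 := by
    have : 3 * (n + 1) + 5 = (3 * n + 5) + 3 := by ring
    rw [this, pow_add]
    norm_num
  rw [h1, h2]
  ring

theorem summable_cc {θ : ℝ} (hθ : 0 < θ) : Summable (cc θ) := by
  refine summable_of_ratio_test_tendsto_lt_one (l := 0) (by norm_num)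
    (Filter.Eventually.of_forall fun n => (cc_pos θ n).ne') ?_
  have h1 : ∀ n, ‖cc θ (n + 1)‖ / ‖cc θ n‖ = 8 * ((2 : ℝ) ^ (-θ)) ^ (n + 3) := by
    intro n
    rw [Real.norm_of_nonneg (cc_pos θ _).le, Real.norm_of_nonneg (cc_pos θ _).le, cc_succ,
      mul_div_cancel_left₀ _ (cc_pos θ n).ne']
  simp only [h1]
  have h2 : (2 : ℝ) ^ (-θ) < 1 := Real.rpow_lt_one_of_one_lt_of_neg (by norm_num) (by linarith)
  have h3 : Filter.Tendsto (fun n : ℕ => ((2 : ℝ) ^ (-θ)) ^ (n + 3)) Filter.atTop (nhds 0) :=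
    (Filter.tendsto_add_atTop_iff_nat 3).2
      (tendsto_pow_atTop_nhds_zero_of_lt_one (by positivity) h2)
  have h4 := h3.const_mul 8
  rwa [mul_zero] at h4

theorem nrm_le (p : Seminorm ℝ (Eu N)) : ∃ C, 0 ≤ C ∧ ∀ h : L2 N, nrm p h ≤ C * ‖h‖ := by
  obtain ⟨C, hC, hb⟩ := Pool.Agent.Work.MP_c13439_pq_h57.semi_bound p
  refine ⟨C, hC, fun h => ?_⟩
  rw [VNRM.nrm_eq]
  refine Lp.norm_le_mul_norm_of_ae_le_mul ?_
  filter_upwards [VNRM.uu_ae p h] with x hx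
  rw [hx, Real.norm_of_nonneg (apply_nonneg p _)]
  exact hb _

theorem ell_eq (p : Seminorm ℝ (Eu N)) (V : Eu N →L[ℝ] Eu N) (g : L2 N)
    (hg : g =ᵐ[gs N] fun x => V x) : ell p V = nrm p g := by
  unfold ell nrm
  congr 1
  refine integral_congr_ae ?_
  filter_upwards [hg] with x hx
  rw [hx]

theorem factor (n : ℕ) : (2 : ℝ) ^ (3 * n + 5) * (1 / 2 : ℝ) ^ (mm n) =
    2 ^ (2 * n + 3) * (1 / 2 : ℝ) ^ ((n + 1) * (n + 2) / 2) := by
  unfold mm
  have h1 : (2 : ℝ) ^ (3 * n + 5) = 2 ^ (2 * n + 3) * 2 ^ (n + 2) := by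
    rw [← pow_add]
    ring_nf
  rw [h1, pow_add (1 / 2 : ℝ) (n + 2)]
  have h2 : (2 : ℝ) ^ (n + 2) * (1 / 2) ^ (n + 2) = 1 := by
    rw [← mul_pow]
    norm_num
  calc (2 : ℝ) ^ (2 * n + 3) * 2 ^ (n + 2) *
      ((1 / 2) ^ (n + 2) * (1 / 2) ^ ((n + 1) * (n + 2) / 2))
      = (2 : ℝ) ^ (2 * n + 3) * (2 ^ (n + 2) * (1 / 2) ^ (n + 2)) *
        (1 / 2) ^ ((n + 1) * (n + 2) / 2) := by ring
    _ = _ := by rw [h2, mul_one]

end KSUM

open KSUM in
/-- KSUM -/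
theorem stmt_KSUM (h0 : Stmt_MEH) (h1 : Stmt_VNRM) (h2 : Stmt_VHIL) (h3 : Stmt_KPOL) :
    Stmt_KSUM := by
  intro θ hθ0 hθ1
  have hs := summable_cc hθ0
  have hs0 : 0 ≤ ∑' n, cc θ n := tsum_nonneg fun n => (cc_pos θ n).le
  refine ⟨4 + ∑' n, cc θ n, by linarith, ?_⟩
  intro N X H Z hH hZ f hf V hV
  obtain ⟨T, hT, hsym⟩ := h0 N
  have hf0 : 0 ≤ nrm Z.p f := VNRM.nrm_nonneg _ _
  -- the differences
  have hd : ∀ n : ℕ, nrm Z.p (aeval T (vpoly (n + 1) - vpoly n) f) ≤ cc θ n * nrm Z.p f := by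
    intro n
    refine h3 N θ hθ0 hθ1 X H Z hZ (aeval T (vpoly (n + 1) - vpoly n)) (2 ^ (3 * n + 5)) (mm n)
      (by positivity) (fun f' => (h1 N T hT X.p f').2 n) (fun f' => ?_) f hf
    rw [factor]
    exact (h2 N T hT hsym).1 H hH f' n
  -- the finite sums
  have hp : ∀ n : ℕ, nrm Z.p (aeval T (vpoly n) f) ≤
      (4 + ∑ k ∈ Finset.range n, cc θ k) * nrm Z.p f := by
    intro n
    induction n with
    | zero =>
      rw [Finset.range_zero, Finset.sum_empty, add_zero]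
      exact (h1 N T hT Z.p f).1
    | succ n ih =>
      have e1 : aeval T (vpoly (n + 1)) f
          = aeval T (vpoly n) f + aeval T (vpoly (n + 1) - vpoly n) f := by
        rw [map_sub]
        show _ = aeval T (vpoly n) f + (aeval T (vpoly (n + 1)) f - aeval T (vpoly n) f)
        abel
      rw [e1, Finset.sum_range_succ]
      refine (VNRM.nrm_add _ _ _).trans ((add_le_add ih (hd n)).trans (le_of_eq ?_))
      ring
  have hp' : ∀ n : ℕ, nrm Z.p (aeval T (vpoly n) f) ≤ (4 + ∑' k, cc θ k) * nrm Z.p f := by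
    intro n
    refine (hp n).trans (mul_le_mul_of_nonneg_right ?_ hf0)
    have := hs.sum_le_tsum (Finset.range n) (fun k _ => (cc_pos θ k).le)
    linarith
  -- the limit
  have hVm : MemLp (fun x => V x) 2 (gs N) := by
    have h : MemLp (id : Eu N → Eu N) 2 (gs N) := IsGaussian.memLp_two_id
    exact V.comp_memLp' h
  have hg : hVm.toLp (fun x => V x) =ᵐ[gs N] fun x => V x := MemLp.coeFn_toLp _
  have hlim := (h2 N T hT hsym).2 f (hVm.toLp (fun x => V x)) V hV hg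
  rw [ell_eq Z.p V _ hg]
  obtain ⟨C, hC, hb⟩ := nrm_le Z.p
  generalize hVm.toLp (fun x => V x) = g at hlim
  have k1 : ∀ n : ℕ, nrm Z.p g ≤ (4 + ∑' k, cc θ k) * nrm Z.p f +
      C * ‖g - aeval T (vpoly n) f‖ := by
    intro n
    have e1 : g = aeval T (vpoly n) f + (g - aeval T (vpoly n) f) := by abel
    have e2 : nrm Z.p g ≤ nrm Z.p (aeval T (vpoly n) f) + nrm Z.p (g - aeval T (vpoly n) f) := by
      conv_lhs => rw [e1]
      exact VNRM.nrm_add _ _ _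
    exact e2.trans (add_le_add (hp' n) (hb _))
  have k2 : Filter.Tendsto (fun n : ℕ => (4 + ∑' k, cc θ k) * nrm Z.p f +
      C * ‖g - aeval T (vpoly n) f‖) Filter.atTop
      (nhds ((4 + ∑' k, cc θ k) * nrm Z.p f + C * ‖g - g‖)) :=
    ((hlim.const_sub g).norm.const_mul C).const_add _
  rw [sub_self, norm_zero, mul_zero, add_zero] at k2
  exact ge_of_tendsto' k2 k1

end Pool.PQ
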