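import Pool.Agent.Work.MP_c13439_pq.Boot

/-!
# MP_c13439_an, block LAYA (helper41)

Pure analysis: the entropy numbers of `T`.
-/

namespace Pool.PQ

namespace LAYA

/-- the potential function: `∑_{j<J} 2^(-pj) min(1, 2^j x)^q ≤ C x^p` -/
theorem level_sum (p q : ℝ) (hp : 0 < p) (hq : p < q) :
    ∃ C : ℝ, 0 ≤ C ∧ ∀ (J : ℕ) (x : ℝ), 0 ≤ x →
      ∑ j ∈ Finset.range J, (2 : ℝ) ^ (-(p * j)) * min 1 (2 ^ j * x) ^ q ≤ C * x ^ p := by
  have h2p : (1 : ℝ) < 2 ^ p := Real.one_lt_rpow one_lt_two hp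
  have h2n : (2 : ℝ) ^ (-p) < 1 := Real.rpow_lt_one_of_one_lt_of_neg one_lt_two (by linarith)
  have h2n0 : (0 : ℝ) < 2 ^ (-p) := by positivity
  have h2q : (1 : ℝ) < 2 ^ (q - p) := Real.one_lt_rpow one_lt_two (by linarith)
  obtain ⟨E, hE⟩ : ∃ E : ℝ, E = 1 / (1 - 2 ^ (-p)) := ⟨_, rfl⟩
  have hE0 : 0 < E := by rw [hE]; exact one_div_pos.2 (by linarith)
  have hE1 : 1 + 2 ^ (-p) * E = E := by
    have h : (1 - (2 : ℝ) ^ (-p)) * E = 1 := by
      rw [hE]; exact mul_one_div_cancel (by linarith)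
    linarith
  obtain ⟨D, hD⟩ : ∃ D : ℝ, D = 1 / (2 ^ (q - p) - 1) := ⟨_, rfl⟩
  have hD0 : 0 < D := by rw [hD]; exact one_div_pos.2 (by linarith)
  have hD1 : D * 2 ^ (q - p) = D + 1 := by
    have h : ((2 : ℝ) ^ (q - p) - 1) * D = 1 := by
      rw [hD]; exact mul_one_div_cancel (by linarith)
    linarith
  obtain ⟨C, hC⟩ : ∃ C : ℝ, C = 2 ^ p * (1 + D + E) := ⟨_, rfl⟩
  have hC0 : 0 < C := by rw [hC]; positivity
  have hC1 : 1 + D + E ≤ C := by
    rw [hC]
    have : 0 < 1 + D + E := by positivity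
    nlinarith
  refine ⟨C, hC0.le, ?_⟩
  -- the potential
  have key : ∀ (J : ℕ) (x : ℝ), 0 < x →
      (x ≤ 1 → ∑ j ∈ Finset.range J, (2 : ℝ) ^ (-(p * j)) * min 1 (2 ^ j * x) ^ q ≤
        C * x ^ p - D * x ^ q) ∧
      (1 < x → ∑ j ∈ Finset.range J, (2 : ℝ) ^ (-(p * j)) * min 1 (2 ^ j * x) ^ q ≤ E) := by
    intro J
    induction J with
    | zero =>
      intro x hx
      simp only [Finset.range_zero, Finset.sum_empty]
      refine ⟨fun hx1 => ?_, fun _ => hE0.le⟩
      have h1 : x ^ q ≤ x ^ p := Real.rpow_le_rpow_of_exponent_ge hx hx1 hq.le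
      have h2 : 0 < x ^ p := by positivity
      have h3 : 0 < x ^ q := by positivity
      have h4 : D ≤ C := by linarith
      nlinarith
    | succ J ih =>
      intro x hx
      have hsplit : ∑ j ∈ Finset.range (J + 1), (2 : ℝ) ^ (-(p * j)) * min 1 (2 ^ j * x) ^ q =
          min 1 x ^ q + 2 ^ (-p) * ∑ j ∈ Finset.range J,
            (2 : ℝ) ^ (-(p * j)) * min 1 (2 ^ j * (2 * x)) ^ q := by
        rw [Finset.sum_range_succ']
        rw [add_comm, Finset.mul_sum]
        congr 1
        · simp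
        · refine Finset.sum_congr rfl fun j _ => ?_
          rw [← mul_assoc, ← Real.rpow_add two_pos]
          congr 2
          · push_cast
            ring
          · congr 1
            rw [pow_succ]
            ring
      rw [hsplit]
      obtain ⟨ih1, ih2⟩ := ih (2 * x) (by positivity)
      refine ⟨fun hx1 => ?_, fun hx1 => ?_⟩
      · rw [min_eq_right hx1]
        rcases le_or_gt (2 * x) 1 with h | h
        · have h5 := ih1 h
          have e1 : (2 * x) ^ p = 2 ^ p * x ^ p := Real.mul_rpow two_pos.le hx.le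
          have e2 : (2 * x) ^ q = 2 ^ q * x ^ q := Real.mul_rpow two_pos.le hx.le
          have e3 : (2 : ℝ) ^ (-p) * 2 ^ p = 1 := by
            rw [← Real.rpow_add two_pos]; simp
          have e4 : (2 : ℝ) ^ (-p) * 2 ^ q = 2 ^ (q - p) := by
            rw [← Real.rpow_add two_pos]; congr 1; ring
          have h6 : (2 : ℝ) ^ (-p) * ∑ j ∈ Finset.range J,
              (2 : ℝ) ^ (-(p * j)) * min 1 (2 ^ j * (2 * x)) ^ q ≤
              2 ^ (-p) * (C * (2 * x) ^ p - D * (2 * x) ^ q) := by gcongr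
          have h7 : (2 : ℝ) ^ (-p) * (C * (2 * x) ^ p - D * (2 * x) ^ q) =
              C * x ^ p - (D * 2 ^ (q - p)) * x ^ q := by
            rw [e1, e2]
            calc (2 : ℝ) ^ (-p) * (C * (2 ^ p * x ^ p) - D * (2 ^ q * x ^ q)) =
                  C * ((2 : ℝ) ^ (-p) * 2 ^ p) * x ^ p -
                    D * ((2 : ℝ) ^ (-p) * 2 ^ q) * x ^ q := by ring
              _ = _ := by rw [e3, e4]; ring
          rw [h7, hD1] at h6
          linarith
        · have h5 := ih2 h
          have h6 : (2 : ℝ) ^ (-p) * ∑ j ∈ Finset.range J,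
              (2 : ℝ) ^ (-(p * j)) * min 1 (2 ^ j * (2 * x)) ^ q ≤ 2 ^ (-p) * E := by gcongr
          have h8 : x ^ q ≤ 1 := Real.rpow_le_one hx.le hx1 (by linarith)
          have h9 : (1 : ℝ) ≤ 2 ^ p * x ^ p := by
            rw [← Real.mul_rpow two_pos.le hx.le]
            exact Real.one_le_rpow h.le hp.le
          have h10 : 1 + D + E ≤ C * x ^ p := by
            rw [hC]
            have : 0 < 1 + D + E := by positivity
            nlinarith
          have h11 : (2 : ℝ) ^ (-p) * E ≤ E := by nlinarith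
          have h12 : 0 < x ^ q := by positivity
          nlinarith
      · rw [min_eq_left hx1.le, Real.one_rpow]
        have h5 := ih2 (by linarith)
        have h6 : (2 : ℝ) ^ (-p) * ∑ j ∈ Finset.range J,
            (2 : ℝ) ^ (-(p * j)) * min 1 (2 ^ j * (2 * x)) ^ q ≤ 2 ^ (-p) * E := by gcongr
        linarith
  intro J x hx
  rcases hx.eq_or_lt with h | h
  · have hq0 : q ≠ 0 := by linarith
    have hp0 : p ≠ 0 := hp.ne'
    rw [← h]
    simp [Real.zero_rpow hq0, Real.zero_rpow hp0]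
  · obtain ⟨k1, k2⟩ := key J x h
    rcases le_or_gt x 1 with h1 | h1
    · have h3 : 0 < x ^ q := by positivity
      have := k1 h1
      nlinarith
    · have h3 : (1 : ℝ) ≤ x ^ p := Real.one_le_rpow h1.le hp.le
      have := k2 h1
      nlinarith

end LAYA

open LAYA in
/-- LAYA -/
theorem stmt_LAYA : Stmt_LAYA := by
  intro p q hp hq e c hc he0 hanti hsum
  have hq0 : 0 < q := by linarith
  obtain ⟨C, hC0, hC⟩ := level_sum p q hp hq
  -- the terms
  have hterm : ∀ j l : ℕ, 0 ≤ min 1 ((2 : ℝ) ^ (j + 1) * c * e l) := by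
    intro j l
    have := he0 l
    positivity
  have hle : ∀ j l : ℕ, min 1 ((2 : ℝ) ^ (j + 1) * c * e l) ^ q ≤
      (2 ^ (j + 1) * c) ^ p * e l ^ p := by
    intro j l
    have h0 := hterm j l
    have h1 : min 1 ((2 : ℝ) ^ (j + 1) * c * e l) ≤ 1 := min_le_left _ _
    have h2 : min 1 ((2 : ℝ) ^ (j + 1) * c * e l) ^ q ≤
        min 1 ((2 : ℝ) ^ (j + 1) * c * e l) ^ p := by
      rcases h0.eq_or_lt with h | h
      · rw [← h, Real.zero_rpow hq0.ne', Real.zero_rpow hp.ne']
      · exact Real.rpow_le_rpow_of_exponent_ge h h1 hq.le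
    refine h2.trans ?_
    rw [← Real.mul_rpow (by positivity) (he0 l)]
    exact Real.rpow_le_rpow h0 (min_le_right _ _) hp.le
  have hsumj : ∀ j : ℕ, Summable fun l => min 1 ((2 : ℝ) ^ (j + 1) * c * e l) ^ q := by
    intro j
    refine Summable.of_nonneg_of_le (fun l => ?_) (hle j) (hsum.mul_left _)
    exact Real.rpow_nonneg (hterm j l) q
  refine ⟨fun j => 1 + ∑' l, min 1 ((2 : ℝ) ^ (j + 1) * c * e l) ^ q, ?_, ?_, ?_⟩
  · intro j
    have : 0 ≤ ∑' l, min 1 ((2 : ℝ) ^ (j + 1) * c * e l) ^ q :=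
      tsum_nonneg fun l => Real.rpow_nonneg (hterm j l) q
    show (1 : ℝ) ≤ 1 + ∑' l, min 1 ((2 : ℝ) ^ (j + 1) * c * e l) ^ q
    linarith
  · intro j k
    have h1 : ((k : ℝ) + 1) * min 1 ((2 : ℝ) ^ (j + 1) * c * e k) ^ q ≤
        ∑ l ∈ Finset.range (k + 1), min 1 ((2 : ℝ) ^ (j + 1) * c * e l) ^ q := by
      have h2 : ∀ l ∈ Finset.range (k + 1), min 1 ((2 : ℝ) ^ (j + 1) * c * e k) ^ q ≤
          min 1 ((2 : ℝ) ^ (j + 1) * c * e l) ^ q := by
        intro l hl
        have h3 : e k ≤ e l := hanti (Nat.lt_succ_iff.1 (Finset.mem_range.1 hl))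
        refine Real.rpow_le_rpow (hterm j k) ?_ hq0.le
        exact min_le_min le_rfl (by gcongr)
      have h4 := Finset.sum_le_sum h2
      rw [Finset.sum_const, Finset.card_range, nsmul_eq_mul] at h4
      push_cast at h4
      exact h4
    have h5 : ∑ l ∈ Finset.range (k + 1), min 1 ((2 : ℝ) ^ (j + 1) * c * e l) ^ q ≤
        ∑' l, min 1 ((2 : ℝ) ^ (j + 1) * c * e l) ^ q :=
      (hsumj j).sum_le_tsum _ fun l _ => Real.rpow_nonneg (hterm j l) q
    show _ ≤ 1 + ∑' l, min 1 ((2 : ℝ) ^ (j + 1) * c * e l) ^ q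
    linarith
  · -- summability over the levels
    have hgeo : Summable fun j : ℕ => (2 : ℝ) ^ (-(p * j)) := by
      have h1 : Summable fun j : ℕ => ((2 : ℝ) ^ (-p)) ^ j :=
        summable_geometric_of_lt_one (by positivity)
          (Real.rpow_lt_one_of_one_lt_of_neg one_lt_two (by linarith))
      refine h1.congr fun j => ?_
      rw [← Real.rpow_natCast, ← Real.rpow_mul two_pos.le]
      congr 1
      ring
    have hmain : Summable fun j : ℕ => (2 : ℝ) ^ (-(p * j)) *
        ∑' l, min 1 ((2 : ℝ) ^ (j + 1) * c * e l) ^ q := by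
      refine summable_of_sum_range_le (c := ∑' l, C * (2 * c * e l) ^ p) (fun j => ?_) fun J => ?_
      · have : 0 ≤ ∑' l, min 1 ((2 : ℝ) ^ (j + 1) * c * e l) ^ q :=
          tsum_nonneg fun l => Real.rpow_nonneg (hterm j l) q
        positivity
      · have h1 : ∀ j ∈ Finset.range J, Summable fun l =>
            (2 : ℝ) ^ (-(p * j)) * min 1 ((2 : ℝ) ^ (j + 1) * c * e l) ^ q :=
          fun j _ => (hsumj j).mul_left _
        have h2 : ∑ j ∈ Finset.range J, (2 : ℝ) ^ (-(p * j)) *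
            ∑' l, min 1 ((2 : ℝ) ^ (j + 1) * c * e l) ^ q =
            ∑' l, ∑ j ∈ Finset.range J,
              (2 : ℝ) ^ (-(p * j)) * min 1 ((2 : ℝ) ^ (j + 1) * c * e l) ^ q := by
          rw [Summable.tsum_finsetSum h1]
          refine Finset.sum_congr rfl fun j _ => ?_
          rw [tsum_mul_left]
        rw [h2]
        have h3 : Summable fun l => C * (2 * c * e l) ^ p := by
          have h4 : Summable fun l => C * ((2 * c) ^ p * e l ^ p) :=
            (hsum.mul_left _).mul_left _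
          refine h4.congr fun l => ?_
          rw [← Real.mul_rpow (by positivity) (he0 l)]
        refine Summable.tsum_le_tsum (fun l => ?_) (summable_sum h1) h3
        have h5 := hC J (2 * c * e l) (by have := he0 l; positivity)
        refine le_trans (le_of_eq ?_) h5
        refine Finset.sum_congr rfl fun j _ => ?_
        congr 3
        rw [pow_succ]
        ring
    refine (hgeo.add hmain).congr fun j => ?_
    ring

end Pool.PQ
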