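import Pool.Agent.Work.MP_c13439_pq.Interp

/-!
# Block SRC (helper93): entropy numbers with interpolated source
-/

open MeasureTheory ProbabilityTheory Polynomial
open scoped RealInnerProductSpace

namespace Pool.PQ

theorem stmt_SRC (h1 : Stmt_ENT) : Stmt_SRC := by
  intro θ C hθ0 hθ1 hC N X H Z V hB k l
  have hE0 : 0 ≤ ent X.p V.p k := ((h1 N X V).2.2.1 k).1
  have hF0 : 0 ≤ ent H.p V.p l := ((h1 N H V).2.2.1 l).1
  -- the estimate with larger numbers
  have key : ∀ e f : ℝ, ent X.p V.p k < e → ent H.p V.p l < f →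
      ent Z.p V.p (k + l) ≤ 2 * C * (e ^ (1 - θ) * f ^ θ) := by
    intro e f he hf
    have he0 : 0 < e := lt_of_le_of_lt hE0 he
    have hf0 : 0 < f := lt_of_le_of_lt hF0 hf
    obtain ⟨w1, hw1⟩ := (h1 N X V).1 k e he
    obtain ⟨w2, hw2⟩ := (h1 N H V).1 l f hf
    set t := f / e with ht
    have ht0 : 0 < t := div_pos hf0 he0
    set a := C * t ^ θ with ha
    set b := C * t ^ (θ - 1) with hb
    have hC0 : 0 < C := by linarith
    have ha0 : 0 < a := mul_pos hC0 (Real.rpow_pos_of_pos ht0 _)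
    have hb0 : 0 < b := mul_pos hC0 (Real.rpow_pos_of_pos ht0 _)
    have hae : a * e = C * (e ^ (1 - θ) * f ^ θ) := by
      rw [ha, ht, Real.div_rpow hf0.le he0.le, Real.rpow_sub he0, Real.rpow_one]
      have := (Real.rpow_pos_of_pos he0 θ).ne'
      field_simp
    have hbf : b * f = C * (e ^ (1 - θ) * f ^ θ) := by
      rw [hb, ht, Real.div_rpow hf0.le he0.le, Real.rpow_sub he0, Real.rpow_sub hf0,
        Real.rpow_sub he0, Real.rpow_one, Real.rpow_one]
      have := (Real.rpow_pos_of_pos he0 θ).ne'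
      field_simp
    apply (h1 N Z V).2.1 (k + l)
    · have : 0 ≤ e ^ (1 - θ) * f ^ θ :=
        mul_nonneg (Real.rpow_nonneg he0.le _) (Real.rpow_nonneg hf0.le _)
      positivity
    · have hcard : 2 ^ (k + l) = 2 ^ k * 2 ^ l := pow_add 2 k l
      let eqv : Fin (2 ^ (k + l)) ≃ Fin (2 ^ k) × Fin (2 ^ l) :=
        (finCongr hcard).trans finProdFinEquiv.symm
      refine ⟨fun m => a • w1 (eqv m).1 + b • w2 (eqv m).2, ?_⟩
      intro z hz
      obtain ⟨x, hx1, hx2⟩ := hB.dec t ht0 z
      have hZ0 : 0 ≤ Z.p z := apply_nonneg _ _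
      have hx1' : X.p x ≤ a := by
        refine hx1.trans ?_
        rw [ha]
        apply mul_le_mul_of_nonneg_left _ hC0.le
        have := Real.rpow_nonneg ht0.le θ
        nlinarith
      have hx2' : H.p (z - x) ≤ b := by
        refine hx2.trans ?_
        rw [hb]
        apply mul_le_mul_of_nonneg_left _ hC0.le
        have := Real.rpow_nonneg ht0.le (θ - 1)
        nlinarith
      obtain ⟨i, hi⟩ := hw1 (a⁻¹ • x) (by
        rw [map_smul_eq_mul, norm_inv, Real.norm_of_nonneg ha0.le, inv_mul_le_iff₀ ha0, mul_one]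
        exact hx1')
      obtain ⟨j, hj⟩ := hw2 (b⁻¹ • (z - x)) (by
        rw [map_smul_eq_mul, norm_inv, Real.norm_of_nonneg hb0.le, inv_mul_le_iff₀ hb0, mul_one]
        exact hx2')
      have h1' : V.p (x - a • w1 i) ≤ a * e := by
        have : x - a • w1 i = a • (a⁻¹ • x - w1 i) := by
          rw [smul_sub, smul_inv_smul₀ ha0.ne']
        rw [this, map_smul_eq_mul, Real.norm_of_nonneg ha0.le]
        exact mul_le_mul_of_nonneg_left hi ha0.le
      have h2' : V.p ((z - x) - b • w2 j) ≤ b * f := by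
        have : (z - x) - b • w2 j = b • (b⁻¹ • (z - x) - w2 j) := by
          rw [smul_sub b, smul_inv_smul₀ hb0.ne']
        rw [this, map_smul_eq_mul, Real.norm_of_nonneg hb0.le]
        exact mul_le_mul_of_nonneg_left hj hb0.le
      refine ⟨eqv.symm (i, j), ?_⟩
      simp only [Equiv.apply_symm_apply]
      have hsum : z - (a • w1 i + b • w2 j) = (x - a • w1 i) + ((z - x) - b • w2 j) := by abel
      rw [hsum]
      refine (map_add_le_add V.p _ _).trans ?_
      calc V.p (x - a • w1 i) + V.p ((z - x) - b • w2 j) ≤ a * e + b * f := add_le_add h1' h2'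
        _ = 2 * C * (e ^ (1 - θ) * f ^ θ) := by rw [hae, hbf]; ring
  -- the limit
  set E := ent X.p V.p k with hE
  set F := ent H.p V.p l with hF
  have hu : Filter.Tendsto (fun n : ℕ => E + 1 / ((n : ℝ) + 1)) Filter.atTop (nhds E) := by
    simpa using tendsto_const_nhds.add (tendsto_one_div_add_atTop_nhds_zero_nat (𝕜 := ℝ))
  have hv : Filter.Tendsto (fun n : ℕ => F + 1 / ((n : ℝ) + 1)) Filter.atTop (nhds F) := by
    simpa using tendsto_const_nhds.add (tendsto_one_div_add_atTop_nhds_zero_nat (𝕜 := ℝ))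
  have hlim : Filter.Tendsto (fun n : ℕ => 2 * C * ((E + 1 / ((n : ℝ) + 1)) ^ (1 - θ) *
      (F + 1 / ((n : ℝ) + 1)) ^ θ)) Filter.atTop (nhds (2 * C * (E ^ (1 - θ) * F ^ θ))) :=
    ((hu.rpow_const (Or.inr (by linarith))).mul (hv.rpow_const (Or.inr hθ0.le))).const_mul _
  refine ge_of_tendsto' hlim ?_
  intro n
  have hn : (0 : ℝ) < 1 / ((n : ℝ) + 1) := by positivity
  exact key _ _ (by linarith) (by linarith)

end Pool.PQ
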